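import Mathlib

section
set_option linter.all false

/-!
# Inner derivations and zero divisors
-/

noncomputable section

open scoped BigOperators

namespace MPcc24

section Ad

variable (k : Type*) {S : Type*} [Field k] [Ring S] [Algebra k S]

/-- the inner derivation of `g` -/
def adl (g : S) : S →ₗ[k] S := LinearMap.mulLeft k g - LinearMap.mulRight k g

variable {k}

theorem adl_apply (g x : S) : adl k g x = g * x - x * g := rfl

theorem adl_mul (g x y : S) : adl k g (x * y) = adl k g x * y + x * adl k g y := by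
  simp only [adl_apply]; noncomm_ring

theorem adl_adl (g h x : S) :
    adl k g (adl k h x) = adl k (g * h - h * g) x + adl k h (adl k g x) := by
  simp only [adl_apply]; noncomm_ring

theorem adl_self (g : S) : adl k g g = 0 := by simp [adl_apply]

theorem adl_eq_zero {g x : S} : adl k g x = 0 ↔ g * x = x * g := by
  rw [adl_apply, sub_eq_zero]

theorem adl_one (g : S) : adl k g 1 = 0 := by simp [adl_apply]

theorem adl_pow_mono {g x : S} {m l : ℕ} (h : m ≤ l) (hx : (adl k g ^ m) x = 0) :
    (adl k g ^ l) x = 0 := by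
  obtain ⟨c, rfl⟩ := Nat.exists_eq_add_of_le' h
  rw [pow_add, Module.End.mul_apply, hx, map_zero]

theorem adl_pow_succ (g x : S) (m : ℕ) : (adl k g ^ (m + 1)) x = (adl k g ^ m) (adl k g x) := by
  rw [pow_succ, Module.End.mul_apply]

theorem adl_pow_mul (g : S) : ∀ (N m l : ℕ), m + l = N → ∀ x y : S, (adl k g ^ m) x = 0 →
    (adl k g ^ l) y = 0 → (adl k g ^ N) (x * y) = 0 := by
  intro N
  induction N with
  | zero =>
    intro m l h x y hx hy
    have : m = 0 := by omega
    subst this
    have hx' : x = 0 := by simpa using hx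
    simp [hx']
  | succ N ih =>
    intro m l h x y hx hy
    rcases m with _ | m
    · have hx' : x = 0 := by simpa using hx
      simp [hx']
    rcases l with _ | l
    · have hy' : y = 0 := by simpa using hy
      simp [hy']
    rw [adl_pow_succ, adl_mul, map_add,
      ih m (l + 1) (by omega) _ _ (by rw [← adl_pow_succ]; exact hx) hy,
      ih (m + 1) l (by omega) _ _ hx (by rw [← adl_pow_succ]; exact hy), add_zero]

variable (k) in
/-- the elements on which the inner derivation of `g` is nilpotent -/
def LN (g : S) : Subalgebra k S where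
  carrier := {x | ∃ m : ℕ, (adl k g ^ m) x = 0}
  mul_mem' := by
    rintro x y ⟨m, hm⟩ ⟨l, hl⟩
    exact ⟨m + l, adl_pow_mul g _ m l rfl x y hm hl⟩
  one_mem' := ⟨1, by simp [adl_one]⟩
  add_mem' := by
    rintro x y ⟨m, hm⟩ ⟨l, hl⟩
    refine ⟨max m l, ?_⟩
    rw [map_add, adl_pow_mono (le_max_left _ _) hm, adl_pow_mono (le_max_right _ _) hl, add_zero]
  zero_mem' := ⟨0, by simp⟩
  algebraMap_mem' := by
    intro c
    refine ⟨1, ?_⟩
    rw [pow_one, adl_eq_zero]
    exact (Algebra.commutes c g).symm

theorem mem_LN {g x : S} : x ∈ LN k g ↔ ∃ m : ℕ, (adl k g ^ m) x = 0 := Iff.rfl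

theorem LN_of_comm {g x : S} (h : g * x = x * g) : x ∈ LN k g :=
  ⟨1, by rw [pow_one, adl_eq_zero]; exact h⟩

theorem LN_of_adl {g x : S} (h : adl k g x ∈ LN k g) : x ∈ LN k g := by
  obtain ⟨m, hm⟩ := h
  exact ⟨m + 1, by rw [adl_pow_succ]; exact hm⟩

/-- top terms of the Leibniz formula -/
theorem adl_pow_top (g : S) : ∀ (N a b : ℕ), a + b = N → ∀ x y : S, (adl k g ^ (a + 1)) x = 0 →
    (adl k g ^ (b + 1)) y = 0 →
    (adl k g ^ N) (x * y) = (N.choose a) • ((adl k g ^ a) x * (adl k g ^ b) y) := by
  intro N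
  induction N with
  | zero =>
    intro a b h x y hx hy
    have h1 : a = 0 := by omega
    have h2 : b = 0 := by omega
    subst h1 h2
    simp
  | succ N ih =>
    intro a b h x y hx hy
    rw [adl_pow_succ, adl_mul, map_add]
    rcases a with _ | a
    · rcases b with _ | b
      · omega
      have h1 : adl k g x = 0 := by simpa using hx
      rw [h1, zero_mul, map_zero, zero_add,
        ih 0 b (by omega) x (adl k g y) hx (by rw [← adl_pow_succ]; exact hy), ← adl_pow_succ]
      simp
    · rcases b with _ | b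
      · have h1 : adl k g y = 0 := by simpa using hy
        rw [h1, mul_zero, map_zero, add_zero,
          ih a 0 (by omega) (adl k g x) y (by rw [← adl_pow_succ]; exact hx) hy, ← adl_pow_succ]
        have h2 : N = a := by omega
        subst h2
        simp
      · rw [ih a (b + 1) (by omega) (adl k g x) y (by rw [← adl_pow_succ]; exact hx) hy,
          ih (a + 1) b (by omega) x (adl k g y) hx (by rw [← adl_pow_succ]; exact hy),
          ← adl_pow_succ, ← adl_pow_succ, ← add_smul, Nat.choose_succ_succ]

/-- a set containing two nonzero elements with zero product -/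
def Bad (C : Set S) : Prop := ∃ x ∈ C, ∃ y ∈ C, x ≠ 0 ∧ y ≠ 0 ∧ x * y = 0

theorem Bad.mono {C C' : Set S} (h : C ⊆ C') (hb : Bad C) : Bad C' := by
  obtain ⟨x, hx, y, hy, h1⟩ := hb
  exact ⟨x, h hx, y, h hy, h1⟩

theorem exists_last (g : S) (C : Set S) (hC : ∀ x ∈ C, adl k g x ∈ C) (x : S) (hx : x ∈ C)
    (hx0 : x ≠ 0) (hn : ∃ m : ℕ, (adl k g ^ m) x = 0) :
    ∃ a : ℕ, (adl k g ^ (a + 1)) x = 0 ∧ (adl k g ^ a) x ≠ 0 ∧ (adl k g ^ a) x ∈ C := by
  classical
  have hmem : ∀ a : ℕ, (adl k g ^ a) x ∈ C := by
    intro a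
    induction a with
    | zero => simpa using hx
    | succ a ih =>
      rw [pow_succ', Module.End.mul_apply]
      exact hC _ ih
  have h0 : Nat.find hn ≠ 0 := by
    intro h
    have := Nat.find_spec hn
    rw [h] at this
    exact hx0 (by simpa using this)
  obtain ⟨a, ha⟩ := Nat.exists_eq_succ_of_ne_zero h0
  refine ⟨a, ?_, ?_, hmem a⟩
  · have := Nat.find_spec hn
    rw [ha] at this
    exact this
  · exact Nat.find_min hn (by omega)

theorem nsmul_eq_zero' (k : Type*) {S : Type*} [Field k] [Ring S] [Algebra k S] [CharZero k]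
    {c : ℕ} (hc : c ≠ 0) {x : S} (h : c • x = 0) : x = 0 := by
  have h1 : (c : k) • x = 0 := by rw [Nat.cast_smul_eq_nsmul]; exact h
  have h2 : (c : k) ≠ 0 := Nat.cast_ne_zero.2 hc
  have := congrArg (fun z => (c : k)⁻¹ • z) h1
  simpa [smul_smul, inv_mul_cancel₀ h2] using this

variable [CharZero k]

theorem Bad.step (g : S) (C : Set S) (hC : ∀ x ∈ C, adl k g x ∈ C)
    (hn : ∀ x ∈ C, x ∈ LN k g) (hb : Bad C) : Bad {x | x ∈ C ∧ adl k g x = 0} := by
  obtain ⟨x, hx, y, hy, hx0, hy0, hxy⟩ := hb
  obtain ⟨a, ha1, ha2, ha3⟩ := exists_last g C hC x hx hx0 (hn x hx)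
  obtain ⟨b, hb1, hb2, hb3⟩ := exists_last g C hC y hy hy0 (hn y hy)
  have h := adl_pow_top g (a + b) a b rfl x y ha1 hb1
  rw [hxy, map_zero] at h
  have h' := nsmul_eq_zero' k (Nat.choose_pos (Nat.le_add_right a b)).ne' h.symm
  refine ⟨_, ⟨ha3, ?_⟩, _, ⟨hb3, ?_⟩, ha2, hb2, h'⟩
  · rw [← Module.End.mul_apply, ← pow_succ']; exact ha1
  · rw [← Module.End.mul_apply, ← pow_succ']; exact hb1

theorem Bad.family {ι : Type*} (s : Finset ι) (g : ι → S) (C : Set S)
    (hC : ∀ i, ∀ x ∈ C, adl k (g i) x ∈ C)
    (hn : ∀ i, ∀ x ∈ C, x ∈ LN k (g i))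
    (hc : ∀ i j, ∀ x ∈ C, adl k (g i * g j - g j * g i) x = 0) (hb : Bad C) :
    Bad {x | x ∈ C ∧ ∀ i ∈ s, adl k (g i) x = 0} := by
  classical
  induction s using Finset.induction_on with
  | empty => exact hb.mono fun x hx => ⟨hx, by simp⟩
  | insert j s hj ih =>
    have h1 := Bad.step (k := k) (g j) {x | x ∈ C ∧ ∀ i ∈ s, adl k (g i) x = 0} (by
      rintro x ⟨hx, hx2⟩
      refine ⟨hC j x hx, fun i hi => ?_⟩
      rw [adl_adl, hc i j x hx, hx2 i hi, map_zero, add_zero]) (fun x hx => hn j x hx.1) ih
    refine h1.mono ?_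
    rintro x ⟨⟨hx, hx2⟩, hx3⟩
    refine ⟨hx, fun i hi => ?_⟩
    rcases Finset.mem_insert.1 hi with rfl | hi
    · exact hx3
    · exact hx2 i hi

/-! ### eigenvectors -/

variable (k) in
/-- the sum of the eigenspaces with natural eigenvalues -/
def EG (g : S) : Submodule k S := ⨆ l : ℕ, LinearMap.ker (adl k g - (l : k) • LinearMap.id)

omit [CharZero k] in
theorem mem_eig {g x : S} {l : ℕ} :
    x ∈ LinearMap.ker (adl k g - (l : k) • LinearMap.id) ↔ adl k g x = l • x := by
  rw [LinearMap.mem_ker, LinearMap.sub_apply, LinearMap.smul_apply, LinearMap.id_apply,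
    sub_eq_zero, Nat.cast_smul_eq_nsmul]

omit [CharZero k] in
theorem EG_of {g x : S} (l : ℕ) (h : adl k g x = l • x) : x ∈ EG k g :=
  Submodule.mem_iSup_of_mem l (mem_eig.2 h)

omit [CharZero k] in
theorem mem_EG {g x : S} (h : x ∈ EG k g) : ∃ f : ℕ →₀ S, (∀ l, adl k g (f l) = l • f l) ∧
    x = ∑ l ∈ f.support, f l := by
  obtain ⟨f, hf, hx⟩ := (Submodule.mem_iSup_iff_exists_finsupp _ _).1 h
  exact ⟨f, fun l => mem_eig.1 (hf l), by rw [← hx]; rfl⟩

omit [CharZero k] in
theorem eig_mul {g x y : S} {l m : ℕ} (hx : adl k g x = l • x) (hy : adl k g y = m • y) :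
    adl k g (x * y) = (l + m) • (x * y) := by
  rw [adl_mul, hx, hy, smul_mul_assoc, mul_smul_comm, add_smul]

variable (k) in
/-- the sum of the eigenspaces as a subalgebra -/
def EGA (g : S) : Subalgebra k S where
  carrier := EG k g
  mul_mem' := by
    intro x y hx hy
    obtain ⟨f, hf, rfl⟩ := mem_EG hx
    obtain ⟨f', hf', rfl⟩ := mem_EG hy
    rw [Finset.sum_mul_sum]
    exact Submodule.sum_mem _ fun i _ => Submodule.sum_mem _ fun j _ =>
      EG_of (i + j) (eig_mul (hf i) (hf' j))
  one_mem' := EG_of 0 (by simp [adl_one])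
  add_mem' := fun {x y} hx hy => (EG k g).add_mem hx hy
  zero_mem' := (EG k g).zero_mem
  algebraMap_mem' := by
    intro c
    refine EG_of 0 ?_
    rw [zero_smul, adl_eq_zero]
    exact (Algebra.commutes c g).symm

omit [CharZero k] in
theorem mem_EGA {g x : S} : x ∈ EGA k g ↔ x ∈ EG k g := Iff.rfl

variable (k) in
/-- the falling factorials of the inner derivation -/
def fal (g : S) : ℕ → S → S
  | 0, x => x
  | n + 1, x => adl k g (fal g n x) - n • fal g n x

omit [CharZero k] in
theorem fal_add (g x y : S) (n : ℕ) : fal k g n (x + y) = fal k g n x + fal k g n y := by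
  induction n with
  | zero => rfl
  | succ n ih => simp only [fal, ih, map_add, smul_add]; abel

omit [CharZero k] in
theorem fal_zero (g : S) (n : ℕ) : fal k g n 0 = 0 := by
  induction n with
  | zero => rfl
  | succ n ih => simp only [fal, ih, map_zero, smul_zero, sub_zero]

omit [CharZero k] in
theorem fal_sum {ι : Type*} (g : S) (s : Finset ι) (f : ι → S) (n : ℕ) :
    fal k g n (∑ i ∈ s, f i) = ∑ i ∈ s, fal k g n (f i) := by
  classical
  induction s using Finset.induction_on with
  | empty => simp [fal_zero]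
  | insert j s hj ih => rw [Finset.sum_insert hj, Finset.sum_insert hj, fal_add, ih]

omit [CharZero k] in
theorem fal_eig {g x : S} {l : ℕ} (h : adl k g x = l • x) (n : ℕ) :
    fal k g n x = (l.descFactorial n) • x := by
  induction n with
  | zero => simp [fal]
  | succ n ih =>
    rw [fal, ih, map_nsmul, h, Nat.descFactorial_succ]
    rcases le_or_gt n l with hl | hl
    · obtain ⟨c, rfl⟩ := Nat.exists_eq_add_of_le hl
      rw [Nat.add_sub_cancel_left, smul_smul, smul_smul, mul_comm ((n + c).descFactorial n) (n + c),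
        add_mul, add_smul, add_sub_cancel_left]
    · rw [Nat.descFactorial_of_lt hl]; simp

omit [CharZero k] in
theorem fal_mem (g : S) (C : Set S) (hC : ∀ x ∈ C, ∀ n : ℕ, adl k g x - n • x ∈ C) {x : S}
    (hx : x ∈ C) (n : ℕ) : fal k g n x ∈ C := by
  induction n with
  | zero => exact hx
  | succ n ih => exact hC _ ih n

theorem exists_top {g x : S} (hx : x ∈ EG k g) (hx0 : x ≠ 0) :
    ∃ (a : ℕ) (x' : S), x' ≠ 0 ∧ adl k g x' = a • x' ∧ fal k g a x = (a.factorial) • x' ∧
      ∃ f : ℕ → S, (∀ l, adl k g (f l) = l • f l) ∧ x = x' + ∑ l ∈ Finset.range a, f l := by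
  classical
  obtain ⟨f, hf, hfx⟩ := mem_EG hx
  have hne : f.support.Nonempty := by
    by_contra h
    rw [Finset.not_nonempty_iff_eq_empty] at h
    rw [h, Finset.sum_empty] at hfx
    exact hx0 hfx
  set a := f.support.max' hne with ha
  have ha1 : a ∈ f.support := Finset.max'_mem _ _
  have hsub : f.support ⊆ Finset.range (a + 1) := by
    intro l hl
    rw [Finset.mem_range]
    have := Finset.le_max' _ l hl
    omega
  have hfx' : x = ∑ l ∈ Finset.range (a + 1), f l := by
    rw [hfx]
    refine Finset.sum_subset hsub fun l _ hl => ?_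
    exact Finsupp.notMem_support_iff.1 hl
  rw [Finset.sum_range_succ, add_comm] at hfx'
  refine ⟨a, f a, Finsupp.mem_support_iff.1 ha1, hf a, ?_, f, hf, hfx'⟩
  rw [hfx', fal_add, fal_sum, fal_eig (hf a), Nat.descFactorial_self]
  rw [Finset.sum_eq_zero, add_zero]
  intro l hl
  rw [fal_eig (hf l), Nat.descFactorial_of_lt (Finset.mem_range.1 hl), zero_smul]

theorem Bad.stepE (g : S) (C : Set S) (hC : ∀ x ∈ C, ∀ n : ℕ, adl k g x - n • x ∈ C)
    (hs : ∀ x ∈ C, ∀ c : k, c • x ∈ C)
    (hn : ∀ x ∈ C, x ∈ EG k g) (hb : Bad C) : Bad {x | x ∈ C ∧ ∃ l : ℕ, adl k g x = l • x} := by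
  obtain ⟨x, hx, y, hy, hx0, hy0, hxy⟩ := hb
  obtain ⟨a, x', ha0, ha1, ha2, f, hf, hxf⟩ := exists_top (hn x hx) hx0
  obtain ⟨b, y', hb0, hb1, hb2, f', hf', hyf⟩ := exists_top (hn y hy) hy0
  have hmem : ∀ (z : S) (hz : z ∈ C) (a : ℕ) (z' : S), fal k g a z = (a.factorial) • z' →
      z' ∈ C := by
    intro z hz a z' h
    have h1 := hs _ (fal_mem (k := k) g C hC hz a) ((a.factorial : k)⁻¹)
    rw [h, ← Nat.cast_smul_eq_nsmul k, smul_smul, inv_mul_cancel₀, one_smul] at h1
    · exact h1
    · exact Nat.cast_ne_zero.2 (Nat.factorial_ne_zero a)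
  have hprod : x' * y' = 0 := by
    have h1 : fal k g (a + b) (x * y) = 0 := by rw [hxy, fal_zero]
    rw [hxf, hyf, add_mul, mul_add, Finset.mul_sum, Finset.sum_mul, fal_add, fal_add, fal_sum,
      fal_sum, fal_eig (eig_mul ha1 hb1), Nat.descFactorial_self,
      Finset.sum_eq_zero, add_zero, Finset.sum_eq_zero, add_zero] at h1
    · exact nsmul_eq_zero' k (Nat.factorial_ne_zero _) h1
    · intro l hl
      rw [mul_add, Finset.mul_sum, fal_add, fal_sum, fal_eig (eig_mul (hf l) hb1),
        Nat.descFactorial_of_lt (by have := Finset.mem_range.1 hl; omega), zero_smul, zero_add]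
      refine Finset.sum_eq_zero fun m hm => ?_
      rw [fal_eig (eig_mul (hf l) (hf' m)), Nat.descFactorial_of_lt (by
        have := Finset.mem_range.1 hl; have := Finset.mem_range.1 hm; omega), zero_smul]
    · intro l hl
      rw [fal_eig (eig_mul ha1 (hf' l)),
        Nat.descFactorial_of_lt (by have := Finset.mem_range.1 hl; omega), zero_smul]
  exact ⟨x', ⟨hmem x hx a x' ha2, a, ha1⟩, y', ⟨hmem y hy b y' hb2, b, hb1⟩, ha0, hb0, hprod⟩

theorem Bad.familyE {ι : Type*} (s : Finset ι) (g : ι → S) (C : Set S)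
    (hC : ∀ i, ∀ x ∈ C, ∀ n : ℕ, adl k (g i) x - n • x ∈ C)
    (hs : ∀ x ∈ C, ∀ c : k, c • x ∈ C)
    (hn : ∀ i, ∀ x ∈ C, x ∈ EG k (g i))
    (hc : ∀ i j, ∀ x ∈ C, adl k (g i * g j - g j * g i) x = 0) (hb : Bad C) :
    Bad {x | x ∈ C ∧ ∀ i ∈ s, ∃ l : ℕ, adl k (g i) x = l • x} := by
  classical
  induction s using Finset.induction_on with
  | empty => exact hb.mono fun x hx => ⟨hx, by simp⟩
  | insert j s hj ih =>
    have h1 := Bad.stepE (k := k) (g j) {x | x ∈ C ∧ ∀ i ∈ s, ∃ l : ℕ, adl k (g i) x = l • x} (by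
      rintro x ⟨hx, hx2⟩ n
      refine ⟨hC j x hx n, fun i hi => ?_⟩
      obtain ⟨l, hl⟩ := hx2 i hi
      refine ⟨l, ?_⟩
      rw [map_sub, adl_adl, hc i j x hx, map_nsmul, hl, map_nsmul, zero_add, smul_sub, smul_comm l n x])
      (by
        rintro x ⟨hx, hx2⟩ c
        refine ⟨hs x hx c, fun i hi => ?_⟩
        obtain ⟨l, hl⟩ := hx2 i hi
        exact ⟨l, by rw [map_smul, hl, smul_comm]⟩)
      (fun x hx => hn j x hx.1) ih
    refine h1.mono ?_
    rintro x ⟨⟨hx, hx2⟩, hx3⟩
    refine ⟨hx, fun i hi => ?_⟩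
    rcases Finset.mem_insert.1 hi with rfl | hi
    · exact hx3
    · exact hx2 i hi

end Ad

end MPcc24
end
end

section
set_option linter.all false

/-!
# Complete primeness of prime ideals of `U(W_{-1})` and `U(W)`: basic definitions

`A` is the coordinate algebra (`k[t]` or `k[t,t⁻¹]`), with derivation `D` and coordinate `X`.
The Witt type Lie algebra is `A` with bracket `[f,g] = f g' - g f'`.
-/

noncomputable section

open scoped TensorProduct BigOperators

namespace MPcc24

universe u

/-- The coordinate algebra of the line or of the punctured line. -/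
class WAlg (k : Type u) (A : Type u) [Field k] [CommRing A] [Algebra k A] where
  /-- the derivation `d/dt` -/
  D : Derivation k A A
  /-- the coordinate `t` -/
  X : A
  DX : D X = 1
  ind : ∀ B : Submodule k A, (1 : A) ∈ B → (∀ f ∈ B, X * f ∈ B) →
    (IsUnit X → ∀ f, X * f ∈ B → f ∈ B) → B = ⊤

section Defs

variable (k : Type u) {A : Type u} [Field k] [CommRing A] [Algebra k A] [WAlg k A]

/-- the derivation of the coordinate algebra -/
abbrev dd : Derivation k A A := WAlg.D

variable (A) in
/-- the coordinate -/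
abbrev XX : A := WAlg.X k

/-- The Witt bracket. -/
def wbr (f g : A) : A := f * dd k g - g * dd k f

variable {k}

/-- a linear map to an algebra compatible with the Witt bracket -/
def IsE {S : Type*} [Ring S] [Algebra k S] (e : A →ₗ[k] S) : Prop :=
  ∀ f g : A, e f * e g - e g * e f = e (wbr k f g)

end Defs

section wbr

variable {k : Type u} {A : Type u} [Field k] [CommRing A] [Algebra k A] [WAlg k A]

theorem wbr_add_left (x y z : A) : wbr k (x + y) z = wbr k x z + wbr k y z := by
  simp only [wbr, map_add]; ring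

theorem wbr_add_right (x y z : A) : wbr k x (y + z) = wbr k x y + wbr k x z := by
  simp only [wbr, map_add]; ring

theorem wbr_self (x : A) : wbr k x x = 0 := by simp [wbr]

theorem wbr_jacobi (x y z : A) :
    wbr k x (wbr k y z) = wbr k (wbr k x y) z + wbr k y (wbr k x z) := by
  simp only [wbr, map_sub, Derivation.leibniz, smul_eq_mul]
  ring

theorem wbr_smul_right (c : k) (x y : A) : wbr k x (c • y) = c • wbr k x y := by
  simp only [wbr, Derivation.map_smul, smul_sub, mul_smul_comm, smul_mul_assoc]

end wbr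

/-- The Witt type Lie algebra. -/
def WLie (k A : Type u) [Field k] [CommRing A] [Algebra k A] [WAlg k A] : Type u :=
  (fun _ : k => A) 0

section Defs

variable {k : Type u} {A : Type u} [Field k] [CommRing A] [Algebra k A] [WAlg k A]

instance : AddCommGroup (WLie k A) := inferInstanceAs (AddCommGroup A)
instance : Module k (WLie k A) := inferInstanceAs (Module k A)

instance : Bracket (WLie k A) (WLie k A) := ⟨fun f g => wbr k (A := A) f g⟩

theorem WLie.bracket_def (f g : WLie k A) : ⁅f, g⁆ = wbr k (A := A) f g := rfl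

instance : LieRing (WLie k A) where
  add_lie x y z := wbr_add_left (k := k) (A := A) x y z
  lie_add x y z := wbr_add_right (k := k) (A := A) x y z
  lie_self x := wbr_self (k := k) (A := A) x
  leibniz_lie x y z := wbr_jacobi (k := k) (A := A) x y z

instance : LieAlgebra k (WLie k A) where
  lie_smul t x y := wbr_smul_right (k := k) (A := A) t x y

variable (k A) in
/-- The enveloping algebra of the Witt type Lie algebra. -/
abbrev UW : Type u := UniversalEnvelopingAlgebra k (WLie k A)

/-- the generators of the enveloping algebra -/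
def eU : A →ₗ[k] UW k A where
  toFun f := UniversalEnvelopingAlgebra.ι k (L := WLie k A) f
  map_add' f g := map_add (UniversalEnvelopingAlgebra.ι k (L := WLie k A)) f g
  map_smul' c f := map_smul (UniversalEnvelopingAlgebra.ι k (L := WLie k A)) c f

theorem eU_isE : IsE (k := k) (A := A) (eU (k := k) (A := A)) := by
  intro f g
  letI : LieRing (UW k A) := LieRing.ofAssociativeRing
  exact (LieHom.map_lie (UniversalEnvelopingAlgebra.ι k (L := WLie k A)) f g).symm

section lift

variable {S : Type*} [Ring S] [Algebra k S]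

/-- the Lie homomorphism attached to a compatible linear map -/
def IsE.lieHom {e : A →ₗ[k] S} (h : IsE e) :
    letI : LieRing S := LieRing.ofAssociativeRing
    letI : LieAlgebra k S := LieAlgebra.ofAssociativeAlgebra
    WLie k A →ₗ⁅k⁆ S :=
  letI : LieRing S := LieRing.ofAssociativeRing
  letI : LieAlgebra k S := LieAlgebra.ofAssociativeAlgebra
  { toFun := fun f => e f
    map_add' := fun f g => map_add e f g
    map_smul' := fun c f => map_smul e c f
    map_lie' := fun {f g} => (h f g).symm }

/-- the algebra homomorphism attached to a compatible linear map -/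
def liftE (e : A →ₗ[k] S) (h : IsE e) : UW k A →ₐ[k] S :=
  letI : LieRing S := LieRing.ofAssociativeRing
  letI : LieAlgebra k S := LieAlgebra.ofAssociativeAlgebra
  UniversalEnvelopingAlgebra.lift k (IsE.lieHom h)

theorem liftE_eU (e : A →ₗ[k] S) (h : IsE e) (f : A) : liftE e h (eU f) = e f := by
  letI : LieRing S := LieRing.ofAssociativeRing
  letI : LieAlgebra k S := LieAlgebra.ofAssociativeAlgebra
  exact UniversalEnvelopingAlgebra.lift_ι_apply k (IsE.lieHom h) f

theorem UW_hom_ext {φ ψ : UW k A →ₐ[k] S} (h : ∀ f : A, φ (eU f) = ψ (eU f)) : φ = ψ := by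
  letI : LieRing S := LieRing.ofAssociativeRing
  letI : LieAlgebra k S := LieAlgebra.ofAssociativeAlgebra
  apply UniversalEnvelopingAlgebra.hom_ext
  refine LieHom.ext fun f => ?_
  exact h f

end lift

theorem UW_adjoin : Algebra.adjoin k (Set.range (eU (k := k) (A := A))) = ⊤ := by
  set B := Algebra.adjoin k (Set.range (eU (k := k) (A := A))) with hB
  let e' : A →ₗ[k] B :=
    { toFun := fun f => ⟨eU f, Algebra.subset_adjoin ⟨f, rfl⟩⟩
      map_add' := fun f g => by ext; simp
      map_smul' := fun c f => by ext; simp }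
  have he' : IsE e' := by
    intro f g
    ext
    have := eU_isE (k := k) f g
    simpa [e'] using this
  have h1 : B.val.comp (liftE e' he') = AlgHom.id k (UW k A) := by
    apply UW_hom_ext
    intro f
    simp [liftE_eU, e']
  rw [eq_top_iff]
  intro x _
  have : B.val (liftE e' he' x) = x := by
    have := DFunLike.congr_fun h1 x
    simpa using this
  rw [← this]
  exact (liftE e' he' x).2

/-- induction principle for the enveloping algebra (right multiplication by generators) -/
theorem UW_induction {p : UW k A → Prop} (h1 : p 1) (hadd : ∀ x y, p x → p y → p (x + y))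
    (hsmul : ∀ (c : k) x, p x → p (c • x)) (hmul : ∀ f x, p x → p (eU f * x)) (x : UW k A) :
    p x := by
  have hx : x ∈ Algebra.adjoin k (Set.range (eU (k := k) (A := A))) := by rw [UW_adjoin]; trivial
  have key : ∀ y, p y → p (x * y) := by
    induction hx using Algebra.adjoin_induction with
    | mem z hz => obtain ⟨f, rfl⟩ := hz; intro y hy; exact hmul f y hy
    | algebraMap c =>
      intro y hy
      rw [← Algebra.smul_def]; exact hsmul c y hy
    | add a b _ _ ha hb => intro y hy; rw [add_mul]; exact hadd _ _ (ha y hy) (hb y hy)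
    | mul a b _ _ ha hb => intro y hy; rw [mul_assoc]; exact ha _ (hb y hy)
  simpa using key 1 h1

end Defs

end MPcc24
end
end

section
set_option linter.all false

/-!
# The rings of functions of several variables
-/

noncomputable section

open scoped TensorProduct BigOperators
open PiTensorProduct

namespace MPcc24

universe u

/-- functions on the `ι`-fold product -/
abbrev TA (k A : Type u) [Field k] [CommRing A] [Algebra k A] (ι : Type) : Type u :=
  ⨂[k] _ : ι, A

section Defs

variable {k : Type u} {A : Type u} [Field k] [CommRing A] [Algebra k A]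
variable {ι κ μ : Type} [Fintype ι] [DecidableEq ι] [Fintype κ] [DecidableEq κ]
  [Fintype μ] [DecidableEq μ]

/-- pure tensors -/
def tp (k : Type u) {A : Type u} [Field k] [CommRing A] [Algebra k A] {ι : Type}
    (f : ι → A) : TA k A ι := PiTensorProduct.tprod k f

/-- the function `f` in the variable `i` -/
def sg (k : Type u) {A : Type u} [Field k] [CommRing A] [Algebra k A] {ι : Type}
    [DecidableEq ι] (i : ι) : A →ₐ[k] TA k A ι :=
  PiTensorProduct.singleAlgHom (A := fun _ => A) i

theorem tp_mul (f g : ι → A) : tp k f * tp k g = tp k (f * g) :=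
  PiTensorProduct.tprod_mul_tprod (R := k) f g

theorem sg_eq (i : ι) (f : A) : sg k i f = tp k (Pi.mulSingle i f) := rfl

theorem tp_eq_prod (f : ι → A) : tp k f = ∏ i, sg k i (f i) := by
  have h : f = ∏ i, Pi.mulSingle i (f i) := (Finset.univ_prod_mulSingle f).symm
  conv_lhs => rw [h]
  exact PiTensorProduct.tprod_prod (R := k) (Finset.univ) (fun i => Pi.mulSingle (M := fun _ => A) i (f i))

omit [Fintype ι] [DecidableEq ι] in
theorem TA_induction {p : TA k A ι → Prop} (h0 : ∀ f : ι → A, p (tp k f))
    (hs : ∀ (c : k) x, p x → p (c • x)) (ha : ∀ x y, p x → p y → p (x + y)) (x : TA k A ι) :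
    p x := by
  induction x using PiTensorProduct.induction_on with
  | smul_tprod r f => exact hs r _ (h0 f)
  | add x y hx hy => exact ha x y hx hy

/-- subalgebra induction: a subalgebra containing all one variable functions is everything -/
theorem TA_adjoin : Algebra.adjoin k (⋃ i : ι, Set.range (sg k (A := A) i)) = ⊤ := by
  rw [eq_top_iff]
  rintro x -
  induction x using TA_induction with
  | h0 f =>
    rw [tp_eq_prod]
    exact Subalgebra.prod_mem _ fun i _ =>
      Algebra.subset_adjoin (Set.mem_iUnion.2 ⟨i, ⟨f i, rfl⟩⟩)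
  | hs c x hx => exact Subalgebra.smul_mem _ hx c
  | ha x y hx hy => exact Subalgebra.add_mem _ hx hy

/-- the algebra homomorphism out of `TA` to a commutative algebra attached to a family -/
def tlift {C : Type*} [CommRing C] [Algebra k C] (g : ι → A →ₐ[k] C) : TA k A ι →ₐ[k] C :=
  liftAlgHom ((MultilinearMap.mkPiAlgebra k ι C).compLinearMap fun i => (g i).toLinearMap)
    (by simp [MultilinearMap.mkPiAlgebra_apply])
    (fun x y => by
      rw [MultilinearMap.compLinearMap_apply, MultilinearMap.compLinearMap_apply,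
        MultilinearMap.compLinearMap_apply, MultilinearMap.mkPiAlgebra_apply,
        MultilinearMap.mkPiAlgebra_apply, MultilinearMap.mkPiAlgebra_apply,
        ← Finset.prod_mul_distrib]
      simp)

theorem tlift_tprod {C : Type*} [CommRing C] [Algebra k C] (g : ι → A →ₐ[k] C) (f : ι → A) :
    tlift g (tp k f) = ∏ i, g i (f i) := by
  have h : tlift g (tp k f) = PiTensorProduct.lift
      ((MultilinearMap.mkPiAlgebra k ι C).compLinearMap fun i => (g i).toLinearMap)
      (PiTensorProduct.tprod k f) := rfl
  rw [h, PiTensorProduct.lift.tprod, MultilinearMap.compLinearMap_apply,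
    MultilinearMap.mkPiAlgebra_apply]
  rfl

theorem tlift_sg {C : Type*} [CommRing C] [Algebra k C] (g : ι → A →ₐ[k] C) (i : ι) (f : A) :
    tlift g (sg k i f) = g i f := by
  rw [sg_eq, tlift_tprod, Finset.prod_eq_single i]
  · simp
  · intro j _ hj; simp [Pi.mulSingle_eq_of_ne hj]
  · simp

/-- the pull back: the function `f` in the variable `i` is sent to `f` in the variable `φ i` -/
def pmap (φ : ι → κ) : TA k A ι →ₐ[k] TA k A κ := tlift fun i => sg k (φ i)

@[simp] theorem pmap_sg (φ : ι → κ) (i : ι) (f : A) : pmap φ (sg k i f) = sg k (φ i) f :=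
  tlift_sg _ i f

theorem TA_algHom_ext {S : Type*} [Semiring S] [Algebra k S] {f g : TA k A ι →ₐ[k] S}
    (h : ∀ i a, f (sg k i a) = g (sg k i a)) : f = g :=
  PiTensorProduct.algHom_ext (A := fun _ => A) fun i => AlgHom.ext fun a => h i a

theorem pmap_comp (φ : ι → κ) (ψ : κ → μ) (x : TA k A ι) :
    pmap ψ (pmap φ x) = pmap (ψ ∘ φ) x := by
  have : (pmap ψ).comp (pmap φ) = pmap (k := k) (A := A) (ψ ∘ φ) := TA_algHom_ext (by simp)
  exact DFunLike.congr_fun this x

@[simp] theorem pmap_id (x : TA k A ι) : pmap (fun i : ι => i) x = x := by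
  have : pmap (fun i : ι => i) = AlgHom.id k (TA k A ι) := TA_algHom_ext (by simp)
  exact DFunLike.congr_fun this x

variable [WAlg k A]

/-- the partial derivatives -/
def der (k A : Type u) [Field k] [CommRing A] [Algebra k A] [WAlg k A] {ι : Type}
    [DecidableEq ι] (i : ι) : Derivation k (TA k A ι) (TA k A ι) :=
  Derivation.mk' (PiTensorProduct.map
    (Function.update (fun _ => (LinearMap.id : A →ₗ[k] A)) i (dd k : Derivation k A A).toLinearMap))
    (by
      intro a b
      induction a using TA_induction with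
      | hs c x hx => simp only [smul_mul_assoc, map_smul, hx, smul_add, smul_eq_mul, mul_smul_comm]
      | ha x y hx hy =>
        simp only [add_mul, map_add, hx, hy, smul_eq_mul, mul_add]; ring
      | h0 f =>
        induction b using TA_induction with
        | hs c x hx => simp only [mul_smul_comm, map_smul, hx, smul_add, smul_eq_mul, smul_mul_assoc]
        | ha x y hx hy =>
          simp only [add_mul, map_add, hx, hy, smul_eq_mul, mul_add]; ring
        | h0 g =>
          simp only [tp, tprod_mul_tprod, PiTensorProduct.map_tprod, smul_eq_mul]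
          have e1 : (fun j => (Function.update (fun _ => (LinearMap.id : A →ₗ[k] A)) i
              (dd k : Derivation k A A).toLinearMap) j ((f * g) j)) =
              Function.update (f * g) i (f i * dd k (g i) + g i * dd k (f i)) := by
            funext j
            by_cases hj : j = i
            · subst hj; simp
            · simp [Function.update_of_ne hj]
          have e2 : (f * fun j => (Function.update (fun _ => (LinearMap.id : A →ₗ[k] A)) i
              (dd k : Derivation k A A).toLinearMap) j (g j)) =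
              Function.update (f * g) i (f i * dd k (g i)) := by
            funext j
            by_cases hj : j = i
            · subst hj; simp
            · simp [Function.update_of_ne hj]
          have e3 : (g * fun j => (Function.update (fun _ => (LinearMap.id : A →ₗ[k] A)) i
              (dd k : Derivation k A A).toLinearMap) j (f j)) =
              Function.update (f * g) i (g i * dd k (f i)) := by
            funext j
            by_cases hj : j = i
            · subst hj; simp
            · simp [Function.update_of_ne hj, mul_comm]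
          rw [e1, e2, e3, MultilinearMap.map_update_add])

theorem der_tprod (i : ι) (f : ι → A) :
    der k A i (tp k f) = tp k (Function.update f i (dd k (f i))) := by
  change PiTensorProduct.map _ _ = _
  rw [tp, PiTensorProduct.map_tprod]
  congr 1
  funext j
  by_cases hj : j = i
  · subst hj; simp
  · simp [Function.update_of_ne hj]

theorem der_sg (i j : ι) (f : A) :
    der k A i (sg k j f) = if i = j then sg k i (dd k f) else 0 := by
  rw [sg_eq, der_tprod]
  split_ifs with hij
  · subst hij
    have : (Function.update (Pi.mulSingle i f) i (dd k (Pi.mulSingle (M := fun _ => A) i f i))) =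
        Pi.mulSingle (M := fun _ => A) i (dd k f) := by
      funext j
      by_cases hj : j = i
      · subst hj; simp
      · simp [Function.update_of_ne hj, Pi.mulSingle_eq_of_ne hj]
    rw [this]; rfl
  · rw [Pi.mulSingle_eq_of_ne hij, Derivation.map_one_eq_zero]
    exact MultilinearMap.map_update_zero (PiTensorProduct.tprod k) _ i

/-- the vector field `f` acting diagonally -/
def Dv (k : Type u) {A : Type u} [Field k] [CommRing A] [Algebra k A] [WAlg k A] {ι : Type}
    [Fintype ι] [DecidableEq ι] (f : A) : Derivation k (TA k A ι) (TA k A ι) :=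
  ∑ i, sg k i f • der k A i

theorem Dv_apply (f : A) (x : TA k A ι) : Dv k f x = ∑ i, sg k i f * der k A i x := by
  have h := map_sum (Derivation.coeFnAddMonoidHom (R := k) (A := TA k A ι) (M := TA k A ι))
    (fun i => sg k i f • der k A i) Finset.univ
  have h2 := congrFun h x
  rw [Finset.sum_apply] at h2
  exact h2

theorem Dv_sg (f : A) (j : ι) (g : A) : Dv k f (sg k j g) = sg k j (f * dd k g) := by
  rw [Dv_apply, Finset.sum_eq_single j]
  · rw [der_sg, if_pos rfl, map_mul]
  · intro i _ hi; rw [der_sg, if_neg hi, mul_zero]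
  · simp

/-- two derivations agreeing on one variable functions are equal -/
theorem TA_der_ext {M : Type*} [AddCommGroup M] [Module k M] [Module (TA k A ι) M]
    [IsScalarTower k (TA k A ι) M]
    {d d' : Derivation k (TA k A ι) M} (h : ∀ i f, d (sg k i f) = d' (sg k i f)) : d = d' := by
  apply Derivation.ext_of_adjoin_eq_top _ (TA_adjoin (k := k) (A := A) (ι := ι))
  intro x hx
  obtain ⟨i, hi⟩ := Set.mem_iUnion.1 hx
  obtain ⟨f, rfl⟩ := hi
  exact h i f

variable (k A ι) in
/-- the (symmetric) discriminant -/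
def Dis : TA k A ι :=
  ∏ p ∈ (Finset.univ : Finset ι).offDiag, (sg k p.1 (XX k A) - sg k p.2 (XX k A))

end Defs

end MPcc24
end
end

section
set_option linter.all false

/-!
# Words in the generators, data, prime ideals
-/

noncomputable section

open scoped TensorProduct BigOperators

namespace MPcc24

universe u

section Defs

variable {k : Type u} {A : Type u} [Field k] [CommRing A] [Algebra k A]
variable {S : Type*} [Ring S] [Algebra k S]

/-- mixed words: `TTw e (f_1 ⊗ ... ⊗ f_d) = e_1 f_1 * ... * e_d f_d` -/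
def TTw {d : ℕ} (e : Fin d → A →ₗ[k] S) : TA k A (Fin d) →ₗ[k] S :=
  PiTensorProduct.lift ((MultilinearMap.mkPiAlgebraFin k d S).compLinearMap e)

theorem TTw_tp {d : ℕ} (e : Fin d → A →ₗ[k] S) (f : Fin d → A) :
    TTw e (tp k f) = (List.ofFn fun i => e i (f i)).prod := by
  rw [TTw, tp, PiTensorProduct.lift.tprod, MultilinearMap.compLinearMap_apply,
    MultilinearMap.mkPiAlgebraFin_apply]

/-- words: `TT e d (f_1 ⊗ ... ⊗ f_d) = e f_1 * ... * e f_d` -/
def TT (e : A →ₗ[k] S) (d : ℕ) : TA k A (Fin d) →ₗ[k] S := TTw fun _ => e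

theorem TT_tp (e : A →ₗ[k] S) (d : ℕ) (f : Fin d → A) :
    TT e d (tp k f) = (List.ofFn fun i => e (f i)).prod := TTw_tp _ f

/-- block words, `TB e b (⊗ f_{(i,ε)}) = ∏_i e (f_{(i,0)}) * e (f_{(i,1)})` -/
def TB (e : A →ₗ[k] S) (b : ℕ) : TA k A (Fin b × Fin 2) →ₗ[k] S :=
  TT e (b * 2) ∘ₗ (pmap (k := k) (A := A) (finProdFinEquiv : Fin b × Fin 2 ≃ Fin (b * 2))).toLinearMap

theorem pmap_tp_equiv {ι κ : Type} [Fintype ι] [DecidableEq ι] [Fintype κ] [DecidableEq κ]
    (φ : ι ≃ κ) (f : ι → A) : pmap φ (tp k f) = tp k (f ∘ φ.symm) := by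
  rw [tp_eq_prod, tp_eq_prod, map_prod]
  simp only [pmap_sg, Function.comp_apply]
  exact Fintype.prod_equiv φ _ _ (by simp)

theorem TB_tp (e : A →ₗ[k] S) (b : ℕ) (f : Fin b × Fin 2 → A) :
    TB e b (tp k f) = (List.ofFn fun i : Fin b => e (f (i, 0)) * e (f (i, 1))).prod := by
  rw [TB, LinearMap.comp_apply]
  change TT e (b * 2) (pmap (finProdFinEquiv : Fin b × Fin 2 ≃ Fin (b * 2)) (tp k f)) = _
  rw [pmap_tp_equiv, TT_tp, List.ofFn_mul, List.prod_flatten]
  congr 1
  rw [List.map_ofFn]
  congr 1
  funext i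
  simp only [Function.comp_apply, List.ofFn_succ, List.ofFn_zero, List.prod_cons, List.prod_nil,
    mul_one]
  have h : ∀ j : Fin 2, finProdFinEquiv.symm (⟨↑i * 2 + ↑j, by
      have := i.2; have := j.2; omega⟩ : Fin (b * 2)) = (i, j) := by
    intro j
    rw [Equiv.symm_apply_eq]
    ext
    simp [finProdFinEquiv]; ring
  have h0 := h 0
  have h1 := h 1
  simp only [Fin.val_zero, add_zero, Fin.val_one] at h0 h1
  simp only [Fin.val_zero, add_zero, Fin.val_succ, zero_add]
  rw [h0, h1]

variable [WAlg k A]

/-- the operator `(sh t Θ)(f) = Θ(X f) - t Θ(f)` -/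
def sh (t : S) (Θ : A →ₗ[k] S) : A →ₗ[k] S :=
  Θ ∘ₗ LinearMap.mulLeft k (XX k A) - LinearMap.mulLeft k t ∘ₗ Θ

theorem sh_apply (t : S) (Θ : A →ₗ[k] S) (f : A) : sh t Θ f = Θ (XX k A * f) - t * Θ f := rfl

/-- the map `a ⊗ f ↦ τ a * e f` -/
def Om {r : ℕ} (τ : TA k A (Fin r) →ₐ[k] S) (e : A →ₗ[k] S) :
    TA k A (Fin r) ⊗[k] A →ₗ[k] S :=
  TensorProduct.lift ((LinearMap.mul k S).compl₁₂ τ.toLinearMap e)

theorem Om_tmul {r : ℕ} (τ : TA k A (Fin r) →ₐ[k] S) (e : A →ₗ[k] S) (a : TA k A (Fin r)) (f : A) :
    Om τ e (a ⊗ₜ f) = τ a * e f := by simp [Om]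

variable (k A) in
/-- the difference of the extra variable and the variable `i` -/
def dif {r : ℕ} (i : Fin r) : TA k A (Fin r) ⊗[k] A :=
  (1 : TA k A (Fin r)) ⊗ₜ[k] (XX k A) - (sg k i (XX k A)) ⊗ₜ[k] (1 : A)

/-- R-data: a compatible map `e` of finite order with respect to `r` points -/
structure RData (k A : Type u) [Field k] [CommRing A] [Algebra k A] [WAlg k A] (r : ℕ)
    (n : Fin r → ℕ) (S : Type*) [Ring S] [Algebra k S] where
  τ : TA k A (Fin r) →ₐ[k] S
  e : A →ₗ[k] S
  isE : IsE e
  eτ : ∀ (f : A) (a : TA k A (Fin r)), e f * τ a - τ a * e f = τ (Dv k f a)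
  ord : ∀ H : TA k A (Fin r) ⊗[k] A, Om τ e ((∏ i, dif k A i ^ n i) * H) = 0

/-- the homomorphism from the enveloping algebra -/
def RData.hom {r : ℕ} {n : Fin r → ℕ} (dat : RData k A r n S) : UW k A →ₐ[k] S :=
  liftE dat.e dat.isE

/-- P-data: `r` commuting compatible maps `e i`, `e i` of finite order `n i` at the point `i` -/
structure PData (k A : Type u) [Field k] [CommRing A] [Algebra k A] [WAlg k A] (r : ℕ)
    (n : Fin r → ℕ) (S : Type*) [Ring S] [Algebra k S] where
  τ : TA k A (Fin r) →ₐ[k] S
  e : Fin r → A →ₗ[k] S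
  eτ : ∀ (i j : Fin r) (f g : A), e i f * τ (sg k j g) - τ (sg k j g) * e i f =
    if i = j then τ (sg k i (f * dd k g)) else 0
  ee : ∀ (i j : Fin r) (f g : A), e i f * e j g - e j g * e i f =
    if i = j then e i (wbr k f g) else 0
  ord : ∀ i, (sh (τ (sg k i (XX k A))))^[n i] (e i) = 0

namespace PData

variable {r : ℕ} {n : Fin r → ℕ} (dat : PData k A r n S)

/-- the total compatible map -/
def tot : A →ₗ[k] S := ∑ i, dat.e i

theorem tot_apply (f : A) : dat.tot f = ∑ i, dat.e i f := by simp [tot]

theorem tot_isE : IsE dat.tot := by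
  intro f g
  simp only [tot_apply, Finset.sum_mul, Finset.mul_sum]
  rw [Finset.sum_comm, ← Finset.sum_sub_distrib]
  refine Finset.sum_congr rfl fun i _ => ?_
  rw [← Finset.sum_sub_distrib, Finset.sum_eq_single i]
  · rw [dat.ee, if_pos rfl]
  · intro j _ hj
    rw [dat.ee, if_neg (fun h => hj h.symm)]
  · simp

/-- the homomorphism from the enveloping algebra -/
def hom : UW k A →ₐ[k] S := liftE dat.tot dat.tot_isE

/-- the coordinate of the point `i` -/
def t (i : Fin r) : S := dat.τ (sg k i (XX k A))

/-- the iterated shifts of `e i` -/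
def V (i : Fin r) (a : ℕ) : A →ₗ[k] S := (sh (dat.t i))^[a] (dat.e i)

/-- the differences of the coordinates are invertible -/
def Inv : Prop := ∀ i j : Fin r, i ≠ j → IsUnit (dat.τ (sg k i (XX k A) - sg k j (XX k A)))

/-- the ring is generated by the data -/
def Gen : Prop := ∀ B : Subalgebra k S, (∀ a, dat.τ a ∈ B) → (∀ i f, dat.e i f ∈ B) →
  (∀ i j : Fin r, i ≠ j → ∀ s, s * dat.τ (sg k i (XX k A) - sg k j (XX k A)) = 1 → s ∈ B) → B = ⊤

/-- the factor of the point `i` in the conductor -/
def ci (i : Fin r) : S :=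
  if n i = 1 then -dat.e i 1
  else if n i = 2 then 2 * dat.V i 1 1 * (1 - dat.V i 1 1)
  else ((-1 : ℤ) ^ (n i - 1) * ((2 * (n i - 1)).choose (n i - 1) : ℤ)) • (dat.V i (n i - 1) 1) ^ 2

/-- the conductor -/
def cc : S := (List.ofFn fun i => dat.ci i).prod

end PData

/-- the exponents of the blocks -/
def mu (n : ℕ) : ℕ := if n = 1 then 1 else 2 * (n - 1)

variable (k A) in
/-- the cross factor of the block words -/
def crossF (b : ℕ) : TA k A (Fin b × Fin 2) :=
  ∏ p ∈ (Finset.univ : Finset ((Fin b × Fin 2) × (Fin b × Fin 2))).filter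
    (fun p => p.1.1 ≠ p.2.1), (sg k p.1 (XX k A) - sg k p.2 (XX k A))

variable (k A) in
/-- the polynomial used in the block words -/
def F0 {b : ℕ} (μ : Fin b → ℕ) (N : ℕ) : TA k A (Fin b × Fin 2) :=
  (∏ i, (sg k (i, (0 : Fin 2)) (XX k A) - sg k (i, (1 : Fin 2)) (XX k A)) ^ μ i) * crossF k A b ^ N

/-- the stabilizer of the multiplicities -/
def stab {r : ℕ} (n : Fin r → ℕ) : Subgroup (Equiv.Perm (Fin r)) where
  carrier := {h | ∀ i, n (h i) = n i}
  mul_mem' {a b} ha hb i := by rw [Equiv.Perm.mul_apply, ha, hb]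
  one_mem' i := rfl
  inv_mem' {a} ha i := by
    have := ha (a⁻¹ i)
    rw [show a (a⁻¹ i) = i from a.apply_symm_apply i] at this
    exact this.symm

instance {r : ℕ} (n : Fin r → ℕ) : DecidablePred (· ∈ stab n) := fun h =>
  inferInstanceAs (Decidable (∀ i, n (h i) = n i))

/-- an action of the stabilizer of the multiplicities -/
structure HAct {r : ℕ} {n : Fin r → ℕ} (dat : PData k A r n S) where
  act : stab n →* (S →ₐ[k] S)
  act_τ : ∀ (h : stab n) (a : TA k A (Fin r)),
    act h (dat.τ a) = dat.τ (pmap ((h : Equiv.Perm (Fin r)) : Fin r → Fin r) a)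
  act_e : ∀ (h : stab n) (i : Fin r) (f : A), act h (dat.e i f) = dat.e ((h : Equiv.Perm (Fin r)) i) f

/-- invariants -/
def HAct.IsInv {r : ℕ} {n : Fin r → ℕ} {dat : PData k A r n S} (H : HAct dat) (s : S) : Prop :=
  ∀ h, H.act h s = s

end Defs

/-- prime two-sided ideals -/
def PrimeT {R : Type*} [Ring R] (P : TwoSidedIdeal R) : Prop :=
  (1 : R) ∉ P ∧ ∀ x y : R, (∀ r, x * r * y ∈ P) → x ∈ P ∨ y ∈ P

/-- prime rings -/
def PrimeR (R : Type*) [Ring R] : Prop :=
  Nontrivial R ∧ ∀ x y : R, (∀ r, x * r * y = 0) → x = 0 ∨ y = 0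

/-- the kernel is contained in the ideal -/
def KerLe {R S : Type*} [Ring R] [Ring S] (φ : R →+* S) (P : TwoSidedIdeal R) : Prop :=
  ∀ u, φ u = 0 → u ∈ P

end MPcc24
end
end

section
set_option linter.all false

/-!
# Brackets of the iterated shifts of the maps of a P-data
-/

noncomputable section

open scoped TensorProduct BigOperators

namespace MPcc24

universe u

section Brackets

variable {k : Type u} {A : Type u} [Field k] [CommRing A] [Algebra k A] [WAlg k A]
variable {S : Type*} [Ring S] [Algebra k S]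

theorem dd_X : dd k (XX k A) = 1 := WAlg.DX

theorem dd_mul (f g : A) : dd k (f * g) = f * dd k g + g * dd k f := by
  rw [Derivation.leibniz, smul_eq_mul, smul_eq_mul]

theorem dd_one : dd k (1 : A) = 0 := Derivation.map_one_eq_zero _

theorem wbr_X_left (f g : A) : wbr k (XX k A * f) g = XX k A * wbr k f g - f * g := by
  simp only [wbr, dd_mul, dd_X]; ring

theorem wbr_X_right (f g : A) : wbr k f (XX k A * g) = XX k A * wbr k f g + f * g := by
  simp only [wbr, dd_mul, dd_X]; ring

namespace PData

variable {r : ℕ} {n : Fin r → ℕ} (dat : PData k A r n S)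

theorem V_zero (i : Fin r) : dat.V i 0 = dat.e i := rfl

theorem V_succ (i : Fin r) (a : ℕ) (f : A) :
    dat.V i (a + 1) f = dat.V i a (XX k A * f) - dat.t i * dat.V i a f := by
  rw [V, Function.iterate_succ_apply', sh_apply]
  rfl

theorem V_X (i : Fin r) (a : ℕ) (f : A) :
    dat.V i a (XX k A * f) = dat.V i (a + 1) f + dat.t i * dat.V i a f := by
  rw [V_succ]; abel

theorem V_ge (i : Fin r) (a : ℕ) (ha : n i ≤ a) : dat.V i a = 0 := by
  obtain ⟨b, rfl⟩ := Nat.exists_eq_add_of_le ha
  rw [V, add_comm, Function.iterate_add_apply]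
  have : (sh (dat.t i))^[n i] (dat.e i) = 0 := dat.ord i
  rw [this]
  clear this ha
  induction b with
  | zero => rfl
  | succ b ih =>
    rw [Function.iterate_succ_apply', ih]
    ext f; simp [sh_apply]

theorem τ_comm (a b : TA k A (Fin r)) : dat.τ a * dat.τ b = dat.τ b * dat.τ a := by
  rw [← map_mul, ← map_mul, mul_comm]

/-- an element commuting with all the functions of one variable commutes with all functions -/
theorem comm_τ_of (s : S) (h : ∀ j g, s * dat.τ (sg k j g) = dat.τ (sg k j g) * s)
    (a : TA k A (Fin r)) : s * dat.τ a = dat.τ a * s := by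
  have ha : a ∈ Algebra.adjoin k (⋃ i : Fin r, Set.range (sg k (A := A) i)) := by
    rw [TA_adjoin]; trivial
  induction ha using Algebra.adjoin_induction with
  | mem z hz =>
    obtain ⟨i, hi⟩ := Set.mem_iUnion.1 hz
    obtain ⟨f, rfl⟩ := hi
    exact h i f
  | algebraMap c =>
    rw [AlgHom.commutes]
    exact (Algebra.commutes c s).symm
  | add a b _ _ ha hb => rw [map_add, mul_add, add_mul, ha, hb]
  | mul a b _ _ ha hb => rw [map_mul, ← mul_assoc, ha, mul_assoc, hb, mul_assoc]

theorem e_τ_self (i : Fin r) (f g : A) :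
    dat.e i f * dat.τ (sg k i g) = dat.τ (sg k i g) * dat.e i f + dat.τ (sg k i (f * dd k g)) := by
  have := dat.eτ i i f g
  rw [if_pos rfl] at this
  rw [← this]; abel

theorem e_τ_ne (i j : Fin r) (hij : i ≠ j) (f g : A) :
    dat.e i f * dat.τ (sg k j g) = dat.τ (sg k j g) * dat.e i f := by
  have := dat.eτ i j f g
  rw [if_neg hij] at this
  exact sub_eq_zero.1 this

theorem e_t_self (i : Fin r) (f : A) :
    dat.e i f * dat.t i = dat.t i * dat.e i f + dat.τ (sg k i f) := by
  have := e_τ_self dat i f (XX k A)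
  rw [dd_X, mul_one] at this
  exact this

theorem t_τ (i : Fin r) (a : TA k A (Fin r)) : dat.t i * dat.τ a = dat.τ a * dat.t i :=
  dat.τ_comm _ _

theorem V_τ_ne (i j : Fin r) (hij : i ≠ j) (a : ℕ) (f g : A) :
    dat.V i a f * dat.τ (sg k j g) = dat.τ (sg k j g) * dat.V i a f := by
  induction a generalizing f with
  | zero => exact dat.e_τ_ne i j hij f g
  | succ a ih =>
    rw [V_succ, sub_mul, mul_sub, ih, mul_assoc, ih, ← mul_assoc, ← mul_assoc, t_τ]

theorem V_τ_sg (i j : Fin r) (a : ℕ) (f g : A) :
    dat.V i (a + 1) f * dat.τ (sg k j g) = dat.τ (sg k j g) * dat.V i (a + 1) f := by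
  by_cases hij : i = j
  · subst hij
    induction a generalizing f with
    | zero =>
      have h1 := dat.e_τ_self i (XX k A * f) g
      have h2 := dat.e_τ_self i f g
      have h3 := dat.t_τ i (sg k i g)
      have h4 : dat.τ (sg k i (XX k A * f * dd k g)) = dat.t i * dat.τ (sg k i (f * dd k g)) := by
        rw [t, ← map_mul, ← map_mul, mul_assoc]
      rw [V_succ, V_zero, sub_mul, mul_sub, h1, h4, mul_assoc, h2, mul_add, ← mul_assoc, h3,
        ← mul_assoc]
      abel
    | succ a ih =>
      rw [V_succ, sub_mul, mul_sub, ih, mul_assoc, ih, ← mul_assoc, ← mul_assoc, t_τ]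
  · exact dat.V_τ_ne i j hij (a + 1) f g

/-- the higher shifts commute with functions -/
theorem V_τ (i : Fin r) (a : ℕ) (f : A) (b : TA k A (Fin r)) :
    dat.V i (a + 1) f * dat.τ b = dat.τ b * dat.V i (a + 1) f :=
  dat.comm_τ_of _ (fun j g => dat.V_τ_sg i j a f g) b

theorem V_t (i j : Fin r) (a : ℕ) (f : A) :
    dat.V i (a + 1) f * dat.t j = dat.t j * dat.V i (a + 1) f := dat.V_τ i a f _

theorem V_t_ne (i j : Fin r) (hij : i ≠ j) (a : ℕ) (f : A) :
    dat.V i a f * dat.t j = dat.t j * dat.V i a f := dat.V_τ_ne i j hij a f _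

theorem e_V_ne (i j : Fin r) (hij : i ≠ j) (b : ℕ) (f g : A) :
    dat.e i f * dat.V j b g = dat.V j b g * dat.e i f := by
  induction b generalizing g with
  | zero =>
    have := dat.ee i j f g
    rw [if_neg hij] at this
    exact sub_eq_zero.1 this
  | succ b ih =>
    rw [V_succ, mul_sub, sub_mul, ih, ← mul_assoc, t, e_τ_ne dat i j hij, mul_assoc, mul_assoc, ih]

theorem V_V_ne (i j : Fin r) (hij : i ≠ j) (a b : ℕ) (f g : A) :
    dat.V i a f * dat.V j b g = dat.V j b g * dat.V i a f := by
  induction a generalizing f with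
  | zero => exact dat.e_V_ne i j hij b f g
  | succ a ih =>
    have h := dat.V_t_ne j i (Ne.symm hij) b g
    rw [V_succ, sub_mul, mul_sub, ih, mul_assoc, ih, ← mul_assoc, ← mul_assoc, ← h]

theorem e_V_self (i : Fin r) (b : ℕ) (f g : A) :
    dat.e i f * dat.V i (b + 1) g - dat.V i (b + 1) g * dat.e i f =
      (b + 1) • (dat.V i b (f * g) - dat.τ (sg k i f) * dat.V i b g) +
        dat.V i (b + 1) (wbr k f g) := by
  induction b generalizing g with
  | zero =>
    have h1 := dat.ee i i f g
    have h2 := dat.ee i i f (XX k A * g)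
    have h3 := dat.e_t_self i f
    rw [if_pos rfl] at h1 h2
    rw [wbr_X_right, map_add] at h2
    rw [V_succ, V_succ, V_zero]
    have e1 : dat.e i f * (dat.e i (XX k A * g) - dat.t i * dat.e i g) -
        (dat.e i (XX k A * g) - dat.t i * dat.e i g) * dat.e i f =
        (dat.e i f * dat.e i (XX k A * g) - dat.e i (XX k A * g) * dat.e i f)
        - (dat.e i f * dat.t i) * dat.e i g + dat.t i * (dat.e i g * dat.e i f) := by
      noncomm_ring
    have e2 : dat.e i g * dat.e i f = dat.e i f * dat.e i g - dat.e i (wbr k f g) := by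
      rw [← h1]; abel
    rw [e1, h2, h3, e2]
    noncomm_ring
  | succ b ih =>
    have h3 := dat.e_t_self i f
    rw [V_succ, V_succ dat i (b + 1)]
    have e1 : dat.e i f * (dat.V i (b + 1) (XX k A * g) - dat.t i * dat.V i (b + 1) g) -
        (dat.V i (b + 1) (XX k A * g) - dat.t i * dat.V i (b + 1) g) * dat.e i f =
        (dat.e i f * dat.V i (b + 1) (XX k A * g) - dat.V i (b + 1) (XX k A * g) * dat.e i f)
        - (dat.e i f * dat.t i) * dat.V i (b + 1) g + dat.t i * (dat.V i (b + 1) g * dat.e i f) := by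
      noncomm_ring
    have e2 : dat.V i (b + 1) g * dat.e i f = dat.e i f * dat.V i (b + 1) g -
        ((b + 1) • (dat.V i b (f * g) - dat.τ (sg k i f) * dat.V i b g) +
        dat.V i (b + 1) (wbr k f g)) := by
      rw [← ih]; abel
    rw [e1, ih, h3, e2, wbr_X_right, map_add, show f * (XX k A * g) = XX k A * (f * g) by ring,
      V_X dat i b (f * g), V_X dat i b g]
    have h4 := dat.t_τ i (sg k i f)
    have e3 : dat.τ (sg k i f) * (dat.V i (b + 1) g + dat.t i * dat.V i b g) =
        dat.τ (sg k i f) * dat.V i (b + 1) g + dat.t i * (dat.τ (sg k i f) * dat.V i b g) := by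
      rw [mul_add, ← mul_assoc, ← h4, mul_assoc]
    rw [e3]
    simp only [smul_add, smul_sub, mul_sub, mul_add, mul_smul_comm, add_mul, sub_mul, succ_nsmul,
      add_smul, one_smul, ← mul_assoc]
    abel

theorem V_V_self (i : Fin r) (a b : ℕ) (f g : A) :
    dat.V i (a + 1) f * dat.V i (b + 1) g - dat.V i (b + 1) g * dat.V i (a + 1) f =
      ((b : ℤ) - a) • dat.V i (a + b + 1) (f * g) + dat.V i (a + b + 2) (wbr k f g) := by
  induction a generalizing f with
  | zero =>
    have h1 := dat.e_V_self i b (XX k A * f) g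
    have h2 := dat.e_V_self i b f g
    have h3 := dat.V_t i i b g
    rw [V_succ dat i 0 f, V_zero]
    have e1 : (dat.e i (XX k A * f) - dat.t i * dat.e i f) * dat.V i (b + 1) g -
        dat.V i (b + 1) g * (dat.e i (XX k A * f) - dat.t i * dat.e i f) =
        (dat.e i (XX k A * f) * dat.V i (b + 1) g - dat.V i (b + 1) g * dat.e i (XX k A * f))
        - dat.t i * (dat.e i f * dat.V i (b + 1) g) + (dat.V i (b + 1) g * dat.t i) * dat.e i f := by
      noncomm_ring
    rw [e1, h1, h3, mul_assoc (dat.t i)]
    have e2 : dat.e i f * dat.V i (b + 1) g = dat.V i (b + 1) g * dat.e i f +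
        ((b + 1) • (dat.V i b (f * g) - dat.τ (sg k i f) * dat.V i b g) +
        dat.V i (b + 1) (wbr k f g)) := by rw [← h2]; abel
    rw [e2, wbr_X_left, map_sub, show XX k A * f * g = XX k A * (f * g) by ring,
      V_X dat i b (f * g), V_X dat i (b + 1) (wbr k f g)]
    have e3 : dat.τ (sg k i (XX k A * f)) * dat.V i b g =
        dat.t i * (dat.τ (sg k i f) * dat.V i b g) := by
      rw [map_mul, map_mul, mul_assoc]; rfl
    rw [e3]
    simp only [Nat.cast_zero, sub_zero, zero_add, mul_add, mul_sub, mul_smul_comm, smul_add,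
      smul_sub, add_smul, one_smul, natCast_zsmul]
    abel
  | succ a ih =>
    have h1 := ih (XX k A * f)
    have h2 := ih f
    have h3 := dat.V_t i i b g
    rw [V_succ dat i (a + 1) f]
    have e1 : (dat.V i (a + 1) (XX k A * f) - dat.t i * dat.V i (a + 1) f) * dat.V i (b + 1) g -
        dat.V i (b + 1) g * (dat.V i (a + 1) (XX k A * f) - dat.t i * dat.V i (a + 1) f) =
        (dat.V i (a + 1) (XX k A * f) * dat.V i (b + 1) g -
          dat.V i (b + 1) g * dat.V i (a + 1) (XX k A * f))
        - dat.t i * (dat.V i (a + 1) f * dat.V i (b + 1) g)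
        + (dat.V i (b + 1) g * dat.t i) * dat.V i (a + 1) f := by
      noncomm_ring
    rw [e1, h1, h3, mul_assoc (dat.t i)]
    have e2 : dat.V i (a + 1) f * dat.V i (b + 1) g = dat.V i (b + 1) g * dat.V i (a + 1) f +
        (((b : ℤ) - a) • dat.V i (a + b + 1) (f * g) + dat.V i (a + b + 2) (wbr k f g)) := by
      rw [← h2]; abel
    rw [e2, wbr_X_left, map_sub, show XX k A * f * g = XX k A * (f * g) by ring,
      V_X dat i (a + b + 1) (f * g), V_X dat i (a + b + 2) (wbr k f g),
      show a + 1 + b + 1 = a + b + 1 + 1 by ring, show a + 1 + b + 2 = a + b + 2 + 1 by ring,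
      show a + b + 2 = a + b + 1 + 1 by ring]
    simp only [mul_add, mul_sub, mul_smul_comm, smul_add, Nat.cast_add, Nat.cast_one, sub_smul,
      add_smul, one_smul]
    abel

theorem e1_V (i : Fin r) (b : ℕ) (g : A) :
    dat.e i 1 * dat.V i (b + 1) g - dat.V i (b + 1) g * dat.e i 1 =
      dat.V i (b + 1) (dd k g) := by
  rw [e_V_self]
  have : wbr k 1 g = dd k g := by simp [wbr]
  rw [this, one_mul, map_one, map_one, one_mul, sub_self, smul_zero, zero_add]

end PData

end Brackets

end MPcc24
end
end

section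
set_option linter.all false

/-!
# The coordinate algebras of the line and of the punctured line
-/

noncomputable section

open scoped TensorProduct BigOperators
open Polynomial LaurentPolynomial

namespace MPcc24

universe u

variable (k : Type u) [Field k]

instance polyWAlg : WAlg k k[X] where
  D := Polynomial.derivative'
  X := Polynomial.X
  DX := by simp
  ind B h1 hX _ := by
    rw [Submodule.eq_top_iff']
    intro f
    induction f using Polynomial.induction_on' with
    | add p q hp hq => exact B.add_mem hp hq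
    | monomial n a =>
      rw [← Polynomial.smul_X_eq_monomial]
      apply B.smul_mem
      induction n with
      | zero => simpa using h1
      | succ n ih => rw [pow_succ']; exact hX _ ih

/-- the monomials form a basis -/
def Tbasis : Module.Basis ℤ k k[T;T⁻¹] := AddMonoidAlgebra.basis ℤ k

@[simp] theorem Tbasis_apply (n : ℤ) : Tbasis k n = T n := rfl

/-- the derivative of Laurent polynomials, as a linear map -/
def lderL : k[T;T⁻¹] →ₗ[k] k[T;T⁻¹] := (Tbasis k).constr k fun n => (n : k) • T (n - 1)

@[simp] theorem lderL_T (n : ℤ) : lderL k (T n) = (n : k) • T (n - 1) := by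
  rw [lderL, ← Tbasis_apply, Module.Basis.constr_basis]

/-- the derivative of Laurent polynomials -/
def lder : Derivation k k[T;T⁻¹] k[T;T⁻¹] :=
  Derivation.mk' (lderL k) (by
    have key : (LinearMap.mul k k[T;T⁻¹]).compr₂ (lderL k) =
        (LinearMap.mul k k[T;T⁻¹]).compl₂ (lderL k) +
          ((LinearMap.mul k k[T;T⁻¹]).flip.comp (LinearMap.id)).flip.compl₁₂ (lderL k)
            LinearMap.id := by
      refine (Tbasis k).ext fun m => (Tbasis k).ext fun n => ?_
      simp only [LinearMap.compr₂_apply, LinearMap.mul_apply', Tbasis_apply, LinearMap.add_apply,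
        LinearMap.compl₂_apply, LinearMap.compl₁₂_apply, LinearMap.flip_apply, LinearMap.comp_apply,
        LinearMap.id_apply, lderL_T]
      rw [← T_add, lderL_T, mul_smul_comm, smul_mul_assoc, ← T_add, ← T_add,
        show m + (n - 1) = m + n - 1 by ring, show m - 1 + n = m + n - 1 by ring, ← add_smul]
      congr 1
      push_cast; ring
    intro a b
    have := congrArg (fun Φ => Φ a b) key
    simpa [smul_eq_mul, mul_comm] using this)

@[simp] theorem lder_T (n : ℤ) : lder k (T n) = (n : k) • T (n - 1) := lderL_T k n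

instance laurentWAlg : WAlg k k[T;T⁻¹] where
  D := lder k
  X := T 1
  DX := by simp
  ind B h1 hX hX' := by
    have hu : IsUnit (T 1 : k[T;T⁻¹]) := by
      refine ⟨⟨T 1, T (-1), ?_, ?_⟩, rfl⟩ <;> rw [← T_add] <;> simp
    have hT : ∀ n : ℤ, (T n : k[T;T⁻¹]) ∈ B := by
      intro n
      induction n using Int.induction_on with
      | zero => simpa using h1
      | succ n ih =>
        have := hX _ ih
        rwa [← T_add, add_comm] at this
      | pred n ih =>
        apply hX' hu
        rw [← T_add]
        convert ih using 2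
        ring
    rw [eq_top_iff, ← (Tbasis k).span_eq, Submodule.span_le]
    rintro _ ⟨n, rfl⟩
    exact hT n

/-- the residue -/
def lres : k[T;T⁻¹] →ₗ[k] k := (Tbasis k).coord (-1)

theorem lres_T (n : ℤ) : lres k (T n) = if n = -1 then 1 else 0 := by
  rw [lres, ← Tbasis_apply, Module.Basis.coord_apply, Module.Basis.repr_self,
    Finsupp.single_apply]

theorem lres_lder (f : k[T;T⁻¹]) : lres k (lder k f) = 0 := by
  have : lres k ∘ₗ (lder k).toLinearMap = 0 := by
    refine (Tbasis k).ext fun n => ?_
    rw [LinearMap.comp_apply]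
    change lres k (lder k (T n)) = 0
    rw [lder_T, map_smul, lres_T]
    split_ifs with h
    · have : n = 0 := by omega
      subst this; simp
    · simp
  exact LinearMap.congr_fun this f

theorem lres_nondeg (f : k[T;T⁻¹]) (h : ∀ a, lres k (a * f) = 0) : f = 0 := by
  apply (Tbasis k).ext_elem
  intro n
  have := h (T (-1 - n))
  rw [map_zero, Finsupp.zero_apply]
  rw [← this]
  have key : lres k ∘ₗ LinearMap.mulLeft k (T (-1 - n) : k[T;T⁻¹]) = (Tbasis k).coord n := by
    refine (Tbasis k).ext fun m => ?_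
    rw [LinearMap.comp_apply, LinearMap.mulLeft_apply, Tbasis_apply, ← T_add, lres_T,
      ← Tbasis_apply, Module.Basis.coord_apply, Module.Basis.repr_self, Finsupp.single_apply]
    congr 1
    simp only [eq_iff_iff]
    constructor <;> intro h <;> omega
  have := LinearMap.congr_fun key f
  rw [Module.Basis.coord_apply] at this
  exact this.symm

end MPcc24
end
end

section
set_option linter.all false

/-!
# The rings of functions of several variables are domains; the two coordinate algebras
-/

noncomputable section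

open scoped TensorProduct BigOperators
open PiTensorProduct

namespace MPcc24

universe u

namespace Wrap

section Dom

variable {k : Type u} {A : Type u} [Field k] [CommRing A] [Algebra k A]
  {G : Type} [AddCommMonoid G]

/-- the map from the `i`-th copy of the algebra to the monoid algebra of the power -/
def psi (b : Module.Basis G k A) (h1 : b 0 = 1) (hm : ∀ x y, b (x + y) = b x * b y) {r : ℕ}
    (i : Fin r) : A →ₐ[k] AddMonoidAlgebra k (Fin r → G) :=
  AlgHom.ofLinearMap (b.constr k (fun g => AddMonoidAlgebra.single (Pi.single i g) (1 : k)))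
    (by rw [← h1, Module.Basis.constr_basis, Pi.single_zero]; rfl)
    (by
      have key : (LinearMap.mul k A).compr₂
          (b.constr k (fun g => AddMonoidAlgebra.single (Pi.single i g) (1 : k))) =
          (LinearMap.mul k (AddMonoidAlgebra k (Fin r → G))).compl₁₂
            (b.constr k (fun g => AddMonoidAlgebra.single (Pi.single i g) (1 : k)))
            (b.constr k (fun g => AddMonoidAlgebra.single (Pi.single i g) (1 : k))) := by
        refine b.ext fun g => b.ext fun h => ?_
        simp only [LinearMap.compr₂_apply, LinearMap.mul_apply', LinearMap.compl₁₂_apply,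
          Module.Basis.constr_basis]
        rw [← hm, Module.Basis.constr_basis, AddMonoidAlgebra.single_mul_single, ← Pi.single_add,
          one_mul]
      intro x y
      exact LinearMap.congr_fun (LinearMap.congr_fun key x) y)

theorem psi_basis (b : Module.Basis G k A) (h1 : b 0 = 1) (hm : ∀ x y, b (x + y) = b x * b y)
    {r : ℕ} (i : Fin r) (g : G) :
    psi b h1 hm i (b g) = AddMonoidAlgebra.single (Pi.single i g) (1 : k) := by
  change b.constr k _ (b g) = _
  rw [Module.Basis.constr_basis]

theorem prod_single {r : ℕ} (s : Finset (Fin r)) (p : Fin r → G) :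
    ∏ i ∈ s, (AddMonoidAlgebra.single (Pi.single i (p i)) (1 : k) :
      AddMonoidAlgebra k (Fin r → G)) = AddMonoidAlgebra.single (∑ i ∈ s, Pi.single i (p i)) 1 := by
  classical
  induction s using Finset.induction_on with
  | empty => rfl
  | insert a s ha ih =>
    rw [Finset.prod_insert ha, ih, Finset.sum_insert ha, AddMonoidAlgebra.single_mul_single,
      one_mul]

theorem isDomain_TA (b : Module.Basis G k A) (h1 : b 0 = 1) (hm : ∀ x y, b (x + y) = b x * b y)
    (r : ℕ) [UniqueSums (Fin r → G)] : IsDomain (TA k A (Fin r)) := by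
  let φ : TA k A (Fin r) →ₐ[k] AddMonoidAlgebra k (Fin r → G) := tlift fun i => psi b h1 hm i
  let bb : Module.Basis (Fin r → G) k (TA k A (Fin r)) := Basis.piTensorProduct fun _ => b
  have hφ : φ.toLinearMap = (bb.equiv (AddMonoidAlgebra.basis (Fin r → G) k)
      (Equiv.refl _)).toLinearMap := by
    refine bb.ext fun p => ?_
    have e1 : bb p = tp k (fun i => b (p i)) := Basis.piTensorProduct_apply _ _
    have e2 : φ.toLinearMap (bb p) = AddMonoidAlgebra.single p 1 := by
      rw [e1]
      change tlift _ (tp k _) = _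
      rw [tlift_tprod]
      simp only [psi_basis]
      rw [prod_single, Finset.univ_sum_single]
    rw [e2]
    simp
  have hinj : Function.Injective φ := by
    intro x y hxy
    have h3 : φ.toLinearMap x = φ.toLinearMap y := hxy
    rw [hφ] at h3
    exact (bb.equiv (AddMonoidAlgebra.basis (Fin r → G) k) (Equiv.refl _)).injective h3
  exact hinj.isDomain φ.toRingHom

end Dom

end Wrap

section Poly

open Polynomial

variable (k : Type u) [Field k]

theorem isDomain_TA_poly (r : ℕ) : IsDomain (TA k k[X] (Fin r)) := by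
  refine Wrap.isDomain_TA (Polynomial.basisMonomials k) ?_ ?_ r
  · simp
  · intro x y
    simp [Polynomial.monomial_mul_monomial]

end Poly

section Laurent

open LaurentPolynomial

variable (k : Type u) [Field k]

theorem isDomain_TA_laurent (r : ℕ) : IsDomain (TA k k[T;T⁻¹] (Fin r)) := by
  refine Wrap.isDomain_TA (AddMonoidAlgebra.basis ℤ k) ?_ ?_ r
  · rfl
  · intro x y
    exact T_add x y

end Laurent

end MPcc24
end
end
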