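import Pool.Agent.Lib.MP_cc24ba_al.Spec
import Pool.Agent.Lib.MP_cc24ba_al.WrapDom

set_option linter.all false

/-!
# Module E: prime rings generated by a P-data with invertible differences are domains
-/

noncomputable section

open scoped TensorProduct BigOperators

namespace MPcc24

universe u

section Dom

variable {k A : Type u} [Field k] [CommRing A] [Algebra k A] [WAlg k A]
variable {S : Type u} [Ring S] [Algebra k S] {r : ℕ} {n : Fin r → ℕ} (dat : PData k A r n S)

namespace PData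

theorem wbr_one_one : wbr k (1 : A) 1 = 0 := wbr_self _

theorem t_mul_e1 (i : Fin r) : dat.t i * dat.e i 1 - dat.e i 1 * dat.t i = -1 := by
  have h : dat.τ (sg k i (1 : A)) = 1 := by rw [map_one, map_one]
  rw [e_t_self, h]; abel

theorem t_mul_t (i j : Fin r) : dat.t i * dat.t j = dat.t j * dat.t i := dat.τ_comm _ _

theorem V1_V (i : Fin r) (b : ℕ) :
    dat.V i 1 1 * dat.V i (b + 1) 1 - dat.V i (b + 1) 1 * dat.V i 1 1 = b • dat.V i (b + 1) 1 := by
  have := dat.V_V_self i 0 b 1 1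
  rw [wbr_one_one, map_zero, add_zero, mul_one] at this
  simpa using this

theorem VV_one (i : Fin r) (a b : ℕ) :
    dat.V i (a + 1) 1 * dat.V i (b + 1) 1 - dat.V i (b + 1) 1 * dat.V i (a + 1) 1 =
      ((b : ℤ) - a) • dat.V i (a + b + 1) 1 := by
  have := dat.V_V_self i a b 1 1
  rwa [wbr_one_one, map_zero, add_zero, mul_one] at this

theorem e1_V_one (i : Fin r) (b : ℕ) :
    dat.e i 1 * dat.V i (b + 1) 1 = dat.V i (b + 1) 1 * dat.e i 1 := by
  have := dat.e1_V i b 1
  rw [dd_one, map_zero] at this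
  exact sub_eq_zero.1 this

/-- the algebra of polynomials in the coordinates and the values at one of the shifts -/
def P0 : Subalgebra k S :=
  Algebra.adjoin k (Set.range dat.t ∪ Set.range (fun p : Fin r × ℕ => dat.V p.1 p.2 1))

theorem t_mem_P0 (i : Fin r) : dat.t i ∈ dat.P0 := Algebra.subset_adjoin (Or.inl ⟨i, rfl⟩)

theorem V_mem_P0 (i : Fin r) (a : ℕ) : dat.V i a 1 ∈ dat.P0 :=
  Algebra.subset_adjoin (Or.inr ⟨(i, a), rfl⟩)

theorem P0_le (B : Subalgebra k S) (h1 : ∀ i, dat.t i ∈ B) (h2 : ∀ i a, dat.V i a 1 ∈ B) :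
    dat.P0 ≤ B := by
  apply Algebra.adjoin_le
  rintro x (⟨i, rfl⟩ | ⟨p, rfl⟩)
  · exact h1 i
  · exact h2 p.1 p.2

theorem adl_mem_P0 {g x : S} (hg : g ∈ dat.P0) (hx : x ∈ dat.P0) : adl k g x ∈ dat.P0 := by
  rw [adl_apply]
  exact Subalgebra.sub_mem _ (Subalgebra.mul_mem _ hg hx) (Subalgebra.mul_mem _ hx hg)

/-! ### local nilpotence -/

theorem P0_le_LN_t (i : Fin r) : dat.P0 ≤ LN k (dat.t i) := by
  apply dat.P0_le
  · intro j
    exact LN_of_comm (dat.t_mul_t i j)
  · intro j a
    rcases a with _ | a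
    · by_cases hij : i = j
      · subst hij
        apply LN_of_adl
        rw [adl_apply]
        rw [V_zero, t_mul_e1]
        exact Subalgebra.neg_mem _ (Subalgebra.one_mem _)
      · exact LN_of_comm (dat.V_t_ne j i (Ne.symm hij) 0 1).symm
    · exact LN_of_comm (dat.V_t j i a 1).symm

theorem P0_le_LN_e (i : Fin r) : dat.P0 ≤ LN k (dat.e i 1) := by
  apply dat.P0_le
  · intro j
    by_cases hij : i = j
    · subst hij
      apply LN_of_adl
      rw [adl_apply]
      have : dat.e i 1 * dat.t i - dat.t i * dat.e i 1 = 1 := by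
        rw [← neg_sub, t_mul_e1, neg_neg]
      rw [this]
      exact Subalgebra.one_mem _
    · exact LN_of_comm (dat.V_t_ne i j hij 0 1)
  · intro j a
    by_cases hij : i = j
    · subst hij
      rcases a with _ | a
      · exact LN_of_comm rfl
      · exact LN_of_comm (dat.e1_V_one i a)
    · exact LN_of_comm (dat.e_V_ne i j hij a 1 1)

theorem P0_le_LN_V (i : Fin r) (m : ℕ) : dat.P0 ≤ LN k (dat.V i (m + 2) 1) := by
  apply dat.P0_le
  · intro j
    exact LN_of_comm (dat.V_t i j (m + 1) 1)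
  · intro j a
    by_cases hij : i = j
    · subst hij
      rcases a with _ | a
      · exact LN_of_comm (dat.e1_V_one i (m + 1)).symm
      · have key : ∀ c a : ℕ, n i ≤ a + c → dat.V i (a + 1) 1 ∈ LN k (dat.V i (m + 2) 1) := by
          intro c
          induction c with
          | zero =>
            intro a ha
            rw [dat.V_ge i (a + 1) (by omega), LinearMap.zero_apply]
            exact Subalgebra.zero_mem _
          | succ c ih =>
            intro a ha
            apply LN_of_adl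
            rw [adl_apply, VV_one]
            exact Subalgebra.zsmul_mem _ (ih _ (by omega)) _
        exact key (n i) a (by omega)
    · exact LN_of_comm (dat.V_V_ne i j hij (m + 2) a 1 1)

theorem P0_le_EGA (i : Fin r) : dat.P0 ≤ EGA k (dat.V i 1 1) := by
  have h0 : ∀ x : S, dat.V i 1 1 * x = x * dat.V i 1 1 → x ∈ EGA k (dat.V i 1 1) := by
    intro x hx
    refine EG_of 0 ?_
    rw [zero_smul, adl_eq_zero]; exact hx
  apply dat.P0_le
  · intro j
    exact h0 _ (dat.V_t i j 0 1)
  · intro j a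
    by_cases hij : i = j
    · subst hij
      rcases a with _ | a
      · exact h0 _ (dat.e1_V_one i 0).symm
      · exact EG_of a (by rw [adl_apply, V1_V])
    · exact h0 _ (dat.V_V_ne i j hij 1 a 1 1)

/-! ### denominators -/

/-- the denominators -/
def dens : Submonoid S := Submonoid.closure
  ({x | ∃ i j, i ≠ j ∧ x = dat.t i - dat.t j} ∪ {x | IsUnit (XX k A) ∧ ∃ i, x = dat.t i})

theorem dens_mem_P0 {u : S} (hu : u ∈ dat.dens) : u ∈ dat.P0 := by
  have : dat.dens ≤ dat.P0.toSubmonoid := by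
    apply Submonoid.closure_le.2
    rintro x (⟨i, j, _, rfl⟩ | ⟨_, i, rfl⟩)
    · exact Subalgebra.sub_mem _ (dat.t_mem_P0 i) (dat.t_mem_P0 j)
    · exact dat.t_mem_P0 i
  exact this hu

theorem t_sub_t (i j : Fin r) :
    dat.τ (sg k i (XX k A) - sg k j (XX k A)) = dat.t i - dat.t j := map_sub _ _ _

theorem dens_isUnit (hI : dat.Inv) {u : S} (hu : u ∈ dat.dens) : IsUnit u := by
  have : dat.dens ≤ IsUnit.submonoid S := by
    apply Submonoid.closure_le.2
    rintro x (⟨i, j, hij, rfl⟩ | ⟨hX, i, rfl⟩)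
    · rw [← t_sub_t]; exact hI i j hij
    · exact (hX.map (sg k i)).map dat.τ
  exact this hu

theorem dens_comm {x : S} (hx : ∀ i, dat.t i * x = x * dat.t i) {u : S} (hu : u ∈ dat.dens) :
    u * x = x * u := by
  have : dat.dens ≤ Submonoid.centralizer {x} := by
    apply Submonoid.closure_le.2
    rintro y (⟨i, j, _, rfl⟩ | ⟨_, i, rfl⟩)
    · rw [SetLike.mem_coe, Submonoid.mem_centralizer_iff]
      rintro g rfl
      rw [mul_sub, sub_mul, hx, hx]
    · rw [SetLike.mem_coe, Submonoid.mem_centralizer_iff]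
      rintro g rfl
      exact (hx i).symm
  exact (Submonoid.mem_centralizer_iff.1 (this hu) x rfl).symm

theorem dens_comm_dens {u v : S} (hu : u ∈ dat.dens) (hv : v ∈ dat.dens) : u * v = v * u :=
  dat.dens_comm (fun i => (dat.dens_comm (fun j => dat.t_mul_t j i) hv).symm) hu

theorem LN_dens_gen {u : S} (hu : u ∈ ({x | ∃ i j, i ≠ j ∧ x = dat.t i - dat.t j} ∪
    {x | IsUnit (XX k A) ∧ ∃ i, x = dat.t i} : Set S)) : dat.P0 ≤ LN k u := by
  have hcomm : ∀ x : S, (∀ i, dat.t i * x = x * dat.t i) → x ∈ LN k u := by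
    intro x hx
    exact LN_of_comm (dat.dens_comm hx (Submonoid.subset_closure hu))
  apply dat.P0_le
  · intro j
    exact hcomm _ fun i => dat.t_mul_t i j
  · intro j a
    rcases a with _ | a
    · apply LN_of_adl
      apply hcomm
      intro i
      rw [V_zero]
      have hu' : u * dat.t i = dat.t i * u :=
        dat.dens_comm (fun j => dat.t_mul_t j i) (Submonoid.subset_closure hu)
      rw [← adl_eq_zero (k := k), adl_adl]
      have h1 : adl k (dat.t i) u = 0 := adl_eq_zero.2 hu'.symm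
      have h2 : dat.t i * u - u * dat.t i = 0 := by rw [hu', sub_self]
      have h3 : adl k (dat.t i) (dat.e j 1) * u = u * adl k (dat.t i) (dat.e j 1) := by
        by_cases hij : i = j
        · subst hij
          rw [adl_apply, t_mul_e1]; simp
        · rw [adl_apply, ← dat.V_zero j, dat.V_t_ne j i (Ne.symm hij), sub_self]; simp
      rw [h2, adl_apply, adl_apply u, h3]
      simp
    · exact hcomm _ fun i => (dat.V_t j i a 1).symm

theorem ore_left_gen {g p : S} (hg : g ∈ dat.P0) : ∀ (m : ℕ) (p : S), p ∈ dat.P0 →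
    (adl k g ^ m) p = 0 → ∃ p' ∈ dat.P0, g ^ m * p = p' * g := by
  intro m
  induction m with
  | zero =>
    intro p hp h
    have : p = 0 := by simpa using h
    exact ⟨0, Subalgebra.zero_mem _, by simp [this]⟩
  | succ m ih =>
    intro p hp h
    rw [adl_pow_succ] at h
    obtain ⟨q, hq, hq2⟩ := ih _ (dat.adl_mem_P0 hg hp) h
    refine ⟨q + g ^ m * p, Subalgebra.add_mem _ hq
      (Subalgebra.mul_mem _ (Subalgebra.pow_mem _ hg _) hp), ?_⟩
    rw [add_mul, ← hq2, adl_apply, pow_succ]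
    noncomm_ring

theorem ore_right_gen {g p : S} (hg : g ∈ dat.P0) : ∀ (m : ℕ) (p : S), p ∈ dat.P0 →
    (adl k g ^ m) p = 0 → ∃ p' ∈ dat.P0, p * g ^ m = g * p' := by
  intro m
  induction m with
  | zero =>
    intro p hp h
    have : p = 0 := by simpa using h
    exact ⟨0, Subalgebra.zero_mem _, by simp [this]⟩
  | succ m ih =>
    intro p hp h
    rw [adl_pow_succ] at h
    obtain ⟨q, hq, hq2⟩ := ih _ (dat.adl_mem_P0 hg hp) h
    refine ⟨p * g ^ m - q, Subalgebra.sub_mem _
      (Subalgebra.mul_mem _ hp (Subalgebra.pow_mem _ hg _)) hq, ?_⟩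
    rw [mul_sub, ← hq2, adl_apply, pow_succ']
    noncomm_ring

theorem ore_left {v : S} (hv : v ∈ dat.dens) : ∀ p ∈ dat.P0, ∃ w ∈ dat.dens, ∃ p' ∈ dat.P0,
    w * p = p' * v := by
  unfold dens at hv
  induction hv using Submonoid.closure_induction with
  | mem g hg =>
    intro p hp
    obtain ⟨m, hm⟩ := dat.LN_dens_gen hg hp
    obtain ⟨p', hp', h⟩ := dat.ore_left_gen (p := p)
      (dat.dens_mem_P0 (Submonoid.subset_closure hg)) m p hp hm
    exact ⟨g ^ m, Submonoid.pow_mem _ (Submonoid.subset_closure hg) m, p', hp', h⟩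
  | one => intro p hp; exact ⟨1, Submonoid.one_mem _, p, hp, by simp⟩
  | mul x y hx hy ihx ihy =>
    intro p hp
    obtain ⟨w, hw, p1, hp1, h1⟩ := ihy p hp
    obtain ⟨w', hw', p2, hp2, h2⟩ := ihx p1 hp1
    refine ⟨w' * w, Submonoid.mul_mem _ hw' hw, p2, hp2, ?_⟩
    rw [mul_assoc, h1, ← mul_assoc, h2, mul_assoc]

theorem ore_right {v : S} (hv : v ∈ dat.dens) : ∀ p ∈ dat.P0, ∃ w ∈ dat.dens, ∃ p' ∈ dat.P0,
    p * w = v * p' := by
  unfold dens at hv
  induction hv using Submonoid.closure_induction with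
  | mem g hg =>
    intro p hp
    obtain ⟨m, hm⟩ := dat.LN_dens_gen hg hp
    obtain ⟨p', hp', h⟩ := dat.ore_right_gen (p := p)
      (dat.dens_mem_P0 (Submonoid.subset_closure hg)) m p hp hm
    exact ⟨g ^ m, Submonoid.pow_mem _ (Submonoid.subset_closure hg) m, p', hp', h⟩
  | one => intro p hp; exact ⟨1, Submonoid.one_mem _, p, hp, by simp⟩
  | mul x y hx hy ihx ihy =>
    intro p hp
    obtain ⟨w, hw, p1, hp1, h1⟩ := ihx p hp
    obtain ⟨w', hw', p2, hp2, h2⟩ := ihy p1 hp1
    refine ⟨w * w', Submonoid.mul_mem _ hw hw', p2, hp2, ?_⟩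
    rw [← mul_assoc, h1, mul_assoc, h2, mul_assoc]

/-- the elements with a left denominator -/
def LD : Subalgebra k S where
  carrier := {x | ∃ u ∈ dat.dens, u * x ∈ dat.P0}
  mul_mem' := by
    rintro x y ⟨u, hu, hx⟩ ⟨v, hv, hy⟩
    obtain ⟨w, hw, p', hp', h⟩ := dat.ore_left hv _ hx
    refine ⟨w * u, Submonoid.mul_mem _ hw hu, ?_⟩
    have : w * u * (x * y) = p' * (v * y) := by
      rw [← mul_assoc p', ← h]; noncomm_ring
    rw [this]
    exact Subalgebra.mul_mem _ hp' hy
  one_mem' := ⟨1, Submonoid.one_mem _, by simp⟩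
  add_mem' := by
    rintro x y ⟨u, hu, hx⟩ ⟨v, hv, hy⟩
    refine ⟨u * v, Submonoid.mul_mem _ hu hv, ?_⟩
    rw [mul_add]
    refine Subalgebra.add_mem _ ?_ ?_
    · rw [dat.dens_comm_dens hu hv, mul_assoc]
      exact Subalgebra.mul_mem _ (dat.dens_mem_P0 hv) hx
    · rw [mul_assoc]
      exact Subalgebra.mul_mem _ (dat.dens_mem_P0 hu) hy
  zero_mem' := ⟨1, Submonoid.one_mem _, by simp⟩
  algebraMap_mem' := by
    intro c
    exact ⟨1, Submonoid.one_mem _, by rw [one_mul]; exact Subalgebra.algebraMap_mem _ c⟩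

theorem mem_LD {x : S} : x ∈ dat.LD ↔ ∃ u ∈ dat.dens, u * x ∈ dat.P0 := Iff.rfl

theorem P0_le_LD : dat.P0 ≤ dat.LD := fun x hx => ⟨1, Submonoid.one_mem _, by simpa using hx⟩

theorem LD_div {u x : S} (hu : u ∈ dat.dens) (h : u * x ∈ dat.LD) : x ∈ dat.LD := by
  obtain ⟨v, hv, hx⟩ := h
  exact ⟨v * u, Submonoid.mul_mem _ hv hu, by rw [mul_assoc]; exact hx⟩

theorem t_mem_dens (hX : IsUnit (XX k A)) (i : Fin r) : dat.t i ∈ dat.dens :=
  Submonoid.subset_closure (Or.inr ⟨hX, i, rfl⟩)

theorem τ_sg_mem_LD (i : Fin r) (f : A) : dat.τ (sg k i f) ∈ dat.LD := by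
  have key := WAlg.ind (k := k) (A := A)
    (Submodule.comap (dat.τ.toLinearMap ∘ₗ (sg k i).toLinearMap) (Subalgebra.toSubmodule dat.LD))
  have h := key ?_ ?_ ?_
  · have hf : f ∈ (⊤ : Submodule k A) := trivial
    rw [← h] at hf
    exact hf
  · change dat.τ (sg k i 1) ∈ dat.LD
    rw [map_one, map_one]
    exact Subalgebra.one_mem _
  · intro f hf
    change dat.τ (sg k i (XX k A * f)) ∈ dat.LD
    rw [map_mul, map_mul]
    exact Subalgebra.mul_mem _ (dat.P0_le_LD (dat.t_mem_P0 i)) hf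
  · intro hX f hf
    change dat.τ (sg k i (XX k A * f)) ∈ dat.LD at hf
    rw [map_mul, map_mul] at hf
    exact dat.LD_div (dat.t_mem_dens hX i) hf

theorem τ_mem_LD (a : TA k A (Fin r)) : dat.τ a ∈ dat.LD := by
  have ha : a ∈ Algebra.adjoin k (⋃ i : Fin r, Set.range (sg k (A := A) i)) := by
    rw [TA_adjoin]; trivial
  induction ha using Algebra.adjoin_induction with
  | mem z hz =>
    obtain ⟨i, hi⟩ := Set.mem_iUnion.1 hz
    obtain ⟨f, rfl⟩ := hi
    exact dat.τ_sg_mem_LD i f
  | algebraMap c =>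
    rw [AlgHom.commutes]
    exact Subalgebra.algebraMap_mem _ c
  | add a b _ _ ha hb => rw [map_add]; exact Subalgebra.add_mem _ ha hb
  | mul a b _ _ ha hb => rw [map_mul]; exact Subalgebra.mul_mem _ ha hb

theorem V_mem_LD (i : Fin r) (a : ℕ) (f : A) : dat.V i a f ∈ dat.LD := by
  have key := WAlg.ind (k := k) (A := A)
    (⨅ a : ℕ, Submodule.comap (dat.V i a) (Subalgebra.toSubmodule dat.LD))
  have hmem : ∀ f : A, f ∈ (⨅ a : ℕ, Submodule.comap (dat.V i a)
      (Subalgebra.toSubmodule dat.LD)) ↔ ∀ a, dat.V i a f ∈ dat.LD := by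
    intro f
    rw [Submodule.mem_iInf]
    rfl
  have h := key ?_ ?_ ?_
  · have hf : f ∈ (⊤ : Submodule k A) := trivial
    rw [← h, hmem] at hf
    exact hf a
  · rw [hmem]
    intro a
    exact dat.P0_le_LD (dat.V_mem_P0 i a)
  · intro f hf
    rw [hmem] at hf ⊢
    intro a
    rw [V_X]
    exact Subalgebra.add_mem _ (hf _)
      (Subalgebra.mul_mem _ (dat.P0_le_LD (dat.t_mem_P0 i)) (hf a))
  · intro hX f hf
    rw [hmem] at hf ⊢
    have key : ∀ c a : ℕ, n i ≤ a + c → dat.V i a f ∈ dat.LD := by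
      intro c
      induction c with
      | zero =>
        intro a ha
        rw [dat.V_ge i a (by omega), LinearMap.zero_apply]
        exact Subalgebra.zero_mem _
      | succ c ih =>
        intro a ha
        have h1 := hf a
        rw [V_X] at h1
        have h2 := Subalgebra.sub_mem _ h1 (ih (a + 1) (by omega))
        rw [add_sub_cancel_left] at h2
        exact dat.LD_div (dat.t_mem_dens hX i) h2
    intro a
    exact key (n i) a (by omega)

theorem LD_eq_top (hI : dat.Inv) (hG : dat.Gen) : dat.LD = ⊤ := by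
  apply hG
  · exact dat.τ_mem_LD
  · intro i f; exact dat.V_mem_LD i 0 f
  · intro i j hij s hs
    refine ⟨dat.t i - dat.t j, Submonoid.subset_closure (Or.inl ⟨i, j, hij, rfl⟩), ?_⟩
    obtain ⟨w, hw⟩ := hI i j hij
    rw [← hw] at hs
    have : s = ((w⁻¹ : Sˣ) : S) := by
      have := congrArg (fun z => z * ((w⁻¹ : Sˣ) : S)) hs
      simpa [mul_assoc] using this
    rw [← t_sub_t, ← hw, this, Units.mul_inv]
    exact Subalgebra.one_mem _

theorem exists_left_den (hI : dat.Inv) (hG : dat.Gen) (x : S) : ∃ u ∈ dat.dens, u * x ∈ dat.P0 := by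
  have : x ∈ dat.LD := by rw [dat.LD_eq_top hI hG]; trivial
  exact this

theorem exists_right_den (hI : dat.Inv) (hG : dat.Gen) (x : S) : ∃ u ∈ dat.dens, x * u ∈ dat.P0 := by
  obtain ⟨u, hu, hx⟩ := dat.exists_left_den hI hG x
  obtain ⟨w, hw, p', hp', h⟩ := dat.ore_right hu _ hx
  refine ⟨w, hw, ?_⟩
  have h1 : x * w = p' := by
    have := dat.dens_isUnit hI hu
    apply this.mul_left_cancel
    rw [← mul_assoc, h]
  rw [h1]; exact hp'

/-! ### the reduction of zero divisors -/

/-- the elements of `P0` commuting with the coordinates, the derivations and the high shifts -/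
def CC (m : ℕ) : Set S := {x | x ∈ dat.P0 ∧ (∀ i, adl k (dat.t i) x = 0) ∧
  (∀ i, adl k (dat.e i 1) x = 0) ∧ ∀ i b, m ≤ b → adl k (dat.V i (b + 1) 1) x = 0}

theorem adl_zero' (x : S) : adl k (0 : S) x = 0 := by simp [adl_apply]

theorem adl_comm_zero {g h : S} (hgh : g * h = h * g) (x : S) : adl k (g * h - h * g) x = 0 := by
  rw [hgh, sub_self, adl_zero']

theorem adl_scalar (x : S) : adl k (-1 : S) x = 0 := by simp [adl_apply]

theorem adl_zsmul (c : ℤ) (g x : S) : adl k (c • g) x = c • adl k g x := by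
  simp only [adl_apply, smul_sub, smul_mul_assoc, mul_smul_comm]

variable [CharZero k]

theorem bad_t (h : Bad (dat.P0 : Set S)) :
    Bad {x | x ∈ (dat.P0 : Set S) ∧ ∀ i ∈ (Finset.univ : Finset (Fin r)), adl k (dat.t i) x = 0} :=
  Bad.family (k := k) Finset.univ dat.t (dat.P0 : Set S)
    (fun i x hx => dat.adl_mem_P0 (dat.t_mem_P0 i) hx)
    (fun i x hx => dat.P0_le_LN_t i hx)
    (fun i j x hx => adl_comm_zero (dat.t_mul_t i j) x) h

theorem e1_e1 (i j : Fin r) : dat.e i 1 * dat.e j 1 = dat.e j 1 * dat.e i 1 := by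
  by_cases hij : i = j
  · rw [hij]
  · exact dat.e_V_ne i j hij 0 1 1

theorem bad_e (h : Bad (dat.P0 : Set S)) :
    Bad {x | x ∈ dat.P0 ∧ (∀ i, adl k (dat.t i) x = 0) ∧ ∀ i, adl k (dat.e i 1) x = 0} := by
  have h1 := Bad.family (k := k) (Finset.univ : Finset (Fin r)) (fun i => dat.e i 1) _
    (fun i x hx => ?_) (fun i x hx => dat.P0_le_LN_e i hx.1)
    (fun i j x hx => adl_comm_zero (dat.e1_e1 i j) x) (dat.bad_t h)
  · refine h1.mono ?_
    rintro x ⟨⟨h2, h3⟩, h4⟩
    exact ⟨h2, fun i => h3 i (Finset.mem_univ i), fun i => h4 i (Finset.mem_univ i)⟩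
  · refine ⟨dat.adl_mem_P0 (dat.V_mem_P0 i 0) hx.1, fun j _ => ?_⟩
    rw [adl_adl, hx.2 j (Finset.mem_univ j), map_zero, add_zero]
    by_cases hij : j = i
    · subst hij
      rw [t_mul_e1, adl_scalar]
    · exact adl_comm_zero (dat.V_t_ne i j (Ne.symm hij) 0 1).symm x

theorem bad_V (h : Bad (dat.P0 : Set S)) : ∀ m : ℕ, Bad (dat.CC (m + 1)) := by
  have key : ∀ c m : ℕ, (∀ i, n i ≤ m + c) → Bad (dat.CC (m + 1)) := by
    intro c
    induction c with
    | zero =>
      intro m hm
      refine (dat.bad_e h).mono ?_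
      rintro x ⟨h1, h2, h3⟩
      refine ⟨h1, h2, h3, fun i b hb => ?_⟩
      have := hm i
      rw [dat.V_ge i (b + 1) (by omega), LinearMap.zero_apply, adl_zero']
    | succ c ih =>
      intro m hm
      have h1 := Bad.family (k := k) (Finset.univ : Finset (Fin r)) (fun i => dat.V i (m + 2) 1) _
        (fun i x hx => ?_) (fun i x hx => dat.P0_le_LN_V i m hx.1) (fun i j x hx => ?_)
        (ih (m + 1) (fun i => by have := hm i; omega))
      · refine h1.mono ?_
        rintro x ⟨⟨h1, h2, h3, h4⟩, h5⟩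
        refine ⟨h1, h2, h3, fun i b hb => ?_⟩
        rcases Nat.lt_or_ge (m + 1) b with hb' | hb'
        · exact h4 i b (by omega)
        · have : b = m + 1 := by omega
          subst this
          exact h5 i (Finset.mem_univ i)
      · obtain ⟨h1, h2, h3, h4⟩ := hx
        refine ⟨dat.adl_mem_P0 (dat.V_mem_P0 i _) h1, fun j => ?_, fun j => ?_, fun j b hb => ?_⟩
        · rw [adl_adl, h2 j, map_zero, add_zero]
          exact adl_comm_zero (dat.V_t i j (m + 1) 1).symm x
        · rw [adl_adl, h3 j, map_zero, add_zero]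
          apply adl_comm_zero
          by_cases hij : j = i
          · subst hij
            exact dat.e1_V_one j (m + 1)
          · exact dat.e_V_ne j i hij (m + 2) 1 1
        · rw [adl_adl, h4 j b hb, map_zero, add_zero]
          by_cases hij : j = i
          · subst hij
            rw [VV_one, adl_zsmul, h4 j (b + (m + 1)) (by omega), smul_zero]
          · exact adl_comm_zero (dat.V_V_ne j i hij (b + 1) (m + 2) 1 1) x
      · apply adl_comm_zero
        by_cases hij : i = j
        · rw [hij]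
        · exact dat.V_V_ne i j hij (m + 2) (m + 2) 1 1
  intro m
  refine key (Finset.univ.sup n) m fun i => ?_
  have := Finset.le_sup (f := n) (Finset.mem_univ i)
  omega

theorem bad_W (h : Bad (dat.P0 : Set S)) :
    Bad {x | x ∈ dat.CC 1 ∧ ∀ i, ∃ l : ℕ, adl k (dat.V i 1 1) x = l • x} := by
  have h1 := Bad.familyE (k := k) (Finset.univ : Finset (Fin r)) (fun i => dat.V i 1 1) _
    (fun i x hx a => ?_) (fun x hx c => ?_) (fun i x hx => dat.P0_le_EGA i hx.1)
    (fun i j x hx => ?_) (dat.bad_V h 0)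
  · refine h1.mono ?_
    rintro x ⟨h2, h3⟩
    exact ⟨h2, fun i => h3 i (Finset.mem_univ i)⟩
  · obtain ⟨h1, h2, h3, h4⟩ := hx
    refine ⟨Subalgebra.sub_mem _ (dat.adl_mem_P0 (dat.V_mem_P0 i _) h1)
      (Subalgebra.nsmul_mem _ h1 a), fun j => ?_, fun j => ?_, fun j b hb => ?_⟩
    · rw [map_sub, map_nsmul, h2 j, smul_zero, sub_zero, adl_adl, h2 j, map_zero, add_zero]
      exact adl_comm_zero (dat.V_t i j 0 1).symm x
    · rw [map_sub, map_nsmul, h3 j, smul_zero, sub_zero, adl_adl, h3 j, map_zero, add_zero]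
      apply adl_comm_zero
      by_cases hij : j = i
      · subst hij
        exact dat.e1_V_one j 0
      · exact dat.e_V_ne j i hij 1 1 1
    · rw [map_sub, map_nsmul, h4 j b hb, smul_zero, sub_zero, adl_adl, h4 j b hb, map_zero,
        add_zero]
      by_cases hij : j = i
      · subst hij
        have := dat.VV_one j b 0
        rw [zero_add] at this
        rw [this, adl_zsmul, add_zero, h4 j b hb, smul_zero]
      · exact adl_comm_zero (dat.V_V_ne j i hij (b + 1) 1 1 1) x
  · obtain ⟨h1, h2, h3, h4⟩ := hx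
    refine ⟨Subalgebra.smul_mem _ h1 c, fun j => ?_, fun j => ?_, fun j b hb => ?_⟩
    · rw [map_smul, h2 j, smul_zero]
    · rw [map_smul, h3 j, smul_zero]
    · rw [map_smul, h4 j b hb, smul_zero]
  · apply adl_comm_zero
    by_cases hij : i = j
    · rw [hij]
    · exact dat.V_V_ne i j hij 1 1 1 1

/-- the elements moved across `x` -/
def NN (x : S) : Subalgebra k S where
  carrier := {s | ∃ s', x * s = s' * x}
  mul_mem' := by
    rintro s t ⟨s', hs⟩ ⟨t', ht⟩
    exact ⟨s' * t', by rw [← mul_assoc, hs, mul_assoc, ht, mul_assoc]⟩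
  one_mem' := ⟨1, by simp⟩
  add_mem' := by
    rintro s t ⟨s', hs⟩ ⟨t', ht⟩
    exact ⟨s' + t', by rw [mul_add, hs, ht, add_mul]⟩
  zero_mem' := ⟨0, by simp⟩
  algebraMap_mem' := fun c => ⟨algebraMap k S c, (Algebra.commutes c x).symm⟩

theorem main_domain (hI : dat.Inv) (hG : dat.Gen) (hP : PrimeR S) : NoZeroDivisors S := by
  constructor
  intro a b hab
  by_contra hcon
  rw [not_or] at hcon
  have hbad : Bad (dat.P0 : Set S) := by
    obtain ⟨u, hu, hau⟩ := dat.exists_left_den hI hG a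
    obtain ⟨v, hv, hbv⟩ := dat.exists_right_den hI hG b
    refine ⟨u * a, hau, b * v, hbv, ?_, ?_, ?_⟩
    · intro h
      exact hcon.1 ((dat.dens_isUnit hI hu).mul_right_eq_zero.1 h)
    · intro h
      exact hcon.2 ((dat.dens_isUnit hI hv).mul_left_eq_zero.1 h)
    · rw [mul_assoc, ← mul_assoc a, hab]; simp
  obtain ⟨x, ⟨⟨hx1, hx2, hx3, hx4⟩, hx5⟩, y, _, hx0, hy0, hxy⟩ := dat.bad_W hbad
  have hle : dat.P0 ≤ NN (k := k) x := by
    apply dat.P0_le
    · intro i
      exact ⟨dat.t i, (adl_eq_zero.1 (hx2 i)).symm⟩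
    · intro i c
      rcases c with _ | c
      · exact ⟨dat.e i 1, (adl_eq_zero.1 (hx3 i)).symm⟩
      rcases c with _ | c
      · obtain ⟨l, hl⟩ := hx5 i
        refine ⟨dat.V i 1 1 - (l : S), ?_⟩
        rw [adl_apply] at hl
        rw [sub_mul, ← nsmul_eq_mul, ← hl]
        abel
      · exact ⟨dat.V i (c + 2) 1, (adl_eq_zero.1 (hx4 i (c + 1) (by omega))).symm⟩
  have hxSy : ∀ s, x * s * y = 0 := by
    intro s
    obtain ⟨u, hu, hs⟩ := dat.exists_left_den hI hG s
    obtain ⟨s', hs'⟩ := hle hs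
    have hcomm : u * x = x * u := dat.dens_comm (fun i => adl_eq_zero.1 (hx2 i)) hu
    apply (dat.dens_isUnit hI hu).mul_right_eq_zero.1
    calc u * (x * s * y) = (u * x) * s * y := by noncomm_ring
      _ = x * (u * s) * y := by rw [hcomm]; noncomm_ring
      _ = s' * (x * y) := by rw [hs', mul_assoc]
      _ = 0 := by rw [hxy, mul_zero]
  rcases hP.2 x y hxSy with h | h
  · exact hx0 h
  · exact hy0 h

end PData

end Dom

theorem specDomain : SpecDomain := by
  intro k A S _ _ _ _ _ _ _ r n dat hI hG hP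
  exact dat.main_domain hI hG hP

end MPcc24
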