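import Pool.Agent.Lib.MP_cc24ba_al.Spec

section
set_option linter.all false

/-!
# Quotients of data, Zorn's lemma
-/

noncomputable section

open scoped TensorProduct BigOperators

namespace MPcc24

universe u v w

section map

variable {k : Type u} {A : Type u} [Field k] [CommRing A] [Algebra k A] [WAlg k A]
variable {S : Type v} [Ring S] [Algebra k S] {S' : Type w} [Ring S'] [Algebra k S']

theorem sh_map (φ : S →ₐ[k] S') (t : S) (Θ : A →ₗ[k] S) :
    sh (φ t) (φ.toLinearMap ∘ₗ Θ) = φ.toLinearMap ∘ₗ sh t Θ := by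
  ext f
  simp [sh_apply]

theorem sh_iterate_map (φ : S →ₐ[k] S') (t : S) (Θ : A →ₗ[k] S) (a : ℕ) :
    (sh (φ t))^[a] (φ.toLinearMap ∘ₗ Θ) = φ.toLinearMap ∘ₗ (sh t)^[a] Θ := by
  induction a with
  | zero => rfl
  | succ a ih => rw [Function.iterate_succ_apply', Function.iterate_succ_apply', ih, sh_map]

/-- the image of P-data -/
def PData.map {r : ℕ} {n : Fin r → ℕ} (dat : PData k A r n S) (φ : S →ₐ[k] S') :
    PData k A r n S' where
  τ := φ.comp dat.τ
  e i := φ.toLinearMap ∘ₗ dat.e i
  eτ i j f g := by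
    have h := congrArg φ (dat.eτ i j f g)
    rw [map_sub, map_mul, map_mul] at h
    simp only [LinearMap.comp_apply, AlgHom.toLinearMap_apply, AlgHom.comp_apply]
    rw [h]; split_ifs <;> simp
  ee i j f g := by
    have h := congrArg φ (dat.ee i j f g)
    rw [map_sub, map_mul, map_mul] at h
    simp only [LinearMap.comp_apply, AlgHom.toLinearMap_apply]
    rw [h]; split_ifs <;> simp
  ord i := by
    have h := sh_iterate_map φ (dat.τ (sg k i (XX k A))) (dat.e i) (n i)
    rw [dat.ord i, LinearMap.comp_zero] at h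
    exact h

variable {r : ℕ} {n : Fin r → ℕ} (dat : PData k A r n S) (φ : S →ₐ[k] S')

theorem PData.map_tot (f : A) : (dat.map φ).tot f = φ (dat.tot f) := by
  rw [PData.tot_apply, PData.tot_apply, map_sum]; rfl

theorem PData.map_hom (u : UW k A) : (dat.map φ).hom u = φ (dat.hom u) := by
  have : (dat.map φ).hom = φ.comp dat.hom := by
    apply UW_hom_ext
    intro f
    rw [AlgHom.comp_apply, PData.hom, PData.hom, liftE_eU, liftE_eU, PData.map_tot]
  exact DFunLike.congr_fun this u

theorem PData.map_V (i : Fin r) (a : ℕ) (f : A) : (dat.map φ).V i a f = φ (dat.V i a f) := by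
  have h := sh_iterate_map φ (dat.τ (sg k i (XX k A))) (dat.e i) a
  exact DFunLike.congr_fun h f

theorem PData.map_ci (i : Fin r) : (dat.map φ).ci i = φ (dat.ci i) := by
  unfold PData.ci
  split_ifs with h1 h2
  · rw [map_neg]; rfl
  · rw [PData.map_V, map_mul φ, map_mul φ, map_sub φ, map_one φ, map_ofNat φ]
  · rw [PData.map_V, map_zsmul, map_pow]

theorem PData.map_inv (h : dat.Inv) : (dat.map φ).Inv := fun i j hij => (h i j hij).map φ

theorem PData.map_gen (hφ : Function.Surjective φ) (h : dat.Gen) (hinv : dat.Inv) :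
    (dat.map φ).Gen := by
  intro B h1 h2 h3
  have hB : B.comap φ = ⊤ := by
    apply h
    · intro a; exact h1 a
    · intro i f; exact h2 i f
    · intro i j hij s hs
      apply h3 i j hij
      have := congrArg φ hs
      rw [map_mul, map_one] at this
      exact this
  rw [eq_top_iff]
  intro x _
  obtain ⟨y, rfl⟩ := hφ x
  have : y ∈ B.comap φ := by rw [hB]; trivial
  exact this

end map

section zorn

variable {R : Type u} {S : Type v} [Ring R] [Ring S]

/-- Zorn's lemma: an ideal maximal with contraction in `P` -/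
theorem exists_maximal (φ : R →+* S) (P : TwoSidedIdeal R) (hker : KerLe φ P) :
    ∃ I : TwoSidedIdeal S, (∀ u, φ u ∈ I → u ∈ P) ∧ ∀ J, I < J → ∃ u, u ∉ P ∧ φ u ∈ J := by
  have hz := zorn_le_nonempty₀ {I : TwoSidedIdeal S | ∀ u, φ u ∈ I → u ∈ P} (by
    intro c hc hchain I0 hI0
    refine ⟨TwoSidedIdeal.mk' (⋃ I ∈ c, (I : Set S)) ?_ ?_ ?_ ?_ ?_, ?_, ?_⟩
    · exact Set.mem_iUnion₂.2 ⟨I0, hI0, I0.zero_mem⟩
    · intro x y hx hy
      obtain ⟨I, hI, hx⟩ := Set.mem_iUnion₂.1 hx
      obtain ⟨J, hJ, hy⟩ := Set.mem_iUnion₂.1 hy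
      rcases hchain.total hI hJ with h | h
      · exact Set.mem_iUnion₂.2 ⟨J, hJ, J.add_mem (h hx) hy⟩
      · exact Set.mem_iUnion₂.2 ⟨I, hI, I.add_mem hx (h hy)⟩
    · intro x hx
      obtain ⟨I, hI, hx⟩ := Set.mem_iUnion₂.1 hx
      exact Set.mem_iUnion₂.2 ⟨I, hI, I.neg_mem hx⟩
    · intro x y hy
      obtain ⟨I, hI, hy⟩ := Set.mem_iUnion₂.1 hy
      exact Set.mem_iUnion₂.2 ⟨I, hI, I.mul_mem_left _ _ hy⟩
    · intro x y hx
      obtain ⟨I, hI, hx⟩ := Set.mem_iUnion₂.1 hx
      exact Set.mem_iUnion₂.2 ⟨I, hI, I.mul_mem_right _ _ hx⟩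
    · intro u hu
      rw [TwoSidedIdeal.mem_mk'] at hu
      obtain ⟨I, hI, hx⟩ := Set.mem_iUnion₂.1 hu
      exact hc hI u hx
    · intro I hI x hx
      rw [TwoSidedIdeal.mem_mk']
      exact Set.mem_iUnion₂.2 ⟨I, hI, hx⟩) ⊥ (by
    intro u hu
    exact hker u ((TwoSidedIdeal.mem_bot S).1 hu))
  obtain ⟨I, _, hI⟩ := hz
  refine ⟨I, hI.1, fun J hJ => ?_⟩
  by_contra hcon
  replace hcon : ∀ u, u ∉ P → φ u ∉ J := fun u hu hu' => hcon ⟨u, hu, hu'⟩
  have : J ∈ {I : TwoSidedIdeal S | ∀ u, φ u ∈ I → u ∈ P} := by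
    intro u hu
    by_contra hu'
    exact hcon u hu' hu
  exact absurd (hI.2 this hJ.le) (not_le_of_gt hJ)

/-- the quotient by such an ideal is a prime ring -/
theorem prime_of_maximal (φ : R →+* S) (P : TwoSidedIdeal R) (hP : PrimeT P)
    (I : TwoSidedIdeal S) (h1 : ∀ u, φ u ∈ I → u ∈ P)
    (h2 : ∀ J, I < J → ∃ u, u ∉ P ∧ φ u ∈ J) : PrimeT I := by
  refine ⟨fun h => hP.1 (h1 1 (by rwa [map_one])), fun x y hxy => ?_⟩
  by_contra hcon
  rw [not_or] at hcon
  obtain ⟨hx, hy⟩ := hcon
  let Jy : TwoSidedIdeal S := TwoSidedIdeal.mk' {b | ∀ r, x * r * b ∈ I}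
    (fun r => by rw [mul_zero]; exact I.zero_mem)
    (fun {a b} ha hb r => by rw [mul_add]; exact I.add_mem (ha r) (hb r))
    (fun {a} ha r => by rw [mul_neg]; exact I.neg_mem (ha r))
    (fun {a b} hb r => by rw [← mul_assoc, mul_assoc x r a]; exact hb _)
    (fun {b a} hb r => by rw [← mul_assoc]; exact I.mul_mem_right _ _ (hb r))
  have hJy : ∀ b, b ∈ Jy ↔ ∀ r, x * r * b ∈ I := fun b => by
    simp only [Jy, TwoSidedIdeal.mem_mk', Set.mem_setOf_eq]
  obtain ⟨v, hv, hv'⟩ := h2 Jy (lt_of_le_of_ne (fun b hb => (hJy b).2 fun r =>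
    I.mul_mem_left _ _ hb) (fun h => hy (by rw [h]; exact (hJy y).2 hxy)))
  rw [hJy] at hv'
  let Jx : TwoSidedIdeal S := TwoSidedIdeal.mk' {a | ∀ r, a * r * φ v ∈ I}
    (fun r => by rw [zero_mul, zero_mul]; exact I.zero_mem)
    (fun {a b} ha hb r => by rw [add_mul, add_mul]; exact I.add_mem (ha r) (hb r))
    (fun {a} ha r => by rw [neg_mul, neg_mul]; exact I.neg_mem (ha r))
    (fun {a b} hb r => by rw [mul_assoc, mul_assoc, ← mul_assoc b]; exact I.mul_mem_left _ _ (hb r))
    (fun {b a} hb r => by rw [mul_assoc b a r]; exact hb _)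
  have hJx : ∀ a, a ∈ Jx ↔ ∀ r, a * r * φ v ∈ I := fun a => by
    simp only [Jx, TwoSidedIdeal.mem_mk', Set.mem_setOf_eq]
  obtain ⟨u, hu, hu'⟩ := h2 Jx (lt_of_le_of_ne (fun a ha => (hJx a).2 fun r =>
    I.mul_mem_right _ _ (I.mul_mem_right _ _ ha)) (fun h => hx (by rw [h]; exact (hJx x).2 hv')))
  rw [hJx] at hu'
  rcases hP.2 u v (fun r => h1 _ (by rw [map_mul, map_mul]; exact hu' (φ r))) with h | h
  · exact hu h
  · exact hv h

end zorn

end MPcc24
end
end

section
set_option linter.all false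

/-!
# The main theorem from the modules
-/

noncomputable section

open scoped TensorProduct BigOperators

namespace MPcc24

universe u

/-- the quotient map as an algebra map -/
def quotA (k : Type u) {S : Type u} [Field k] [Ring S] [Algebra k S] (I : TwoSidedIdeal S) :
    S →ₐ[k] I.ringCon.Quotient :=
  { I.ringCon.mk' with commutes' := fun _ => rfl }

theorem quotA_surj (k : Type u) {S : Type u} [Field k] [Ring S] [Algebra k S]
    (I : TwoSidedIdeal S) : Function.Surjective (quotA k I) := fun x => by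
  obtain ⟨y, rfl⟩ := Quotient.exists_rep x
  exact ⟨y, rfl⟩

theorem quotA_eq_zero (k : Type u) {S : Type u} [Field k] [Ring S] [Algebra k S]
    (I : TwoSidedIdeal S) (x : S) : quotA k I x = 0 ↔ x ∈ I := by
  have h0 : quotA k I x = 0 ↔ quotA k I x = quotA k I 0 := by rw [map_zero]
  rw [h0, TwoSidedIdeal.mem_iff]
  exact I.ringCon.eq

theorem TT_zero_one {k : Type u} {A : Type u} [Field k] [CommRing A] [Algebra k A] [WAlg k A]
    {S : Type*} [Ring S] [Algebra k S] (e : A →ₗ[k] S) : TT e 0 1 = 1 := by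
  have h : (1 : TA k A (Fin 0)) = tp k (fun _ => 1) := rfl
  rw [h, TT_tp]; simp

theorem specMain (h1 : SpecThm1.{u}) (hC : SpecCover.{u}) (hD : SpecLoc.{u}) (hE : SpecDomain.{u})
    (hF1 : SpecHConstr.{u}) (hF2 : SpecTrace.{u}) (hG : SpecFine.{u}) (hH : SpecFinal.{u})
    (hI : SpecUDom.{u}) : SpecMain.{u} := by
  intro k A _ _ _ _ _ hdom P hP x y hxy
  classical
  by_cases hbot : P = ⊥
  · have := hI k A hdom
    subst hbot
    rw [TwoSidedIdeal.mem_bot] at hxy ⊢
    rw [TwoSidedIdeal.mem_bot]
    exact mul_eq_zero.1 hxy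
  have hex : ∃ d M : ℕ, ∀ F : TA k A (Fin d),
      TT (eU (k := k) (A := A)) d (Dis k A (Fin d) ^ M * F) ∈ P := h1 k A P hbot
  have hmin : ∀ d < Nat.find hex, ∀ N, ∃ F : TA k A (Fin d),
      TT (eU (k := k) (A := A)) d (Dis k A (Fin d) ^ N * F) ∉ P := by
    intro d hd N
    by_contra hcon
    push Not at hcon
    exact Nat.find_min hex hd ⟨N, hcon⟩
  have hd0 : Nat.find hex ≠ 0 := by
    intro h0
    obtain ⟨M, hM⟩ := Nat.find_spec hex
    revert hM
    rw [h0]
    intro hM
    apply hP.1
    have := hM 1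
    have hD0 : Dis k A (Fin 0) = 1 := by simp [Dis]
    rwa [hD0, one_pow, one_mul, TT_zero_one] at this
  obtain ⟨r₀, hr₀⟩ := Nat.exists_eq_succ_of_ne_zero hd0
  obtain ⟨M, hM⟩ := Nat.find_spec hex
  revert hM
  rw [hr₀]
  intro hM
  obtain ⟨n₀, hn₀, hcov⟩ := hC k A P hP r₀ M hM (hmin r₀ (by omega) M)
  obtain ⟨r, n₁, hr, hn₁, hloc⟩ := hD k A P hP r₀ n₀ hn₀ hcov
  obtain ⟨n, hn, ⟨S, _, _, dat, hinv, hker⟩, hfine⟩ := hG k A P r (fun _ => n₁) (fun _ => hn₁) hloc
  obtain ⟨S', _, _, dat', hinv', hgen', ⟨H⟩, hk'⟩ := hF1 k A S r n dat hinv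
  have hker' : KerLe dat'.hom.toRingHom P := fun u hu => hker u (hk' u hu)
  obtain ⟨I, hI1, hI2⟩ := exists_maximal dat'.hom.toRingHom P hker'
  have hprime := prime_of_maximal dat'.hom.toRingHom P hP I hI1 hI2
  let φ := quotA k I
  have hφ : Function.Surjective φ := quotA_surj k I
  have hφ0 : ∀ x, φ x = 0 ↔ x ∈ I := quotA_eq_zero k I
  have hinv'' := dat'.map_inv φ hinv'
  have hgen'' := dat'.map_gen φ hφ hgen' hinv'
  have hnt : Nontrivial I.ringCon.Quotient := by
    refine ⟨⟨φ 1, 0, fun h => hprime.1 ((hφ0 1).1 h)⟩⟩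
  have hpr : PrimeR I.ringCon.Quotient := by
    refine ⟨hnt, fun a b hab => ?_⟩
    obtain ⟨a, rfl⟩ := hφ a
    obtain ⟨b, rfl⟩ := hφ b
    rw [hφ0, hφ0]
    apply hprime.2
    intro c
    rw [← hφ0, map_mul, map_mul]
    exact hab _
  have hnz : NoZeroDivisors I.ringCon.Quotient :=
    hE k A _ r n (dat'.map φ) hinv'' hgen'' hpr
  have hcp : ∀ x y, x * y ∈ I → x ∈ I ∨ y ∈ I := by
    intro a b hab
    rw [← hφ0, map_mul, mul_eq_zero] at hab
    rwa [hφ0, hφ0] at hab
  have hker'' : KerLe (dat'.map φ).hom.toRingHom P := by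
    intro u hu
    apply hI1 u
    have : φ (dat'.hom u) = 0 := by
      rw [← dat'.map_hom φ]; exact hu
    exact (hφ0 _).1 this
  have hci : ∀ i, dat'.ci i ∉ I := by
    intro i hi
    apply hfine _ (dat'.map φ) hinv'' hker'' hnt hnz i
    rw [dat'.map_ci, hφ0]
    exact hi
  have hfin : ∀ u ∈ P, dat'.hom u ∈ I :=
    hH k A S' r n dat' hn hinv' hgen' H P hP (hmin r (by omega)) I hI1 ⟨hprime.1, hcp⟩ hci
      (hF2 k A S' r n dat' hinv' hgen' H P hP I hI1 hI2)
  have := hfin _ hxy
  rw [map_mul] at this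
  rcases hcp _ _ this with h | h
  · exact Or.inl (hI1 _ h)
  · exact Or.inr (hI1 _ h)

end MPcc24
end
end

section
set_option linter.all false

/-!
# Commutation rules in P-data, lists of commuting factors
-/

noncomputable section

open scoped TensorProduct BigOperators

namespace MPcc24

universe u

section lists

variable {S : Type*} [Ring S]

/-- product of `f i * g i` where `f i` and `g j` commute for `i ≠ j` -/
theorem ofFn_prod_mul : ∀ {r : ℕ} (f g : Fin r → S), (∀ i j, i ≠ j → Commute (f i) (g j)) →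
    (List.ofFn fun i => f i * g i).prod = (List.ofFn f).prod * (List.ofFn g).prod
  | 0, f, g, _ => by simp
  | (r + 1), f, g, h => by
    have ih := ofFn_prod_mul (fun i : Fin r => f i.succ) (fun i => g i.succ)
      (fun i j hij => h _ _ (by simpa using hij))
    simp only [List.ofFn_succ, List.prod_cons]
    rw [ih]
    have hc : Commute (g 0) (List.ofFn fun i : Fin r => f i.succ).prod := by
      apply Commute.list_prod_right
      intro x hx
      obtain ⟨i, rfl⟩ := (List.mem_ofFn' _ _).1 hx
      exact (h _ _ (Fin.succ_ne_zero i)).symm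
    rw [mul_assoc (f 0), ← mul_assoc (g 0), hc.eq]
    simp only [mul_assoc]

/-- signs in products -/
theorem ofFn_prod_sign : ∀ {r : ℕ} (v w : Fin r → S), (∀ i, w i = v i ∨ w i = -v i) →
    (List.ofFn w).prod = (List.ofFn v).prod ∨ (List.ofFn w).prod = -(List.ofFn v).prod
  | 0, v, w, _ => by simp
  | (r + 1), v, w, h => by
    simp only [List.ofFn_succ, List.prod_cons]
    rcases ofFn_prod_sign (fun i : Fin r => v i.succ) (fun i => w i.succ) (fun i => h _) with h1 | h1 <;>
      rcases h 0 with h2 | h2 <;> rw [h1, h2]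
    · left; rfl
    · right; rw [neg_mul]
    · right; rw [mul_neg]
    · left; rw [neg_mul_neg]

/-- reordering of a product of commuting factors -/
theorem ofFn_prod_perm {r : ℕ} (u : Fin r → S) (σ : Equiv.Perm (Fin r))
    (h : ∀ i j, i ≠ j → Commute (u i) (u j)) :
    (List.ofFn fun i => u (σ i)).prod = (List.ofFn u).prod := by
  apply List.Perm.prod_eq' (Equiv.Perm.ofFn_comp_perm σ u)
  rw [List.pairwise_ofFn]
  intro i j hij
  exact h _ _ (fun hcon => (ne_of_lt hij) (σ.injective hcon))

end lists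

namespace PData

variable {k : Type u} {A : Type u} [Field k] [CommRing A] [Algebra k A] [WAlg k A]
variable {S : Type*} [Ring S] [Algebra k S]
variable {r : ℕ} {n : Fin r → ℕ} (dat : PData k A r n S)

theorem comm_ττ (a b : TA k A (Fin r)) : Commute (dat.τ a) (dat.τ b) := by
  rw [Commute, SemiconjBy, ← map_mul, ← map_mul, mul_comm]

theorem comm_e_τ (i j : Fin r) (hij : i ≠ j) (f g : A) :
    Commute (dat.e i f) (dat.τ (sg k j g)) := by
  have h := dat.eτ i j f g
  rw [if_neg hij] at h
  exact sub_eq_zero.1 h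

theorem comm_e_e (i j : Fin r) (hij : i ≠ j) (f g : A) :
    Commute (dat.e i f) (dat.e j g) := by
  have h := dat.ee i j f g
  rw [if_neg hij] at h
  exact sub_eq_zero.1 h

theorem V_zeroC (i : Fin r) (f : A) : dat.V i 0 f = dat.e i f := rfl

theorem V_succC (i : Fin r) (a : ℕ) (f : A) :
    dat.V i (a + 1) f = dat.V i a (XX k A * f) - dat.t i * dat.V i a f := by
  rw [V, Function.iterate_succ_apply']
  rfl

/-- to commute with all `V i a f` it is enough to commute with `e i f` and `t i` -/
theorem comm_V_of (i : Fin r) (x : S) (h1 : ∀ f, Commute (dat.e i f) x)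
    (h2 : Commute (dat.t i) x) (a : ℕ) : ∀ f, Commute (dat.V i a f) x := by
  induction a with
  | zero => intro f; exact h1 f
  | succ a ih =>
    intro f
    rw [V_succC]
    exact (ih _).sub_left (h2.mul_left (ih f))

theorem comm_V_τ_ne (i j : Fin r) (hij : i ≠ j) (a : ℕ) (f g : A) :
    Commute (dat.V i a f) (dat.τ (sg k j g)) :=
  comm_V_of dat i _ (fun f => comm_e_τ dat i j hij f g) (comm_ττ dat _ _) a f

theorem comm_V_e (i j : Fin r) (hij : i ≠ j) (a : ℕ) (f g : A) :
    Commute (dat.V i a f) (dat.e j g) :=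
  comm_V_of dat i _ (fun f => comm_e_e dat i j hij f g)
    (comm_e_τ dat j i hij.symm g (XX k A)).symm a f

theorem comm_V_V (i j : Fin r) (hij : i ≠ j) (a b : ℕ) (f g : A) :
    Commute (dat.V i a f) (dat.V j b g) :=
  comm_V_of dat i _ (fun f => (comm_V_e dat j i hij.symm b g f).symm)
    (comm_V_τ_ne dat j i hij.symm b g (XX k A)).symm a f

theorem comm_V_τ_self (i : Fin r) (a : ℕ) (f g : A) :
    Commute (dat.V i (a + 1) f) (dat.τ (sg k i g)) := by
  induction a generalizing f with
  | zero =>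
    rw [V_succC, V_zeroC, V_zeroC]
    have h1 := dat.eτ i i (XX k A * f) g
    have h2 := dat.eτ i i f g
    rw [if_pos rfl] at h1 h2
    have h3 : dat.τ (sg k i (XX k A * f * dd k g)) =
        dat.t i * dat.τ (sg k i (f * dd k g)) := by
      rw [t, ← map_mul, ← map_mul, mul_assoc]
    rw [h3, ← h2] at h1
    have h4 := (comm_ττ dat (sg k i (XX k A)) (sg k i g)).eq
    rw [Commute, SemiconjBy, sub_mul, mul_sub]
    rw [sub_eq_iff_eq_add] at h1
    rw [h1]
    change dat.t i * _ = _ * dat.t i at h4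
    rw [← mul_assoc (dat.τ (sg k i g)) (dat.t i), ← h4, mul_sub]
    simp only [mul_assoc]
    abel
  | succ a ih =>
    rw [V_succC]
    exact (ih _).sub_left ((comm_ττ dat _ _).mul_left (ih f))

/-- elements commuting with all functions of one variable commute with all functions -/
theorem comm_τ_ofC (x : S) (h : ∀ j g, Commute x (dat.τ (sg k j g))) (a : TA k A (Fin r)) :
    Commute x (dat.τ a) := by
  have ha : a ∈ Algebra.adjoin k (⋃ i : Fin r, Set.range (sg k (A := A) i)) := by
    rw [TA_adjoin]; trivial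
  induction ha using Algebra.adjoin_induction with
  | mem z hz =>
    obtain ⟨i, hi⟩ := Set.mem_iUnion.1 hz
    obtain ⟨f, rfl⟩ := hi
    exact h i f
  | algebraMap c => rw [AlgHom.commutes]; exact (Algebra.commutes c x).symm
  | add a b _ _ ha hb => rw [map_add]; exact ha.add_right hb
  | mul a b _ _ ha hb => rw [map_mul]; exact ha.mul_right hb

theorem comm_V_τ (i : Fin r) (a : ℕ) (f : A) (b : TA k A (Fin r)) :
    Commute (dat.V i (a + 1) f) (dat.τ b) := by
  apply comm_τ_ofC
  intro j g
  by_cases hij : i = j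
  · subst hij; exact comm_V_τ_self dat i a f g
  · exact comm_V_τ_ne dat i j hij (a + 1) f g

/-- commutators of the total map with functions -/
theorem tot_τ (f : A) (a : TA k A (Fin r)) :
    dat.tot f * dat.τ a - dat.τ a * dat.tot f = dat.τ (Dv k f a) := by
  have ha : a ∈ Algebra.adjoin k (⋃ i : Fin r, Set.range (sg k (A := A) i)) := by
    rw [TA_adjoin]; trivial
  induction ha using Algebra.adjoin_induction with
  | mem z hz =>
    obtain ⟨j, hj⟩ := Set.mem_iUnion.1 hz
    obtain ⟨g, rfl⟩ := hj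
    rw [Dv_sg, tot_apply, Finset.sum_mul, Finset.mul_sum, ← Finset.sum_sub_distrib,
      Finset.sum_eq_single j]
    · rw [dat.eτ, if_pos rfl]
    · intro i _ hi
      rw [dat.eτ, if_neg hi]
    · simp
  | algebraMap c =>
    rw [Derivation.map_algebraMap, map_zero, AlgHom.commutes, sub_eq_zero]
    exact (Algebra.commutes c _).symm
  | add a b _ _ ha hb => rw [map_add, map_add, map_add, ← ha, ← hb, mul_add, add_mul]; abel
  | mul a b _ _ ha hb =>
    have h1 : dat.tot f * dat.τ (a * b) - dat.τ (a * b) * dat.tot f =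
        (dat.tot f * dat.τ a - dat.τ a * dat.tot f) * dat.τ b +
          dat.τ a * (dat.tot f * dat.τ b - dat.τ b * dat.tot f) := by
      rw [map_mul]; noncomm_ring
    rw [h1, ha, hb, ← map_mul, ← map_mul, ← map_add, Derivation.leibniz, smul_eq_mul,
      smul_eq_mul, mul_comm (Dv k f a) b, add_comm]

end PData

end MPcc24
end
end

section
set_option linter.all false

/-!
# H2: moving the product of the derivatives to the left
-/

noncomputable section

open scoped TensorProduct BigOperators

namespace MPcc24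

universe u

section gen

variable {k : Type u} {A : Type u} [Field k] [CommRing A] [Algebra k A] [WAlg k A]

/-- the diagonal vector fields commute with the pull backs -/
theorem pmap_Dv {ι κ : Type} [Fintype ι] [DecidableEq ι] [Fintype κ] [DecidableEq κ]
    (φ : ι → κ) (f : A) (x : TA k A ι) : pmap φ (Dv k f x) = Dv k f (pmap φ x) := by
  have ha : x ∈ Algebra.adjoin k (⋃ i : ι, Set.range (sg k (A := A) i)) := by
    rw [TA_adjoin]; trivial
  induction ha using Algebra.adjoin_induction with
  | mem z hz =>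
    obtain ⟨j, hj⟩ := Set.mem_iUnion.1 hz
    obtain ⟨g, rfl⟩ := hj
    rw [Dv_sg, pmap_sg, pmap_sg, Dv_sg]
  | algebraMap c => rw [AlgHom.commutes, Derivation.map_algebraMap, Derivation.map_algebraMap,
      map_zero]
  | add a b _ _ ha hb => rw [map_add, map_add, map_add, map_add, ha, hb]
  | mul a b _ _ ha hb =>
    rw [Derivation.leibniz, map_add, smul_eq_mul, smul_eq_mul, map_mul, map_mul, map_mul, ha, hb,
      Derivation.leibniz, smul_eq_mul, smul_eq_mul]

end gen

/-- Moving an element through a product of commuting factors -/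
theorem ofFn_prod_move {S : Type*} [Ring S] : ∀ {r : ℕ} (d : Fin r → S) (x y : S) (j : Fin r),
    (∀ i, i ≠ j → Commute x (d i)) → (∀ i, i ≠ j → Commute y (d i)) →
    x * d j = d j * x - y * d j →
    x * (List.ofFn d).prod = (List.ofFn d).prod * x - y * (List.ofFn d).prod
  | 0, d, x, y, j, _, _, _ => j.elim0
  | (r + 1), d, x, y, j, hx, hy, h => by
    simp only [List.ofFn_succ, List.prod_cons]
    by_cases hj : j = 0
    · subst hj
      have hc : Commute x (List.ofFn fun i : Fin r => d i.succ).prod := by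
        apply Commute.list_prod_right
        intro z hz
        obtain ⟨i, rfl⟩ := (List.mem_ofFn' _ _).1 hz
        exact hx _ (Fin.succ_ne_zero i)
      rw [← mul_assoc, h, sub_mul, mul_assoc, hc.eq]
      simp only [mul_assoc]
    · obtain ⟨j', rfl⟩ := Fin.exists_succ_eq.2 hj
      have ih := ofFn_prod_move (fun i : Fin r => d i.succ) x y j'
        (fun i hi => hx _ (by simpa using hi)) (fun i hi => hy _ (by simpa using hi)) h
      have h0 := (hx 0 (Fin.succ_ne_zero j').symm).eq
      have h1 := (hy 0 (Fin.succ_ne_zero j').symm).eq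
      rw [← mul_assoc, h0, mul_assoc, ih, mul_sub, ← mul_assoc, ← mul_assoc, ← h1]
      simp only [mul_assoc]

namespace PData

variable {k A S : Type u} [Field k] [CommRing A] [Algebra k A] [WAlg k A]
variable [Ring S] [Algebra k S]
variable {r : ℕ} {n : Fin r → ℕ} (dat : PData k A r n S)

/-- at a point of multiplicity one `e i g = g(t_i) e i 1` -/
theorem e_of_one (i : Fin r) (hi : n i = 1) (g : A) :
    dat.e i g = dat.τ (sg k i g) * dat.e i 1 := by
  have hord := dat.ord i
  rw [hi] at hord
  have h0 : ∀ f, dat.e i (XX k A * f) = dat.τ (sg k i (XX k A)) * dat.e i f := by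
    intro f
    have := DFunLike.congr_fun hord f
    exact sub_eq_zero.1 this
  let B : Submodule k A :=
    LinearMap.ker (dat.e i - (LinearMap.mulRight k (dat.e i 1)) ∘ₗ
      (dat.τ.toLinearMap ∘ₗ (sg k (A := A) i).toLinearMap))
  have hB : ∀ f, f ∈ B ↔ dat.e i f = dat.τ (sg k i f) * dat.e i 1 := by
    intro f
    rw [LinearMap.mem_ker, LinearMap.sub_apply, sub_eq_zero]
    rfl
  have hX : ∀ f ∈ B, XX k A * f ∈ B := by
    intro f hf
    rw [hB] at hf ⊢
    rw [h0, hf, ← mul_assoc, ← map_mul, ← map_mul]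
  have htop : B = ⊤ := by
    apply WAlg.ind (k := k)
    · rw [hB, map_one (sg k i), map_one dat.τ, one_mul]
    · exact hX
    · intro hu f hf
      rw [hB] at hf ⊢
      change dat.e i (XX k A * f) = dat.τ (sg k i (XX k A * f)) * dat.e i 1 at hf
      rw [h0, map_mul, map_mul, mul_assoc] at hf
      have hu' : IsUnit (dat.τ (sg k i (XX k A))) := (hu.map (sg k i)).map dat.τ
      exact hu'.mul_left_cancel hf
  exact (hB g).1 (by rw [htop]; trivial)

variable (n) in
/-- the function `φ_f = ∑_{n_j = 1} f'(t_j)` -/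
def phi (f : A) : TA k A (Fin r) := ∑ j, if n j = 1 then sg k j (dd k f) else 0

theorem phi_inv (f : A) (h : stab n) :
    pmap ((h : Equiv.Perm (Fin r)) : Fin r → Fin r) (phi n f) = phi (k := k) n f := by
  unfold phi
  rw [map_sum]
  apply Fintype.sum_equiv (h : Equiv.Perm (Fin r))
  intro j
  have hn : n ((h : Equiv.Perm (Fin r)) j) = n j := h.2 j
  rw [hn]
  split_ifs
  · rw [pmap_sg]
  · rw [map_zero]

theorem tot_beta (f : A) :
    dat.tot f * dat.beta = dat.beta * dat.tot f - dat.τ (phi n f) * dat.beta := by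
  have key : ∀ j, dat.e j f * dat.beta = dat.beta * dat.e j f -
      (if n j = 1 then dat.τ (sg k j (dd k f)) * dat.beta else 0) := by
    intro j
    unfold beta
    split_ifs with hj
    · apply ofFn_prod_move _ _ _ j
      · intro i hi
        split_ifs
        · exact comm_e_e dat j i hi.symm _ _
        · exact Commute.one_right _
      · intro i hi
        split_ifs
        · exact (comm_e_τ dat i j hi _ _).symm
        · exact Commute.one_right _
      · rw [if_pos hj]
        have h1 := dat.ee j j f 1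
        rw [if_pos rfl] at h1
        have h2 : wbr k f (1 : A) = -dd k f := by
          simp [wbr]
        rw [h2, map_neg, dat.e_of_one j hj (dd k f)] at h1
        rw [sub_eq_iff_eq_add.1 h1]
        abel
    · rw [sub_zero]
      apply Commute.list_prod_right
      intro z hz
      obtain ⟨i, rfl⟩ := (List.mem_ofFn' _ _).1 hz
      dsimp only
      split_ifs with hi
      · apply comm_e_e
        rintro rfl
        exact hj hi
      · exact Commute.one_right _
  rw [tot_apply, Finset.sum_mul, Finset.mul_sum, Finset.sum_congr rfl (fun j _ => key j),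
    Finset.sum_sub_distrib]
  congr 1
  rw [phi, map_sum, Finset.sum_mul]
  apply Finset.sum_congr rfl
  intro j _
  split_ifs
  · rfl
  · rw [map_zero, zero_mul]

/-- the target span -/
def BB : Submodule k S :=
  Submodule.span k {x | ∃ z u, (∀ h : stab n,
      pmap ((h : Equiv.Perm (Fin r)) : Fin r → Fin r) z = z) ∧
        x = dat.τ z * dat.beta * dat.hom u}

theorem BB_of {z : TA k A (Fin r)} (hz : ∀ h : stab n,
      pmap ((h : Equiv.Perm (Fin r)) : Fin r → Fin r) z = z) (u : UW k A) :
    dat.τ z * dat.beta * dat.hom u ∈ dat.BB :=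
  Submodule.subset_span ⟨z, u, hz, rfl⟩

theorem BB_τ {z : TA k A (Fin r)} (hz : ∀ h : stab n,
      pmap ((h : Equiv.Perm (Fin r)) : Fin r → Fin r) z = z) {x : S} (hx : x ∈ dat.BB) :
    dat.τ z * x ∈ dat.BB := by
  induction hx using Submodule.span_induction with
  | mem x hx =>
    obtain ⟨z', u, hz', rfl⟩ := hx
    rw [← mul_assoc, ← mul_assoc, ← map_mul]
    exact dat.BB_of (fun h => by rw [map_mul, hz, hz']) u
  | zero => rw [mul_zero]; exact Submodule.zero_mem _
  | add x y _ _ hx hy => rw [mul_add]; exact Submodule.add_mem _ hx hy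
  | smul c x _ hx => rw [mul_smul_comm]; exact Submodule.smul_mem _ _ hx

theorem BB_tot (f : A) {x : S} (hx : x ∈ dat.BB) : dat.tot f * x ∈ dat.BB := by
  induction hx using Submodule.span_induction with
  | mem x hx =>
    obtain ⟨z, u, hz, rfl⟩ := hx
    have h1 := dat.tot_τ f z
    have h2 := dat.tot_beta f
    have h3 : dat.hom (eU f * u) = dat.tot f * dat.hom u := by
      rw [map_mul]
      congr 1
      exact liftE_eU _ _ _
    have h4 : dat.tot f * (dat.τ z * dat.beta * dat.hom u) =
        dat.τ z * dat.beta * dat.hom (eU f * u)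
        - dat.τ (z * phi n f) * dat.beta * dat.hom u
        + dat.τ (Dv k f z) * dat.beta * dat.hom u := by
      rw [h3, ← h1, map_mul]
      have h5 : dat.tot f * (dat.τ z * dat.beta * dat.hom u) =
          (dat.tot f * dat.τ z - dat.τ z * dat.tot f) * dat.beta * dat.hom u +
            dat.τ z * (dat.tot f * dat.beta) * dat.hom u := by noncomm_ring
      rw [h5, h2]
      noncomm_ring
    rw [h4]
    refine Submodule.add_mem _ (Submodule.sub_mem _ (dat.BB_of hz _) (dat.BB_of ?_ _))
      (dat.BB_of ?_ _)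
    · intro h; rw [map_mul, hz, phi_inv]
    · intro h; rw [pmap_Dv, hz]
  | zero => rw [mul_zero]; exact Submodule.zero_mem _
  | add x y _ _ hx hy => rw [mul_add]; exact Submodule.add_mem _ hx hy
  | smul c x _ hx => rw [mul_smul_comm]; exact Submodule.smul_mem _ _ hx

theorem hom_beta (u : UW k A) : dat.hom u * dat.beta ∈ dat.BB := by
  induction u using UW_induction with
  | h1 =>
    have := dat.BB_of (z := 1) (fun h => map_one _) 1
    rw [map_one, map_one] at this
    rw [map_one]
    simpa using this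
  | hadd x y hx hy => rw [map_add, add_mul]; exact Submodule.add_mem _ hx hy
  | hsmul c x hx => rw [map_smul, smul_mul_assoc]; exact Submodule.smul_mem _ _ hx
  | hmul f x hx =>
    have h3 : dat.hom (eU f * x) = dat.tot f * dat.hom x := by
      rw [map_mul]
      congr 1
      exact liftE_eU _ _ _
    rw [h3, mul_assoc]
    exact dat.BB_tot f hx

end PData

theorem specBeta : SpecBeta.{u} := by
  intro k A S _ _ _ _ _ _ _ r n dat x hx
  change x * dat.beta ∈ dat.BB
  induction hx using Submodule.span_induction with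
  | mem x hx =>
    obtain ⟨z, u, hz, rfl⟩ := hx
    rw [mul_assoc]
    exact dat.BB_τ hz (dat.hom_beta u)
  | zero => rw [zero_mul]; exact Submodule.zero_mem _
  | add x y _ _ hx hy => rw [add_mul]; exact Submodule.add_mem _ hx hy
  | smul c x _ hx => rw [smul_mul_assoc]; exact Submodule.smul_mem _ _ hx

end MPcc24
end
end

section
set_option linter.all false

/-!
# Block words: auxiliary lemmas
-/

noncomputable section

open scoped TensorProduct BigOperators

namespace MPcc24
universe u

namespace BlockX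

section gen

variable {k : Type u} {A : Type u} [Field k] [CommRing A] [Algebra k A]
variable {S : Type*} [Ring S] [Algebra k S]

theorem upd_aux {b : ℕ} (f : Fin b × Fin 2 → A) (p : Fin b × Fin 2) (x : A)
    (B : Fin b → A →ₗ[k] A →ₗ[k] S) :
    (fun i => B i (Function.update f p x (i, 0)) (Function.update f p x (i, 1))) =
      Function.update (fun i => B i (f (i, 0)) (f (i, 1))) p.1
        (B p.1 (Function.update f p x (p.1, 0)) (Function.update f p x (p.1, 1))) := by
  funext i
  by_cases h : i = p.1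
  · subst h; simp
  · rw [Function.update_of_ne h, Function.update_of_ne, Function.update_of_ne]
    · intro h'; exact h (congrArg Prod.fst h')
    · intro h'; exact h (congrArg Prod.fst h')

/-- block words with bilinear blocks, as a multilinear map -/
def WM {b : ℕ} (B : Fin b → A →ₗ[k] A →ₗ[k] S) :
    MultilinearMap k (fun _ : Fin b × Fin 2 => A) S where
  toFun f := MultilinearMap.mkPiAlgebraFin k b S (fun i => B i (f (i, 0)) (f (i, 1)))
  map_update_add' := by
    intro inst f p x y
    have : inst = instDecidableEqProd := Subsingleton.elim _ _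
    subst this
    rw [upd_aux, upd_aux, upd_aux, ← MultilinearMap.map_update_add]
    congr 2
    obtain ⟨i, e⟩ := p
    fin_cases e
    · simp
    · simp
  map_update_smul' := by
    intro inst f p c x
    have : inst = instDecidableEqProd := Subsingleton.elim _ _
    subst this
    rw [upd_aux, upd_aux, ← MultilinearMap.map_update_smul]
    congr 2
    obtain ⟨i, e⟩ := p
    fin_cases e
    · simp
    · simp

/-- block words with bilinear blocks -/
def WB {b : ℕ} (B : Fin b → A →ₗ[k] A →ₗ[k] S) : TA k A (Fin b × Fin 2) →ₗ[k] S :=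
  PiTensorProduct.lift (WM B)

theorem WB_tp {b : ℕ} (B : Fin b → A →ₗ[k] A →ₗ[k] S) (f : Fin b × Fin 2 → A) :
    WB B (tp k f) = (List.ofFn fun i => B i (f (i, 0)) (f (i, 1))).prod := by
  rw [WB, tp, PiTensorProduct.lift.tprod]
  change MultilinearMap.mkPiAlgebraFin k b S _ = _
  rw [MultilinearMap.mkPiAlgebraFin_apply]

theorem TA_lin_ext {ι : Type} {M : Type*} [AddCommGroup M] [Module k M]
    {f g : TA k A ι →ₗ[k] M} (h : ∀ x : ι → A, f (tp k x) = g (tp k x)) : f = g := by
  apply PiTensorProduct.ext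
  ext x
  exact h x

/-- product of two linear maps -/
def bl (e e' : A →ₗ[k] S) : A →ₗ[k] A →ₗ[k] S := (LinearMap.mul k S).compl₁₂ e e'

@[simp] theorem bl_apply (e e' : A →ₗ[k] S) (f g : A) : bl e e' f g = e f * e' g := rfl

theorem TB_eq (e : A →ₗ[k] S) (b : ℕ) : TB e b = WB (fun _ => bl e e) := by
  apply TA_lin_ext
  intro x
  rw [TB_tp, WB_tp]
  rfl

theorem WB_sum {b : ℕ} {J : Type*} [Fintype J] (B : Fin b → J → A →ₗ[k] A →ₗ[k] S) :
    WB (fun i => ∑ j, B i j) = ∑ π : Fin b → J, WB (fun i => B i (π i)) := by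
  apply TA_lin_ext
  intro x
  rw [WB_tp, LinearMap.sum_apply]
  simp only [WB_tp, LinearMap.sum_apply]
  have := MultilinearMap.map_sum (MultilinearMap.mkPiAlgebraFin k b S)
    (fun (i : Fin b) (j : J) => B i j (x (i, 0)) (x (i, 1)))
  simpa only [MultilinearMap.mkPiAlgebraFin_apply] using this

/-- precomposition with the multiplication by a function -/
def pre {ι : Type} (c : TA k A ι) : Module.End k (TA k A ι →ₗ[k] S) :=
  LinearMap.lcomp k S (LinearMap.mulLeft k c)

/-- left multiplication by an element of the ring -/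
def post (ι : Type) (s : S) : Module.End k (TA k A ι →ₗ[k] S) where
  toFun Θ := LinearMap.mulLeft k s ∘ₗ Θ
  map_add' x y := by ext; simp [mul_add]
  map_smul' c x := by ext; simp

theorem pre_apply {ι : Type} (c : TA k A ι) (Θ : TA k A ι →ₗ[k] S) (x : TA k A ι) :
    pre c Θ x = Θ (c * x) := rfl

theorem post_apply {ι : Type} (s : S) (Θ : TA k A ι →ₗ[k] S) (x : TA k A ι) :
    post ι s Θ x = s * Θ x := rfl

theorem pre_pow {ι : Type} (c : TA k A ι) (n : ℕ) :
    (pre c : Module.End k (TA k A ι →ₗ[k] S)) ^ n = pre (c ^ n) := by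
  induction n with
  | zero =>
    apply LinearMap.ext; intro Θ; apply LinearMap.ext; intro x
    simp [pre_apply]
  | succ n ih =>
    rw [pow_succ, ih]
    apply LinearMap.ext; intro Θ; apply LinearMap.ext; intro x
    rw [Module.End.mul_apply, pre_apply, pre_apply, pre_apply, pow_succ, ← mul_assoc, mul_comm (c ^ n) c]

theorem pre_pre {ι : Type} (c c' : TA k A ι) :
    Commute (pre c : Module.End k (TA k A ι →ₗ[k] S)) (pre c') := by
  apply LinearMap.ext; intro Θ; apply LinearMap.ext; intro x
  simp only [Module.End.mul_apply, pre_apply]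
  rw [← mul_assoc, ← mul_assoc, mul_comm c c']

theorem pre_post {ι : Type} (c : TA k A ι) (s : S) :
    Commute (pre c : Module.End k (TA k A ι →ₗ[k] S)) (post ι s) := by
  apply LinearMap.ext; intro Θ; apply LinearMap.ext; intro x
  rfl

variable [WAlg k A]

/-- the shift in a slot -/
def opx {ι : Type} [DecidableEq ι] (p : ι) (t : S) : Module.End k (TA k A ι →ₗ[k] S) :=
  pre (sg k p (XX k A)) - post ι t

theorem opx_comm {ι : Type} [DecidableEq ι] (p q : ι) (t : S) :
    Commute (opx p t : Module.End k (TA k A ι →ₗ[k] S)) (opx q t) := by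
  apply LinearMap.ext; intro Θ; apply LinearMap.ext; intro x
  simp only [opx, Module.End.mul_apply, LinearMap.sub_apply, pre_apply, post_apply, mul_sub]
  rw [← mul_assoc (sg k q (XX k A)), mul_comm (sg k q (XX k A)), mul_assoc]
  abel

theorem opx_sub {ι : Type} [DecidableEq ι] (p q : ι) (t : S) :
    (opx p t : Module.End k (TA k A ι →ₗ[k] S)) - opx q t =
      pre (sg k p (XX k A) - sg k q (XX k A)) := by
  apply LinearMap.ext; intro Θ; apply LinearMap.ext; intro x
  simp only [opx, LinearMap.sub_apply, pre_apply, post_apply, sub_mul, map_sub]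
  abel

/-- a slot of a linear map -/
def sl {ι : Type} [DecidableEq ι] (Θ : TA k A ι →ₗ[k] S) (f : ι → A) (p : ι) : A →ₗ[k] S :=
  Θ ∘ₗ (PiTensorProduct.tprod k).toLinearMap f p

theorem sl_apply {ι : Type} [DecidableEq ι] (Θ : TA k A ι →ₗ[k] S) (f : ι → A) (p : ι) (g : A) :
    sl Θ f p g = Θ (tp k (Function.update f p g)) := rfl

theorem sg_mul_tp {ι : Type} [Fintype ι] [DecidableEq ι] (f : ι → A) (p : ι) (g h : A) :
    sg k p g * tp k (Function.update f p h) = tp k (Function.update f p (g * h)) := by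
  rw [sg_eq, tp_mul]
  congr 1
  funext j
  by_cases hj : j = p
  · subst hj; simp
  · simp [Function.update_of_ne hj, Pi.mulSingle_eq_of_ne hj]

theorem sl_opx {ι : Type} [Fintype ι] [DecidableEq ι] (Θ : TA k A ι →ₗ[k] S) (f : ι → A) (p : ι)
    (t : S) : sl (opx p t Θ) f p = sh t (sl Θ f p) := by
  apply LinearMap.ext; intro g
  rw [sl_apply, sh_apply, sl_apply, sl_apply]
  simp only [opx, LinearMap.sub_apply, pre_apply, post_apply]
  rw [sg_mul_tp]

theorem sl_opx_pow {ι : Type} [Fintype ι] [DecidableEq ι] (f : ι → A) (p : ι)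
    (t : S) (m : ℕ) : ∀ Θ : TA k A ι →ₗ[k] S,
    sl ((opx p t ^ m) Θ) f p = (sh t)^[m] (sl Θ f p) := by
  induction m with
  | zero => intro Θ; simp
  | succ m ih =>
    intro Θ
    rw [pow_succ, Module.End.mul_apply, ih, sl_opx, Function.iterate_succ_apply]

theorem opx_pow_eq_zero {ι : Type} [Fintype ι] [DecidableEq ι] (Θ : TA k A ι →ₗ[k] S) (p : ι)
    (t : S) (m : ℕ) (h : ∀ f, (sh t)^[m] (sl Θ f p) = 0) : (opx p t ^ m) Θ = 0 := by
  apply TA_lin_ext
  intro f
  have h1 : sl ((opx p t ^ m) Θ) f p (f p) = 0 := by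
    rw [sl_opx_pow, h]; rfl
  rw [sl_apply, Function.update_eq_self] at h1
  rw [h1]; rfl

theorem comm_sub_pow {V : Type*} [AddCommGroup V] [Module k V] {x y : Module.End k V}
    (hc : Commute x y) : ∀ (m p q : ℕ) (T : V), p + q = m → (x ^ p) T = 0 → (y ^ q) T = 0 →
    ((x - y) ^ m) T = 0 := by
  intro m
  induction m with
  | zero =>
    intro p q T hpq hp hq
    have : p = 0 := by omega
    subst this
    simpa using hp
  | succ m ih =>
    intro p q T hpq hp hq
    rcases Nat.eq_zero_or_pos p with rfl | hp0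
    · have : T = 0 := by simpa using hp
      rw [this, map_zero]
    rcases Nat.eq_zero_or_pos q with rfl | hq0
    · have : T = 0 := by simpa using hq
      rw [this, map_zero]
    obtain ⟨p', rfl⟩ : ∃ p', p = p' + 1 := ⟨p - 1, by omega⟩
    obtain ⟨q', rfl⟩ : ∃ q', q = q' + 1 := ⟨q - 1, by omega⟩
    rw [pow_succ, Module.End.mul_apply, LinearMap.sub_apply, map_sub]
    have h1 : ((x - y) ^ m) (x T) = 0 := by
      apply ih p' (q' + 1) _ (by omega)
      · rw [← Module.End.mul_apply, ← pow_succ]; exact hp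
      · have : (y ^ (q' + 1)) (x T) = x ((y ^ (q' + 1)) T) := by
          rw [← Module.End.mul_apply, ← Module.End.mul_apply, (hc.pow_right (q' + 1)).eq]
        rw [this, hq, map_zero]
    have h2 : ((x - y) ^ m) (y T) = 0 := by
      apply ih (p' + 1) q' _ (by omega)
      · have : (x ^ (p' + 1)) (y T) = y ((x ^ (p' + 1)) T) := by
          rw [← Module.End.mul_apply, ← Module.End.mul_apply, (hc.pow_left (p' + 1)).eq]
        rw [this, hp, map_zero]
      · rw [← Module.End.mul_apply, ← pow_succ]; exact hq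
    rw [h1, h2, sub_zero]

/-- if two slots are of finite order with respect to the same point -/
theorem kill_pair {ι : Type} [Fintype ι] [DecidableEq ι] (Θ : TA k A ι →ₗ[k] S) (p q : ι)
    (t : S) (K : ℕ) (hp : ∀ f, (sh t)^[K] (sl Θ f p) = 0) (hq : ∀ f, (sh t)^[K] (sl Θ f q) = 0)
    (N : ℕ) (hN : 2 * K ≤ N) (G : TA k A ι) :
    Θ ((sg k p (XX k A) - sg k q (XX k A)) ^ N * G) = 0 := by
  have h1 := comm_sub_pow (opx_comm (k := k) (A := A) (S := S) p q t) (K + K) K K Θ rfl
    (opx_pow_eq_zero Θ p t K hp) (opx_pow_eq_zero Θ q t K hq)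
  rw [opx_sub, pre_pow] at h1
  obtain ⟨M, rfl⟩ : ∃ M, N = (K + K) + M := ⟨N - (K + K), by omega⟩
  have h2 := LinearMap.congr_fun h1 ((sg k p (XX k A) - sg k q (XX k A)) ^ M * G)
  rw [pre_apply, ← mul_assoc, ← pow_add] at h2
  exact h2

/-- iterated commutators with `t` -/
def adn (t : S) : ℕ → S → Prop
  | 0, u => u = 0
  | (n + 1), u => adn t n (u * t - t * u)

theorem adn_mono (t : S) : ∀ (n : ℕ) (u : S), adn t n u → adn t (n + 1) u := by
  intro n
  induction n with
  | zero => intro u hu; have : u = 0 := hu; subst this; simp [adn]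
  | succ n ih => intro u hu; exact ih _ hu

theorem adn_add (t : S) : ∀ (n : ℕ) (u v : S), adn t n u → adn t n v → adn t n (u + v) := by
  intro n
  induction n with
  | zero =>
    intro u v hu hv
    have h1 : u = 0 := hu
    have h2 : v = 0 := hv
    subst h1 h2; simp [adn]
  | succ n ih =>
    intro u v hu hv
    have := ih _ _ hu hv
    change adn t n _
    convert this using 1
    noncomm_ring

theorem adn_mul (t : S) : ∀ (m p q : ℕ) (u v : S), p + q = m → adn t p u → adn t q v →
    adn t m (u * v) := by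
  intro m
  induction m with
  | zero =>
    intro p q u v hpq hu hv
    have : p = 0 := by omega
    subst this
    have h1 : u = 0 := hu
    subst h1; simp [adn]
  | succ m ih =>
    intro p q u v hpq hu hv
    rcases Nat.eq_zero_or_pos p with rfl | hp0
    · have h1 : u = 0 := hu
      subst h1
      rw [zero_mul]
      have : ∀ n, adn t n (0 : S) := by
        intro n; induction n with
        | zero => rfl
        | succ n ih => change adn t n _; simpa using ih
      exact this _
    rcases Nat.eq_zero_or_pos q with rfl | hq0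
    · have h1 : v = 0 := hv
      subst h1
      rw [mul_zero]
      have : ∀ n, adn t n (0 : S) := by
        intro n; induction n with
        | zero => rfl
        | succ n ih => change adn t n _; simpa using ih
      exact this _
    obtain ⟨p', rfl⟩ : ∃ p', p = p' + 1 := ⟨p - 1, by omega⟩
    obtain ⟨q', rfl⟩ : ∃ q', q = q' + 1 := ⟨q - 1, by omega⟩
    change adn t m (u * v * t - t * (u * v))
    have e : u * v * t - t * (u * v) = u * (v * t - t * v) + (u * t - t * u) * v := by
      noncomm_ring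
    rw [e]
    exact adn_add t m _ _ (ih (p' + 1) q' _ _ (by omega) hu hv) (ih p' (q' + 1) _ _ (by omega) hu hv)

/-- left multiplication of a linear map by a constant -/
def lm (u : S) (Ψ : A →ₗ[k] S) : A →ₗ[k] S := LinearMap.mulLeft k u ∘ₗ Ψ
/-- right multiplication of a linear map by a constant -/
def rm (Ψ : A →ₗ[k] S) (w : S) : A →ₗ[k] S := LinearMap.mulRight k w ∘ₗ Ψ

theorem sh_add (t : S) (Ψ Φ : A →ₗ[k] S) : sh t (Ψ + Φ) = sh t Ψ + sh t Φ := by
  ext x; simp only [sh_apply, LinearMap.add_apply, mul_add]; abel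

theorem sh_zero (t : S) : sh t (0 : A →ₗ[k] S) = 0 := by
  ext x; simp [sh_apply]

theorem sh_it_zero (t : S) (m : ℕ) : (sh t)^[m] (0 : A →ₗ[k] S) = 0 := by
  induction m with
  | zero => rfl
  | succ m ih => rw [Function.iterate_succ_apply, sh_zero, ih]

theorem sh_it_add (t : S) (m : ℕ) : ∀ (Ψ Φ : A →ₗ[k] S),
    (sh t)^[m] (Ψ + Φ) = (sh t)^[m] Ψ + (sh t)^[m] Φ := by
  induction m with
  | zero => intro _ _; rfl
  | succ m ih => intro Ψ Φ; rw [Function.iterate_succ_apply, sh_add, ih]; rfl

theorem sh_rm (t : S) (Ψ : A →ₗ[k] S) (w : S) : sh t (rm Ψ w) = rm (sh t Ψ) w := by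
  ext x
  simp only [sh_apply, rm, LinearMap.comp_apply, LinearMap.mulRight_apply, sub_mul, mul_assoc]

theorem sh_it_rm (t : S) (w : S) (m : ℕ) : ∀ Ψ : A →ₗ[k] S,
    (sh t)^[m] (rm Ψ w) = rm ((sh t)^[m] Ψ) w := by
  induction m with
  | zero => intro _; rfl
  | succ m ih => intro Ψ; rw [Function.iterate_succ_apply, sh_rm, ih]; rfl

theorem sh_lm (t : S) (Ψ : A →ₗ[k] S) (u : S) :
    sh t (lm u Ψ) = lm u (sh t Ψ) + lm (u * t - t * u) Ψ := by
  ext x
  simp only [sh_apply, lm, LinearMap.comp_apply, LinearMap.mulLeft_apply, LinearMap.add_apply]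
  noncomm_ring

theorem sh_it_lm (t : S) : ∀ (m p q : ℕ) (u : S) (Ψ : A →ₗ[k] S), p + q = m → adn t p u →
    (sh t)^[q] Ψ = 0 → (sh t)^[m] (lm u Ψ) = 0 := by
  intro m
  induction m with
  | zero =>
    intro p q u Ψ hpq hu hΨ
    have : p = 0 := by omega
    subst this
    have h1 : u = 0 := hu
    subst h1; ext x; simp [lm]
  | succ m ih =>
    intro p q u Ψ hpq hu hΨ
    rcases Nat.eq_zero_or_pos p with rfl | hp0
    · have h1 : u = 0 := hu
      subst h1
      have : lm (0 : S) Ψ = 0 := by ext x; simp [lm]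
      rw [this, sh_it_zero]
    rcases Nat.eq_zero_or_pos q with rfl | hq0
    · have h1 : Ψ = 0 := hΨ
      subst h1
      have : lm u (0 : A →ₗ[k] S) = 0 := by ext x; simp [lm]
      rw [this, sh_it_zero]
    obtain ⟨p', rfl⟩ : ∃ p', p = p' + 1 := ⟨p - 1, by omega⟩
    obtain ⟨q', rfl⟩ : ∃ q', q = q' + 1 := ⟨q - 1, by omega⟩
    rw [Function.iterate_succ_apply, sh_lm, sh_it_add, ih (p' + 1) q' _ _ (by omega) hu,
      ih p' (q' + 1) _ _ (by omega) hu hΨ, add_zero]
    rw [Function.iterate_succ_apply] at hΨ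
    exact hΨ

theorem sh_it_mono (t : S) (Ψ : A →ₗ[k] S) {m m' : ℕ} (h : m ≤ m') (h0 : (sh t)^[m] Ψ = 0) :
    (sh t)^[m'] Ψ = 0 := by
  obtain ⟨c, rfl⟩ := Nat.exists_eq_add_of_le h
  rw [add_comm, Function.iterate_add_apply, h0, sh_it_zero]

end gen

section data

variable {k : Type u} {A : Type u} [Field k] [CommRing A] [Algebra k A] [WAlg k A]
variable {S : Type*} [Ring S] [Algebra k S]
variable {r : ℕ} {n : Fin r → ℕ} (dat : PData k A r n S)

theorem e_t (i j : Fin r) (f : A) :
    dat.e i f * dat.t j - dat.t j * dat.e i f = if i = j then dat.τ (sg k i f) else 0 := by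
  have h := dat.eτ i j f (XX k A)
  have h1 : dd k (XX k A) = 1 := WAlg.DX
  rw [h1, mul_one] at h
  exact h

theorem τ_t (j : Fin r) (a : TA k A (Fin r)) : dat.τ a * dat.t j - dat.t j * dat.τ a = 0 := by
  rw [PData.t, ← map_mul, ← map_mul, mul_comm, sub_self]

theorem adn_e (i j : Fin r) (f : A) : adn (dat.t j) 2 (dat.e i f) := by
  change (dat.e i f * dat.t j - dat.t j * dat.e i f) * dat.t j -
    dat.t j * (dat.e i f * dat.t j - dat.t j * dat.e i f) = 0
  rw [e_t]
  split_ifs
  · exact τ_t dat j _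
  · simp

/-- the blocks -/
def BB (j l : Fin r) : A →ₗ[k] A →ₗ[k] S := bl (dat.e j) (dat.e l)

theorem TB_expand (b : ℕ) : TB dat.tot b =
    ∑ π : Fin b → Fin r × Fin r, WB (fun i => BB dat (π i).1 (π i).2) := by
  rw [TB_eq, ← WB_sum (fun (_ : Fin b) (j : Fin r × Fin r) => BB dat j.1 j.2)]
  congr 1
  funext i
  ext f g
  rw [bl_apply, PData.tot_apply, PData.tot_apply, Finset.sum_mul_sum, LinearMap.sum_apply,
    LinearMap.sum_apply, Fintype.sum_prod_type]
  rfl

/-- the point of a slot -/
def pt {b : ℕ} (π : Fin b → Fin r × Fin r) (p : Fin b × Fin 2) : Fin r :=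
  if p.2 = 0 then (π p.1).1 else (π p.1).2

theorem word_nil (N : ℕ) (hN : ∀ i, n i ≤ N) : ∀ (b : ℕ) (π : Fin b → Fin r × Fin r)
    (f : Fin b × Fin 2 → A) (p : Fin b × Fin 2),
    (sh (dat.t (pt π p)))^[4 * b + N] (sl (WB (fun i => BB dat (π i).1 (π i).2)) f p) = 0 := by
  intro b
  induction b with
  | zero => intro π f p; exact p.1.elim0
  | succ b ih =>
    intro π f p
    obtain ⟨i, ε⟩ := p
    have he : ∀ j : Fin r, (sh (dat.t j))^[N] (dat.e j) = 0 := fun j =>
      sh_it_mono _ _ (hN j) (dat.ord j)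
    refine Fin.cases ?_ ?_ i
    · -- first block
      set w : S := (List.ofFn fun l : Fin b => BB dat (π l.succ).1 (π l.succ).2
        (f (l.succ, 0)) (f (l.succ, 1))).prod with hw
      fin_cases ε
      · have e1 : sl (WB (fun i => BB dat (π i).1 (π i).2)) f ((0 : Fin (b + 1)), (0 : Fin 2)) =
            rm (dat.e (π 0).1) (dat.e (π 0).2 (f (0, 1)) * w) := by
          ext g
          rw [sl_apply, WB_tp, List.ofFn_succ, List.prod_cons]
          simp only [rm, LinearMap.comp_apply, LinearMap.mulRight_apply]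
          rw [← mul_assoc]
          congr 1
        change (sh (dat.t (π 0).1))^[4 * (b + 1) + N] (sl _ f ((0 : Fin (b + 1)), (0 : Fin 2))) = 0
        rw [e1, sh_it_rm, sh_it_mono _ _ (by omega) (he _)]
        ext x; simp [rm]
      · have e1 : sl (WB (fun i => BB dat (π i).1 (π i).2)) f ((0 : Fin (b + 1)), (1 : Fin 2)) =
            lm (dat.e (π 0).1 (f (0, 0))) (rm (dat.e (π 0).2) w) := by
          ext g
          rw [sl_apply, WB_tp, List.ofFn_succ, List.prod_cons]
          simp only [rm, lm, LinearMap.comp_apply, LinearMap.mulRight_apply,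
            LinearMap.mulLeft_apply]
          rw [← mul_assoc]
          congr 1
        change (sh (dat.t (π 0).2))^[4 * (b + 1) + N] (sl _ f ((0 : Fin (b + 1)), (1 : Fin 2))) = 0
        rw [e1]
        apply sh_it_mono _ _ (show 2 + N ≤ 4 * (b + 1) + N by omega)
        apply sh_it_lm _ (2 + N) 2 N _ _ rfl (adn_e dat _ _ _)
        rw [sh_it_rm, he]
        ext x; simp [rm]
    · intro i
      have e1 : sl (WB (fun i => BB dat (π i).1 (π i).2)) f (i.succ, ε) =
          lm (dat.e (π 0).1 (f (0, 0)) * dat.e (π 0).2 (f (0, 1)))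
            (sl (WB (fun i => BB dat (π i.succ).1 (π i.succ).2))
              (fun p : Fin b × Fin 2 => f (p.1.succ, p.2)) (i, ε)) := by
        ext g
        rw [sl_apply, WB_tp, List.ofFn_succ, List.prod_cons]
        simp only [lm, LinearMap.comp_apply, LinearMap.mulLeft_apply, sl_apply, WB_tp]
        have h1 : ∀ (l : Fin b) (δ : Fin 2), Function.update f (i.succ, ε) g (l.succ, δ) =
            Function.update (fun p : Fin b × Fin 2 => f (p.1.succ, p.2)) (i, ε) g (l, δ) := by
          intro l δ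
          by_cases h : (l, δ) = (i, ε)
          · rw [h, Function.update_self]
            have : (l.succ, δ) = (i.succ, ε) := by
              rw [Prod.mk.injEq] at h ⊢; exact ⟨by rw [h.1], h.2⟩
            rw [this, Function.update_self]
          · rw [Function.update_of_ne h, Function.update_of_ne]
            intro h'
            apply h
            rw [Prod.mk.injEq] at h' ⊢
            exact ⟨Fin.succ_injective _ h'.1, h'.2⟩
        have h2 : ∀ δ : Fin 2, Function.update f (i.succ, ε) g ((0 : Fin (b + 1)), δ) =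
            f ((0 : Fin (b + 1)), δ) := by
          intro δ
          rw [Function.update_of_ne]
          intro h'
          rw [Prod.mk.injEq] at h'
          exact (Fin.succ_ne_zero i) h'.1.symm
        rw [h2, h2]
        simp only [h1]
        rfl
      rw [e1]
      have h3 : pt π (i.succ, ε) = pt (fun l : Fin b => π l.succ) (i, ε) := rfl
      rw [h3]
      apply sh_it_mono _ _ (show 4 + (4 * b + N) ≤ 4 * (b + 1) + N by omega)
      apply sh_it_lm _ (4 + (4 * b + N)) 4 (4 * b + N) _ _ rfl
      · exact adn_mul _ 4 2 2 _ _ rfl (adn_e dat _ _ _) (adn_e dat _ _ _)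
      · exact ih (fun l : Fin b => π l.succ) _ _

variable (k A) in
theorem crossF_split {b : ℕ} {p q : Fin b × Fin 2} (h : p.1 ≠ q.1) :
    ∃ R : TA k A (Fin b × Fin 2), crossF k A b = (sg k p (XX k A) - sg k q (XX k A)) * R := by
  unfold crossF
  refine ⟨_, (Finset.mul_prod_erase _ _ (a := (p, q)) ?_).symm⟩
  simp [h]

/-- two slots of different blocks at the same point kill the word -/
theorem kill_block {b : ℕ} (π : Fin b → Fin r × Fin r) (p q : Fin b × Fin 2) (h : p.1 ≠ q.1)
    (hpq : pt π p = pt π q) (N : ℕ) (hN : 2 * (4 * b + ∑ i, n i) ≤ N)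
    (G H : TA k A (Fin b × Fin 2)) :
    WB (fun i => BB dat (π i).1 (π i).2) (H * crossF k A b ^ N * G) = 0 := by
  obtain ⟨R, hR⟩ := crossF_split k A h
  have hn : ∀ i, n i ≤ ∑ i, n i := fun i => Finset.single_le_sum (f := n) (fun _ _ => Nat.zero_le _)
    (Finset.mem_univ i)
  have e : H * crossF k A b ^ N * G = (sg k p (XX k A) - sg k q (XX k A)) ^ N *
      (H * R ^ N * G) := by
    rw [hR, mul_pow]; ring
  rw [e]
  apply kill_pair _ p q (dat.t (pt π p)) (4 * b + ∑ i, n i) _ _ N hN
  · intro f; exact word_nil dat _ hn b π f p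
  · intro f; rw [hpq]; exact word_nil dat _ hn b π f q

end data

end BlockX

theorem specBlockV : SpecBlockV.{u} := by
  intro k A S _ _ _ _ _ _ r n dat b μ hrb
  refine ⟨2 * (4 * b + ∑ i, n i), fun N hN G => ?_⟩
  rw [BlockX.TB_expand, LinearMap.sum_apply]
  refine Finset.sum_eq_zero fun π _ => ?_
  obtain ⟨i, j, hij, h⟩ := Fintype.exists_ne_map_eq_of_card_lt (fun i => (π i).1)
    (by simpa using hrb)
  unfold F0
  exact BlockX.kill_block dat π (i, 0) (j, 0) hij h N hN G _

end MPcc24
end
end

section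
set_option linter.all false

/-!
# Block words: as many blocks as points
-/

noncomputable section

open scoped TensorProduct BigOperators

namespace MPcc24
universe u

namespace BlockX

section abs

theorem abs_iter {k M : Type*} [Field k] [AddCommGroup M] [Module k M] (D : Module.End k M)
    (P : ℕ → ℕ → M) (Q : ℕ → M)
    (hP : ∀ a b, D (P a b) = P (a + 1) b - P a (b + 1) - (if a = 0 then Q b else 0))
    (hQ : ∀ b, D (Q b) = - Q (b + 1)) (μ : ℕ) :
    (D ^ μ) (P 0 0) = (∑ j ∈ Finset.range (μ + 1), ((-1 : k) ^ j * (μ.choose j : k)) •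
      P (μ - j) j) + ((-1 : k) ^ μ * (μ : k)) • Q (μ - 1) := by
  induction μ with
  | zero => simp
  | succ μ ih =>
    rw [pow_succ', Module.End.mul_apply, ih, map_add, map_sum, map_smul, hQ]
    simp only [map_smul, hP]
    have s1 : ∑ x ∈ Finset.range (μ + 1), ((-1 : k) ^ x * (μ.choose x : k)) •
        (P (μ - x + 1) x - P (μ - x) (x + 1) - (if μ - x = 0 then Q x else 0)) =
        (∑ x ∈ Finset.range (μ + 1), ((-1 : k) ^ x * (μ.choose x : k)) • P (μ + 1 - x) x) -
        (∑ x ∈ Finset.range (μ + 1), ((-1 : k) ^ x * (μ.choose x : k)) • P (μ - x) (x + 1)) -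
        ((-1 : k) ^ μ) • Q μ := by
      simp only [smul_sub, Finset.sum_sub_distrib]
      congr 2
      · refine Finset.sum_congr rfl fun x hx => ?_
        have : x ≤ μ := by simpa [Nat.lt_succ_iff] using hx
        rw [show μ - x + 1 = μ + 1 - x by omega]
      · rw [Finset.sum_eq_single μ]
        · simp
        · intro x hx hne
          have : x < μ + 1 := by simpa using hx
          rw [if_neg (by omega), smul_zero]
        · intro h; simp at h
    rw [s1]
    have s2 : ∑ j ∈ Finset.range (μ + 1 + 1), ((-1 : k) ^ j * ((μ + 1).choose j : k)) •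
        P (μ + 1 - j) j =
        (∑ x ∈ Finset.range (μ + 1), ((-1 : k) ^ x * (μ.choose x : k)) • P (μ + 1 - x) x) -
        (∑ x ∈ Finset.range (μ + 1), ((-1 : k) ^ x * (μ.choose x : k)) • P (μ - x) (x + 1)) := by
      have s3 : (∑ x ∈ Finset.range (μ + 1), ((-1 : k) ^ x * (μ.choose x : k)) •
          P (μ + 1 - x) x) =
          (∑ x ∈ Finset.range (μ + 1 + 1), ((-1 : k) ^ x * (μ.choose x : k)) •
          P (μ + 1 - x) x) := by
        rw [Finset.sum_range_succ _ (μ + 1)]
        simp
      rw [s3, Finset.sum_range_succ' _ (μ + 1), Finset.sum_range_succ' _ (μ + 1)]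
      simp only [Nat.choose_zero_right, Nat.sub_zero]
      rw [add_sub_right_comm, ← Finset.sum_sub_distrib]
      congr 1
      refine Finset.sum_congr rfl fun x hx => ?_
      rw [show μ + 1 - (x + 1) = μ - x by omega, ← sub_smul]
      congr 1
      rw [Nat.choose_succ_succ]
      push_cast
      ring
    rw [s2]
    have s4 : (μ + 1 - 1) = μ := by omega
    rw [s4]
    rcases Nat.eq_zero_or_pos μ with rfl | hμ
    · simp
      abel
    · rw [show μ - 1 + 1 = μ by omega, pow_succ]
      push_cast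
      generalize (∑ x ∈ Finset.range (μ + 1), ((-1 : k) ^ x * (μ.choose x : k)) •
        P (μ + 1 - x) x) = X
      generalize (∑ x ∈ Finset.range (μ + 1), ((-1 : k) ^ x * (μ.choose x : k)) •
        P (μ - x) (x + 1)) = Y
      module

end abs

section gen

variable {k : Type u} {A : Type u} [Field k] [CommRing A] [Algebra k A] [WAlg k A]
variable {S : Type*} [Ring S] [Algebra k S]

/-- the difference of the two shifts of a bilinear map -/
def dl (B : A →ₗ[k] A →ₗ[k] S) : A →ₗ[k] A →ₗ[k] S :=
  B ∘ₗ LinearMap.mulLeft k (XX k A) - B.compl₂ (LinearMap.mulLeft k (XX k A))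

theorem dl_apply (B : A →ₗ[k] A →ₗ[k] S) (f g : A) :
    dl B f g = B (XX k A * f) g - B f (XX k A * g) := rfl

theorem dl_add (B C : A →ₗ[k] A →ₗ[k] S) : dl (B + C) = dl B + dl C := by
  ext f g; simp only [dl_apply, LinearMap.add_apply]; abel

theorem dl_smul (c : k) (B : A →ₗ[k] A →ₗ[k] S) : dl (c • B) = c • dl B := by
  ext f g; simp only [dl_apply, LinearMap.smul_apply, smul_sub]

theorem dl_zero : dl (0 : A →ₗ[k] A →ₗ[k] S) = 0 := by
  ext f g; simp [dl_apply]

theorem dl_sum {ι : Type*} (s : Finset ι) (B : ι → A →ₗ[k] A →ₗ[k] S) :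
    dl (∑ i ∈ s, B i) = ∑ i ∈ s, dl (B i) := by
  classical
  induction s using Finset.induction_on with
  | empty => simp [dl_zero]
  | insert a s ha ih => rw [Finset.sum_insert ha, dl_add, ih, Finset.sum_insert ha]

/-- the difference of the coordinates of a block -/
def xy {b : ℕ} (i : Fin b) : TA k A (Fin b × Fin 2) :=
  sg k (i, (0 : Fin 2)) (XX k A) - sg k (i, (1 : Fin 2)) (XX k A)

theorem WB_xy {b : ℕ} (B : Fin b → A →ₗ[k] A →ₗ[k] S) (i : Fin b)
    (F : TA k A (Fin b × Fin 2)) :
    WB B (xy i * F) = WB (Function.update B i (dl (B i))) F := by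
  have h : pre (xy i) (WB B) = WB (Function.update B i (dl (B i))) := by
    apply TA_lin_ext
    intro f
    rw [pre_apply, xy, sub_mul, map_sub]
    have h0 := sg_mul_tp (k := k) f (i, (0 : Fin 2)) (XX k A) (f (i, 0))
    have h1 := sg_mul_tp (k := k) f (i, (1 : Fin 2)) (XX k A) (f (i, 1))
    rw [Function.update_eq_self] at h0 h1
    rw [h0, h1, WB_tp, WB_tp, WB_tp, upd_aux, upd_aux]
    have e0 : (fun j => Function.update B i (dl (B i)) j (f (j, 0)) (f (j, 1))) =
        Function.update (fun j => B j (f (j, 0)) (f (j, 1))) i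
          (dl (B i) (f (i, 0)) (f (i, 1))) := by
      funext j
      by_cases hj : j = i
      · subst hj; simp
      · simp [Function.update_of_ne hj]
    rw [e0]
    have hs := MultilinearMap.map_update_sub (MultilinearMap.mkPiAlgebraFin k b S)
      (fun j => B j (f (j, 0)) (f (j, 1))) i (B i (XX k A * f (i, 0)) (f (i, 1)))
      (B i (f (i, 0)) (XX k A * f (i, 1)))
    simp only [MultilinearMap.mkPiAlgebraFin_apply] at hs
    rw [dl_apply, hs]
    congr 3
    · simp
    · simp
  have := LinearMap.congr_fun h F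
  rw [pre_apply] at this
  exact this

theorem WB_xy_pow {b : ℕ} (i : Fin b) (m : ℕ) : ∀ (B : Fin b → A →ₗ[k] A →ₗ[k] S)
    (F : TA k A (Fin b × Fin 2)),
    WB B (xy i ^ m * F) = WB (Function.update B i (dl^[m] (B i))) F := by
  induction m with
  | zero => intro B F; simp
  | succ m ih =>
    intro B F
    rw [pow_succ', mul_assoc, WB_xy, ih]
    congr 2
    rw [Function.update_idem, Function.update_self, Function.iterate_succ_apply]

theorem WB_xy_prod {b : ℕ} (μ : Fin b → ℕ) (s : Finset (Fin b)) :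
    ∀ (B : Fin b → A →ₗ[k] A →ₗ[k] S) (F : TA k A (Fin b × Fin 2)),
    WB B ((∏ i ∈ s, xy i ^ μ i) * F) =
      WB (fun i => if i ∈ s then dl^[μ i] (B i) else B i) F := by
  induction s using Finset.induction_on with
  | empty => intro B F; simp
  | insert a s ha ih =>
    intro B F
    rw [Finset.prod_insert ha, mul_assoc, WB_xy_pow, ih]
    congr 2
    funext i
    by_cases hi : i = a
    · subst hi
      simp [ha]
    · simp [Function.update_of_ne hi, hi]

theorem WB_zero {b : ℕ} (B : Fin b → A →ₗ[k] A →ₗ[k] S) (i : Fin b) (h : B i = 0) : WB B = 0 := by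
  apply TA_lin_ext
  intro f
  rw [WB_tp, LinearMap.zero_apply]
  apply List.prod_eq_zero
  rw [List.mem_ofFn]
  exact ⟨i, by rw [h]; rfl⟩

theorem prod_ofFn_mul {b : ℕ} : ∀ (a c : Fin b → S), (∀ i j, i ≠ j → Commute (c i) (a j)) →
    (List.ofFn fun i => a i * c i).prod = (List.ofFn a).prod * (List.ofFn c).prod := by
  induction b with
  | zero => intro a c _; simp
  | succ b ih =>
    intro a c h
    rw [List.ofFn_succ, List.ofFn_succ, List.ofFn_succ, List.prod_cons, List.prod_cons,
      List.prod_cons, ih (fun i => a i.succ) (fun i => c i.succ)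
        (fun i j hij => h _ _ (fun h' => hij (Fin.succ_injective _ h')))]
    have hc : Commute (c 0) (List.ofFn fun i : Fin b => a i.succ).prod := by
      apply Commute.list_prod_right
      intro x hx
      rw [List.mem_ofFn] at hx
      obtain ⟨j, rfl⟩ := hx
      exact h _ _ (Fin.succ_ne_zero j).symm
    calc a 0 * c 0 * ((List.ofFn fun i : Fin b => a i.succ).prod *
          (List.ofFn fun i : Fin b => c i.succ).prod)
        = a 0 * (c 0 * (List.ofFn fun i : Fin b => a i.succ).prod) *
          (List.ofFn fun i : Fin b => c i.succ).prod := by noncomm_ring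
      _ = a 0 * ((List.ofFn fun i : Fin b => a i.succ).prod * c 0) *
          (List.ofFn fun i : Fin b => c i.succ).prod := by rw [hc.eq]
      _ = _ := by noncomm_ring

end gen

section data

variable {k : Type u} {A : Type u} [Field k] [CommRing A] [Algebra k A] [WAlg k A]
variable {S : Type*} [Ring S] [Algebra k S]
variable {r : ℕ} {n : Fin r → ℕ} (dat : PData k A r n S)

theorem V_zero (i : Fin r) : dat.V i 0 = dat.e i := rfl

theorem V_succ (i : Fin r) (a : ℕ) : dat.V i (a + 1) = sh (dat.t i) (dat.V i a) := by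
  unfold PData.V
  rw [Function.iterate_succ_apply']

theorem V_X (i : Fin r) (a : ℕ) (f : A) :
    dat.V i a (XX k A * f) = dat.V i (a + 1) f + dat.t i * dat.V i a f := by
  rw [V_succ, sh_apply]; abel

theorem V_eq_zero (i : Fin r) {a : ℕ} (h : n i ≤ a) : dat.V i a = 0 :=
  sh_it_mono _ _ h (dat.ord i)

theorem V_comm_τ (i j : Fin r) (hij : i ≠ j) (a : ℕ) (g : A) : ∀ f : A,
    Commute (dat.V i a f) (dat.τ (sg k j g)) := by
  induction a with
  | zero =>
    intro f
    have h := dat.eτ i j f g
    rw [if_neg hij] at h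
    exact sub_eq_zero.1 h
  | succ a ih =>
    intro f
    rw [V_succ, sh_apply]
    refine Commute.sub_left (ih _) (Commute.mul_left ?_ (ih f))
    exact (show dat.t i * dat.τ (sg k j g) = dat.τ (sg k j g) * dat.t i by
      rw [PData.t, ← map_mul, ← map_mul, mul_comm])

theorem V_comm_τ' (i : Fin r) (a : ℕ) (g : A) : ∀ f : A,
    Commute (dat.V i (a + 1) f) (dat.τ (sg k i g)) := by
  have ht : ∀ g : A, dat.t i * dat.τ (sg k i g) = dat.τ (sg k i g) * dat.t i := fun g => by
      rw [PData.t, ← map_mul dat.τ, ← map_mul dat.τ, mul_comm]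
  induction a with
  | zero =>
    intro f
    rw [V_succ, sh_apply, V_zero]
    have h1 := dat.eτ i i (XX k A * f) g
    have h2 := dat.eτ i i f g
    rw [if_pos rfl] at h1 h2
    have h3 : dat.τ (sg k i (XX k A * f * dd k g)) = dat.t i * dat.τ (sg k i (f * dd k g)) := by
      rw [PData.t, ← map_mul, ← map_mul, mul_assoc]
    change (dat.e i (XX k A * f) - dat.t i * dat.e i f) * dat.τ (sg k i g) =
      dat.τ (sg k i g) * (dat.e i (XX k A * f) - dat.t i * dat.e i f)
    rw [sub_mul, mul_sub, ← sub_eq_zero]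
    have h4 : dat.e i (XX k A * f) * dat.τ (sg k i g) - dat.t i * dat.e i f * dat.τ (sg k i g) -
        (dat.τ (sg k i g) * dat.e i (XX k A * f) - dat.τ (sg k i g) * (dat.t i * dat.e i f)) =
        (dat.e i (XX k A * f) * dat.τ (sg k i g) - dat.τ (sg k i g) * dat.e i (XX k A * f)) -
        dat.t i * (dat.e i f * dat.τ (sg k i g) - dat.τ (sg k i g) * dat.e i f) := by
      have h5 : dat.τ (sg k i g) * (dat.t i * dat.e i f) =
          dat.t i * (dat.τ (sg k i g) * dat.e i f) := by
        rw [← mul_assoc, ← ht, mul_assoc]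
      rw [h5]; noncomm_ring
    rw [h4, h1, h2, h3, sub_self]
  | succ a ih =>
    intro f
    rw [V_succ, sh_apply]
    exact Commute.sub_left (ih _) (Commute.mul_left (ht g) (ih f))

theorem V_comm_V (i j : Fin r) (hij : i ≠ j) (a b : ℕ) : ∀ f g : A,
    Commute (dat.V i a f) (dat.V j b g) := by
  have h0 : ∀ b : ℕ, ∀ f g : A, Commute (dat.e i f) (dat.V j b g) := by
    intro b
    induction b with
    | zero =>
      intro f g
      have h := dat.ee i j f g
      rw [if_neg hij] at h
      exact sub_eq_zero.1 h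
    | succ b ih =>
      intro f g
      rw [V_succ, sh_apply]
      exact Commute.sub_right (ih _ _) (Commute.mul_right (V_comm_τ dat i j hij 0 _ f) (ih _ _))
  induction a with
  | zero => intro f g; exact h0 b f g
  | succ a ih =>
    intro f g
    rw [V_succ, sh_apply]
    exact Commute.sub_left (ih _ _) (Commute.mul_left
      (V_comm_τ dat j i (Ne.symm hij) b _ g).symm (ih _ _))

theorem V_t (i : Fin r) (a : ℕ) (f : A) : dat.V i a f * dat.t i - dat.t i * dat.V i a f =
    if a = 0 then dat.τ (sg k i f) else 0 := by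
  cases a with
  | zero =>
    rw [if_pos rfl]
    have := e_t dat i i f
    rw [if_pos rfl] at this
    exact this
  | succ a =>
    rw [if_neg (Nat.succ_ne_zero a)]
    exact sub_eq_zero.2 (V_comm_τ' dat i a (XX k A) f)

/-- the function at a point, as a linear map -/
def τi (i : Fin r) : A →ₗ[k] S := (dat.τ.comp (sg k i)).toLinearMap

theorem τi_apply (i : Fin r) (f : A) : τi dat i f = dat.τ (sg k i f) := rfl

theorem dl_P (i : Fin r) (a b : ℕ) : dl (bl (dat.V i a) (dat.V i b)) =
    bl (dat.V i (a + 1)) (dat.V i b) - bl (dat.V i a) (dat.V i (b + 1)) -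
      (if a = 0 then bl (τi dat i) (dat.V i b) else 0) := by
  ext f g
  simp only [dl_apply, bl_apply, LinearMap.sub_apply]
  have e1 : (if a = 0 then bl (τi dat i) (dat.V i b) else 0) f g =
      (dat.V i a f * dat.t i - dat.t i * dat.V i a f) * dat.V i b g := by
    rw [V_t]
    split_ifs
    · rfl
    · simp
  rw [e1, V_X, V_X]
  noncomm_ring

theorem dl_Q (i : Fin r) (b : ℕ) : dl (bl (τi dat i) (dat.V i b)) =
    - bl (τi dat i) (dat.V i (b + 1)) := by
  ext f g
  simp only [dl_apply, bl_apply, LinearMap.neg_apply]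
  have h1 : τi dat i (XX k A * f) = τi dat i f * dat.t i := by
    rw [τi_apply, τi_apply, PData.t, ← map_mul, ← map_mul, mul_comm]
  rw [h1, V_X]
  noncomm_ring

/-- `dl` as a linear map -/
def dlL : Module.End k (A →ₗ[k] A →ₗ[k] S) where
  toFun B := dl B
  map_add' B C := dl_add B C
  map_smul' c B := dl_smul c B

/-- evaluation of a bilinear map -/
def evl (f g : A) : (A →ₗ[k] A →ₗ[k] S) →ₗ[k] S where
  toFun B := B f g
  map_add' B C := rfl
  map_smul' c B := rfl

theorem dl_iter (i : Fin r) (μ : ℕ) (f g : A) : (dl^[μ] (bl (dat.e i) (dat.e i))) f g =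
    (∑ j ∈ Finset.range (μ + 1), ((-1 : k) ^ j * (μ.choose j : k)) •
      (dat.V i (μ - j) f * dat.V i j g)) +
    ((-1 : k) ^ μ * (μ : k)) • (dat.τ (sg k i f) * dat.V i (μ - 1) g) := by
  have h := abs_iter (k := k) (dlL : Module.End k (A →ₗ[k] A →ₗ[k] S))
    (fun a b => bl (dat.V i a) (dat.V i b)) (fun b => bl (τi dat i) (dat.V i b))
    (fun a b => dl_P dat i a b) (fun b => dl_Q dat i b) μ
  rw [Module.End.pow_apply] at h
  have h2 := congrArg (evl f g) h
  rw [map_add, map_sum, map_smul] at h2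
  simp only [map_smul] at h2
  exact h2

/-- a map which commutes with the coordinate -/
theorem lin_of_X (i : Fin r) (Ψ : A →ₗ[k] S) (h : ∀ f, Ψ (XX k A * f) = dat.t i * Ψ f) (f : A) :
    Ψ f = dat.τ (sg k i f) * Ψ 1 := by
  set B : Submodule k A := LinearMap.eqLocus Ψ
    (LinearMap.mulRight k (Ψ 1) ∘ₗ τi dat i) with hB
  have hmem : ∀ f, f ∈ B ↔ Ψ f = dat.τ (sg k i f) * Ψ 1 := fun f => Iff.rfl
  have : B = ⊤ := by
    apply WAlg.ind
    · rw [hmem, map_one (sg k i), map_one dat.τ, one_mul]
    · intro f hf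
      rw [hmem] at hf ⊢
      rw [h, hf, map_mul, map_mul, PData.t, mul_assoc]
    · intro hX f hf
      rw [hmem] at hf ⊢
      rw [h, map_mul, map_mul, mul_assoc] at hf
      have hu : IsUnit (dat.τ (sg k i (XX k A))) := (hX.map (sg k i)).map dat.τ
      exact hu.mul_left_cancel hf
  have hf : f ∈ B := by rw [this]; trivial
  exact (hmem f).1 hf

theorem V_top (i : Fin r) (a : ℕ) (h : n i ≤ a + 1) (f : A) :
    dat.V i a f = dat.τ (sg k i f) * dat.V i a 1 := by
  apply lin_of_X
  intro g
  rw [V_X, V_eq_zero dat i h, LinearMap.zero_apply, zero_add]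

theorem dl_big (i : Fin r) (hn : 1 ≤ n i) (μ : ℕ) (h : mu (n i) < μ) :
    dl^[μ] (bl (dat.e i) (dat.e i)) = 0 := by
  have hμ : n i ≤ μ - 1 ∧ 2 * (n i - 1) < μ := by
    unfold mu at h
    split_ifs at h <;> omega
  ext f g
  rw [dl_iter, V_eq_zero dat i hμ.1, LinearMap.zero_apply, mul_zero, smul_zero, add_zero]
  refine Finset.sum_eq_zero fun j hj => ?_
  by_cases h1 : n i ≤ j
  · rw [V_eq_zero dat i h1, LinearMap.zero_apply, mul_zero, smul_zero]
  · rw [V_eq_zero dat i (show n i ≤ μ - j by omega), LinearMap.zero_apply, zero_mul, smul_zero]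

theorem dl_mu (i : Fin r) (hn : 1 ≤ n i) (f g : A) :
    (dl^[mu (n i)] (bl (dat.e i) (dat.e i))) f g = dat.τ (sg k i (f * g)) * dat.ci i := by
  rw [dl_iter]
  by_cases h1 : n i = 1
  · have hm : mu (n i) = 1 := by rw [h1]; rfl
    have e0 : dat.V i 0 g = dat.τ (sg k i g) * dat.V i 0 1 := V_top dat i 0 (by omega) g
    rw [hm, Finset.sum_range_succ, Finset.sum_range_one]
    simp only [PData.ci, if_pos h1, Nat.sub_zero, Nat.sub_self]
    rw [V_eq_zero dat i (show n i ≤ 1 by omega)]
    simp only [LinearMap.zero_apply, zero_mul, mul_zero, smul_zero, add_zero, zero_add, pow_one,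
      Nat.cast_one, mul_one, neg_smul, one_smul]
    rw [e0, V_zero, map_mul, map_mul]
    noncomm_ring
  · have hm : mu (n i) = 2 * (n i - 1) := by unfold mu; rw [if_neg h1]
    obtain ⟨m, hm1⟩ : ∃ m, n i = m + 2 := ⟨n i - 2, by omega⟩
    have e0 : ∀ g, dat.V i (m + 1) g = dat.τ (sg k i g) * dat.V i (m + 1) 1 :=
      fun g => V_top dat i (m + 1) (by omega) g
    have hs : ∑ j ∈ Finset.range (mu (n i) + 1), ((-1 : k) ^ j * ((mu (n i)).choose j : k)) •
        (dat.V i (mu (n i) - j) f * dat.V i j g) =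
        ((-1 : k) ^ (m + 1) * ((2 * (m + 1)).choose (m + 1) : k)) •
        (dat.V i (m + 1) f * dat.V i (m + 1) g) := by
      rw [hm, show 2 * (n i - 1) = 2 * (m + 1) by omega]
      rw [Finset.sum_eq_single (m + 1)]
      · rw [show 2 * (m + 1) - (m + 1) = m + 1 by omega]
      · intro j hj hne
        have hj' : j < 2 * (m + 1) + 1 := by simpa using hj
        rcases lt_or_gt_of_ne hne with h | h
        · rw [V_eq_zero dat i (show n i ≤ 2 * (m + 1) - j by omega), LinearMap.zero_apply,
            zero_mul, smul_zero]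
        · rw [V_eq_zero dat i (show n i ≤ j by omega), LinearMap.zero_apply, mul_zero, smul_zero]
      · intro h; exfalso; apply h; rw [Finset.mem_range]; omega
    rw [hs]
    have hcomm : dat.V i (m + 1) 1 * dat.τ (sg k i g) = dat.τ (sg k i g) * dat.V i (m + 1) 1 :=
      V_comm_τ' dat i m g 1
    have hVV : dat.V i (m + 1) f * dat.V i (m + 1) g =
        dat.τ (sg k i (f * g)) * dat.V i (m + 1) 1 ^ 2 := by
      rw [e0 f, e0 g, map_mul, map_mul, pow_two]
      calc dat.τ (sg k i f) * dat.V i (m + 1) 1 * (dat.τ (sg k i g) * dat.V i (m + 1) 1)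
          = dat.τ (sg k i f) * (dat.V i (m + 1) 1 * dat.τ (sg k i g)) * dat.V i (m + 1) 1 := by
            noncomm_ring
        _ = _ := by rw [hcomm]; noncomm_ring
    by_cases h2 : n i = 2
    · have hm0 : m = 0 := by omega
      subst hm0
      have hmm : mu (n i) = 2 := by rw [hm, h2]
      rw [hmm]
      simp only [PData.ci, if_neg h1, if_pos h2]
      simp only [zero_add] at hVV e0 ⊢
      rw [hVV, show (2 - 1 : ℕ) = 1 from rfl, e0 g]
      have hc : (Nat.choose (2 * 1) 1) = 2 := by decide
      rw [hc, map_mul, map_mul, pow_one, Nat.cast_ofNat, neg_one_sq, one_mul, neg_one_mul,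
        neg_smul, two_smul, two_smul]
      noncomm_ring
    · rw [V_eq_zero dat i (show n i ≤ mu (n i) - 1 by omega), LinearMap.zero_apply, mul_zero,
        smul_zero, add_zero]
      simp only [PData.ci, if_neg h1, if_neg h2]
      rw [show n i - 1 = m + 1 by omega, hVV, mul_smul_comm, ← Int.cast_smul_eq_zsmul k]
      push_cast
      rfl

theorem ci_comm (i : Fin r) (x : S) (h : ∀ a, Commute (dat.V i a 1) x) :
    Commute (dat.ci i) x := by
  unfold PData.ci
  split_ifs
  · exact (h 0).neg_left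
  · exact Commute.mul_left (Commute.mul_left (Commute.ofNat_left 2 x) (h 1))
      (Commute.sub_left (Commute.one_left x) (h 1))
  · exact Commute.smul_left ((h _).pow_left 2) _

theorem ci_τ (i j : Fin r) (hij : i ≠ j) (g : A) : Commute (dat.ci i) (dat.τ (sg k j g)) :=
  ci_comm dat i _ fun a => V_comm_τ dat i j hij a g 1

theorem ci_ci (i j : Fin r) (hij : i ≠ j) : Commute (dat.ci i) (dat.ci j) :=
  ci_comm dat i _ fun a => (ci_comm dat j _ fun b => V_comm_V dat j i (Ne.symm hij) b a 1 1).symm

theorem perm_cc (h : Equiv.Perm (Fin r)) : (List.ofFn fun i => dat.ci (h i)).prod = dat.cc := by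
  unfold PData.cc
  have h1 := Equiv.Perm.ofFn_comp_perm h (fun i => dat.ci i)
  apply List.Perm.prod_eq' h1
  rw [List.pairwise_ofFn]
  intro i j hij
  exact ci_ci dat _ _ (fun h' => (ne_of_lt hij) (h.injective h'))

/-- the value of a surviving word -/
theorem WB_value (hn : ∀ i, 1 ≤ n i) (h : Equiv.Perm (Fin r)) (hs : ∀ i, n (h i) = n i)
    (F : TA k A (Fin r × Fin 2)) :
    WB (fun i => dl^[mu (n i)] (BB dat (h i) (h i))) F =
      dat.τ (pmap (fun p : Fin r × Fin 2 => h p.1) F) * dat.cc := by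
  have key : WB (fun i => dl^[mu (n i)] (BB dat (h i) (h i))) =
      LinearMap.mulRight k dat.cc ∘ₗ (dat.τ.comp
        (pmap (fun p : Fin r × Fin 2 => h p.1))).toLinearMap := by
    apply TA_lin_ext
    intro f
    rw [WB_tp]
    have e1 : (fun i => (dl^[mu (n i)] (BB dat (h i) (h i))) (f (i, 0)) (f (i, 1))) =
        fun i => dat.τ (sg k (h i) (f (i, 0) * f (i, 1))) * dat.ci (h i) := by
      funext i
      rw [← hs i]
      exact dl_mu dat (h i) (hn _) _ _
    rw [e1, prod_ofFn_mul _ _ (fun i j hij => ci_τ dat _ _ (fun h' => hij (h.injective h')) _),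
      perm_cc]
    simp only [LinearMap.comp_apply, LinearMap.mulRight_apply, AlgHom.toLinearMap_apply,
      AlgHom.comp_apply]
    congr 1
    have e2 : (List.ofFn fun i => dat.τ (sg k (h i) (f (i, 0) * f (i, 1)))) =
        (List.ofFn fun i => (sg k (h i) (f (i, 0) * f (i, 1)))).map dat.τ := by
      rw [List.map_ofFn]; rfl
    rw [e2, ← map_list_prod, List.prod_ofFn]
    congr 1
    rw [tp_eq_prod, map_prod, Fintype.prod_prod_type]
    simp only [pmap_sg, Fin.prod_univ_two, map_mul]
  rw [key]; rfl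

variable (k A) in
theorem dis_eq {ι : Type} [Fintype ι] [DecidableEq ι] : Dis k A ι =
    ∏ i : ι, ∏ j : ι, if i ≠ j then (sg k i (XX k A) - sg k j (XX k A)) else 1 := by
  unfold Dis
  have : (Finset.univ : Finset ι).offDiag = Finset.univ.filter (fun p : ι × ι => p.1 ≠ p.2) := by
    ext p; simp
  rw [this, Finset.prod_filter, Fintype.prod_prod_type]

variable (k A) in
theorem pmap_cross (h : Equiv.Perm (Fin r)) :
    pmap (fun p : Fin r × Fin 2 => h p.1) (crossF k A r) = Dis k A (Fin r) ^ 4 := by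
  unfold crossF
  rw [map_prod]
  simp only [map_sub, pmap_sg]
  rw [Finset.prod_filter, Fintype.prod_prod_type]
  have e1 : ∀ x : Fin r × Fin 2, (∏ y : Fin r × Fin 2, if (x, y).1.1 ≠ (x, y).2.1 then
      (sg k (h (x, y).1.1) (XX k A) - sg k (h (x, y).2.1) (XX k A)) else 1) =
      (∏ j : Fin r, if x.1 ≠ j then
        (sg k (h x.1) (XX k A) - sg k (h j) (XX k A) : TA k A (Fin r)) else 1) ^ 2 := by
    intro x
    rw [Fintype.prod_prod_type]
    simp only [Fin.prod_univ_two]
    rw [Finset.prod_mul_distrib, pow_two]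
  simp only [e1]
  rw [Fintype.prod_prod_type]
  simp only [Fin.prod_univ_two]
  rw [Finset.prod_mul_distrib, ← pow_two, Finset.prod_pow, ← pow_mul]
  congr 1
  rw [dis_eq]
  rw [← Equiv.prod_comp h (fun i => ∏ j : Fin r, if i ≠ j then
    (sg k i (XX k A) - sg k j (XX k A) : TA k A (Fin r)) else 1)]
  refine Finset.prod_congr rfl fun i _ => ?_
  rw [← Equiv.prod_comp h (fun j => if h i ≠ j then
    (sg k (h i) (XX k A) - sg k j (XX k A) : TA k A (Fin r)) else 1)]
  refine Finset.prod_congr rfl fun j _ => ?_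
  simp

theorem mu_lt {a b : ℕ} (ha : 1 ≤ a) (h : a < b) : mu a < mu b := by
  unfold mu
  split_ifs <;> omega

theorem exists_lt (h : Equiv.Perm (Fin r)) (hs : ¬ ∀ i, n (h i) = n i) : ∃ i, n (h i) < n i := by
  by_contra hc
  push Not at hc
  have hsum : ∑ i, n (h i) = ∑ i, n i := Equiv.sum_comp h n
  obtain ⟨i, hi⟩ := not_forall.1 hs
  have : ∑ i, n i < ∑ i, n (h i) :=
    Finset.sum_lt_sum (fun i _ => hc i) ⟨i, Finset.mem_univ i, lt_of_le_of_ne (hc i) (Ne.symm hi)⟩
  omega

end data

end BlockX

open BlockX in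
theorem specBlockM : SpecBlockM.{u} := by
  intro k A S _ _ _ _ _ _ r n dat hn
  refine ⟨2 * (4 * r + ∑ i, n i), fun N hN G => ?_⟩
  rw [TB_expand, LinearMap.sum_apply]
  symm
  let emb : stab n → (Fin r → Fin r × Fin r) := fun h i =>
    ((h : Equiv.Perm (Fin r)) i, (h : Equiv.Perm (Fin r)) i)
  have hemb : Function.Injective emb := by
    intro h h' hh
    apply Subtype.ext
    apply Equiv.ext
    intro i
    have := congrFun hh i
    exact congrArg Prod.fst this
  have hval : ∀ (h : Equiv.Perm (Fin r)), WB (fun i => BB dat (h i) (h i))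
      (F0 k A (fun i => mu (n i)) N * G) =
      WB (fun i => dl^[mu (n i)] (BB dat (h i) (h i))) (crossF k A r ^ N * G) := by
    intro h
    have := WB_xy_prod (fun i => mu (n i)) Finset.univ (fun i => BB dat (h i) (h i))
      (crossF k A r ^ N * G)
    rw [← mul_assoc] at this
    simp only [Finset.mem_univ, if_true] at this
    exact this
  apply Fintype.sum_of_injective emb hemb
  · intro π hπ
    by_cases hc : ∃ p q : Fin r × Fin 2, p.1 ≠ q.1 ∧ pt π p = pt π q
    · obtain ⟨p, q, hpq, h⟩ := hc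
      unfold F0
      exact kill_block dat π p q hpq h N hN G _
    · push Not at hc
      have hinj : Function.Injective (fun i => (π i).1) := by
        intro i j hij
        by_contra hne
        exact hc (i, 0) (j, 0) hne hij
      have hbij : Function.Bijective (fun i => (π i).1) := Finite.injective_iff_bijective.1 hinj
      set h : Equiv.Perm (Fin r) := Equiv.ofBijective _ hbij with hh
      have h1 : ∀ i, (π i).1 = h i := fun i => rfl
      have h2 : ∀ i, (π i).2 = h i := by
        intro i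
        obtain ⟨l, hl⟩ := h.surjective (π i).2
        by_cases hli : l = i
        · rw [← hl, hli]
        · exfalso
          apply hc (l, 0) (i, 1) hli
          change (π l).1 = (π i).2
          rw [h1, hl]
      have h3 : (fun i => BB dat (π i).1 (π i).2) = fun i => BB dat (h i) (h i) := by
        funext i; rw [h1, h2]
      rw [h3, hval]
      have hns : ¬ ∀ i, n (h i) = n i := by
        intro hs
        apply hπ
        refine ⟨⟨h, hs⟩, ?_⟩
        funext i
        exact Prod.ext (h1 i).symm (h2 i).symm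
      obtain ⟨i, hi⟩ := exists_lt h hns
      rw [WB_zero _ i, LinearMap.zero_apply]
      exact dl_big dat (h i) (hn _) _ (mu_lt (hn _) hi)
  · intro h
    change _ = WB (fun i => BB dat ((h : Equiv.Perm (Fin r)) i) ((h : Equiv.Perm (Fin r)) i))
      (F0 k A (fun i => mu (n i)) N * G)
    have e1 : pmap (fun p : Fin r × Fin 2 => (h : Equiv.Perm (Fin r)) p.1)
        (crossF k A r ^ N * G) = Dis k A (Fin r) ^ (4 * N) *
        pmap (fun p : Fin r × Fin 2 => (h : Equiv.Perm (Fin r)) p.1) G := by
      rw [map_mul, map_pow, pmap_cross, ← pow_mul]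
    rw [hval, WB_value dat hn h h.2, e1]

end MPcc24
end
end

section
set_option linter.all false

/-!
# H4: properties of the conductor
-/

noncomputable section

open scoped TensorProduct BigOperators

namespace MPcc24

universe u

namespace PData

variable {k : Type u} {A : Type u} [Field k] [CommRing A] [Algebra k A] [WAlg k A]
variable {S : Type*} [Ring S] [Algebra k S]
variable {r : ℕ} {n : Fin r → ℕ} (dat : PData k A r n S)

/-- the factors of the conductor commute with whatever commutes with all `V i a 1` -/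
theorem comm_ci_of (i : Fin r) (x : S) (h : ∀ a, Commute (dat.V i a 1) x) :
    Commute (dat.ci i) x := by
  unfold ci
  split_ifs with h1 h2
  · exact (h 0).neg_left
  · exact (((Nat.cast_commute 2 x).mul_left (h 1))).mul_left ((Commute.one_left x).sub_left (h 1))
  · exact Commute.smul_left ((h _).pow_left 2) _

theorem comm_ci_V (i j : Fin r) (hij : i ≠ j) (a : ℕ) (f : A) :
    Commute (dat.ci i) (dat.V j a f) :=
  comm_ci_of dat i _ fun b => comm_V_V dat i j hij b a 1 f

theorem comm_ci_ci (i j : Fin r) (hij : i ≠ j) : Commute (dat.ci i) (dat.ci j) :=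
  (comm_ci_of dat j _ fun a => (comm_ci_V dat i j hij a 1).symm).symm

theorem comm_ci_τ (hn : ∀ i, 1 ≤ n i) (i : Fin r) (hi : n i ≠ 1) (a : TA k A (Fin r)) :
    Commute (dat.ci i) (dat.τ a) := by
  unfold ci
  have h2 : 1 ≤ n i := hn i
  rw [if_neg hi]
  split_ifs with h1
  · exact (((Nat.cast_commute 2 _).mul_left (comm_V_τ dat i 0 1 a))).mul_left
      ((Commute.one_left _).sub_left (comm_V_τ dat i 0 1 a))
  · have h3 : n i - 1 = (n i - 2) + 1 := by omega
    rw [h3]
    exact Commute.smul_left ((comm_V_τ dat i (n i - 2) 1 a).pow_left 2) _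

theorem cc_eq {k A S : Type u} [Field k] [CommRing A] [Algebra k A] [WAlg k A]
    [Ring S] [Algebra k S] {r : ℕ} {n : Fin r → ℕ} (dat : PData k A r n S) :
    dat.cc = dat.c0 * dat.beta ∨ dat.cc = -(dat.c0 * dat.beta) := by
  have h1 : dat.cc = (List.ofFn fun i => (if n i = 1 then 1 else dat.ci i) *
      (if n i = 1 then -dat.e i 1 else 1)).prod := by
    unfold cc
    congr 2
    funext i
    split_ifs with h
    · rw [one_mul, ci, if_pos h]
    · rw [mul_one]
  rw [h1, ofFn_prod_mul]
  · have h2 := ofFn_prod_sign (fun i => if n i = 1 then dat.e i 1 else 1)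
      (fun i => if n i = 1 then -dat.e i 1 else 1) (by
        intro i
        by_cases h : n i = 1
        · simp [h]
        · simp [h])
    rcases h2 with h2 | h2
    · left; rw [h2]; rfl
    · right; rw [h2, mul_neg]; rfl
  · intro i j hij
    split_ifs with h h'
    · exact Commute.one_left _
    · exact Commute.one_left _
    · exact (comm_ci_V dat i j hij 0 1).neg_right
    · exact Commute.one_right _

theorem act_t (H : HAct dat) (h : stab n) (i : Fin r) :
    H.act h (dat.t i) = dat.t ((h : Equiv.Perm (Fin r)) i) := by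
  rw [t, H.act_τ, pmap_sg]; rfl

theorem act_V (H : HAct dat) (h : stab n) (i : Fin r) (a : ℕ) (f : A) :
    H.act h (dat.V i a f) = dat.V ((h : Equiv.Perm (Fin r)) i) a f := by
  induction a generalizing f with
  | zero => exact H.act_e h i f
  | succ a ih => rw [V_succC, V_succC, map_sub (H.act h), map_mul (H.act h), ih, ih, act_t]

theorem act_ci (H : HAct dat) (h : stab n) (i : Fin r) :
    H.act h (dat.ci i) = dat.ci ((h : Equiv.Perm (Fin r)) i) := by
  have hn : n ((h : Equiv.Perm (Fin r)) i) = n i := h.2 i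
  unfold ci
  rw [hn]
  split_ifs with h1 h2
  · rw [map_neg, H.act_e]
  · rw [map_mul (H.act h), map_mul (H.act h), map_sub (H.act h), map_one (H.act h),
      map_ofNat (H.act h), act_V]
  · rw [map_zsmul, map_pow, act_V]

end PData

theorem specC0 : SpecC0.{u} := by
  intro k A S _ _ _ _ _ _ _ r n dat hn
  refine ⟨dat.cc_eq, ?_, ?_⟩
  · intro a
    have : Commute (dat.τ a) dat.c0 := by
      apply Commute.list_prod_right
      intro x hx
      obtain ⟨i, rfl⟩ := (List.mem_ofFn' _ _).1 hx
      dsimp only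
      split_ifs with h
      · exact Commute.one_right _
      · exact (dat.comm_ci_τ hn i h a).symm
    exact this.eq.symm
  · intro H
    constructor
    · intro h
      have h1 : H.act h dat.c0 =
          (List.ofFn fun i => (fun j => if n j = 1 then 1 else dat.ci j)
            ((h : Equiv.Perm (Fin r)) i)).prod := by
        unfold PData.c0
        rw [map_list_prod, List.map_ofFn]
        congr 2
        funext i
        have hn : n ((h : Equiv.Perm (Fin r)) i) = n i := h.2 i
        simp only [Function.comp_apply, hn]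
        split_ifs with h1
        · exact map_one _
        · exact dat.act_ci H h i
      rw [h1, ofFn_prod_perm (fun j => if n j = 1 then 1 else dat.ci j)]
      · rfl
      · intro i j hij
        split_ifs
        · exact Commute.one_left _
        · exact Commute.one_left _
        · exact Commute.one_right _
        · exact dat.comm_ci_ci i j hij
    · intro h
      have h1 : H.act h dat.beta =
          (List.ofFn fun i => (fun j => if n j = 1 then dat.e j 1 else 1)
            ((h : Equiv.Perm (Fin r)) i)).prod := by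
        unfold PData.beta
        rw [map_list_prod, List.map_ofFn]
        congr 2
        funext i
        have hn : n ((h : Equiv.Perm (Fin r)) i) = n i := h.2 i
        simp only [Function.comp_apply, hn]
        split_ifs with h1
        · exact H.act_e h i 1
        · exact map_one _
      rw [h1, ofFn_prod_perm (fun j => if n j = 1 then dat.e j 1 else 1)]
      · rfl
      · intro i j hij
        split_ifs
        · exact dat.comm_e_e i j hij 1 1
        · exact Commute.one_right _
        · exact Commute.one_left _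
        · exact Commute.one_left _

end MPcc24
end
end

section
set_option linter.all false

/-!
# The cover (module C)
-/

noncomputable section

open scoped TensorProduct BigOperators

namespace MPcc24

universe u

namespace Cover

section words

variable {k : Type u} {A : Type u} [Field k] [CommRing A] [Algebra k A]
variable {R : Type u} [Ring R] [Algebra k R]

theorem sg_mul_tp {ι : Type} [Fintype ι] [DecidableEq ι] (i : ι) (f : A) (g : ι → A) :
    sg k i f * tp k g = tp k (Function.update g i (f * g i)) := by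
  rw [sg_eq, tp_mul]
  congr 1
  funext j
  by_cases h : j = i
  · subst h; simp
  · simp [Pi.mulSingle_eq_of_ne h, Function.update_of_ne h]

theorem sg_zero_mul_pmap_tp {r : ℕ} (f : A) (g : Fin r → A) :
    sg k (0 : Fin (r + 1)) f * pmap Fin.succ (tp k g) = tp k (Fin.cons f g) := by
  rw [tp_eq_prod, tp_eq_prod, map_prod, Fin.prod_univ_succ]
  simp

theorem TT_cons (e : A →ₗ[k] R) {r : ℕ} (f : A) (F : TA k A (Fin r)) :
    TT e (r + 1) (sg k 0 f * pmap Fin.succ F) = e f * TT e r F := by
  induction F using TA_induction with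
  | h0 g =>
    rw [sg_zero_mul_pmap_tp, TT_tp, TT_tp, List.ofFn_succ, List.prod_cons]
    simp
  | hs c x hx => rw [map_smul, mul_smul_comm, map_smul, hx, map_smul, mul_smul_comm]
  | ha x y hx hy => rw [map_add, mul_add, map_add, hx, hy, map_add, mul_add]

theorem map_TT {R' : Type*} [Ring R'] [Algebra k R'] (π : R →ₐ[k] R') (e : A →ₗ[k] R) {r : ℕ}
    (F : TA k A (Fin r)) : π (TT e r F) = TT (π.toLinearMap ∘ₗ e) r F := by
  induction F using TA_induction with
  | h0 g =>
    rw [TT_tp, TT_tp, map_list_prod, List.map_ofFn]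
    rfl
  | hs c x hx => rw [map_smul, map_smul, hx, map_smul]
  | ha x y hx hy => rw [map_add, map_add, hx, hy, map_add]

variable [WAlg k A]

theorem ad_word (e : A →ₗ[k] R) (he : IsE e) (f : A) : ∀ (r : ℕ) (g : Fin r → A),
    e f * (List.ofFn fun i => e (g i)).prod - (List.ofFn fun i => e (g i)).prod * e f =
      ∑ i, (List.ofFn fun j => e (Function.update g i (wbr k f (g i)) j)).prod := by
  intro r
  induction r with
  | zero => intro g; simp
  | succ r ih =>
    intro g
    have h1 := ih (fun i => g i.succ)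
    rw [Fin.sum_univ_succ]
    have h2 : (List.ofFn fun j => e (Function.update g 0 (wbr k f (g 0)) j)).prod =
        e (wbr k f (g 0)) * (List.ofFn fun i : Fin r => e (g i.succ)).prod := by
      rw [List.ofFn_succ, List.prod_cons]
      congr 1
    have h3 : ∀ i : Fin r,
        (List.ofFn fun j => e (Function.update g i.succ (wbr k f (g i.succ)) j)).prod =
        e (g 0) * (List.ofFn fun j => e (Function.update (fun i : Fin r => g i.succ) i
          (wbr k f (g i.succ)) j)).prod := by
      intro i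
      rw [List.ofFn_succ, List.prod_cons]
      congr 1
      congr 2
      funext j
      by_cases hj : j = i
      · subst hj; simp
      · rw [Function.update_of_ne hj, Function.update_of_ne]
        intro h
        exact hj (Fin.succ_injective _ h)
    rw [h2, Finset.sum_congr rfl fun i _ => h3 i, ← Finset.mul_sum, ← h1, ← he f (g 0),
      List.ofFn_succ, List.prod_cons]
    noncomm_ring

theorem ad_TT (e : A →ₗ[k] R) (he : IsE e) (f : A) {r : ℕ} (F : TA k A (Fin r)) :
    e f * TT e r F - TT e r F * e f =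
      TT e r (Dv k f F - (∑ i, sg k i (dd k f)) * F) := by
  induction F using TA_induction with
  | h0 g =>
    rw [TT_tp, ad_word e he f r g, Dv_apply, Finset.sum_mul, ← Finset.sum_sub_distrib, map_sum]
    apply Finset.sum_congr rfl
    intro i _
    rw [← TT_tp, der_tprod, sg_mul_tp, sg_mul_tp]
    have h1 : tp k (Function.update g i (wbr k f (g i))) =
        tp k (Function.update (Function.update g i (dd k (g i))) i
          (f * Function.update g i (dd k (g i)) i)) -
        tp k (Function.update g i (dd k f * g i)) := by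
      rw [Function.update_self, Function.update_idem]
      have h2 := MultilinearMap.map_update_sub (PiTensorProduct.tprod k (s := fun _ : Fin r => A))
        g i (f * dd k (g i)) (dd k f * g i)
      unfold tp
      rw [← h2]
      congr 2
      unfold wbr
      ring
    rw [h1]
  | hs c x hx =>
    rw [map_smul, mul_smul_comm, smul_mul_assoc, ← smul_sub, hx, Derivation.map_smul,
      mul_smul_comm, ← smul_sub, map_smul]
  | ha x y hx hy =>
    have h1 : e f * TT e r (x + y) - TT e r (x + y) * e f =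
        (e f * TT e r x - TT e r x * e f) + (e f * TT e r y - TT e r y * e f) := by
      rw [map_add]
      noncomm_ring
    rw [h1, hx, hy, ← map_add (TT e r)]
    congr 1
    rw [map_add (Dv k f)]
    ring

end words

section dvd

variable {k : Type u} {A : Type u} [Field k] [CommRing A] [Algebra k A] [WAlg k A]

theorem dvd_sg {ι : Type} [Fintype ι] [DecidableEq ι] (i j : ι) (f : A) :
    (sg k i (XX k A) - sg k j (XX k A)) ∣ (sg k i f - sg k j f) := by
  let B : Submodule k A :=
    { carrier := {f | (sg k i (XX k A) - sg k j (XX k A)) ∣ (sg k i f - sg k j f)}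
      zero_mem' := by simp
      add_mem' := by
        intro a b ha hb
        have : sg k i (a + b) - sg k j (a + b) =
          (sg k i a - sg k j a) + (sg k i b - sg k j b) := by
          rw [map_add, map_add]; ring
        simp only [Set.mem_setOf_eq] at *
        rw [this]
        exact dvd_add ha hb
      smul_mem' := by
        intro c a ha
        simp only [Set.mem_setOf_eq] at *
        rw [map_smul, map_smul, ← smul_sub]
        exact Dvd.dvd.trans ha ⟨algebraMap k _ c, by rw [Algebra.smul_def, mul_comm]⟩ }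
  have hB : B = ⊤ := by
    apply WAlg.ind (k := k) B
    · change (sg k i (XX k A) - sg k j (XX k A)) ∣ (sg k i (1 : A) - sg k j (1 : A))
      simp
    · intro f hf
      change (sg k i (XX k A) - sg k j (XX k A)) ∣
        (sg k i (XX k A * f) - sg k j (XX k A * f))
      have : sg k i (XX k A * f) - sg k j (XX k A * f) = sg k i (XX k A) * (sg k i f - sg k j f) +
          (sg k i (XX k A) - sg k j (XX k A)) * sg k j f := by
        rw [map_mul, map_mul]; ring
      rw [this]
      exact dvd_add (Dvd.dvd.mul_left hf _) (Dvd.intro _ rfl)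
    · intro hu f hf
      change (sg k i (XX k A) - sg k j (XX k A)) ∣ (sg k i f - sg k j f)
      have hf' : (sg k i (XX k A) - sg k j (XX k A)) ∣
        (sg k i (XX k A * f) - sg k j (XX k A * f)) := hf
      have hu' : IsUnit (sg k i (XX k A)) := hu.map (sg k i)
      have : sg k i (XX k A) * (sg k i f - sg k j f) = (sg k i (XX k A * f) - sg k j (XX k A * f)) -
          (sg k i (XX k A) - sg k j (XX k A)) * sg k j f := by
        rw [map_mul, map_mul]; ring
      rw [← hu'.dvd_mul_left, this]
      exact dvd_sub hf' (Dvd.intro _ rfl)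
  have : f ∈ B := by rw [hB]; trivial
  exact this

theorem dvd_der_prod {C : Type*} [CommRing C] [Algebra k C] (d : Derivation k C C) {ι : Type*}
    (s : Finset ι) (x : ι → C) (h : ∀ i ∈ s, x i ∣ d (x i)) : ∏ i ∈ s, x i ∣ d (∏ i ∈ s, x i) := by
  classical
  induction s using Finset.induction_on with
  | empty => simp
  | insert a s ha ih =>
    rw [Finset.prod_insert ha, Derivation.leibniz, smul_eq_mul, smul_eq_mul]
    apply dvd_add
    · exact mul_dvd_mul_left _ (ih fun i hi => h i (Finset.mem_insert_of_mem hi))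
    · rw [mul_comm]
      exact mul_dvd_mul_left _ (h a (Finset.mem_insert_self _ _))

theorem dvd_der_pow {C : Type*} [CommRing C] [Algebra k C] (d : Derivation k C C) (x : C)
    (h : x ∣ d x) (M : ℕ) : x ^ M ∣ d (x ^ M) := by
  have := dvd_der_prod d (Finset.range M) (fun _ => x) (fun _ _ => h)
  simpa using this

theorem dvd_Dv_Dis {r : ℕ} (f : A) (M : ℕ) :
    Dis k A (Fin r) ^ M ∣ Dv k f (Dis k A (Fin r) ^ M) := by
  apply dvd_der_pow
  unfold Dis
  apply dvd_der_prod
  intro p _
  rw [map_sub, Dv_sg, Dv_sg, WAlg.DX, mul_one]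
  exact dvd_sg _ _ f

theorem Dis_eq (ι : Type) [Fintype ι] [DecidableEq ι] : Dis k A ι =
    ∏ i : ι, ∏ j : ι, if i = j then 1 else (sg k i (XX k A) - sg k j (XX k A)) := by
  unfold Dis
  rw [← Finset.prod_product', Finset.univ_product_univ]
  have h1 : (Finset.univ : Finset ι).offDiag = Finset.univ.filter fun p : ι × ι => p.1 ≠ p.2 := by
    ext p
    simp
  rw [h1, Finset.prod_filter]
  apply Finset.prod_congr rfl
  intro p _
  by_cases h : p.1 = p.2
  · simp [h]
  · simp [h]

theorem Dis_succ (r : ℕ) : Dis k A (Fin (r + 1)) * (-1) ^ r =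
    (∏ i : Fin r, (sg k (0 : Fin (r + 1)) (XX k A) - sg k i.succ (XX k A)) ^ 2) *
      pmap Fin.succ (Dis k A (Fin r)) := by
  have h1 : pmap (k := k) (A := A) (Fin.succ : Fin r → Fin (r + 1)) (Dis k A (Fin r)) =
      ∏ i : Fin r, ∏ j : Fin r,
        if i = j then 1 else (sg k i.succ (XX k A) - sg k j.succ (XX k A)) := by
    rw [Dis_eq, map_prod]
    apply Finset.prod_congr rfl
    intro i _
    rw [map_prod]
    apply Finset.prod_congr rfl
    intro j _
    split_ifs
    · simp
    · simp
  have h2 : Dis k A (Fin (r + 1)) =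
      (∏ j : Fin r, (sg k (0 : Fin (r + 1)) (XX k A) - sg k j.succ (XX k A))) *
      ((∏ i : Fin r, (sg k i.succ (XX k A) - sg k (0 : Fin (r + 1)) (XX k A))) *
      ∏ i : Fin r, ∏ j : Fin r,
        if i = j then 1 else (sg k i.succ (XX k A) - sg k j.succ (XX k A))) := by
    rw [Dis_eq, Fin.prod_univ_succ]
    congr 1
    · rw [Fin.prod_univ_succ]
      simp only [if_true, one_mul]
      apply Finset.prod_congr rfl
      intro j _
      rw [if_neg (Fin.succ_ne_zero j).symm]
    · rw [← Finset.prod_mul_distrib]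
      apply Finset.prod_congr rfl
      intro i _
      rw [Fin.prod_univ_succ, if_neg (Fin.succ_ne_zero i)]
      congr 1
      apply Finset.prod_congr rfl
      intro j _
      by_cases h : i = j
      · simp [h]
      · rw [if_neg h, if_neg]
        intro h'
        exact h (Fin.succ_injective _ h')
  have h3 : (∏ i : Fin r, (sg k i.succ (XX k A) - sg k (0 : Fin (r + 1)) (XX k A))) * (-1) ^ r =
      ∏ i : Fin r, (sg k (0 : Fin (r + 1)) (XX k A) - sg k i.succ (XX k A)) := by
    have : ((-1 : TA k A (Fin (r + 1)))) ^ r = ∏ i : Fin r, (-1) := by simp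
    rw [this, ← Finset.prod_mul_distrib]
    apply Finset.prod_congr rfl
    intro i _
    ring
  rw [h1, h2]
  simp only [sq, Finset.prod_mul_distrib]
  rw [← h3]
  ring

end dvd

section ops

variable {k : Type u} {A : Type u} [Field k] [CommRing A] [Algebra k A] [WAlg k A]
variable {R : Type u} [Ring R] [Algebra k R]

theorem Dv_add {ι : Type} [Fintype ι] [DecidableEq ι] (f g : A) (x : TA k A ι) :
    Dv k (f + g) x = Dv k f x + Dv k g x := by
  rw [Dv_apply, Dv_apply, Dv_apply, ← Finset.sum_add_distrib]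
  apply Finset.sum_congr rfl
  intro i _
  rw [map_add, add_mul]

theorem Dv_smul {ι : Type} [Fintype ι] [DecidableEq ι] (c : k) (f : A) (x : TA k A ι) :
    Dv k (c • f) x = c • Dv k f x := by
  rw [Dv_apply, Dv_apply, Finset.smul_sum]
  apply Finset.sum_congr rfl
  intro i _
  rw [map_smul, smul_mul_assoc]

theorem Dv_comm {ι : Type} [Fintype ι] [DecidableEq ι] (f g : A) (x : TA k A ι) :
    Dv k f (Dv k g x) - Dv k g (Dv k f x) = Dv k (wbr k f g) x := by
  have h : ⁅Dv (ι := ι) k f, Dv (ι := ι) k g⁆ = Dv (ι := ι) k (wbr k f g) := by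
    apply TA_der_ext
    intro i a
    rw [Derivation.commutator_apply, Dv_sg, Dv_sg, Dv_sg, Dv_sg, Dv_sg, ← map_sub (sg k i)]
    congr 1
    simp only [wbr, Derivation.leibniz, smul_eq_mul]
    ring
  rw [← h, Derivation.commutator_apply]

/-- the space of the operators -/
def HH (k A R : Type u) [Field k] [CommRing A] [Algebra k A] [Ring R] [Algebra k R]
    (r : ℕ) : Type u := TA k A (Fin r) →ₗ[k] R

instance {k A R : Type u} [Field k] [CommRing A] [Algebra k A] [Ring R] [Algebra k R]
    (r : ℕ) : AddCommGroup (HH k A R r) :=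
  inferInstanceAs (AddCommGroup (TA k A (Fin r) →ₗ[k] R))

instance {k A R : Type u} [Field k] [CommRing A] [Algebra k A] [Ring R] [Algebra k R]
    (r : ℕ) : Module k (HH k A R r) :=
  inferInstanceAs (Module k (TA k A (Fin r) →ₗ[k] R))

section HH

variable {k A R : Type u} [Field k] [CommRing A] [Algebra k A] [Ring R] [Algebra k R] {r : ℕ}

/-- the underlying map -/
def HH.f (φ : HH k A R r) : TA k A (Fin r) →ₗ[k] R := φ

/-- the element attached to a map -/
def HH.of (φ : TA k A (Fin r) →ₗ[k] R) : HH k A R r := φ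

theorem HH.ext' {φ ψ : HH k A R r} (h : ∀ a, φ.f a = ψ.f a) : φ = ψ := LinearMap.ext h

@[simp] theorem HH.of_f (φ : TA k A (Fin r) →ₗ[k] R) : (HH.of φ).f = φ := rfl

@[simp] theorem HH.add_f (φ ψ : HH k A R r) (a : TA k A (Fin r)) :
    (φ + ψ).f a = φ.f a + ψ.f a := rfl

@[simp] theorem HH.sub_f (φ ψ : HH k A R r) (a : TA k A (Fin r)) :
    (φ - ψ).f a = φ.f a - ψ.f a := rfl

@[simp] theorem HH.smul_f (c : k) (φ : HH k A R r) (a : TA k A (Fin r)) :
    (c • φ).f a = c • φ.f a := rfl

@[simp] theorem HH.zero_f (a : TA k A (Fin r)) : (0 : HH k A R r).f a = 0 := rfl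

end HH

/-- the basic elements -/
def phi (e : A →ₗ[k] R) {r : ℕ} (G : TA k A (Fin r)) (v : R) : HH k A R r :=
  HH.of (LinearMap.mulRight k v ∘ₗ TT e r ∘ₗ LinearMap.mulRight k G)

omit [WAlg k A] in
theorem phi_apply (e : A →ₗ[k] R) {r : ℕ} (G : TA k A (Fin r)) (v : R) (a : TA k A (Fin r)) :
    (phi e G v).f a = TT e r (a * G) * v := rfl

omit [WAlg k A] in
variable (k A R) in
/-- multiplication operators -/
def tauH (r : ℕ) : TA k A (Fin r) →ₐ[k] Module.End k (HH k A R r) where
  toFun c :=
    { toFun := fun φ => HH.of (φ.f ∘ₗ LinearMap.mulLeft k c)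
      map_add' := fun φ ψ => by
        refine HH.ext' fun a => ?_
        simp
      map_smul' := fun s φ => by
        refine HH.ext' fun a => ?_
        simp }
  map_one' := by
    refine LinearMap.ext fun φ => HH.ext' fun a => ?_
    simp
  map_mul' c d := by
    refine LinearMap.ext fun φ => HH.ext' fun a => ?_
    simp only [LinearMap.coe_mk, AddHom.coe_mk, LinearMap.comp_apply, LinearMap.mulLeft_apply,
      Module.End.mul_apply, HH.of_f]
    rw [mul_comm c d, mul_assoc]
  map_zero' := by
    refine LinearMap.ext fun φ => HH.ext' fun a => ?_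
    simp
  map_add' c d := by
    refine LinearMap.ext fun φ => HH.ext' fun a => ?_
    simp [add_mul]
  commutes' s := by
    refine LinearMap.ext fun φ => HH.ext' fun a => ?_
    simp only [LinearMap.coe_mk, AddHom.coe_mk, LinearMap.comp_apply, LinearMap.mulLeft_apply,
      Module.algebraMap_end_apply, HH.of_f, HH.smul_f]
    rw [← Algebra.smul_def, map_smul]

omit [WAlg k A] in
theorem tauH_apply {r : ℕ} (c : TA k A (Fin r)) (φ : HH k A R r) (a : TA k A (Fin r)) :
    (tauH k A R r c φ).f a = φ.f (c * a) := rfl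

/-- the operators of the vector fields -/
def eH (e : A →ₗ[k] R) (r : ℕ) : A →ₗ[k] Module.End k (HH k A R r) where
  toFun f :=
    { toFun := fun φ => HH.of (LinearMap.mulLeft k (e f) ∘ₗ φ.f - φ.f ∘ₗ (Dv k f).toLinearMap)
      map_add' := fun φ ψ => by
        refine HH.ext' fun a => ?_
        simp [mul_add]
        abel
      map_smul' := fun s φ => by
        refine HH.ext' fun a => ?_
        simp [smul_sub] }
  map_add' f g := by
    refine LinearMap.ext fun φ => HH.ext' fun a => ?_
    simp [add_mul, Dv_add]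
    abel
  map_smul' s f := by
    refine LinearMap.ext fun φ => HH.ext' fun a => ?_
    simp [Dv_smul, smul_sub]

theorem eH_apply (e : A →ₗ[k] R) {r : ℕ} (f : A) (φ : HH k A R r) (a : TA k A (Fin r)) :
    (eH e r f φ).f a = e f * φ.f a - φ.f (Dv k f a) := rfl

theorem eH_tauH (e : A →ₗ[k] R) {r : ℕ} (f : A) (c : TA k A (Fin r)) (φ : HH k A R r) :
    eH e r f (tauH k A R r c φ) - tauH k A R r c (eH e r f φ) = tauH k A R r (Dv k f c) φ := by
  refine HH.ext' fun a => ?_
  simp only [HH.sub_f, eH_apply, tauH_apply]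
  have h : Dv k f (c * a) = c * Dv k f a + Dv k f c * a := by
    rw [Derivation.leibniz, smul_eq_mul, smul_eq_mul, mul_comm a]
  rw [h, map_add]
  abel

theorem eH_isE (e : A →ₗ[k] R) (he : IsE e) (r : ℕ) (f g : A) (φ : HH k A R r) :
    eH e r f (eH e r g φ) - eH e r g (eH e r f φ) = eH e r (wbr k f g) φ := by
  refine HH.ext' fun a => ?_
  simp only [HH.sub_f, eH_apply]
  rw [← he f g, ← Dv_comm, map_sub]
  noncomm_ring

theorem tauH_phi (e : A →ₗ[k] R) {r : ℕ} (c G : TA k A (Fin r)) (v : R) :
    tauH k A R r c (phi e G v) = phi e (c * G) v := by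
  refine HH.ext' fun a => ?_
  rw [tauH_apply, phi_apply, phi_apply]
  congr 2
  ring

theorem eH_phi (e : A →ₗ[k] R) (he : IsE e) {r : ℕ} (f : A) (G : TA k A (Fin r)) (v : R) :
    eH e r f (phi e G v) = phi e (Dv k f G - (∑ i, sg k i (dd k f)) * G) v +
      phi e G (e f * v) := by
  refine HH.ext' fun a => ?_
  rw [eH_apply, HH.add_f, phi_apply, phi_apply, phi_apply, phi_apply]
  have h1 := ad_TT e he f (a * G)
  have h2 : e f * TT e r (a * G) = TT e r (a * G) * e f +
      TT e r (Dv k f (a * G) - (∑ i, sg k i (dd k f)) * (a * G)) := by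
    rw [← h1]
    abel
  have h3 : Dv k f (a * G) - (∑ i, sg k i (dd k f)) * (a * G) =
      a * (Dv k f G - (∑ i, sg k i (dd k f)) * G) + Dv k f a * G := by
    rw [Derivation.leibniz, smul_eq_mul, smul_eq_mul]
    ring
  rw [← mul_assoc, h2, h3, map_add]
  noncomm_ring

/-- the stable subspace -/
def NN (e : A →ₗ[k] R) (r M : ℕ) : Submodule k (HH k A R r) :=
  Submodule.span k {x | ∃ G v, x = phi e (Dis k A (Fin r) ^ M * G) v}

theorem tauH_mem (e : A →ₗ[k] R) {r M : ℕ} (c : TA k A (Fin r)) :
    ∀ φ ∈ NN e r M, tauH k A R r c φ ∈ NN e r M := by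
  intro φ hφ
  have : NN e r M ≤ (NN e r M).comap (tauH k A R r c) := by
    unfold NN
    rw [Submodule.span_le]
    rintro x ⟨G, v, rfl⟩
    apply Submodule.subset_span
    refine ⟨c * G, v, ?_⟩
    rw [tauH_phi]
    congr 1
    ring
  exact this hφ

theorem eH_mem (e : A →ₗ[k] R) (he : IsE e) {r M : ℕ} (f : A) :
    ∀ φ ∈ NN e r M, eH e r f φ ∈ NN e r M := by
  intro φ hφ
  have : NN e r M ≤ (NN e r M).comap (eH e r f) := by
    unfold NN
    rw [Submodule.span_le]
    rintro x ⟨G, v, rfl⟩
    rw [SetLike.mem_coe, Submodule.mem_comap, eH_phi e he]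
    apply Submodule.add_mem
    · apply Submodule.subset_span
      obtain ⟨c, hc⟩ := dvd_Dv_Dis (k := k) (A := A) (r := r) f M
      refine ⟨Dv k f G + c * G - (∑ i, sg k i (dd k f)) * G, v, ?_⟩
      congr 1
      rw [Derivation.leibniz, smul_eq_mul, smul_eq_mul, hc]
      ring
    · exact Submodule.subset_span ⟨G, e f * v, rfl⟩
  exact this hφ

/-- multiplication operators on the stable subspace -/
def tauN (e : A →ₗ[k] R) (r M : ℕ) : TA k A (Fin r) →ₐ[k] Module.End k (NN e r M) where
  toFun c := (tauH k A R r c).restrict (tauH_mem e c)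
  map_one' := by
    refine LinearMap.ext fun φ => Subtype.ext ?_
    simp
  map_mul' c d := by
    refine LinearMap.ext fun φ => Subtype.ext ?_
    simp
  map_zero' := by
    refine LinearMap.ext fun φ => Subtype.ext ?_
    simp
  map_add' c d := by
    refine LinearMap.ext fun φ => Subtype.ext ?_
    simp
  commutes' s := by
    refine LinearMap.ext fun φ => Subtype.ext ?_
    simp

/-- the operators of the vector fields on the stable subspace -/
def eN (e : A →ₗ[k] R) (he : IsE e) (r M : ℕ) : A →ₗ[k] Module.End k (NN e r M) where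
  toFun f := (eH e r f).restrict (eH_mem e he f)
  map_add' f g := by
    refine LinearMap.ext fun φ => Subtype.ext ?_
    simp
  map_smul' s f := by
    refine LinearMap.ext fun φ => Subtype.ext ?_
    simp

theorem tauN_coe (e : A →ₗ[k] R) {r M : ℕ} (c : TA k A (Fin r)) (φ : NN e r M) :
    ((tauN e r M c φ : NN e r M) : HH k A R r) = tauH k A R r c φ := rfl

theorem eN_coe (e : A →ₗ[k] R) (he : IsE e) {r M : ℕ} (f : A) (φ : NN e r M) :
    ((eN e he r M f φ : NN e r M) : HH k A R r) = eH e r f φ := rfl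

/-- the extra variable becomes the variable `0` -/
def iot (k A : Type u) [Field k] [CommRing A] [Algebra k A] (r : ℕ) :
    TA k A (Fin r) ⊗[k] A →ₐ[k] TA k A (Fin (r + 1)) :=
  Algebra.TensorProduct.productMap (pmap Fin.succ) (sg k 0)

/-- the extra variable becomes the variable `i` -/
def evi (k A : Type u) [Field k] [CommRing A] [Algebra k A] {r : ℕ} (i : Fin r) :
    TA k A (Fin r) ⊗[k] A →ₐ[k] TA k A (Fin r) :=
  Algebra.TensorProduct.productMap (AlgHom.id k _) (sg k i)

/-- partial derivatives -/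
def pdi {k A : Type u} [Field k] [CommRing A] [Algebra k A] [WAlg k A] {r : ℕ} (i : Fin r) :
    TA k A (Fin r) ⊗[k] A →ₗ[k] TA k A (Fin r) ⊗[k] A :=
  LinearMap.rTensor A (der k A i).toLinearMap

theorem pdi_dif {r : ℕ} (i : Fin r) (W : TA k A (Fin r) ⊗[k] A) :
    pdi i (dif k A i * W) = dif k A i * pdi i W - W := by
  induction W using TensorProduct.induction_on with
  | zero => simp
  | tmul c f =>
    simp only [dif, sub_mul, Algebra.TensorProduct.tmul_mul_tmul, one_mul, map_sub, pdi,
      LinearMap.rTensor_tmul, Derivation.coeFn_coe, Derivation.leibniz, smul_eq_mul, der_sg,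
      if_true, WAlg.DX, map_one, mul_one, TensorProduct.add_tmul]
    abel
  | add x y hx hy =>
    rw [mul_add, map_add, hx, hy, map_add]
    ring

theorem evi_dif {r : ℕ} (i : Fin r) : evi k A i (dif k A i) = 0 := by
  simp [evi, dif]

theorem evi_pdi {r : ℕ} (i : Fin r) (W : TA k A (Fin r) ⊗[k] A) :
    evi k A i (pdi i (dif k A i * (dif k A i * W))) = 0 := by
  rw [pdi_dif, map_sub, map_mul (evi k A i), evi_dif, map_mul (evi k A i) (dif k A i) W, evi_dif]
  simp

/-- the formula for the relation operators -/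
theorem Om_phi (e : A →ₗ[k] R) (he : IsE e) {r M : ℕ} (Ξ : TA k A (Fin r) ⊗[k] A)
    (φ : NN e r M) (G : TA k A (Fin r)) (v : R) (hφ : (φ : HH k A R r) = phi e G v)
    (a : TA k A (Fin r)) :
    ((Om (S := Module.End k (NN e r M)) (tauN e r M) (eN e he r M) Ξ φ : NN e r M) :
      HH k A R r).f a =
      (TT e (r + 1) (iot k A r Ξ * pmap Fin.succ (a * G)) -
        TT e r ((∑ i, evi k A i (pdi i (Ξ * (a ⊗ₜ 1)))) * G)) * v := by
  induction Ξ using TensorProduct.induction_on with
  | zero => simp
  | tmul c f =>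
    rw [Om_tmul, Module.End.mul_apply, tauN_coe, eN_coe, hφ, tauH_apply, eH_apply, phi_apply,
      phi_apply]
    have h1 : iot k A r (c ⊗ₜ[k] f) * pmap Fin.succ (a * G) =
        sg k 0 f * pmap Fin.succ (c * a * G) := by
      simp only [iot, Algebra.TensorProduct.productMap_apply_tmul, map_mul]
      ring
    have h2 : ∑ i, evi k A i (pdi i ((c ⊗ₜ[k] f) * (a ⊗ₜ 1))) = Dv k f (c * a) := by
      rw [Dv_apply]
      apply Finset.sum_congr rfl
      intro i _
      simp only [evi, pdi, Algebra.TensorProduct.tmul_mul_tmul, LinearMap.rTensor_tmul, mul_one,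
        Algebra.TensorProduct.productMap_apply_tmul, Derivation.coeFn_coe, AlgHom.coe_id, id_eq]
      rw [mul_comm]
    rw [h1, h2, TT_cons, sub_mul, mul_assoc, mul_assoc]
  | add x y hx hy =>
    rw [map_add, LinearMap.add_apply, Submodule.coe_add, HH.add_f, hx, hy, map_add, add_mul,
      add_mul, map_add]
    have : ∑ i, evi k A i (pdi i (x * (a ⊗ₜ[k] (1 : A)) + y * (a ⊗ₜ[k] (1 : A)))) =
        ∑ i, evi k A i (pdi i (x * (a ⊗ₜ[k] (1 : A)))) + ∑ i, evi k A i (pdi i (y * (a ⊗ₜ[k] (1 : A)))) := by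
      rw [← Finset.sum_add_distrib]
      apply Finset.sum_congr rfl
      intro i _
      rw [map_add, map_add]
    rw [this, add_mul, map_add]
    noncomm_ring

/-- the relation -/
theorem ord_N (e : A →ₗ[k] R) (he : IsE e) {r M : ℕ}
    (h0 : ∀ F, TT e (r + 1) (Dis k A (Fin (r + 1)) ^ M * F) = 0)
    (H : TA k A (Fin r) ⊗[k] A) :
    Om (S := Module.End k (NN e r M)) (tauN e r M) (eN e he r M)
      ((∏ i, dif k A i ^ (2 * M + 2)) * H) = 0 := by
  set Ξ : TA k A (Fin r) ⊗[k] A := (∏ i, dif k A i ^ (2 * M + 2)) * H with hΞ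
  have key : ∀ φ : NN e r M, ∀ G v, (φ : HH k A R r) = phi e (Dis k A (Fin r) ^ M * G) v →
      Om (S := Module.End k (NN e r M)) (tauN e r M) (eN e he r M) Ξ φ = 0 := by
    intro φ G v hφ
    apply Subtype.ext
    refine HH.ext' fun a => ?_
    rw [Om_phi e he Ξ φ _ v hφ a]
    have h1 : ∑ i, evi k A i (pdi i (Ξ * (a ⊗ₜ 1))) = 0 := by
      apply Finset.sum_eq_zero
      intro i _
      have : Ξ * (a ⊗ₜ 1) = dif k A i * (dif k A i * (dif k A i ^ (2 * M) *
          (∏ j ∈ Finset.univ.erase i, dif k A j ^ (2 * M + 2)) * H * (a ⊗ₜ 1))) := by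
        rw [hΞ, ← Finset.mul_prod_erase Finset.univ _ (Finset.mem_univ i)]
        ring
      rw [this, evi_pdi]
    have h2 : TT e (r + 1) (iot k A r Ξ * pmap Fin.succ (a * (Dis k A (Fin r) ^ M * G))) = 0 := by
      have h3 : iot k A r Ξ = (∏ i : Fin r, (sg k (0 : Fin (r + 1)) (XX k A) -
          sg k i.succ (XX k A)) ^ 2) ^ M * ((∏ i : Fin r, (sg k (0 : Fin (r + 1)) (XX k A) -
          sg k i.succ (XX k A)) ^ 2) * iot k A r H) := by
        rw [hΞ, map_mul, map_prod]
        have h4 : ∀ i : Fin r, iot k A r (dif k A i ^ (2 * M + 2)) =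
            ((sg k (0 : Fin (r + 1)) (XX k A) - sg k i.succ (XX k A)) ^ 2) ^ M *
            (sg k (0 : Fin (r + 1)) (XX k A) - sg k i.succ (XX k A)) ^ 2 := by
          intro i
          rw [map_pow]
          have h5 : iot k A r (dif k A i) =
              sg k (0 : Fin (r + 1)) (XX k A) - sg k i.succ (XX k A) := by
            simp [iot, dif]
          rw [h5, ← pow_mul, ← pow_add]
        rw [Finset.prod_congr rfl fun i _ => h4 i, Finset.prod_mul_distrib, Finset.prod_pow]
        ring
      have h6 : iot k A r Ξ * pmap Fin.succ (a * (Dis k A (Fin r) ^ M * G)) =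
          Dis k A (Fin (r + 1)) ^ M * (((-1) ^ r) ^ M *
          (∏ i : Fin r, (sg k (0 : Fin (r + 1)) (XX k A) - sg k i.succ (XX k A)) ^ 2) *
          iot k A r H * pmap Fin.succ (a * G)) := by
        have h7 : Dis k A (Fin (r + 1)) ^ M * ((-1) ^ r) ^ M =
            (∏ i : Fin r, (sg k (0 : Fin (r + 1)) (XX k A) - sg k i.succ (XX k A)) ^ 2) ^ M *
              pmap Fin.succ (Dis k A (Fin r)) ^ M := by
          rw [← mul_pow, Dis_succ, mul_pow]
        rw [h3, map_mul, map_mul, map_pow, map_mul]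
        linear_combination (-((∏ i : Fin r, (sg k (0 : Fin (r + 1)) (XX k A) -
          sg k i.succ (XX k A)) ^ 2) * iot k A r H * (pmap Fin.succ a * pmap Fin.succ G))) * h7
      rw [h6]
      exact h0 _
    rw [h1, h2]
    simp
  refine LinearMap.ext fun φ => ?_
  rw [LinearMap.zero_apply]
  obtain ⟨x, hx⟩ := φ
  unfold NN at hx
  induction hx using Submodule.span_induction with
  | mem y hy =>
    obtain ⟨G, v, rfl⟩ := hy
    exact key _ G v rfl
  | zero => exact map_zero _
  | add y z hy hz ihy ihz =>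
    have := map_add (Om (S := Module.End k (NN e r M)) (tauN e r M) (eN e he r M) Ξ)
      ⟨y, hy⟩ ⟨z, hz⟩
    rw [ihy, ihz, add_zero] at this
    exact this
  | smul c y hy ihy =>
    have := map_smul (Om (S := Module.End k (NN e r M)) (tauN e r M) (eN e he r M) Ξ)
      c ⟨y, hy⟩
    rw [ihy, smul_zero] at this
    exact this

/-- the data -/
def datN (e : A →ₗ[k] R) (he : IsE e) (r M : ℕ)
    (h0 : ∀ F, TT e (r + 1) (Dis k A (Fin (r + 1)) ^ M * F) = 0) :
    RData k A r (fun _ => 2 * M + 2) (Module.End k (NN e r M)) where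
  τ := tauN e r M
  e := eN e he r M
  isE := by
    intro f g
    refine LinearMap.ext fun φ => Subtype.ext ?_
    exact eH_isE e he r f g φ
  eτ := by
    intro f a
    refine LinearMap.ext fun φ => Subtype.ext ?_
    exact eH_tauH e f a φ
  ord := ord_N e he h0

theorem datN_hom (e : A →ₗ[k] R) (he : IsE e) (r M : ℕ)
    (h0 : ∀ F, TT e (r + 1) (Dis k A (Fin (r + 1)) ^ M * F) = 0) (u : UW k A) :
    ∀ φ : NN e r M, (((datN e he r M h0).hom u φ : NN e r M) : HH k A R r).f 1 =
      liftE e he u * (φ : HH k A R r).f 1 := by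
  induction u using UW_induction with
  | h1 =>
    intro φ
    rw [map_one (datN e he r M h0).hom, map_one (liftE e he), one_mul]
    rfl
  | hadd x y hx hy =>
    intro φ
    rw [map_add, LinearMap.add_apply, Submodule.coe_add, HH.add_f, hx, hy, map_add, add_mul]
  | hsmul c x hx =>
    intro φ
    rw [map_smul, LinearMap.smul_apply, Submodule.coe_smul, HH.smul_f, hx, map_smul,
      smul_mul_assoc]
  | hmul f x hx =>
    intro φ
    rw [map_mul, Module.End.mul_apply]
    have h1 : (datN e he r M h0).hom (eU f) = eN e he r M f := liftE_eU _ _ f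
    rw [h1, eN_coe, eH_apply, hx, Derivation.map_one_eq_zero, map_zero, sub_zero, map_mul,
      liftE_eU, mul_assoc]

end ops

end Cover

open Cover in
theorem specCover : SpecCover.{u} := by
  intro k A _ _ _ _ _ P hP r M h0 h1
  obtain ⟨F₀, hF₀⟩ := h1
  let R : Type u := P.ringCon.Quotient
  let π : UW k A →ₐ[k] R :=
    { toFun := fun x => (x : P.ringCon.Quotient)
      map_one' := rfl
      map_mul' := fun _ _ => rfl
      map_zero' := rfl
      map_add' := fun _ _ => rfl
      commutes' := fun _ => rfl }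
  have hπ : ∀ x, π x = 0 ↔ x ∈ P := by
    intro x
    rw [TwoSidedIdeal.mem_iff]
    exact RingCon.eq P.ringCon
  let e : A →ₗ[k] R := π.toLinearMap ∘ₗ eU
  have he : IsE e := by
    intro f g
    have := congrArg π (eU_isE (k := k) (A := A) f g)
    rw [map_sub, map_mul, map_mul] at this
    exact this
  have hl : liftE e he = π := by
    apply UW_hom_ext
    intro f
    rw [liftE_eU]
    rfl
  have h0' : ∀ F, TT e (r + 1) (Dis k A (Fin (r + 1)) ^ M * F) = 0 := by
    intro F
    rw [← map_TT π eU, hπ]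
    exact h0 F
  refine ⟨2 * M + 2, by omega, Module.End k (NN e r M), inferInstance, inferInstance,
    datN e he r M h0', ?_⟩
  intro u hu
  have hu' : (datN e he r M h0').hom u = 0 := hu
  have h2 : ∀ w, u * w * TT eU r (Dis k A (Fin r) ^ M * F₀) ∈ P := by
    intro w
    rw [← hπ, map_mul, map_TT π eU]
    have h3 := datN_hom e he r M h0' (u * w)
      ⟨phi e (Dis k A (Fin r) ^ M * F₀) 1, Submodule.subset_span ⟨F₀, 1, rfl⟩⟩
    rw [map_mul, hu', zero_mul, LinearMap.zero_apply, Submodule.coe_zero, HH.zero_f, hl,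
      phi_apply, one_mul, mul_one] at h3
    exact h3.symm
  rcases hP.2 u _ h2 with h | h
  · exact h
  · exact absurd h hF₀

end MPcc24
end
end

section
set_option linter.all false

/-!
# Module H1: denominators
-/

noncomputable section

open scoped TensorProduct BigOperators

namespace MPcc24
namespace H1

universe u

section tens

variable {k A : Type u} [Field k] [CommRing A] [Algebra k A] [WAlg k A]
variable {ι κ : Type} [Fintype ι] [DecidableEq ι] [Fintype κ] [DecidableEq κ]

/-- induction on functions of several variables, multiplicative version -/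
theorem TA_ind {p : TA k A ι → Prop} (hs : ∀ i f, p (sg k i f)) (hc : ∀ c : k, p (algebraMap k _ c))
    (ha : ∀ x y, p x → p y → p (x + y)) (hm : ∀ x y, p x → p y → p (x * y)) (x : TA k A ι) :
    p x := by
  have hx : x ∈ Algebra.adjoin k (⋃ i : ι, Set.range (sg k (A := A) i)) := by
    rw [TA_adjoin]; trivial
  induction hx using Algebra.adjoin_induction with
  | mem z hz =>
    obtain ⟨i, hi⟩ := Set.mem_iUnion.1 hz
    obtain ⟨f, rfl⟩ := hi
    exact hs i f
  | algebraMap c => exact hc c
  | add a b _ _ h1 h2 => exact ha a b h1 h2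
  | mul a b _ _ h1 h2 => exact hm a b h1 h2

theorem Dv_pmap (f : A) (φ : ι → κ) (x : TA k A ι) :
    Dv k f (pmap φ x) = pmap φ (Dv k f x) := by
  induction x using TA_ind with
  | hs i g => rw [pmap_sg, Dv_sg, Dv_sg, pmap_sg]
  | hc c => rw [AlgHom.commutes, Derivation.map_algebraMap, Derivation.map_algebraMap, map_zero]
  | ha x y hx hy => rw [map_add, map_add, map_add, map_add, hx, hy]
  | hm x y hx hy =>
    rw [map_mul, Derivation.leibniz, Derivation.leibniz, hx, hy, map_add, smul_eq_mul, smul_eq_mul,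
      smul_eq_mul, smul_eq_mul, map_mul, map_mul]

theorem pmap_Dis (h : Equiv.Perm ι) : pmap (h : ι → ι) (Dis k A ι) = Dis k A ι := by
  rw [Dis, map_prod]
  simp only [map_sub, pmap_sg]
  refine Finset.prod_nbij' (fun p => (h p.1, h p.2)) (fun p => (h.symm p.1, h.symm p.2)) ?_ ?_ ?_ ?_ ?_
  · intro p hp
    simp only [Finset.mem_offDiag, Finset.mem_univ, true_and] at hp ⊢
    exact fun e => hp (h.injective e)
  · intro p hp
    simp only [Finset.mem_offDiag, Finset.mem_univ, true_and] at hp ⊢
    exact fun e => hp (h.symm.injective e)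
  · intro p _; simp
  · intro p _; simp
  · intro p _; rfl

/-- divided differences -/
theorem exists_dd (f : A) : ∃ q : TA k A (Fin 2), sg k 0 f - sg k 1 f =
    (sg k 0 (XX k A) - sg k 1 (XX k A)) * q := by
  let B : Submodule k A :=
    { carrier := {f | ∃ q : TA k A (Fin 2), sg k 0 f - sg k 1 f =
        (sg k 0 (XX k A) - sg k 1 (XX k A)) * q}
      add_mem' := by
        rintro a b ⟨q, hq⟩ ⟨q', hq'⟩
        refine ⟨q + q', ?_⟩
        rw [map_add, map_add, mul_add, ← hq, ← hq']; ring
      zero_mem' := ⟨0, by simp⟩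
      smul_mem' := by
        rintro c a ⟨q, hq⟩
        refine ⟨c • q, ?_⟩
        rw [map_smul, map_smul, mul_smul_comm, ← hq, smul_sub] }
  have hB : B = ⊤ := by
    apply WAlg.ind
    · exact ⟨0, by simp⟩
    · rintro a ⟨q, hq⟩
      refine ⟨sg k 0 a + sg k 1 (XX k A) * q, ?_⟩
      have e : sg k 1 (XX k A) * (sg k 0 a - sg k 1 a) =
        sg k 1 (XX k A) * ((sg k 0 (XX k A) - sg k 1 (XX k A)) * q) := by rw [hq]
      rw [map_mul, map_mul]
      linear_combination e
    · intro hu a
      rintro ⟨q, hq⟩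
      obtain ⟨Y, hY⟩ := hu.exists_left_inv
      have h0 : (sg k 0 Y : TA k A (Fin 2)) * sg k 0 (XX k A) = 1 := by
        rw [← map_mul, hY, map_one]
      have h1 : (sg k 1 Y : TA k A (Fin 2)) * sg k 1 (XX k A) = 1 := by
        rw [← map_mul, hY, map_one]
      rw [map_mul, map_mul] at hq
      refine ⟨sg k 0 Y * q - sg k 0 Y * sg k 1 Y * (sg k 1 (XX k A) * sg k 1 a), ?_⟩
      have e : sg k 0 Y * (sg k 0 (XX k A) * sg k 0 a - sg k 1 (XX k A) * sg k 1 a) =
        sg k 0 Y * ((sg k 0 (XX k A) - sg k 1 (XX k A)) * q) := by rw [hq]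
      linear_combination e + (-(sg k 0 a) +
        sg k 1 Y * (sg k 1 (XX k A) * sg k 1 a)) * h0 + (sg k 1 a - sg k 0 Y *
         (sg k 1 (XX k A) * sg k 1 a)) * h1
  have : f ∈ B := by rw [hB]; trivial
  exact this

theorem der_prod {C : Type*} [CommRing C] [Algebra k C] (d : Derivation k C C) {α : Type*}
    [DecidableEq α] (s : Finset α) (g q : α → C) (h : ∀ p ∈ s, d (g p) = g p * q p) :
    d (∏ p ∈ s, g p) = (∏ p ∈ s, g p) * ∑ p ∈ s, q p := by
  induction s using Finset.induction_on with
  | empty => simp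
  | insert a s ha ih =>
    rw [Finset.prod_insert ha, Finset.sum_insert ha, Derivation.leibniz,
      ih (fun p hp => h p (Finset.mem_insert_of_mem hp)), h a (Finset.mem_insert_self a s),
      smul_eq_mul, smul_eq_mul]
    ring

/-- the logarithmic derivative of the discriminant -/
theorem exists_phi (f : A) : ∃ φ : TA k A ι, (∀ h : Equiv.Perm ι, pmap (h : ι → ι) φ = φ) ∧
    Dv k f (Dis k A ι) = Dis k A ι * φ := by
  obtain ⟨q, hq⟩ := exists_dd (k := k) f
  refine ⟨∑ p ∈ (Finset.univ : Finset ι).offDiag, pmap ![p.1, p.2] q, ?_, ?_⟩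
  · intro h
    rw [map_sum]
    refine Finset.sum_nbij' (fun p => (h p.1, h p.2)) (fun p => (h.symm p.1, h.symm p.2))
      ?_ ?_ ?_ ?_ ?_
    · intro p hp
      simp only [Finset.mem_offDiag, Finset.mem_univ, true_and] at hp ⊢
      exact fun e => hp (h.injective e)
    · intro p hp
      simp only [Finset.mem_offDiag, Finset.mem_univ, true_and] at hp ⊢
      exact fun e => hp (h.symm.injective e)
    · intro p _; simp
    · intro p _; simp
    · intro p _
      rw [pmap_comp]
      congr 2
      funext i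
      fin_cases i <;> rfl
  · rw [Dis]
    apply der_prod
    intro p _
    have e : (pmap ![p.1, p.2] : TA k A (Fin 2) →ₐ[k] TA k A ι) (sg k 0 f - sg k 1 f) =
        pmap ![p.1, p.2] ((sg k 0 (XX k A) - sg k 1 (XX k A)) * q) := by rw [hq]
    rw [map_sub, map_mul, map_sub, pmap_sg, pmap_sg, pmap_sg, pmap_sg] at e
    simp only [Matrix.cons_val_zero, Matrix.cons_val_one] at e
    rw [map_sub, Dv_sg, Dv_sg]
    have hX : dd k (XX k A) = 1 := WAlg.DX
    rw [hX, mul_one]
    exact e

end tens

section dat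

variable {k A S : Type u} [Field k] [CommRing A] [Algebra k A] [WAlg k A] [Ring S] [Algebra k S]
  {r : ℕ} {n : Fin r → ℕ} (dat : PData k A r n S)

theorem tot_τ (f : A) (a : TA k A (Fin r)) :
    dat.tot f * dat.τ a - dat.τ a * dat.tot f = dat.τ (Dv k f a) := by
  induction a using TA_ind with
  | hs j g =>
    rw [dat.tot_apply, Finset.sum_mul, Finset.mul_sum, ← Finset.sum_sub_distrib, Dv_sg,
      Finset.sum_eq_single j]
    · rw [dat.eτ, if_pos rfl]
    · intro i _ hi; rw [dat.eτ, if_neg hi]
    · simp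
  | hc c =>
    rw [AlgHom.commutes, Derivation.map_algebraMap, map_zero, Algebra.commutes, sub_self]
  | ha x y hx hy =>
    rw [map_add, map_add, map_add, ← hx, ← hy]; noncomm_ring
  | hm x y hx hy =>
    rw [Derivation.leibniz, smul_eq_mul, smul_eq_mul, map_add, map_mul, map_mul, map_mul, ← hx,
      ← hy, mul_sub, mul_sub]
    have c1 : dat.τ y * (dat.tot f * dat.τ x) - dat.τ y * (dat.τ x * dat.tot f) =
        dat.τ y * dat.τ (Dv k f x) := by rw [← hx, mul_sub]
    have c2 : dat.τ y * dat.τ (Dv k f x) = dat.τ (Dv k f x) * dat.τ y := by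
      rw [← map_mul, ← map_mul, mul_comm]
    rw [c1, c2, ← hx]
    noncomm_ring

theorem tot_τ' (f : A) (a : TA k A (Fin r)) :
    dat.tot f * dat.τ a = dat.τ a * dat.tot f + dat.τ (Dv k f a) := by
  rw [← tot_τ]; abel

theorem hom_eU (f : A) : dat.hom (eU f) = dat.tot f := liftE_eU _ _ f

/-- sums of products of a function in `Z` and an element of the image of `U` -/
def GU (Z : Subalgebra k (TA k A (Fin r))) : Submodule k S :=
  Submodule.span k {x | ∃ z u, z ∈ Z ∧ x = dat.τ z * dat.hom u}

variable {dat} {Z : Subalgebra k (TA k A (Fin r))}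

theorem GU_mk {z : TA k A (Fin r)} (hz : z ∈ Z) (u : UW k A) : dat.τ z * dat.hom u ∈ GU dat Z :=
  Submodule.subset_span ⟨z, u, hz, rfl⟩

theorem GU_τ {z : TA k A (Fin r)} (hz : z ∈ Z) : dat.τ z ∈ GU dat Z := by
  have := GU_mk (dat := dat) hz 1
  rwa [map_one, mul_one] at this

theorem GU_hom (u : UW k A) : dat.hom u ∈ GU dat Z := by
  have := GU_mk (dat := dat) (Z := Z) (one_mem Z) u
  rwa [map_one, one_mul] at this

theorem GU_one : (1 : S) ∈ GU dat Z := by
  have := GU_hom (dat := dat) (Z := Z) 1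
  rwa [map_one] at this

theorem GU_τ_mul {z : TA k A (Fin r)} (hz : z ∈ Z) {y : S} (hy : y ∈ GU dat Z) :
    dat.τ z * y ∈ GU dat Z := by
  induction hy using Submodule.span_induction with
  | mem x hx =>
    obtain ⟨z', u, hz', rfl⟩ := hx
    rw [← mul_assoc, ← map_mul]
    exact GU_mk (mul_mem hz hz') u
  | zero => rw [mul_zero]; exact zero_mem _
  | add x y _ _ hx hy => rw [mul_add]; exact add_mem hx hy
  | smul c x _ hx => rw [mul_smul_comm]; exact Submodule.smul_mem _ _ hx

theorem GU_hom_mul (hD : ∀ (f : A) (z : TA k A (Fin r)), z ∈ Z → Dv k f z ∈ Z) (u : UW k A) :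
    ∀ y ∈ GU dat Z, dat.hom u * y ∈ GU dat Z := by
  induction u using UW_induction with
  | h1 => intro y hy; rw [map_one, one_mul]; exact hy
  | hadd a b ha hb => intro y hy; rw [map_add, add_mul]; exact add_mem (ha y hy) (hb y hy)
  | hsmul c a ha => intro y hy; rw [map_smul, smul_mul_assoc]; exact Submodule.smul_mem _ _ (ha y hy)
  | hmul f a ha =>
    intro y hy
    rw [map_mul, mul_assoc, hom_eU]
    have h2 := ha y hy
    revert h2
    generalize dat.hom a * y = w
    intro hw
    induction hw using Submodule.span_induction with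
    | mem x hx =>
      obtain ⟨z', u, hz', rfl⟩ := hx
      rw [← mul_assoc, tot_τ', add_mul, mul_assoc, ← hom_eU, ← map_mul]
      exact add_mem (GU_mk hz' _) (GU_mk (hD f z' hz') _)
    | zero => rw [mul_zero]; exact zero_mem _
    | add x y _ _ hx hy => rw [mul_add]; exact add_mem hx hy
    | smul c x _ hx => rw [mul_smul_comm]; exact Submodule.smul_mem _ _ hx

theorem GU_mul (hD : ∀ (f : A) (z : TA k A (Fin r)), z ∈ Z → Dv k f z ∈ Z) {x y : S} (hx : x ∈ GU dat Z)
    (hy : y ∈ GU dat Z) : x * y ∈ GU dat Z := by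
  induction hx using Submodule.span_induction with
  | mem x hx =>
    obtain ⟨z', u, hz', rfl⟩ := hx
    rw [mul_assoc]
    exact GU_τ_mul hz' (GU_hom_mul hD u y hy)
  | zero => rw [zero_mul]; exact zero_mem _
  | add x y _ _ hx hy => rw [add_mul]; exact add_mem hx hy
  | smul c x _ hx => rw [smul_mul_assoc]; exact Submodule.smul_mem _ _ hx

/-- the functions can be moved to the right -/
theorem GU_right (hD : ∀ (f : A) (z : TA k A (Fin r)), z ∈ Z → Dv k f z ∈ Z) {x : S} (hx : x ∈ GU dat Z) :
    x ∈ Submodule.span k {x | ∃ z u, z ∈ Z ∧ x = dat.hom u * dat.τ z} := by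
  have key : ∀ u : UW k A, ∀ z ∈ Z, dat.τ z * dat.hom u ∈
      Submodule.span k {x | ∃ z u, z ∈ Z ∧ x = dat.hom u * dat.τ z} := by
    intro u
    induction u using UW_induction with
    | h1 =>
      intro z hz
      exact Submodule.subset_span ⟨z, 1, hz, by rw [map_one, mul_one, one_mul]⟩
    | hadd a b ha hb => intro z hz; rw [map_add, mul_add]; exact add_mem (ha z hz) (hb z hz)
    | hsmul c a ha =>
      intro z hz; rw [map_smul, mul_smul_comm]; exact Submodule.smul_mem _ _ (ha z hz)
    | hmul f a ha =>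
      intro z hz
      have e : dat.τ z * dat.hom (eU f * a) =
          dat.tot f * (dat.τ z * dat.hom a) - dat.τ (Dv k f z) * dat.hom a := by
        rw [map_mul, hom_eU, ← mul_assoc, ← mul_assoc, tot_τ']
        noncomm_ring
      rw [e]
      refine sub_mem ?_ (ha _ (hD f z hz))
      have h2 := ha z hz
      revert h2
      generalize dat.τ z * dat.hom a = w
      intro hw
      induction hw using Submodule.span_induction with
      | mem x hx =>
        obtain ⟨z', u, hz', rfl⟩ := hx
        rw [← mul_assoc, ← hom_eU, ← map_mul]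
        exact Submodule.subset_span ⟨z', _, hz', rfl⟩
      | zero => rw [mul_zero]; exact zero_mem _
      | add x y _ _ hx hy => rw [mul_add]; exact add_mem hx hy
      | smul c x _ hx => rw [mul_smul_comm]; exact Submodule.smul_mem _ _ hx
  induction hx using Submodule.span_induction with
  | mem x hx =>
    obtain ⟨z', u, hz', rfl⟩ := hx
    exact key u z' hz'
  | zero => exact zero_mem _
  | add x y _ _ hx hy => exact add_mem hx hy
  | smul c x _ hx => exact Submodule.smul_mem _ _ hx

variable (dat) in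
/-- the image of the discriminant -/
abbrev DD : S := dat.τ (Dis k A (Fin r))

/-- the symmetric functions -/
def Sym (k A : Type u) [Field k] [CommRing A] [Algebra k A] [WAlg k A] {r : ℕ} (n : Fin r → ℕ) :
    Subalgebra k (TA k A (Fin r)) where
  carrier := {z | ∀ h : stab n, pmap ((h : Equiv.Perm (Fin r)) : Fin r → Fin r) z = z}
  mul_mem' {a b} ha hb h := by rw [map_mul, ha, hb]
  one_mem' h := map_one _
  add_mem' {a b} ha hb h := by rw [map_add, ha, hb]
  zero_mem' h := map_zero _
  algebraMap_mem' c h := AlgHom.commutes _ c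

theorem Sym_D (f : A) (z : TA k A (Fin r)) (hz : z ∈ Sym k A n) : Dv k f z ∈ Sym k A n := by
  intro h
  rw [← Dv_pmap, hz h]

theorem ZU_eq : dat.ZU = GU dat (Sym k A n) := rfl

/-- conjugation by the discriminant -/
theorem conj1 (hD : ∀ (f : A) (z : TA k A (Fin r)), z ∈ Z → Dv k f z ∈ Z)
    (hφ : ∀ f : A, ∃ φ ∈ Z, Dv k f (Dis k A (Fin r)) = Dis k A (Fin r) * φ) {x : S}
    (hx : x ∈ GU dat Z) : ∃ y ∈ GU dat Z, DD dat * x = y * DD dat := by
  have key : ∀ u : UW k A, ∃ y ∈ GU dat Z, DD dat * dat.hom u = y * DD dat := by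
    intro u
    induction u using UW_induction with
    | h1 => exact ⟨1, GU_one, by rw [map_one, mul_one, one_mul]⟩
    | hadd a b ha hb =>
      obtain ⟨y, hy, e⟩ := ha
      obtain ⟨y', hy', e'⟩ := hb
      exact ⟨y + y', add_mem hy hy', by rw [map_add, mul_add, e, e', add_mul]⟩
    | hsmul c a ha =>
      obtain ⟨y, hy, e⟩ := ha
      exact ⟨c • y, Submodule.smul_mem _ _ hy, by rw [map_smul, mul_smul_comm, e, smul_mul_assoc]⟩
    | hmul f a ha =>
      obtain ⟨y, hy, e⟩ := ha
      obtain ⟨φ, hφ1, hφ2⟩ := hφ f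
      refine ⟨(dat.tot f - dat.τ φ) * y, ?_, ?_⟩
      · refine GU_mul hD (sub_mem ?_ (GU_τ hφ1)) hy
        rw [← hom_eU]; exact GU_hom _
      · rw [map_mul, hom_eU, ← mul_assoc, mul_assoc _ y, ← e, ← mul_assoc]
        congr 1
        rw [sub_mul, tot_τ', hφ2, map_mul, ← map_mul, ← map_mul, mul_comm φ]
        abel
  induction hx using Submodule.span_induction with
  | mem x hx =>
    obtain ⟨z', u, hz', rfl⟩ := hx
    obtain ⟨y, hy, e⟩ := key u
    refine ⟨dat.τ z' * y, GU_τ_mul hz' hy, ?_⟩
    rw [mul_assoc, ← e, ← mul_assoc, ← mul_assoc, ← map_mul, ← map_mul, mul_comm z']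
  | zero => exact ⟨0, zero_mem _, by simp⟩
  | add x y _ _ hx hy =>
    obtain ⟨y1, h1, e1⟩ := hx
    obtain ⟨y2, h2, e2⟩ := hy
    exact ⟨y1 + y2, add_mem h1 h2, by rw [mul_add, e1, e2, add_mul]⟩
  | smul c x _ hx =>
    obtain ⟨y1, h1, e1⟩ := hx
    exact ⟨c • y1, Submodule.smul_mem _ _ h1, by rw [mul_smul_comm, e1, smul_mul_assoc]⟩

theorem conj2 (hD : ∀ (f : A) (z : TA k A (Fin r)), z ∈ Z → Dv k f z ∈ Z)
    (hφ : ∀ f : A, ∃ φ ∈ Z, Dv k f (Dis k A (Fin r)) = Dis k A (Fin r) * φ) {x : S}
    (hx : x ∈ GU dat Z) : ∃ y ∈ GU dat Z, x * DD dat = DD dat * y := by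
  have key : ∀ u : UW k A, ∃ y ∈ GU dat Z, dat.hom u * DD dat = DD dat * y := by
    intro u
    induction u using UW_induction with
    | h1 => exact ⟨1, GU_one, by rw [map_one, mul_one, one_mul]⟩
    | hadd a b ha hb =>
      obtain ⟨y, hy, e⟩ := ha
      obtain ⟨y', hy', e'⟩ := hb
      exact ⟨y + y', add_mem hy hy', by rw [map_add, mul_add, add_mul, e, e']⟩
    | hsmul c a ha =>
      obtain ⟨y, hy, e⟩ := ha
      exact ⟨c • y, Submodule.smul_mem _ _ hy, by rw [map_smul, mul_smul_comm, smul_mul_assoc, e]⟩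
    | hmul f a ha =>
      obtain ⟨y, hy, e⟩ := ha
      obtain ⟨φ, hφ1, hφ2⟩ := hφ f
      refine ⟨(dat.tot f + dat.τ φ) * y, ?_, ?_⟩
      · refine GU_mul hD (add_mem ?_ (GU_τ hφ1)) hy
        rw [← hom_eU]; exact GU_hom _
      · rw [map_mul, hom_eU, mul_assoc, e, ← mul_assoc, ← mul_assoc]
        congr 1
        rw [mul_add, tot_τ', hφ2, map_mul]
  induction hx using Submodule.span_induction with
  | mem x hx =>
    obtain ⟨z', u, hz', rfl⟩ := hx
    obtain ⟨y, hy, e⟩ := key u
    refine ⟨dat.τ z' * y, GU_τ_mul hz' hy, ?_⟩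
    rw [mul_assoc, e, ← mul_assoc, ← mul_assoc, ← map_mul, ← map_mul, mul_comm z']
  | zero => exact ⟨0, zero_mem _, by simp⟩
  | add x y _ _ hx hy =>
    obtain ⟨y1, h1, e1⟩ := hx
    obtain ⟨y2, h2, e2⟩ := hy
    exact ⟨y1 + y2, add_mem h1 h2, by rw [mul_add, add_mul, e1, e2]⟩
  | smul c x _ hx =>
    obtain ⟨y1, h1, e1⟩ := hx
    exact ⟨c • y1, Submodule.smul_mem _ _ h1, by rw [mul_smul_comm, smul_mul_assoc, e1]⟩

theorem conj1_pow (hD : ∀ (f : A) (z : TA k A (Fin r)), z ∈ Z → Dv k f z ∈ Z)
    (hφ : ∀ f : A, ∃ φ ∈ Z, Dv k f (Dis k A (Fin r)) = Dis k A (Fin r) * φ) (j : ℕ) :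
    ∀ {x : S}, x ∈ GU dat Z → ∃ y ∈ GU dat Z, DD dat ^ j * x = y * DD dat ^ j := by
  induction j with
  | zero => intro x hx; exact ⟨x, hx, by simp⟩
  | succ j ih =>
    intro x hx
    obtain ⟨y, hy, e⟩ := conj1 hD hφ hx
    obtain ⟨y', hy', e'⟩ := ih hy
    exact ⟨y', hy', by rw [pow_succ, mul_assoc, e, ← mul_assoc, e', mul_assoc, ← pow_succ]⟩

theorem conj2_pow (hD : ∀ (f : A) (z : TA k A (Fin r)), z ∈ Z → Dv k f z ∈ Z)
    (hφ : ∀ f : A, ∃ φ ∈ Z, Dv k f (Dis k A (Fin r)) = Dis k A (Fin r) * φ) (j : ℕ) :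
    ∀ {x : S}, x ∈ GU dat Z → ∃ y ∈ GU dat Z, x * DD dat ^ j = DD dat ^ j * y := by
  induction j with
  | zero => intro x hx; exact ⟨x, hx, by simp⟩
  | succ j ih =>
    intro x hx
    obtain ⟨y, hy, e⟩ := conj2 hD hφ hx
    obtain ⟨y', hy', e'⟩ := ih hy
    exact ⟨y', hy', by rw [pow_succ', ← mul_assoc, e, mul_assoc, e', ← mul_assoc]⟩

/-! ### the order -/

theorem Om_dif (τ : TA k A (Fin r) →ₐ[k] S) (Θ : A →ₗ[k] S) (l : Fin r)
    (H : TA k A (Fin r) ⊗[k] A) :
    Om τ Θ (dif k A l * H) = Om τ (sh (τ (sg k l (XX k A))) Θ) H := by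
  induction H using TensorProduct.induction_on with
  | zero => simp
  | add x y hx hy => rw [mul_add, map_add, map_add, hx, hy]
  | tmul a f =>
    rw [dif, sub_mul, Algebra.TensorProduct.tmul_mul_tmul, Algebra.TensorProduct.tmul_mul_tmul,
      one_mul, one_mul, map_sub, Om_tmul, Om_tmul, Om_tmul, sh_apply, mul_sub,
      ← mul_assoc (τ a) (τ _), ← map_mul τ, mul_comm a]

theorem Om_dif_pow (τ : TA k A (Fin r) →ₐ[k] S) (l : Fin r) (m : ℕ) :
    ∀ (Θ : A →ₗ[k] S) (H : TA k A (Fin r) ⊗[k] A),
    Om τ Θ (dif k A l ^ m * H) = Om τ ((sh (τ (sg k l (XX k A))))^[m] Θ) H := by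
  induction m with
  | zero => intro Θ H; simp
  | succ m ih =>
    intro Θ H
    rw [pow_succ', mul_assoc, Om_dif, ih, Function.iterate_succ_apply]

theorem Om_zero (τ : TA k A (Fin r) →ₐ[k] S) (H : TA k A (Fin r) ⊗[k] A) : Om τ 0 H = 0 := by
  induction H using TensorProduct.induction_on with
  | zero => simp
  | add x y hx hy => rw [map_add, hx, hy, add_zero]
  | tmul a f => rw [Om_tmul]; simp

theorem Om_tot (H : TA k A (Fin r) ⊗[k] A) : Om dat.τ dat.tot H = ∑ l, Om dat.τ (dat.e l) H := by
  induction H using TensorProduct.induction_on with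
  | zero => simp
  | add x y hx hy => rw [map_add, hx, hy, ← Finset.sum_add_distrib]; simp only [map_add]
  | tmul a f => simp only [Om_tmul, dat.tot_apply, Finset.mul_sum]

theorem Om_mem (H : TA k A (Fin r) ⊗[k] A) : Om dat.τ dat.tot H ∈ GU dat ⊤ := by
  induction H using TensorProduct.induction_on with
  | zero => rw [map_zero]; exact zero_mem _
  | add x y hx hy => rw [map_add]; exact add_mem hx hy
  | tmul a f => rw [Om_tmul, ← hom_eU]; exact GU_mk (Z := ⊤) Algebra.mem_top _

/-- the discriminant divides -/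
theorem dvd_Dis {i j : Fin r} (hij : i ≠ j) :
    ∃ E : TA k A (Fin r), Dis k A (Fin r) = E * (sg k i (XX k A) - sg k j (XX k A)) := by
  have hm : (i, j) ∈ (Finset.univ : Finset (Fin r)).offDiag := by simp [hij]
  refine ⟨∏ p ∈ (Finset.univ : Finset (Fin r)).offDiag.erase (i, j),
    (sg k p.1 (XX k A) - sg k p.2 (XX k A)), ?_⟩
  rw [Dis, ← Finset.prod_erase_mul _ _ hm]

theorem exists_pow (i : Fin r) (n : Fin r → ℕ) : ∃ (j : ℕ) (u v : TA k A (Fin r) ⊗[k] A),
    ((Dis k A (Fin r)) ⊗ₜ[k] (1 : A)) ^ j =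
      u * dif k A i ^ n i + v * ∏ l ∈ Finset.univ.erase i, dif k A l ^ n l := by
  set I : Ideal (TA k A (Fin r) ⊗[k] A) := Ideal.span {dif k A i ^ n i} ⊔
    Ideal.span {∏ l ∈ Finset.univ.erase i, dif k A l ^ n l} with hI
  have h1 : (Dis k A (Fin r)) ⊗ₜ[k] (1 : A) ∈ I.radical := by
    rw [Ideal.radical_eq_sInf, Ideal.mem_sInf]
    rintro P ⟨hIP, hP⟩
    have a1 : dif k A i ∈ P := by
      apply hP.mem_of_pow_mem (n i)
      apply hIP
      exact Ideal.mem_sup_left (Ideal.mem_span_singleton_self _)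
    have a2 : ∏ l ∈ Finset.univ.erase i, dif k A l ^ n l ∈ P := by
      apply hIP
      exact Ideal.mem_sup_right (Ideal.mem_span_singleton_self _)
    rw [hP.prod_mem_iff] at a2
    obtain ⟨l, hl, hl'⟩ := a2
    have hli : l ≠ i := (Finset.mem_erase.1 hl).1
    have a3 := hP.mem_of_pow_mem _ hl'
    have a4 : (sg k i (XX k A) - sg k l (XX k A)) ⊗ₜ[k] (1 : A) ∈ P := by
      have : (sg k i (XX k A) - sg k l (XX k A) : TA k A (Fin r)) ⊗ₜ[k] (1 : A) =
          dif k A l - dif k A i := by
        rw [dif, dif, TensorProduct.sub_tmul]; abel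
      rw [this]
      exact sub_mem a3 a1
    obtain ⟨E, hE⟩ := dvd_Dis (k := k) (A := A) hli.symm
    have : (Dis k A (Fin r)) ⊗ₜ[k] (1 : A) =
        (E ⊗ₜ[k] (1 : A)) * ((sg k i (XX k A) - sg k l (XX k A)) ⊗ₜ[k] (1 : A)) := by
      rw [Algebra.TensorProduct.tmul_mul_tmul, one_mul, ← hE]
    rw [this]
    exact Ideal.mul_mem_left _ _ a4
  rw [Ideal.mem_radical_iff] at h1
  obtain ⟨j, hj⟩ := h1
  rw [hI, Submodule.mem_sup] at hj
  obtain ⟨y, hy, z, hz, e⟩ := hj
  obtain ⟨u, rfl⟩ := Ideal.mem_span_singleton'.1 hy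
  obtain ⟨v, rfl⟩ := Ideal.mem_span_singleton'.1 hz
  exact ⟨j, u, v, e.symm⟩

theorem key_e (i : Fin r) : ∃ j : ℕ, ∀ f, DD dat ^ j * dat.e i f ∈ GU dat ⊤ := by
  obtain ⟨j, u, v, huv⟩ := exists_pow (k := k) (A := A) i n
  refine ⟨j, fun f => ?_⟩
  have e1 : DD dat ^ j * dat.e i f =
      Om dat.τ (dat.e i) (((Dis k A (Fin r)) ⊗ₜ[k] (1 : A)) ^ j * (1 ⊗ₜ[k] f)) := by
    rw [Algebra.TensorProduct.tmul_pow, one_pow, Algebra.TensorProduct.tmul_mul_tmul, one_mul,
      mul_one, Om_tmul, map_pow]
  have e2 : Om dat.τ (dat.e i) (u * dif k A i ^ n i * (1 ⊗ₜ[k] f)) = 0 := by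
    rw [show u * dif k A i ^ n i * ((1 : TA k A (Fin r)) ⊗ₜ[k] f) =
      dif k A i ^ n i * (u * (1 ⊗ₜ[k] f)) by ring, Om_dif_pow, dat.ord, Om_zero]
  have e3 : Om dat.τ (dat.e i) (v * (∏ l ∈ Finset.univ.erase i, dif k A l ^ n l) * (1 ⊗ₜ[k] f)) =
      Om dat.τ dat.tot (v * (∏ l ∈ Finset.univ.erase i, dif k A l ^ n l) * (1 ⊗ₜ[k] f)) := by
    rw [Om_tot, Finset.sum_eq_single i]
    · intro l _ hl
      have hm : l ∈ Finset.univ.erase i := Finset.mem_erase.2 ⟨hl, Finset.mem_univ l⟩
      rw [← Finset.mul_prod_erase _ _ hm]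
      rw [show v * (dif k A l ^ n l * ∏ x ∈ (Finset.univ.erase i).erase l, dif k A x ^ n x) *
        ((1 : TA k A (Fin r)) ⊗ₜ[k] f) = dif k A l ^ n l *
        (v * (∏ x ∈ (Finset.univ.erase i).erase l, dif k A x ^ n x) * (1 ⊗ₜ[k] f)) by ring,
        Om_dif_pow, dat.ord, Om_zero]
    · simp
  rw [e1, huv, add_mul, map_add, e2, zero_add, e3]
  exact Om_mem _

/-! ### all elements -/

theorem top_D (f : A) (z : TA k A (Fin r)) (hz : z ∈ (⊤ : Subalgebra k (TA k A (Fin r)))) :
    Dv k f z ∈ (⊤ : Subalgebra k (TA k A (Fin r))) := trivial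

theorem top_φ (f : A) : ∃ φ ∈ (⊤ : Subalgebra k (TA k A (Fin r))),
    Dv k f (Dis k A (Fin r)) = Dis k A (Fin r) * φ := by
  obtain ⟨φ, _, h⟩ := exists_phi (k := k) (ι := Fin r) f
  exact ⟨φ, trivial, h⟩

theorem Sym_φ (f : A) : ∃ φ ∈ Sym k A n,
    Dv k f (Dis k A (Fin r)) = Dis k A (Fin r) * φ := by
  obtain ⟨φ, h1, h⟩ := exists_phi (k := k) (ι := Fin r) f
  exact ⟨φ, fun g => h1 _, h⟩

theorem DD_pow_mul {Z : Subalgebra k (TA k A (Fin r))} (hZ : Dis k A (Fin r) ∈ Z) (j : ℕ) {x : S}
    (hx : x ∈ GU dat Z) : DD dat ^ j * x ∈ GU dat Z := by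
  have : DD dat ^ j = dat.τ (Dis k A (Fin r) ^ j) := (map_pow _ _ _).symm
  rw [this]
  exact GU_τ_mul (pow_mem hZ j) hx

theorem mul_aux {j₁ j₂ : ℕ} {s₁ s₂ : S} (h₁ : DD dat ^ j₁ * s₁ ∈ GU dat ⊤)
    (h₂ : DD dat ^ j₂ * s₂ ∈ GU dat ⊤) : DD dat ^ (j₂ + j₁) * (s₁ * s₂) ∈ GU dat ⊤ := by
  obtain ⟨y, hy, e⟩ := conj1_pow (dat := dat) top_D top_φ j₂ h₁
  have : DD dat ^ (j₂ + j₁) * (s₁ * s₂) = y * (DD dat ^ j₂ * s₂) := by
    rw [← mul_assoc y, ← e, pow_add]
    noncomm_ring
  rw [this]
  exact GU_mul top_D hy h₂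

variable (dat) in
/-- the elements with denominators -/
def BB : Subalgebra k S where
  carrier := {s | ∃ j : ℕ, DD dat ^ j * s ∈ GU dat ⊤}
  mul_mem' := by
    rintro a b ⟨j, hj⟩ ⟨j', hj'⟩
    exact ⟨_, mul_aux hj hj'⟩
  add_mem' := by
    rintro a b ⟨j, hj⟩ ⟨j', hj'⟩
    refine ⟨j + j', ?_⟩
    have : DD dat ^ (j + j') * (a + b) =
        DD dat ^ j' * (DD dat ^ j * a) + DD dat ^ j * (DD dat ^ j' * b) := by
      rw [← mul_assoc, ← mul_assoc, ← pow_add, ← pow_add, add_comm j' j, mul_add]
    rw [this]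
    exact add_mem (DD_pow_mul (Z := ⊤) Algebra.mem_top _ hj)
      (DD_pow_mul (Z := ⊤) Algebra.mem_top _ hj')
  algebraMap_mem' := by
    intro c
    refine ⟨0, ?_⟩
    rw [pow_zero, one_mul, ← dat.τ.commutes c]
    exact GU_τ trivial

theorem BB_eq (hi : dat.Inv) (hg : dat.Gen) : BB dat = ⊤ := by
  apply hg
  · intro a; exact ⟨0, by rw [pow_zero, one_mul]; exact GU_τ trivial⟩
  · intro i f
    obtain ⟨j, hj⟩ := key_e (dat := dat) i
    exact ⟨j, hj f⟩
  · intro i j hij s hs
    refine ⟨1, ?_⟩
    obtain ⟨E, hE⟩ := dvd_Dis (k := k) (A := A) hij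
    have hu := hi i j hij
    have h2 : dat.τ (sg k i (XX k A) - sg k j (XX k A)) * s = 1 := by
      obtain ⟨w, hw⟩ := hu
      rw [← hw] at hs ⊢
      have : s = ↑w⁻¹ := by rw [← mul_one s, ← w.mul_inv, ← mul_assoc, hs, one_mul]
      rw [this, w.mul_inv]
    rw [pow_one, DD, hE, map_mul, mul_assoc, h2, mul_one]
    exact GU_τ trivial

theorem act_hom (H : HAct dat) (h : stab n) (u : UW k A) : H.act h (dat.hom u) = dat.hom u := by
  have : (H.act h).comp dat.hom = dat.hom := by
    apply UW_hom_ext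
    intro f
    rw [AlgHom.comp_apply, hom_eU, dat.tot_apply, map_sum]
    simp only [H.act_e]
    exact Equiv.sum_comp (h : Equiv.Perm (Fin r)) (fun i => dat.e i f)
  exact DFunLike.congr_fun this u

theorem act_DD (H : HAct dat) (h : stab n) : H.act h (DD dat) = DD dat := by
  rw [H.act_τ, pmap_Dis]

theorem sum_Sym (a : TA k A (Fin r)) :
    ∑ h : stab n, pmap ((h : Equiv.Perm (Fin r)) : Fin r → Fin r) a ∈ Sym k A n := by
  intro g
  rw [map_sum]
  simp only [pmap_comp]
  exact Fintype.sum_equiv (Equiv.mulLeft g) _ _ (fun h => rfl)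

theorem avg (H : HAct dat) {s : S} (hs : s ∈ GU dat ⊤) :
    ∑ h : stab n, H.act h s ∈ GU dat (Sym k A n) := by
  induction hs using Submodule.span_induction with
  | mem x hx =>
    obtain ⟨a, u, _, rfl⟩ := hx
    simp only [map_mul, act_hom, H.act_τ]
    rw [← Finset.sum_mul, ← map_sum]
    exact GU_mk (sum_Sym a) u
  | zero => simp
  | add x y _ _ hx hy => simp only [map_add, Finset.sum_add_distrib]; exact add_mem hx hy
  | smul c x _ hx => simp only [map_smul, ← Finset.smul_sum]; exact Submodule.smul_mem _ _ hx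

theorem avg_inv [CharZero k] (H : HAct dat) {s : S} (hs : s ∈ GU dat ⊤) (hi : H.IsInv s) :
    s ∈ GU dat (Sym k A n) := by
  have h1 := avg H hs
  have h2 : ∑ h : stab n, H.act h s = (Fintype.card (stab n) : k) • s := by
    rw [Finset.sum_congr rfl (fun h _ => hi h), Finset.sum_const, Finset.card_univ,
      Nat.cast_smul_eq_nsmul]
  rw [h2] at h1
  have h3 : (Fintype.card (stab n) : k) ≠ 0 := by
    exact_mod_cast Fintype.card_ne_zero
  have := Submodule.smul_mem _ ((Fintype.card (stab n) : k))⁻¹ h1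
  rwa [smul_smul, inv_mul_cancel₀ h3, one_smul] at this

theorem DD_unit (hi : dat.Inv) : IsUnit (DD dat) := by
  have : ∀ s : Finset (Fin r × Fin r), (∀ p ∈ s, p.1 ≠ p.2) →
      IsUnit (dat.τ (∏ p ∈ s, (sg k p.1 (XX k A) - sg k p.2 (XX k A)))) := by
    intro s
    induction s using Finset.induction_on with
    | empty => intro _; simp
    | insert a s ha ih =>
      intro h
      rw [Finset.prod_insert ha, map_mul]
      exact (hi _ _ (h a (Finset.mem_insert_self a s))).mul
        (ih fun p hp => h p (Finset.mem_insert_of_mem hp))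
  exact this _ (fun p hp => (Finset.mem_offDiag.1 hp).2.2)

theorem inv_left [CharZero k] (hi : dat.Inv) (hg : dat.Gen) (H : HAct dat) {s : S}
    (hs : H.IsInv s) : ∃ j : ℕ, DD dat ^ j * s ∈ GU dat (Sym k A n) := by
  have h1 : s ∈ BB dat := by rw [BB_eq hi hg]; trivial
  obtain ⟨j, hj⟩ := h1
  refine ⟨j, avg_inv H hj ?_⟩
  intro h
  rw [map_mul, map_pow, act_DD, hs h]

end dat

end H1

/-- Module H1 -/
theorem specDen : SpecDen := by
  intro k A S _ _ _ _ _ _ _ r n dat hi hg H
  refine ⟨?_, ?_, ?_, ?_, ?_, ?_⟩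
  · intro x hx y hy
    exact H1.GU_mul (Z := H1.Sym k A n) H1.Sym_D hx hy
  · intro x hx
    exact H1.GU_right (Z := H1.Sym k A n) H1.Sym_D hx
  · intro x hx
    exact H1.conj1 (Z := H1.Sym k A n) H1.Sym_D H1.Sym_φ hx
  · intro x hx
    exact H1.conj2 (Z := H1.Sym k A n) H1.Sym_D H1.Sym_φ hx
  · intro s hs
    exact H1.inv_left hi hg H hs
  · intro s hs
    obtain ⟨j, hj⟩ := H1.inv_left hi hg H hs
    obtain ⟨y, hy, e⟩ := H1.conj2_pow (dat := dat) (Z := H1.Sym k A n) H1.Sym_D H1.Sym_φ j hj
    refine ⟨j, ?_⟩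
    have hu : IsUnit (H1.DD dat ^ j) := (H1.DD_unit hi).pow j
    have : s * H1.DD dat ^ j = y := by
      apply hu.mul_left_cancel
      rw [← mul_assoc, e]
    rw [this]
    exact hy

end MPcc24
end
end

section
set_option linter.all false

/-!
# Module F1: data with an action of the stabilizer of the multiplicities
-/

noncomputable section

open scoped TensorProduct BigOperators

namespace MPcc24

namespace HConstr

universe u v

section restrict

variable {k : Type u} {A : Type u} [Field k] [CommRing A] [Algebra k A] [WAlg k A]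
variable {R : Type v} [Ring R] [Algebra k R] {r : ℕ} {n : Fin r → ℕ} (dat : PData k A r n R)

/-- the generators -/
def gens : Set R :=
  {x | (∃ a, x = dat.τ a) ∨ (∃ i f, x = dat.e i f) ∨
    ∃ i j : Fin r, i ≠ j ∧ x * dat.τ (sg k i (XX k A) - sg k j (XX k A)) = 1}

/-- the algebra generated by the data -/
def alg : Subalgebra k R := Algebra.adjoin k (gens dat)

theorem τ_mem (a : TA k A (Fin r)) : dat.τ a ∈ alg dat :=
  Algebra.subset_adjoin (Or.inl ⟨a, rfl⟩)

theorem e_mem (i : Fin r) (f : A) : dat.e i f ∈ alg dat :=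
  Algebra.subset_adjoin (Or.inr (Or.inl ⟨i, f, rfl⟩))

theorem inv_mem (i j : Fin r) (hij : i ≠ j) (x : R)
    (hx : x * dat.τ (sg k i (XX k A) - sg k j (XX k A)) = 1) : x ∈ alg dat :=
  Algebra.subset_adjoin (Or.inr (Or.inr ⟨i, j, hij, hx⟩))

/-- the restricted function map -/
def rτ : TA k A (Fin r) →ₐ[k] alg dat := dat.τ.codRestrict (alg dat) (τ_mem dat)

/-- the restricted generators -/
def re (i : Fin r) : A →ₗ[k] alg dat where
  toFun f := ⟨dat.e i f, e_mem dat i f⟩
  map_add' f g := Subtype.ext (map_add (dat.e i) f g)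
  map_smul' c f := Subtype.ext (map_smul (dat.e i) c f)

theorem rτ_val (a : TA k A (Fin r)) : ((rτ dat a : alg dat) : R) = dat.τ a := rfl

theorem re_val (i : Fin r) (f : A) : ((re dat i f : alg dat) : R) = dat.e i f := rfl

/-- the data restricted to the generated algebra -/
def res : PData k A r n (alg dat) where
  τ := rτ dat
  e := re dat
  eτ i j f g := by
    apply Subtype.ext
    have h := dat.eτ i j f g
    split_ifs at h ⊢ with hij
    · exact h
    · exact h
  ee i j f g := by
    apply Subtype.ext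
    have h := dat.ee i j f g
    split_ifs at h ⊢ with hij
    · exact h
    · exact h
  ord i := by
    have h := sh_iterate_map (alg dat).val (rτ dat (sg k i (XX k A))) (re dat i) (n i)
    have h1 : (alg dat).val.toLinearMap ∘ₗ re dat i = dat.e i := by ext f; rfl
    have h2 : (alg dat).val (rτ dat (sg k i (XX k A))) = dat.τ (sg k i (XX k A)) := rfl
    rw [h1, h2, dat.ord i] at h
    ext f
    have := LinearMap.congr_fun h.symm f
    exact this

theorem res_tot (f : A) : (((res dat).tot f : alg dat) : R) = dat.tot f := by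
  rw [PData.tot_apply, PData.tot_apply, AddSubmonoidClass.coe_finset_sum]
  rfl

theorem res_hom (u : UW k A) : (((res dat).hom u : alg dat) : R) = dat.hom u := by
  have : (alg dat).val.comp (res dat).hom = dat.hom := by
    apply UW_hom_ext
    intro f
    rw [AlgHom.comp_apply, PData.hom, PData.hom, liftE_eU, liftE_eU]
    exact res_tot dat f
  exact DFunLike.congr_fun this u

theorem res_inv (h : dat.Inv) : (res dat).Inv := by
  intro i j hij
  obtain ⟨w, hw⟩ := h i j hij
  have h1 : (↑(w⁻¹) : R) * dat.τ (sg k i (XX k A) - sg k j (XX k A)) = 1 := by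
    rw [← hw]; exact w.inv_mul
  have h2 : dat.τ (sg k i (XX k A) - sg k j (XX k A)) * (↑(w⁻¹) : R) = 1 := by
    rw [← hw]; exact w.mul_inv
  exact ⟨⟨(res dat).τ (sg k i (XX k A) - sg k j (XX k A)), ⟨↑(w⁻¹), inv_mem dat i j hij _ h1⟩,
    Subtype.ext h2, Subtype.ext h1⟩, rfl⟩

theorem res_gen : (res dat).Gen := by
  intro B h1 h2 h3
  have key : alg dat ≤ B.map (alg dat).val := by
    apply Algebra.adjoin_le
    rintro x (⟨a, rfl⟩ | ⟨i, f, rfl⟩ | ⟨i, j, hij, hx⟩)
    · exact ⟨rτ dat a, h1 a, rfl⟩
    · exact ⟨re dat i f, h2 i f, rfl⟩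
    · exact ⟨⟨x, inv_mem dat i j hij x hx⟩, h3 i j hij _ (Subtype.ext hx), rfl⟩
  rw [eq_top_iff]
  rintro x -
  obtain ⟨y, hy, hyx⟩ := key x.2
  have : y = x := Subtype.ext hyx
  rw [← this]
  exact hy

end restrict

section big

variable {k : Type u} {A : Type u} [Field k] [CommRing A] [Algebra k A] [WAlg k A]
variable {S : Type u} [Ring S] [Algebra k S] {r : ℕ} {n : Fin r → ℕ} (dat : PData k A r n S)

/-- the functions on the stabilizer -/
def bτ : TA k A (Fin r) →ₐ[k] (stab n → S) where
  toFun a h := dat.τ (pmap ((h : Equiv.Perm (Fin r)) : Fin r → Fin r) a)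
  map_one' := by funext h; simp
  map_mul' a b := by funext h; simp
  map_zero' := by funext h; simp
  map_add' a b := by funext h; simp
  commutes' c := by funext h; simp [AlgHom.commutes]

theorem bτ_apply (a : TA k A (Fin r)) (h : stab n) :
    bτ dat a h = dat.τ (pmap ((h : Equiv.Perm (Fin r)) : Fin r → Fin r) a) := rfl

/-- the generators with values in the functions on the stabilizer -/
def be (i : Fin r) : A →ₗ[k] (stab n → S) where
  toFun f h := dat.e ((h : Equiv.Perm (Fin r)) i) f
  map_add' f g := by funext h; simp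
  map_smul' c f := by funext h; simp

theorem be_apply (i : Fin r) (f : A) (h : stab n) :
    be dat i f h = dat.e ((h : Equiv.Perm (Fin r)) i) f := rfl

/-- the data with values in the functions on the stabilizer -/
def big : PData k A r n (stab n → S) where
  τ := bτ dat
  e := be dat
  eτ i j f g := by
    funext h
    have h1 := dat.eτ ((h : Equiv.Perm (Fin r)) i) ((h : Equiv.Perm (Fin r)) j) f g
    rw [Pi.sub_apply, Pi.mul_apply, Pi.mul_apply, bτ_apply, be_apply, pmap_sg, h1]
    by_cases hij : i = j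
    · subst hij
      rw [if_pos rfl, if_pos rfl, bτ_apply, pmap_sg]
    · rw [if_neg hij, if_neg (fun h' => hij ((h : Equiv.Perm (Fin r)).injective h'))]
      rfl
  ee i j f g := by
    funext h
    have h1 := dat.ee ((h : Equiv.Perm (Fin r)) i) ((h : Equiv.Perm (Fin r)) j) f g
    rw [Pi.sub_apply, Pi.mul_apply, Pi.mul_apply, be_apply, be_apply, h1]
    by_cases hij : i = j
    · subst hij
      rw [if_pos rfl, if_pos rfl, be_apply]
    · rw [if_neg hij, if_neg (fun h' => hij ((h : Equiv.Perm (Fin r)).injective h'))]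
      rfl
  ord i := by
    ext f h
    have h0 := sh_iterate_map (Pi.evalAlgHom k (fun _ : stab n => S) h)
      (bτ dat (sg k i (XX k A))) (be dat i) (n i)
    have h1 : (Pi.evalAlgHom k (fun _ : stab n => S) h).toLinearMap ∘ₗ be dat i =
        dat.e ((h : Equiv.Perm (Fin r)) i) := by ext f; rfl
    have h2 : Pi.evalAlgHom k (fun _ : stab n => S) h (bτ dat (sg k i (XX k A))) =
        dat.τ (sg k ((h : Equiv.Perm (Fin r)) i) (XX k A)) := by
      change bτ dat (sg k i (XX k A)) h = _
      rw [bτ_apply, pmap_sg]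
    have h3 := dat.ord ((h : Equiv.Perm (Fin r)) i)
    rw [h.2 i] at h3
    rw [h1, h2, h3] at h0
    exact LinearMap.congr_fun h0.symm f

theorem big_inv (hinv : dat.Inv) : (big dat).Inv := by
  intro i j hij
  rw [Pi.isUnit_iff]
  intro h
  have h1 := hinv ((h : Equiv.Perm (Fin r)) i) ((h : Equiv.Perm (Fin r)) j)
    (fun h' => hij ((h : Equiv.Perm (Fin r)).injective h'))
  change IsUnit (bτ dat (sg k i (XX k A) - sg k j (XX k A)) h)
  rw [bτ_apply, map_sub, pmap_sg, pmap_sg]
  exact h1

/-- the right translations -/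
def rho (g : stab n) : (stab n → S) →ₐ[k] (stab n → S) where
  toFun φ h := φ (h * g)
  map_one' := rfl
  map_mul' _ _ := rfl
  map_zero' := rfl
  map_add' _ _ := rfl
  commutes' _ := rfl

theorem rho_apply (g : stab n) (φ : stab n → S) (h : stab n) :
    rho (k := k) g φ h = φ (h * g) := rfl

theorem rho_τ (g : stab n) (a : TA k A (Fin r)) :
    rho (k := k) g (bτ dat a) = bτ dat (pmap ((g : Equiv.Perm (Fin r)) : Fin r → Fin r) a) := by
  funext h
  rw [rho_apply, bτ_apply, bτ_apply, pmap_comp]
  rfl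

theorem rho_e (g : stab n) (i : Fin r) (f : A) :
    rho (k := k) g (be dat i f) = be dat ((g : Equiv.Perm (Fin r)) i) f := rfl

theorem rho_mem (g : stab n) (x : stab n → S) (hx : x ∈ alg (big dat)) :
    rho (k := k) g x ∈ alg (big dat) := by
  have key : alg (big dat) ≤ (alg (big dat)).comap (rho (k := k) g) := by
    apply Algebra.adjoin_le
    rintro x (⟨a, rfl⟩ | ⟨i, f, rfl⟩ | ⟨i, j, hij, hx⟩)
    · change rho (k := k) g (bτ dat a) ∈ alg (big dat)
      rw [rho_τ]
      exact τ_mem (big dat) _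
    · change rho (k := k) g (be dat i f) ∈ alg (big dat)
      rw [rho_e]
      exact e_mem (big dat) _ f
    · change rho (k := k) g x ∈ alg (big dat)
      apply inv_mem (big dat) ((g : Equiv.Perm (Fin r)) i) ((g : Equiv.Perm (Fin r)) j)
        (fun h' => hij ((g : Equiv.Perm (Fin r)).injective h'))
      have h1 := congrArg (rho (k := k) g) hx
      rw [map_mul, map_one] at h1
      rw [← h1]
      congr 1
      change _ = rho (k := k) g (bτ dat (sg k i (XX k A) - sg k j (XX k A)))
      rw [rho_τ, map_sub (pmap (k := k) (A := A) ((g : Equiv.Perm (Fin r)) : Fin r → Fin r)),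
        pmap_sg, pmap_sg]
      rfl
  exact key hx

/-- the action on the generated algebra -/
def actHom (g : stab n) : alg (big dat) →ₐ[k] alg (big dat) :=
  ((rho (k := k) g).comp (alg (big dat)).val).codRestrict (alg (big dat))
    (fun x => rho_mem dat g x x.2)

theorem actHom_val (g : stab n) (x : alg (big dat)) :
    ((actHom dat g x : alg (big dat)) : stab n → S) = rho (k := k) g x := rfl

/-- the action of the stabilizer -/
def hact : HAct (res (big dat)) where
  act :=
    { toFun := actHom dat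
      map_one' := by
        ext x
        rw [actHom_val, rho_apply, mul_one]
        rfl
      map_mul' g g' := by
        ext x h
        rw [actHom_val, rho_apply]
        change _ = ((actHom dat g (actHom dat g' x) : alg (big dat)) : stab n → S) h
        rw [actHom_val, rho_apply, actHom_val, rho_apply, mul_assoc] }
  act_τ g a := by
    apply Subtype.ext
    exact rho_τ dat g a
  act_e g i f := by
    apply Subtype.ext
    exact rho_e dat g i f

theorem big_hom (u : UW k A) : (big dat).hom u 1 = dat.hom u := by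
  have : (Pi.evalAlgHom k (fun _ : stab n => S) 1).comp (big dat).hom = dat.hom := by
    apply UW_hom_ext
    intro f
    rw [AlgHom.comp_apply, PData.hom, PData.hom, liftE_eU, liftE_eU, PData.tot_apply,
      PData.tot_apply, map_sum]
    rfl
  exact DFunLike.congr_fun this u

end big

end HConstr

open HConstr in
theorem specHConstr.{u} : SpecHConstr.{u} := by
  intro k A S _ _ _ _ _ _ _ r n dat hinv
  refine ⟨alg (big dat), inferInstance, inferInstance, res (big dat), res_inv _ (big_inv dat hinv),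
    res_gen _, ⟨hact dat⟩, ?_⟩
  intro u hu
  rw [← big_hom dat u, ← res_hom (big dat) u, hu]
  rfl

end MPcc24
end
end
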