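import Pool.Agent.Lib.MP_cc24ba_al.WrapDom

set_option linter.all false

/-!
# Complete primeness of prime ideals of `U(W_{-1})` and `U(W)`: statements of the modules

The paper proof is in /team-store/MP_cc24ba_al_PROOF.md
-/

noncomputable section

open scoped TensorProduct BigOperators

namespace MPcc24

universe u

/-- A1 (Lemma C (V)). More blocks than points. -/
def SpecBlockV : Prop :=
  ∀ (k A S : Type u) [Field k] [CommRing A] [Algebra k A] [WAlg k A] [Ring S] [Algebra k S]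
    (r : ℕ) (n : Fin r → ℕ) (dat : PData k A r n S) (b : ℕ) (μ : Fin b → ℕ), r < b →
    ∃ N0, ∀ N ≥ N0, ∀ G, TB dat.tot b (F0 k A μ N * G) = 0

/-- A2 (Lemma C (M)). As many blocks as points. -/
def SpecBlockM : Prop :=
  ∀ (k A S : Type u) [Field k] [CommRing A] [Algebra k A] [WAlg k A] [Ring S] [Algebra k S]
    (r : ℕ) (n : Fin r → ℕ) (dat : PData k A r n S), (∀ i, 1 ≤ n i) →
    ∃ N0, ∀ N ≥ N0, ∀ G, TB dat.tot r (F0 k A (fun i => mu (n i)) N * G) =
      ∑ h : stab n, dat.τ (Dis k A (Fin r) ^ (4 * N) *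
        pmap (fun p : Fin r × Fin 2 => (h : Equiv.Perm (Fin r)) p.1) G) * dat.cc

/-- B (Theorem 1). Every nonzero ideal contains all words divisible by a power of the
discriminant. Uses A1, A2 for the ring `End (TA k A (Fin j))`. -/
def SpecThm1 : Prop :=
  ∀ (k A : Type u) [Field k] [CharZero k] [CommRing A] [Algebra k A] [WAlg k A]
    (J : TwoSidedIdeal (UW k A)), J ≠ ⊥ →
    ∃ d M : ℕ, ∀ F : TA k A (Fin d), TT (eU (k := k) (A := A)) d (Dis k A (Fin d) ^ M * F) ∈ J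

/-- C (the cover). -/
def SpecCover : Prop :=
  ∀ (k A : Type u) [Field k] [CharZero k] [CommRing A] [Algebra k A] [WAlg k A]
    (P : TwoSidedIdeal (UW k A)), PrimeT P → ∀ (r M : ℕ),
    (∀ F, TT (eU (k := k) (A := A)) (r + 1) (Dis k A (Fin (r + 1)) ^ M * F) ∈ P) →
    (∃ F, TT (eU (k := k) (A := A)) r (Dis k A (Fin r) ^ M * F) ∉ P) →
    ∃ n : ℕ, 1 ≤ n ∧ ∃ (S : Type u) (_ : Ring S) (_ : Algebra k S)
      (dat : RData k A r (fun _ => n) S), KerLe dat.hom.toRingHom P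

/-- D (localisation and primary decomposition). -/
def SpecLoc : Prop :=
  ∀ (k A : Type u) [Field k] [CharZero k] [CommRing A] [Algebra k A] [WAlg k A]
    (P : TwoSidedIdeal (UW k A)), PrimeT P → ∀ (r₀ n₀ : ℕ), 1 ≤ n₀ →
    (∃ (S : Type u) (_ : Ring S) (_ : Algebra k S)
      (dat : RData k A r₀ (fun _ => n₀) S), KerLe dat.hom.toRingHom P) →
    ∃ r n : ℕ, r ≤ r₀ ∧ 1 ≤ n ∧ ∃ (S : Type u) (_ : Ring S) (_ : Algebra k S)
      (dat : PData k A r (fun _ => n) S), dat.Inv ∧ KerLe dat.hom.toRingHom P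

/-- E (domain). -/
def SpecDomain : Prop :=
  ∀ (k A S : Type u) [Field k] [CharZero k] [CommRing A] [Algebra k A] [WAlg k A]
    [Ring S] [Algebra k S] (r : ℕ) (n : Fin r → ℕ) (dat : PData k A r n S),
    dat.Inv → dat.Gen → PrimeR S → NoZeroDivisors S

/-- F1. Construction of data with an action of the stabilizer. -/
def SpecHConstr : Prop :=
  ∀ (k A S : Type u) [Field k] [CharZero k] [CommRing A] [Algebra k A] [WAlg k A]
    [Ring S] [Algebra k S] (r : ℕ) (n : Fin r → ℕ) (dat : PData k A r n S), dat.Inv →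
    ∃ (S' : Type u) (_ : Ring S') (_ : Algebra k S') (dat' : PData k A r n S'),
      dat'.Inv ∧ dat'.Gen ∧ Nonempty (HAct dat') ∧ ∀ u, dat'.hom u = 0 → dat.hom u = 0

/-- F2 (Lemmas T and M). -/
def SpecTrace : Prop :=
  ∀ (k A S : Type u) [Field k] [CharZero k] [CommRing A] [Algebra k A] [WAlg k A]
    [Ring S] [Algebra k S] (r : ℕ) (n : Fin r → ℕ) (dat : PData k A r n S), dat.Inv → dat.Gen →
    ∀ (H : HAct dat) (P : TwoSidedIdeal (UW k A)), PrimeT P → ∀ (I : TwoSidedIdeal S),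
    (∀ u, dat.hom u ∈ I → u ∈ P) → (∀ J, I < J → ∃ u, u ∉ P ∧ dat.hom u ∈ J) →
    ∀ y, H.IsInv y → y ∉ I → ∃ w, w ∉ P ∧
      ∃ s ∈ AddSubmonoid.closure {x | ∃ a b, H.IsInv a ∧ H.IsInv b ∧ x = a * y * b},
        dat.hom w - s ∈ I

/-- G (minimal multiplicities). -/
def SpecFine : Prop :=
  ∀ (k A : Type u) [Field k] [CharZero k] [CommRing A] [Algebra k A] [WAlg k A]
    (P : TwoSidedIdeal (UW k A)) (r : ℕ) (n₀ : Fin r → ℕ), (∀ i, 1 ≤ n₀ i) →
    (∃ (S : Type u) (_ : Ring S) (_ : Algebra k S)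
      (dat : PData k A r n₀ S), dat.Inv ∧ KerLe dat.hom.toRingHom P) →
    ∃ n : Fin r → ℕ, (∀ i, 1 ≤ n i) ∧
      (∃ (S : Type u) (_ : Ring S) (_ : Algebra k S)
        (dat : PData k A r n S), dat.Inv ∧ KerLe dat.hom.toRingHom P) ∧
      (∀ (S : Type u) [Ring S] [Algebra k S] (dat : PData k A r n S), dat.Inv →
        KerLe dat.hom.toRingHom P → Nontrivial S → NoZeroDivisors S → ∀ i, dat.ci i ≠ 0)

section ZU

variable {k A S : Type u} [Field k] [CommRing A] [Algebra k A] [WAlg k A]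
  [Ring S] [Algebra k S] {r : ℕ} {n : Fin r → ℕ}

/-- the span of the products of a symmetric function and an element of the image of `U` -/
def PData.ZU (dat : PData k A r n S) : Submodule k S :=
  Submodule.span k {x | ∃ z u, (∀ h : stab n,
    pmap ((h : Equiv.Perm (Fin r)) : Fin r → Fin r) z = z) ∧ x = dat.τ z * dat.hom u}

/-- the product of the derivatives at the points of multiplicity one -/
def PData.beta (dat : PData k A r n S) : S :=
  (List.ofFn fun i => if n i = 1 then dat.e i 1 else 1).prod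

/-- the part of the conductor commuting with the functions -/
def PData.c0 (dat : PData k A r n S) : S :=
  (List.ofFn fun i => if n i = 1 then 1 else dat.ci i).prod

end ZU

/-- H1 (denominators). -/
def SpecDen : Prop :=
  ∀ (k A S : Type u) [Field k] [CharZero k] [CommRing A] [Algebra k A] [WAlg k A]
    [Ring S] [Algebra k S] (r : ℕ) (n : Fin r → ℕ) (dat : PData k A r n S), dat.Inv → dat.Gen →
    ∀ (H : HAct dat),
    (∀ x ∈ dat.ZU, ∀ y ∈ dat.ZU, x * y ∈ dat.ZU) ∧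
    (∀ x ∈ dat.ZU, x ∈ Submodule.span k {x | ∃ z u, (∀ h : stab n,
      pmap ((h : Equiv.Perm (Fin r)) : Fin r → Fin r) z = z) ∧ x = dat.hom u * dat.τ z}) ∧
    (∀ x ∈ dat.ZU, ∃ y ∈ dat.ZU, dat.τ (Dis k A (Fin r)) * x = y * dat.τ (Dis k A (Fin r))) ∧
    (∀ x ∈ dat.ZU, ∃ y ∈ dat.ZU, x * dat.τ (Dis k A (Fin r)) = dat.τ (Dis k A (Fin r)) * y) ∧
    (∀ s, H.IsInv s → ∃ j : ℕ, dat.τ (Dis k A (Fin r)) ^ j * s ∈ dat.ZU) ∧
    (∀ s, H.IsInv s → ∃ j : ℕ, s * dat.τ (Dis k A (Fin r)) ^ j ∈ dat.ZU)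

/-- H2. -/
def SpecBeta : Prop :=
  ∀ (k A S : Type u) [Field k] [CharZero k] [CommRing A] [Algebra k A] [WAlg k A]
    [Ring S] [Algebra k S] (r : ℕ) (n : Fin r → ℕ) (dat : PData k A r n S),
    ∀ x ∈ dat.ZU, x * dat.beta ∈ Submodule.span k {x | ∃ z u, (∀ h : stab n,
      pmap ((h : Equiv.Perm (Fin r)) : Fin r → Fin r) z = z) ∧
        x = dat.τ z * dat.beta * dat.hom u}

/-- H3. -/
def SpecTr : Prop :=
  ∀ (k A S : Type u) [Field k] [CharZero k] [CommRing A] [Algebra k A] [WAlg k A]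
    [Ring S] [Algebra k S] (r : ℕ) (n : Fin r → ℕ) (dat : PData k A r n S), (∀ i, 1 ≤ n i) →
    dat.Inv → dat.Gen → ∀ (H : HAct dat) (l : ℕ), ∃ N : ℕ, ∀ F : TA k A (Fin r),
      ∃ x ∈ dat.ZU, dat.hom (TT (eU (k := k) (A := A)) r (Dis k A (Fin r) ^ N * F)) =
        dat.τ (Dis k A (Fin r)) ^ l * x * dat.beta

/-- H4 (properties of the conductor). -/
def SpecC0 : Prop :=
  ∀ (k A S : Type u) [Field k] [CharZero k] [CommRing A] [Algebra k A] [WAlg k A]
    [Ring S] [Algebra k S] (r : ℕ) (n : Fin r → ℕ) (dat : PData k A r n S), (∀ i, 1 ≤ n i) →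
    (dat.cc = dat.c0 * dat.beta ∨ dat.cc = -(dat.c0 * dat.beta)) ∧
    (∀ a, dat.c0 * dat.τ a = dat.τ a * dat.c0) ∧
    (∀ H : HAct dat, H.IsInv dat.c0 ∧ H.IsInv dat.beta)

/-- H5 (the final argument). -/
def SpecFinal : Prop :=
  ∀ (k A S : Type u) [Field k] [CharZero k] [CommRing A] [Algebra k A] [WAlg k A]
    [Ring S] [Algebra k S] (r : ℕ) (n : Fin r → ℕ) (dat : PData k A r n S), (∀ i, 1 ≤ n i) →
    dat.Inv → dat.Gen → ∀ (H : HAct dat) (P : TwoSidedIdeal (UW k A)), PrimeT P →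
    (∀ N, ∃ F, TT (eU (k := k) (A := A)) r (Dis k A (Fin r) ^ N * F) ∉ P) →
    ∀ (I : TwoSidedIdeal S), (∀ u, dat.hom u ∈ I → u ∈ P) →
    ((1 : S) ∉ I ∧ ∀ x y, x * y ∈ I → x ∈ I ∨ y ∈ I) → (∀ i, dat.ci i ∉ I) →
    (∀ y, H.IsInv y → y ∉ I → ∃ w, w ∉ P ∧
      ∃ s ∈ AddSubmonoid.closure {x | ∃ a b, H.IsInv a ∧ H.IsInv b ∧ x = a * y * b},
        dat.hom w - s ∈ I) →
    ∀ u ∈ P, dat.hom u ∈ I

/-- I (the zero ideal). -/
def SpecUDom : Prop :=
  ∀ (k A : Type u) [Field k] [CharZero k] [CommRing A] [Algebra k A] [WAlg k A],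
    (∀ r : ℕ, IsDomain (TA k A (Fin r))) → NoZeroDivisors (UW k A)

/-- the result for all prime ideals -/
def SpecMain : Prop :=
  ∀ (k A : Type u) [Field k] [CharZero k] [CommRing A] [Algebra k A] [WAlg k A],
    (∀ r : ℕ, IsDomain (TA k A (Fin r))) → ∀ P : TwoSidedIdeal (UW k A), PrimeT P →
    ∀ x y, x * y ∈ P → x ∈ P ∨ y ∈ P

end MPcc24
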