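import Pool.Agent.Lib.MP_cc24ba_al.Spec
import Pool.Agent.Lib.MP_cc24ba_al.WrapDom

set_option linter.all false

/-!
# The Virasoro algebra: statements of the modules

The paper proof is in /team-store/MP_cc24ba_al_VIR.md
-/

noncomputable section

open scoped TensorProduct BigOperators
open LaurentPolynomial

namespace MPcc24

universe u

section Defs

variable {k A : Type u} [Field k] [CommRing A] [Algebra k A] [WAlg k A]

/-- residue functionals -/
structure IsRes (res : A →ₗ[k] k) : Prop where
  der : ∀ f, res (dd k f) = 0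
  nondeg : ∀ f, (∀ a, res (a * f) = 0) → f = 0

/-- the Gelfand-Fuchs cocycle, as a linear form in the second argument -/
def omL (res : A →ₗ[k] k) (f : A) : A →ₗ[k] k :=
  (1 / 12 : k) • (res ∘ₗ LinearMap.mulLeft k (dd k (dd k (dd k f))))

/-- the Gelfand-Fuchs cocycle -/
def om (res : A →ₗ[k] k) (f g : A) : k := (1 / 12) * res (dd k (dd k (dd k f)) * g)

theorem omL_apply (res : A →ₗ[k] k) (f g : A) : omL res f g = om res f g := rfl

/-- linear maps compatible with the bracket up to the cocycle -/
def IsEV {S : Type*} [Ring S] [Algebra k S] (res : A →ₗ[k] k) (ζ : k) (e : A →ₗ[k] S) : Prop :=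
  ∀ f g : A, e f * e g - e g * e f = e (wbr k f g) + algebraMap k S (ζ * om res f g)

variable (k A) in
/-- the adjoint action on words: `f ↦ ∑ i, (f(t_i) ∂_i - f'(t_i))` -/
def adT (ι : Type) [Fintype ι] [DecidableEq ι] : A →ₗ[k] Module.End k (TA k A ι) where
  toFun f := ∑ i, (LinearMap.mulLeft k (sg k i f) ∘ₗ (der k A i).toLinearMap
    - LinearMap.mulLeft k (sg k i (dd k f)))
  map_add' f g := by
    rw [← Finset.sum_add_distrib]
    refine Finset.sum_congr rfl fun i _ => ?_
    ext x
    simp [add_mul]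
    ring
  map_smul' c f := by
    rw [RingHom.id_apply, Finset.smul_sum]
    refine Finset.sum_congr rfl fun i _ => ?_
    ext x
    simp [smul_sub]

/-- apply the linear form `l` to the slot `i` -/
def slotL {m : ℕ} (l : A →ₗ[k] k) (i : Fin (m + 1)) :
    TA k A (Fin (m + 1)) →ₗ[k] TA k A (Fin m) :=
  PiTensorProduct.lift (LinearMap.uncurryMid i
    (l.smulRight (PiTensorProduct.tprod k (s := fun _ : Fin m => A))))

theorem slotL_tp {m : ℕ} (l : A →ₗ[k] k) (i : Fin (m + 1)) (g : Fin (m + 1) → A) :
    slotL l i (tp k g) = l (g i) • tp k (i.removeNth g) := by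
  rw [slotL, tp, PiTensorProduct.lift.tprod]
  rfl

/-- the representation on words of lengths `m+1` and `m` (the contraction acts on the slot 0) -/
def vop (res : A →ₗ[k] k) (m : ℕ) :
    A →ₗ[k] Module.End k (TA k A (Fin (m + 1)) × TA k A (Fin m)) where
  toFun f := LinearMap.prod (adT k A (Fin (m + 1)) f ∘ₗ LinearMap.fst k _ _)
    (adT k A (Fin m) f ∘ₗ LinearMap.snd k _ _ + slotL (omL res f) 0 ∘ₗ LinearMap.fst k _ _)
  map_add' f g := by
    have h : slotL (m := m) (omL res (f + g)) 0 = slotL (omL res f) 0 + slotL (omL res g) 0 := by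
      apply PiTensorProduct.ext
      ext x
      have h1 := slotL_tp (omL res (f + g)) 0 x
      have h2 := slotL_tp (omL res f) 0 x
      have h3 := slotL_tp (omL res g) 0 x
      simp only [tp] at h1 h2 h3
      simp only [LinearMap.compMultilinearMap_apply, LinearMap.add_apply, h1, h2, h3]
      rw [← add_smul]
      congr 1
      simp [omL_apply, om, add_mul]
      ring
    rw [h, map_add, map_add]
    ext x <;> simp
  map_smul' c f := by
    have h : slotL (m := m) (omL res (c • f)) 0 = c • slotL (omL res f) 0 := by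
      apply PiTensorProduct.ext
      ext x
      have h1 := slotL_tp (omL res (c • f)) 0 x
      have h2 := slotL_tp (omL res f) 0 x
      simp only [tp] at h1 h2
      simp only [LinearMap.compMultilinearMap_apply, LinearMap.smul_apply, h1, h2]
      rw [smul_smul]
      congr 1
      simp [omL_apply, om]
      ring
    rw [h, map_smul, map_smul]
    ext x <;> simp

theorem vop_apply (res : A →ₗ[k] k) (m : ℕ) (f : A) (F : TA k A (Fin (m + 1)))
    (F' : TA k A (Fin m)) : vop res m f (F, F') =
      (adT k A (Fin (m + 1)) f F, adT k A (Fin m) f F' + slotL (omL res f) 0 F) := rfl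

end Defs

/-- VA: the block word with exponents `(4, 2, ..., 2)` for the representation `vop`. -/
def SpecVirBlock : Prop :=
  ∀ (k A : Type u) [Field k] [CharZero k] [CommRing A] [Algebra k A] [WAlg k A]
    (res : A →ₗ[k] k), IsRes res → ∀ m : ℕ, ∃ (N0 : ℕ) (c : k), c ≠ 0 ∧
    ∀ N ≥ N0, ∀ (a : A) (F : TA k A (Fin (m + 1))) (F' : TA k A (Fin m)),
      TB (vop res m) (m + 1) (F0 k A (fun i : Fin (m + 1) => if i = 0 then 4 else 2) N *
        sg k ((0 : Fin (m + 1)), (0 : Fin 2)) a) (F, F') =
      (0, c • slotL res 0 (Dis k A (Fin (m + 1)) ^ (4 * N) * sg k 0 a * F))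

/-- VB: independence of the words. -/
def SpecVirClaim : Prop :=
  ∀ (k A S : Type u) [Field k] [CharZero k] [CommRing A] [Algebra k A] [WAlg k A]
    [Ring S] [Algebra k S] [Nontrivial S], (∀ r : ℕ, IsDomain (TA k A (Fin r))) →
    ∀ (res : A →ₗ[k] k), IsRes res → ∀ (ζ : k), ζ ≠ 0 → ∀ (e : A →ₗ[k] S), IsEV res ζ e →
    ∀ (d : ℕ) (F : ∀ j : ℕ, TA k A (Fin j)),
      ∑ j ∈ Finset.range (d + 1), TT e j (F j) = 0 →
      ∑ h : Equiv.Perm (Fin d), pmap (h : Fin d → Fin d) (F d) = 0

/-- VC: the symmetric tensors form a domain. -/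
def SpecSymDom : Prop :=
  ∀ (k A : Type u) [Field k] [CharZero k] [CommRing A] [Algebra k A] (a b : ℕ)
    (F : TA k A (Fin a)) (G : TA k A (Fin b)), F ≠ 0 → G ≠ 0 →
    (∀ h : Equiv.Perm (Fin a), pmap (h : Fin a → Fin a) F = F) →
    (∀ h : Equiv.Perm (Fin b), pmap (h : Fin b → Fin b) G = G) →
    ∑ h : Equiv.Perm (Fin (a + b)), pmap (h : Fin (a + b) → Fin (a + b))
      (pmap (Fin.castAdd b) F * pmap (Fin.natAdd a) G) ≠ 0

/-- VD: the algebra generated by a representation up to the cocycle, from VB and VC. -/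
def SpecVirDom : Prop :=
  ∀ (k A S : Type u) [Field k] [CharZero k] [CommRing A] [Algebra k A] [WAlg k A]
    [Ring S] [Algebra k S] [Nontrivial S], (∀ r : ℕ, IsDomain (TA k A (Fin r))) →
    ∀ (res : A →ₗ[k] k), IsRes res → ∀ (ζ : k), ζ ≠ 0 → ∀ (e : A →ₗ[k] S), IsEV res ζ e →
    ∀ x ∈ Algebra.adjoin k (Set.range e), ∀ y ∈ Algebra.adjoin k (Set.range e),
      x * y = 0 → x = 0 ∨ y = 0

/-- The Virasoro algebra: pairs of a Laurent polynomial `f` (the vector field `f d/dt`) and a
scalar (the multiple of the central element). -/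
def VLie (k : Type u) [Field k] : Type u := k[T;T⁻¹] × k

section VLie

variable (k : Type u) [Field k]

instance : AddCommGroup (VLie k) := inferInstanceAs (AddCommGroup (k[T;T⁻¹] × k))
instance : Module k (VLie k) := inferInstanceAs (Module k (k[T;T⁻¹] × k))

/-- the bracket of the Virasoro algebra -/
def vbr (x y : k[T;T⁻¹] × k) : k[T;T⁻¹] × k := (wbr k x.1 y.1, om (lres k) x.1 y.1)

instance : Bracket (VLie k) (VLie k) := ⟨fun x y => vbr k x y⟩

variable {k}

theorem om_self [CharZero k] (f : k[T;T⁻¹]) : om (lres k) f f = 0 := by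
  have h : dd k (dd k (dd k f)) * f = dd k (dd k (dd k f) * f) - dd k (dd k f) * dd k f := by
    rw [Derivation.leibniz, smul_eq_mul, smul_eq_mul]; ring
  have h2 : lres k (dd k (dd k f) * dd k f) = 0 := by
    have h3 : (2 : k) • (dd k (dd k f) * dd k f) = dd k (dd k f * dd k f) := by
      rw [Derivation.leibniz, smul_eq_mul, ofNat_smul_eq_nsmul]; ring
    have h4 := congrArg (lres k) h3
    rw [map_smul] at h4
    have h5 : lres k (dd k (dd k f * dd k f)) = 0 := lres_lder k _
    rw [h5, smul_eq_mul] at h4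
    exact (mul_eq_zero.1 h4).resolve_left two_ne_zero
  have h6 : lres k (dd k (dd k (dd k f) * f)) = 0 := lres_lder k _
  rw [om, h, map_sub, h6, h2, sub_zero, mul_zero]

theorem om_jacobi (x y z : k[T;T⁻¹]) :
    om (lres k) x (wbr k y z) = om (lres k) (wbr k x y) z + om (lres k) y (wbr k x z) := by
  simp only [om]
  rw [← mul_add, ← map_add, ← sub_eq_zero, ← mul_sub, ← map_sub]
  have h6 : lres k (dd k (dd k (dd k (dd k x)) * y * z - x * dd k (dd k (dd k y)) * z)) = 0 :=
    lres_lder k _
  rw [mul_eq_zero]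
  right
  rw [← h6]
  congr 1
  simp only [wbr, map_sub, Derivation.leibniz, smul_eq_mul, map_add]
  ring

instance [CharZero k] : LieRing (VLie k) where
  add_lie x y z := by
    refine Prod.ext ?_ ?_
    · exact wbr_add_left (k := k) x.1 y.1 z.1
    · change om (lres k) (x.1 + y.1) z.1 = om (lres k) x.1 z.1 + om (lres k) y.1 z.1
      simp only [om, map_add, add_mul, mul_add]
  lie_add x y z := by
    refine Prod.ext ?_ ?_
    · exact wbr_add_right (k := k) x.1 y.1 z.1
    · change om (lres k) x.1 (y.1 + z.1) = om (lres k) x.1 y.1 + om (lres k) x.1 z.1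
      simp only [om, map_add, mul_add]
  lie_self x := Prod.ext (wbr_self (k := k) x.1) (om_self x.1)
  leibniz_lie x y z := Prod.ext (wbr_jacobi (k := k) x.1 y.1 z.1) (om_jacobi x.1 y.1 z.1)

instance [CharZero k] : LieAlgebra k (VLie k) where
  lie_smul t x y := by
    refine Prod.ext ?_ ?_
    · exact wbr_smul_right (k := k) t x.1 y.1
    · change om (lres k) x.1 (t • y.1) = t • om (lres k) x.1 y.1
      simp only [om, mul_smul_comm, map_smul]

end VLie

/-- VE: all prime ideals of the enveloping algebra of the Virasoro algebra are completely prime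
(from VD for the fraction field of the center of the quotient and from `SpecMain` for the
Laurent polynomials). -/
def SpecVirPrime : Prop :=
  ∀ (k : Type u) [Field k] [CharZero k] (P : TwoSidedIdeal (UniversalEnvelopingAlgebra k (VLie k))),
    PrimeT P → ∀ x y, x * y ∈ P → x ∈ P ∨ y ∈ P

/-- WA: functions of several variables form a domain. -/
def SpecTADom : Prop :=
  ∀ (k : Type u) [Field k] (r : ℕ), IsDomain (TA k (Polynomial k) (Fin r)) ∧
    IsDomain (TA k k[T;T⁻¹] (Fin r))

end MPcc24
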