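import Pool.Agent.Lib.MP_cc24ba_al.HConstr

set_option linter.all false

/-!
# Module H3: words divisible by a power of the discriminant
-/

noncomputable section

open scoped TensorProduct BigOperators

namespace MPcc24
namespace H3

universe u

section ops

variable {k A S : Type u} [Field k] [CommRing A] [Algebra k A] [WAlg k A] [Ring S] [Algebra k S]

/-- the shift of the slot `b` of a function of `d` arguments -/
def dopF {d : ℕ} (t : S) (b : Fin d) (Φ : (Fin d → A) → S) : (Fin d → A) → S :=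
  fun f => Φ (Function.update f b (XX k A * f b)) - t * Φ f

/-- the shift of the slot `b` of a linear map -/
def dop {d : ℕ} (t : S) (b : Fin d) (Θ : TA k A (Fin d) →ₗ[k] S) : TA k A (Fin d) →ₗ[k] S :=
  Θ ∘ₗ LinearMap.mulLeft k (sg k b (XX k A)) - LinearMap.mulLeft k t ∘ₗ Θ

theorem dop_apply {d : ℕ} (t : S) (b : Fin d) (Θ : TA k A (Fin d) →ₗ[k] S) (x : TA k A (Fin d)) :
    dop t b Θ x = Θ (sg k b (XX k A) * x) - t * Θ x := rfl

theorem sg_mul_tp {d : ℕ} (b : Fin d) (f : Fin d → A) :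
    sg k b (XX k A) * tp k f = tp k (Function.update f b (XX k A * f b)) := by
  rw [sg_eq, tp_mul]
  congr 1
  funext j
  by_cases hj : j = b
  · subst hj; simp
  · simp [Function.update_of_ne hj, Pi.mulSingle_eq_of_ne hj]

theorem dop_tp {d : ℕ} (t : S) (b : Fin d) (Θ : TA k A (Fin d) →ₗ[k] S) :
    (fun f => dop t b Θ (tp k f)) = dopF (k := k) t b (fun f => Θ (tp k f)) := by
  funext f
  rw [dop_apply, sg_mul_tp]
  rfl

theorem dop_pow_tp {d : ℕ} (t : S) (b : Fin d) (m : ℕ) : ∀ (Θ : TA k A (Fin d) →ₗ[k] S),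
    (fun f => ((dop t b)^[m] Θ) (tp k f)) = (dopF (k := k) t b)^[m] (fun f => Θ (tp k f)) := by
  induction m with
  | zero => intro Θ; rfl
  | succ m ih => intro Θ; rw [Function.iterate_succ_apply, Function.iterate_succ_apply, ih, dop_tp]

theorem tp_ext {d : ℕ} {Θ : TA k A (Fin d) →ₗ[k] S} (h : ∀ f, Θ (tp k f) = 0) : Θ = 0 := by
  refine LinearMap.ext fun x => ?_
  rw [LinearMap.zero_apply]
  induction x using TA_induction with
  | h0 f => exact h f
  | hs c x hx => rw [map_smul, hx, smul_zero]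
  | ha x y hx hy => rw [map_add, hx, hy, add_zero]

/-- the product of a linear map of the first slot and a function of the others -/
def star {d : ℕ} (Θ : A →ₗ[k] S) (Ψ : (Fin d → A) → S) : (Fin (d + 1) → A) → S :=
  fun f => Θ (f 0) * Ψ (fun j => f j.succ)

theorem dopF_star_zero {d : ℕ} (t : S) (Θ : A →ₗ[k] S) (Ψ : (Fin d → A) → S) :
    dopF (k := k) t 0 (star Θ Ψ) = star (sh t Θ) Ψ := by
  funext f
  have e : (fun j : Fin d => Function.update f 0 (XX k A * f 0) j.succ) = fun j => f j.succ := by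
    funext j
    rw [Function.update_of_ne (Fin.succ_ne_zero j)]
  simp only [dopF, star, e, Function.update_self, sh_apply, sub_mul, mul_assoc]

theorem dopF_star_zero_pow {d : ℕ} (t : S) (Ψ : (Fin d → A) → S) (m : ℕ) :
    ∀ (Θ : A →ₗ[k] S), (dopF (k := k) t 0)^[m] (star Θ Ψ) = star ((sh t)^[m] Θ) Ψ := by
  induction m with
  | zero => intro Θ; rfl
  | succ m ih =>
    intro Θ
    rw [Function.iterate_succ_apply, dopF_star_zero, ih, Function.iterate_succ_apply]

theorem dopF_star_succ {d : ℕ} (t : S) (b : Fin d) (Θ : A →ₗ[k] S) (Ψ : (Fin d → A) → S)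
    (Θ' : A →ₗ[k] S) (h : ∀ f, Θ f * t - t * Θ f = Θ' f) :
    dopF (k := k) t b.succ (star Θ Ψ) = star Θ (dopF (k := k) t b Ψ) + star Θ' Ψ := by
  funext f
  have e : (fun j : Fin d => Function.update f b.succ (XX k A * f b.succ) j.succ) =
      Function.update (fun j : Fin d => f j.succ) b (XX k A * f b.succ) := by
    funext j
    by_cases hj : j = b
    · subst hj; simp
    · rw [Function.update_of_ne hj, Function.update_of_ne]
      exact fun h => hj (Fin.succ_injective _ h)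
  simp only [dopF, star, e, Pi.add_apply, ← h]
  rw [Function.update_of_ne (Fin.succ_ne_zero b).symm]
  noncomm_ring

theorem star_zero_right {d : ℕ} (Θ : A →ₗ[k] S) : star Θ (0 : (Fin d → A) → S) = 0 := by
  funext f; simp [star]

theorem dopF_add {d : ℕ} (t : S) (b : Fin d) (Φ Ψ : (Fin d → A) → S) :
    dopF (k := k) t b (Φ + Ψ) = dopF (k := k) t b Φ + dopF (k := k) t b Ψ := by
  funext f; simp only [dopF, Pi.add_apply, mul_add]; abel

theorem dopF_nsmul {d : ℕ} (t : S) (b : Fin d) (m : ℕ) (Φ : (Fin d → A) → S) :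
    dopF (k := k) t b (m • Φ) = m • dopF (k := k) t b Φ := by
  funext f; simp only [dopF, Pi.smul_apply, smul_sub, mul_smul_comm]

theorem dopF_zero {d : ℕ} (t : S) (b : Fin d) :
    dopF (k := k) (A := A) t b (0 : (Fin d → A) → S) = 0 := by
  funext f; simp [dopF]

theorem dopF_pow_zero {d : ℕ} (t : S) (b : Fin d) (m : ℕ) :
    (dopF (k := k) (A := A) t b)^[m] (0 : (Fin d → A) → S) = 0 := by
  induction m with
  | zero => rfl
  | succ m ih => rw [Function.iterate_succ_apply, dopF_zero, ih]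

theorem dopF_pow_succ {d : ℕ} (t : S) (b : Fin d) (Θ Θ' : A →ₗ[k] S)
    (h : ∀ f, Θ f * t - t * Θ f = Θ' f) (h' : ∀ f, Θ' f * t - t * Θ' f = 0)
    (Ψ : (Fin d → A) → S) (m : ℕ) :
    (dopF (k := k) t b.succ)^[m + 1] (star Θ Ψ) =
      star Θ ((dopF (k := k) t b)^[m + 1] Ψ) + (m + 1) • star Θ' ((dopF (k := k) t b)^[m] Ψ) := by
  have h0 : ∀ Ψ : (Fin d → A) → S, dopF (k := k) t b.succ (star Θ' Ψ) =
      star Θ' (dopF (k := k) t b Ψ) := by
    intro Ψ
    rw [dopF_star_succ t b Θ' Ψ 0 (fun f => by rw [h']; rfl)]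
    have : star (0 : A →ₗ[k] S) Ψ = 0 := by funext f; simp [star]
    rw [this, add_zero]
  induction m with
  | zero =>
    simp only [zero_add, Function.iterate_one, Function.iterate_zero, id_eq, one_smul]
    exact dopF_star_succ t b Θ Ψ Θ' h
  | succ m ih =>
    rw [Function.iterate_succ_apply', ih, dopF_add, dopF_nsmul, dopF_star_succ t b Θ _ Θ' h, h0,
      ← Function.iterate_succ_apply' (dopF (k := k) t b) (m + 1),
      ← Function.iterate_succ_apply' (dopF (k := k) t b) m, add_assoc]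
    congr 1
    rw [succ_nsmul' (star Θ' _) (m + 1)]

end ops

section dat

variable {k A S : Type u} [Field k] [CommRing A] [Algebra k A] [WAlg k A] [Ring S] [Algebra k S]
  {r : ℕ} {n : Fin r → ℕ} (dat : PData k A r n S)

/-- the word attached to a map of the slots to the points -/
def word {d : ℕ} (π : Fin d → Fin r) : (Fin d → A) → S :=
  fun f => (List.ofFn fun c => dat.e (π c) (f c)).prod

theorem word_succ {d : ℕ} (π : Fin (d + 1) → Fin r) :
    word dat π = star (dat.e (π 0)) (word dat fun j => π j.succ) := by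
  funext f
  simp only [word, star, List.ofFn_succ, List.prod_cons]

/-- the commutator of `e i` and the coordinate of the point `j` -/
def cm (i j : Fin r) : A →ₗ[k] S :=
  if i = j then dat.τ.toLinearMap ∘ₗ (sg k i).toLinearMap else 0

theorem cm_eq (i j : Fin r) (f : A) : dat.e i f * dat.τ (sg k j (XX k A)) -
    dat.τ (sg k j (XX k A)) * dat.e i f = cm dat i j f := by
  have hX : dd k (XX k A) = 1 := WAlg.DX
  rw [dat.eτ, hX, mul_one, cm]
  split_ifs <;> simp

theorem cm_comm (i j : Fin r) (f : A) : cm dat i j f * dat.τ (sg k j (XX k A)) -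
    dat.τ (sg k j (XX k A)) * cm dat i j f = 0 := by
  rw [cm]
  split_ifs
  · simp only [LinearMap.comp_apply, AlgHom.toLinearMap_apply]
    rw [← map_mul, ← map_mul, mul_comm, sub_self]
  · simp

theorem word_nil : ∀ {d : ℕ} (π : Fin d → Fin r) (b : Fin d), ∃ m : ℕ,
    (dopF (k := k) (dat.τ (sg k (π b) (XX k A))) b)^[m] (word dat π) = 0 := by
  intro d
  induction d with
  | zero => intro π b; exact b.elim0
  | succ d ih =>
    intro π b
    refine Fin.cases ?_ (fun b => ?_) b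
    · refine ⟨n (π 0), ?_⟩
      rw [word_succ, dopF_star_zero_pow, dat.ord]
      funext f; simp [star]
    · obtain ⟨m, hm⟩ := ih (fun j => π j.succ) b
      refine ⟨m + 1 + 1, ?_⟩
      rw [word_succ, dopF_pow_succ _ b _ (cm dat (π 0) (π b.succ)) (cm_eq dat _ _)
        (cm_comm dat _ _), Function.iterate_succ_apply' _ (m + 1),
        Function.iterate_succ_apply' _ m, hm, dopF_zero, dopF_zero, star_zero_right,
        star_zero_right, smul_zero, add_zero]

/-- the word as a linear map -/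
abbrev TW {d : ℕ} (π : Fin d → Fin r) : TA k A (Fin d) →ₗ[k] S := TTw fun c => dat.e (π c)

theorem TW_nil {d : ℕ} (π : Fin d → Fin r) (b : Fin d) : ∃ m : ℕ,
    (dop (dat.τ (sg k (π b) (XX k A))) b)^[m] (TW dat π) = 0 := by
  obtain ⟨m, hm⟩ := word_nil dat π b
  refine ⟨m, tp_ext fun f => ?_⟩
  have h := dop_pow_tp (dat.τ (sg k (π b) (XX k A))) b m (TW dat π)
  have h2 : (fun f => TW dat π (tp k f)) = word dat π := by
    funext f; rw [TW, TTw_tp]; rfl
  rw [h2, hm] at h
  exact congrFun h f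

/-- the map `a ⊗ b ↦ τ a * Θ b` -/
def OO (Θ : TA k A (Fin r) →ₗ[k] S) : TA k A (Fin r) ⊗[k] TA k A (Fin r) →ₗ[k] S :=
  TensorProduct.lift ((LinearMap.mul k S).compl₁₂ dat.τ.toLinearMap Θ)

theorem OO_tmul (Θ : TA k A (Fin r) →ₗ[k] S) (a b : TA k A (Fin r)) :
    OO dat Θ (a ⊗ₜ b) = dat.τ a * Θ b := by simp [OO]

theorem OO_left (Θ : TA k A (Fin r) →ₗ[k] S) (a : TA k A (Fin r))
    (G : TA k A (Fin r) ⊗[k] TA k A (Fin r)) :
    OO dat Θ ((a ⊗ₜ[k] (1 : TA k A (Fin r))) * G) = dat.τ a * OO dat Θ G := by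
  induction G using TensorProduct.induction_on with
  | zero => simp
  | add x y hx hy => rw [mul_add, map_add, map_add, hx, hy, mul_add]
  | tmul b c =>
    rw [Algebra.TensorProduct.tmul_mul_tmul, one_mul, OO_tmul, OO_tmul, map_mul, mul_assoc]

/-- the difference of the slot `b` and the point `i` -/
def df (k A : Type u) [Field k] [CommRing A] [Algebra k A] [WAlg k A] {r : ℕ} (i b : Fin r) :
    TA k A (Fin r) ⊗[k] TA k A (Fin r) :=
  (1 : TA k A (Fin r)) ⊗ₜ[k] sg k b (XX k A) - sg k i (XX k A) ⊗ₜ[k] (1 : TA k A (Fin r))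

theorem OO_df (Θ : TA k A (Fin r) →ₗ[k] S) (i b : Fin r)
    (G : TA k A (Fin r) ⊗[k] TA k A (Fin r)) :
    OO dat Θ (df k A i b * G) = OO dat (dop (dat.τ (sg k i (XX k A))) b Θ) G := by
  induction G using TensorProduct.induction_on with
  | zero => simp
  | add x y hx hy => rw [mul_add, map_add, map_add, hx, hy]
  | tmul a f =>
    rw [df, sub_mul, Algebra.TensorProduct.tmul_mul_tmul, Algebra.TensorProduct.tmul_mul_tmul,
      one_mul, one_mul, map_sub, OO_tmul, OO_tmul, OO_tmul, dop_apply, mul_sub,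
      ← mul_assoc (dat.τ a) (dat.τ _), ← map_mul dat.τ, mul_comm a]

theorem OO_df_pow (i b : Fin r) (m : ℕ) : ∀ (Θ : TA k A (Fin r) →ₗ[k] S)
    (G : TA k A (Fin r) ⊗[k] TA k A (Fin r)),
    OO dat Θ (df k A i b ^ m * G) = OO dat ((dop (dat.τ (sg k i (XX k A))) b)^[m] Θ) G := by
  induction m with
  | zero => intro Θ G; simp
  | succ m ih =>
    intro Θ G
    rw [pow_succ', mul_assoc, OO_df, ih, Function.iterate_succ_apply]

theorem OO_zero (G : TA k A (Fin r) ⊗[k] TA k A (Fin r)) : OO dat 0 G = 0 := by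
  induction G using TensorProduct.induction_on with
  | zero => simp
  | add x y hx hy => rw [map_add, hx, hy, add_zero]
  | tmul a f => rw [OO_tmul]; simp

/-- the annihilator -/
def Ann (Θ : TA k A (Fin r) →ₗ[k] S) : Ideal (TA k A (Fin r) ⊗[k] TA k A (Fin r)) where
  carrier := {H | ∀ G, OO dat Θ (H * G) = 0}
  add_mem' {a b} ha hb G := by rw [add_mul, map_add, ha, hb, add_zero]
  zero_mem' G := by rw [zero_mul, map_zero]
  smul_mem' c {x} hx G := by
    rw [smul_eq_mul, mul_comm c x, mul_assoc]; exact hx _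

theorem df_mem (π : Fin r → Fin r) (b : Fin r) : df k A (π b) b ∈ (Ann dat (TW dat π)).radical := by
  obtain ⟨m, hm⟩ := TW_nil dat π b
  rw [Ideal.mem_radical_iff]
  refine ⟨m, fun G => ?_⟩
  rw [OO_df_pow, hm, OO_zero]

theorem TW_one (Θ : TA k A (Fin r) →ₗ[k] S) (F : TA k A (Fin r)) (N : ℕ) :
    Θ (Dis k A (Fin r) ^ N * F) =
      OO dat Θ (((1 : TA k A (Fin r)) ⊗ₜ[k] Dis k A (Fin r)) ^ N * (1 ⊗ₜ[k] F)) := by
  rw [Algebra.TensorProduct.tmul_pow, one_pow, Algebra.TensorProduct.tmul_mul_tmul, one_mul,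
    OO_tmul, map_one, one_mul]

/-- words with two slots at the same point -/
theorem TW_not_inj (π : Fin r → Fin r) (hπ : ¬ Function.Injective π) : ∃ N₀ : ℕ, ∀ N ≥ N₀, ∀ F,
    TW dat π (Dis k A (Fin r) ^ N * F) = 0 := by
  rw [Function.not_injective_iff] at hπ
  obtain ⟨a, b, hab, hne⟩ := hπ
  have h1 : df k A (π a) a - df k A (π b) b ∈ (Ann dat (TW dat π)).radical :=
    sub_mem (df_mem dat π a) (df_mem dat π b)
  have h2 : df k A (π a) a - df k A (π b) b =
      (1 : TA k A (Fin r)) ⊗ₜ[k] (sg k a (XX k A) - sg k b (XX k A)) := by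
    rw [df, df, hab, TensorProduct.tmul_sub]; abel
  obtain ⟨E, hE⟩ := H1.dvd_Dis (k := k) (A := A) hne
  have h3 : (1 : TA k A (Fin r)) ⊗ₜ[k] Dis k A (Fin r) ∈ (Ann dat (TW dat π)).radical := by
    have : (1 : TA k A (Fin r)) ⊗ₜ[k] Dis k A (Fin r) =
      ((1 : TA k A (Fin r)) ⊗ₜ[k] E) *
        ((1 : TA k A (Fin r)) ⊗ₜ[k] (sg k a (XX k A) - sg k b (XX k A))) := by
      rw [Algebra.TensorProduct.tmul_mul_tmul, one_mul, ← hE]
    rw [this, ← h2]
    exact Ideal.mul_mem_left _ _ h1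
  rw [Ideal.mem_radical_iff] at h3
  obtain ⟨N₀, hN⟩ := h3
  refine ⟨N₀, fun N hNN F => ?_⟩
  rw [TW_one dat]
  have : ((1 : TA k A (Fin r)) ⊗ₜ[k] Dis k A (Fin r)) ^ N ∈ Ann dat (TW dat π) :=
    Ideal.pow_mem_of_pow_mem _ hN hNN
  exact this _

/-- words with distinct points: the discriminant moves out -/
theorem TW_inj (π : Equiv.Perm (Fin r)) (N' : ℕ) : ∃ N₀ : ℕ, ∀ N ≥ N₀, ∀ F,
    ∃ G, TW dat π (Dis k A (Fin r) ^ N * F) = dat.τ (Dis k A (Fin r)) ^ N' *
      OO dat (TW dat π) G := by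
  set J := Ann dat (TW dat π) with hJ
  have h1 : (1 : TA k A (Fin r)) ⊗ₜ[k] Dis k A (Fin r) - Dis k A (Fin r) ⊗ₜ[k]
      (1 : TA k A (Fin r)) ∈ J.radical := by
    rw [← Ideal.Quotient.eq]
    have e1 : ∀ a : Fin r, Ideal.Quotient.mk J.radical
        ((1 : TA k A (Fin r)) ⊗ₜ[k] sg k a (XX k A)) =
        Ideal.Quotient.mk J.radical (sg k (π a) (XX k A) ⊗ₜ[k] (1 : TA k A (Fin r))) := by
      intro a
      rw [Ideal.Quotient.eq]
      exact df_mem dat π a
    have e2 : (1 : TA k A (Fin r)) ⊗ₜ[k] Dis k A (Fin r) =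
        ∏ p ∈ (Finset.univ : Finset (Fin r)).offDiag,
          ((1 : TA k A (Fin r)) ⊗ₜ[k] sg k p.1 (XX k A) -
            (1 : TA k A (Fin r)) ⊗ₜ[k] sg k p.2 (XX k A)) := by
      have : (1 : TA k A (Fin r)) ⊗ₜ[k] Dis k A (Fin r) =
        (Algebra.TensorProduct.includeRight : TA k A (Fin r) →ₐ[k]
          TA k A (Fin r) ⊗[k] TA k A (Fin r)) (Dis k A (Fin r)) := rfl
      rw [this, Dis, map_prod]
      simp only [map_sub]
      rfl
    have e3 : Dis k A (Fin r) ⊗ₜ[k] (1 : TA k A (Fin r)) =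
        ∏ p ∈ (Finset.univ : Finset (Fin r)).offDiag,
          (sg k (π p.1) (XX k A) ⊗ₜ[k] (1 : TA k A (Fin r)) -
            sg k (π p.2) (XX k A) ⊗ₜ[k] (1 : TA k A (Fin r))) := by
      have : Dis k A (Fin r) ⊗ₜ[k] (1 : TA k A (Fin r)) =
        (Algebra.TensorProduct.includeLeft : TA k A (Fin r) →ₐ[k]
          TA k A (Fin r) ⊗[k] TA k A (Fin r)) (Dis k A (Fin r)) := rfl
      rw [this, ← H1.pmap_Dis π, Dis, map_prod, map_prod]
      simp only [map_sub, pmap_sg]
      rfl
    rw [e2, e3, map_prod, map_prod]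
    refine Finset.prod_congr rfl fun p _ => ?_
    rw [map_sub, map_sub, e1, e1]
  rw [Ideal.mem_radical_iff] at h1
  obtain ⟨K, hK⟩ := h1
  refine ⟨N' + K, fun N hN F => ?_⟩
  set I : Ideal (TA k A (Fin r) ⊗[k] TA k A (Fin r)) :=
    Ideal.span {(Dis k A (Fin r) ⊗ₜ[k] (1 : TA k A (Fin r))) ^ N'} ⊔ J with hI
  have h2 : ((1 : TA k A (Fin r)) ⊗ₜ[k] Dis k A (Fin r)) ^ N ∈ I := by
    have e : (1 : TA k A (Fin r)) ⊗ₜ[k] Dis k A (Fin r) =
      Dis k A (Fin r) ⊗ₜ[k] (1 : TA k A (Fin r)) + ((1 : TA k A (Fin r)) ⊗ₜ[k] Dis k A (Fin r) -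
        Dis k A (Fin r) ⊗ₜ[k] (1 : TA k A (Fin r))) := by ring
    rw [e]
    apply Ideal.add_pow_mem_of_pow_mem_of_le (m := N') (n := K)
    · exact Ideal.mem_sup_left (Ideal.mem_span_singleton_self _)
    · exact Ideal.mem_sup_right hK
    · omega
  rw [hI, Submodule.mem_sup] at h2
  obtain ⟨y, hy, z, hz, e⟩ := h2
  obtain ⟨u, rfl⟩ := Ideal.mem_span_singleton'.1 hy
  refine ⟨u * (1 ⊗ₜ[k] F), ?_⟩
  have hz' : OO dat (TW dat π) (z * ((1 : TA k A (Fin r)) ⊗ₜ[k] F)) = 0 := hz _
  rw [TW_one dat, ← e, add_mul, map_add, hz', add_zero,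
    show u * (Dis k A (Fin r) ⊗ₜ[k] (1 : TA k A (Fin r))) ^ N' *
      ((1 : TA k A (Fin r)) ⊗ₜ[k] F) = (Dis k A (Fin r) ⊗ₜ[k] (1 : TA k A (Fin r))) ^ N' *
      (u * (1 ⊗ₜ[k] F)) by ring, Algebra.TensorProduct.tmul_pow, one_pow, OO_left, map_pow]

/-! ### factorisation of the words with distinct points -/

theorem e_one (i : Fin r) (hi : n i = 1) (f : A) :
    dat.e i f = dat.τ (sg k i f) * dat.e i 1 := by
  have h0 := dat.ord i
  rw [hi, Function.iterate_one] at h0
  have h1 : ∀ f, dat.e i (XX k A * f) = dat.τ (sg k i (XX k A)) * dat.e i f := by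
    intro f
    have := LinearMap.congr_fun h0 f
    rw [sh_apply, LinearMap.zero_apply, sub_eq_zero] at this
    exact this
  let B : Submodule k A :=
    { carrier := {f | dat.e i f = dat.τ (sg k i f) * dat.e i 1}
      add_mem' := by
        intro a b ha hb
        simp only [Set.mem_setOf_eq] at ha hb ⊢
        rw [map_add, map_add, map_add, add_mul, ← ha, ← hb]
      zero_mem' := by simp
      smul_mem' := by
        intro c a ha
        simp only [Set.mem_setOf_eq] at ha ⊢
        rw [map_smul, map_smul, map_smul, smul_mul_assoc, ← ha] }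
  have hB : B = ⊤ := by
    apply WAlg.ind
    · show dat.e i 1 = dat.τ (sg k i 1) * dat.e i 1
      rw [map_one (sg k i), map_one dat.τ, one_mul]
    · intro a ha
      have ha' : dat.e i a = dat.τ (sg k i a) * dat.e i 1 := ha
      show dat.e i (XX k A * a) = dat.τ (sg k i (XX k A * a)) * dat.e i 1
      rw [h1, ha', map_mul, map_mul, mul_assoc]
    · intro hu a ha
      have ha' : dat.e i (XX k A * a) = dat.τ (sg k i (XX k A * a)) * dat.e i 1 := ha
      rw [h1, map_mul, map_mul, mul_assoc] at ha'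
      have hu2 : IsUnit (dat.τ (sg k i (XX k A))) := (hu.map (sg k i)).map dat.τ
      exact hu2.mul_left_cancel ha'
  have : f ∈ B := by rw [hB]; trivial
  exact this

theorem comm_ee {i j : Fin r} (hij : i ≠ j) (f g : A) : Commute (dat.e i f) (dat.e j g) := by
  have := dat.ee i j f g
  rw [if_neg hij, sub_eq_zero] at this
  exact this

theorem comm_eτ {i j : Fin r} (hij : i ≠ j) (f g : A) :
    Commute (dat.e i f) (dat.τ (sg k j g)) := by
  have := dat.eτ i j f g
  rw [if_neg hij, sub_eq_zero] at this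
  exact this

theorem prod_perm (π : Equiv.Perm (Fin r)) (g : Fin r → S)
    (hc : ∀ i j, i ≠ j → Commute (g i) (g j)) :
    (List.ofFn fun c => g (π c)).prod = (List.ofFn g).prod := by
  apply List.Perm.prod_eq'
  · exact Equiv.Perm.ofFn_comp_perm π g
  · rw [List.pairwise_ofFn]
    intro i j hij
    exact hc _ _ (fun h => hij.ne (π.injective h))

theorem prod_split : ∀ {r : ℕ} (a b : Fin r → S), (∀ i j, i ≠ j → Commute (b i) (a j)) →
    (List.ofFn fun c => a c * b c).prod = (List.ofFn a).prod * (List.ofFn b).prod := by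
  intro r
  induction r with
  | zero => intro a b _; simp
  | succ r ih =>
    intro a b h
    rw [List.ofFn_succ, List.ofFn_succ, List.ofFn_succ, List.prod_cons, List.prod_cons,
      List.prod_cons, ih (fun j => a j.succ) (fun j => b j.succ)
        (fun i j hij => h _ _ (fun e => hij (Fin.succ_injective _ e)))]
    have hc : Commute (b 0) (List.ofFn fun j => a j.succ).prod := by
      apply Commute.list_prod_right
      intro x hx
      rw [List.mem_ofFn] at hx
      obtain ⟨j, rfl⟩ := hx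
      exact h _ _ (Fin.succ_ne_zero j).symm
    rw [mul_assoc (a 0), ← mul_assoc (b 0), hc.eq]
    noncomm_ring

/-- the factor of a word -/
def fac (g : Fin r → A) : Fin r → S :=
  fun i => if n i = 1 then dat.τ (sg k i (g i)) else dat.e i (g i)

theorem TW_fac (π : Equiv.Perm (Fin r)) (f : Fin r → A) :
    TW dat π (tp k f) = (List.ofFn (fac dat (f ∘ π.symm))).prod * dat.beta := by
  rw [TW, TTw_tp]
  have e1 : (fun c => dat.e (π c) (f c)) =
      fun c => (fun i => dat.e i ((f ∘ π.symm) i)) (π c) := by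
    funext c; simp
  rw [e1, prod_perm π _ (fun i j hij => comm_ee dat hij _ _)]
  have e2 : (fun i => dat.e i ((f ∘ π.symm) i)) =
      fun i => fac dat (f ∘ π.symm) i * (if n i = 1 then dat.e i 1 else 1) := by
    funext i
    rw [fac]
    split_ifs with h
    · exact e_one dat i h _
    · rw [mul_one]
  rw [e2, prod_split, PData.beta]
  intro i j hij
  rw [fac]
  split_ifs
  · exact comm_eτ dat hij _ _
  · exact comm_ee dat hij _ _
  · exact Commute.one_left _
  · exact Commute.one_left _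

/-- uniform denominators of the factors -/
theorem fac_den : ∃ j : ℕ, ∀ g : Fin r → A,
    H1.DD dat ^ j * (List.ofFn (fac dat g)).prod ∈ H1.GU dat ⊤ := by
  have h1 : ∀ i, ∃ j : ℕ, ∀ g : Fin r → A, H1.DD dat ^ j * fac dat g i ∈ H1.GU dat ⊤ := by
    intro i
    by_cases h : n i = 1
    · refine ⟨0, fun g => ?_⟩
      rw [fac, if_pos h, pow_zero, one_mul]
      exact H1.GU_τ (Z := ⊤) Algebra.mem_top
    · obtain ⟨j, hj⟩ := H1.key_e (dat := dat) i
      refine ⟨j, fun g => ?_⟩
      rw [fac, if_neg h]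
      exact hj _
  choose j hj using h1
  have key : ∀ (L : List (Fin r)), ∃ m : ℕ, ∀ g : Fin r → A,
      H1.DD dat ^ m * (L.map (fac dat g)).prod ∈ H1.GU dat ⊤ := by
    intro L
    induction L with
    | nil => exact ⟨0, fun g => by simp [H1.GU_one]⟩
    | cons a L ih =>
      obtain ⟨m, hm⟩ := ih
      refine ⟨m + j a, fun g => ?_⟩
      rw [List.map_cons, List.prod_cons]
      exact H1.mul_aux (hj a g) (hm g)
  obtain ⟨m, hm⟩ := key (List.finRange r)
  refine ⟨m, fun g => ?_⟩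
  have := hm g
  rwa [← List.ofFn_eq_map] at this

/-- the products of elements with bounded denominators and `beta` -/
def BM (j : ℕ) : Submodule k S where
  carrier := {s | ∃ y, H1.DD dat ^ j * y ∈ H1.GU dat ⊤ ∧ s = y * dat.beta}
  add_mem' := by
    rintro a b ⟨y, hy, rfl⟩ ⟨z, hz, rfl⟩
    exact ⟨y + z, by rw [mul_add]; exact add_mem hy hz, by rw [add_mul]⟩
  zero_mem' := ⟨0, by rw [mul_zero]; exact zero_mem _, by rw [zero_mul]⟩
  smul_mem' := by
    rintro c a ⟨y, hy, rfl⟩
    exact ⟨c • y, by rw [mul_smul_comm]; exact Submodule.smul_mem _ _ hy, by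
      rw [smul_mul_assoc]⟩

theorem BM_τ (j : ℕ) (a : TA k A (Fin r)) {s : S} (hs : s ∈ BM dat j) : dat.τ a * s ∈ BM dat j := by
  obtain ⟨y, hy, rfl⟩ := hs
  refine ⟨dat.τ a * y, ?_, by rw [mul_assoc]⟩
  have : H1.DD dat ^ j * (dat.τ a * y) = dat.τ a * (H1.DD dat ^ j * y) := by
    rw [← mul_assoc, ← mul_assoc, ← map_pow, ← map_mul, ← map_mul, mul_comm a]
  rw [this]
  exact H1.GU_τ_mul (Z := ⊤) Algebra.mem_top hy

theorem OO_mem {j : ℕ} (hj : ∀ g : Fin r → A,
    H1.DD dat ^ j * (List.ofFn (fac dat g)).prod ∈ H1.GU dat ⊤) (π : Equiv.Perm (Fin r))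
    (G : TA k A (Fin r) ⊗[k] TA k A (Fin r)) : OO dat (TW dat π) G ∈ BM dat j := by
  induction G using TensorProduct.induction_on with
  | zero => rw [map_zero]; exact zero_mem _
  | add x y hx hy => rw [map_add]; exact add_mem hx hy
  | tmul a b =>
    rw [OO_tmul]
    apply BM_τ
    induction b using TA_induction with
    | h0 f => rw [TW_fac]; exact ⟨_, hj _, rfl⟩
    | hs c x hx => rw [map_smul]; exact Submodule.smul_mem _ _ hx
    | ha x y hx hy => rw [map_add]; exact add_mem hx hy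

/-- expansion of the words -/
theorem TT_expand (x : TA k A (Fin r)) :
    TT dat.tot r x = ∑ π : Fin r → Fin r, TW dat π x := by
  induction x using TA_induction with
  | h0 f =>
    have e : ∀ π : Fin r → Fin r, TW dat π (tp k f) =
        MultilinearMap.mkPiAlgebraFin k r S (fun c => dat.e (π c) (f c)) := by
      intro π
      rw [TW, TTw_tp, MultilinearMap.mkPiAlgebraFin_apply]
    simp only [e]
    rw [TT_tp]
    have e2 : (List.ofFn fun i => dat.tot (f i)).prod =
        MultilinearMap.mkPiAlgebraFin k r S (fun c => ∑ i, dat.e i (f c)) := by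
      rw [MultilinearMap.mkPiAlgebraFin_apply]
      simp only [dat.tot_apply]
    rw [e2, MultilinearMap.map_sum]
  | hs c x hx => simp only [map_smul, hx, Finset.smul_sum]
  | ha x y hx hy => simp only [map_add, hx, hy, Finset.sum_add_distrib]

theorem hom_TT (x : TA k A (Fin r)) :
    dat.hom (TT (eU (k := k) (A := A)) r x) = TT dat.tot r x := by
  induction x using TA_induction with
  | h0 f =>
    rw [TT_tp, TT_tp, map_list_prod, List.map_ofFn]
    congr 2
    funext i
    exact H1.hom_eU dat (f i)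
  | hs c x hx => rw [map_smul, map_smul, map_smul, hx]
  | ha x y hx hy => rw [map_add, map_add, map_add, hx, hy]

theorem main (l : ℕ) : ∃ N : ℕ, ∀ F : TA k A (Fin r), ∃ y ∈ H1.GU dat ⊤,
    dat.hom (TT (eU (k := k) (A := A)) r (Dis k A (Fin r) ^ N * F)) =
      H1.DD dat ^ l * y * dat.beta := by
  classical
  obtain ⟨j, hj⟩ := fac_den dat
  have h1 : ∀ π : Fin r → Fin r, ∃ N₀ : ℕ, ∀ N ≥ N₀, ∀ F, ∃ y ∈ H1.GU dat ⊤,
      TW dat π (Dis k A (Fin r) ^ N * F) = H1.DD dat ^ l * y * dat.beta := by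
    intro π
    by_cases hπ : Function.Injective π
    · obtain ⟨N₀, hN⟩ := TW_inj dat (Equiv.ofBijective π (Finite.injective_iff_bijective.1 hπ))
        (l + j)
      refine ⟨N₀, fun N hNN F => ?_⟩
      obtain ⟨G, hG⟩ := hN N hNN F
      obtain ⟨y, hy, e⟩ := OO_mem dat hj (Equiv.ofBijective π (Finite.injective_iff_bijective.1 hπ)) G
      refine ⟨H1.DD dat ^ j * y, hy, ?_⟩
      have : TW dat π (Dis k A (Fin r) ^ N * F) =
        TW dat (Equiv.ofBijective π (Finite.injective_iff_bijective.1 hπ))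
          (Dis k A (Fin r) ^ N * F) := rfl
      rw [this, hG, e, pow_add]
      simp only [mul_assoc]
    · obtain ⟨N₀, hN⟩ := TW_not_inj dat π hπ
      refine ⟨N₀, fun N hNN F => ⟨0, zero_mem _, ?_⟩⟩
      rw [hN N hNN F]; simp
  choose N₀ hN₀ using h1
  refine ⟨∑ π, N₀ π, fun F => ?_⟩
  have h2 : ∀ π, ∃ y ∈ H1.GU dat ⊤,
      TW dat π (Dis k A (Fin r) ^ (∑ π, N₀ π) * F) = H1.DD dat ^ l * y * dat.beta := fun π =>
    hN₀ π _ (Finset.single_le_sum (f := N₀) (fun _ _ => Nat.zero_le _) (Finset.mem_univ π)) F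
  choose y hy he using h2
  refine ⟨∑ π, y π, sum_mem fun π _ => hy π, ?_⟩
  rw [hom_TT, TT_expand, Finset.sum_congr rfl fun π _ => he π, Finset.mul_sum, Finset.sum_mul]

end dat

end H3

universe u

/-- Module H3 -/
theorem specTr (hC : SpecC0.{u}) : SpecTr.{u} := by
  intro k A S _ _ _ _ _ _ _ r n dat hn hi hg H l
  obtain ⟨N, hN⟩ := H3.main dat l
  refine ⟨N, fun F => ?_⟩
  obtain ⟨y, hy, e⟩ := hN F
  have hb : ∀ h, H.act h dat.beta = dat.beta := ((hC k A S r n dat hn).2.2 H).2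
  have h1 : ∀ h : stab n, H.act h (H1.DD dat ^ l * y * dat.beta) =
      H1.DD dat ^ l * H.act h y * dat.beta := by
    intro h
    rw [map_mul, map_mul, map_pow, H1.act_DD, hb]
  have h2 : ∀ h : stab n, H.act h (H1.DD dat ^ l * y * dat.beta) =
      H1.DD dat ^ l * y * dat.beta := by
    intro h
    rw [← e, H1.act_hom]
  have h3 : (Fintype.card (stab n) : k) • (H1.DD dat ^ l * y * dat.beta) =
      H1.DD dat ^ l * (∑ h : stab n, H.act h y) * dat.beta := by
    rw [Finset.mul_sum, Finset.sum_mul, ← Finset.sum_congr rfl (fun h _ => h1 h),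
      Finset.sum_congr rfl (fun h _ => h2 h), Finset.sum_const, Finset.card_univ,
      Nat.cast_smul_eq_nsmul]
  have h4 : (Fintype.card (stab n) : k) ≠ 0 := by exact_mod_cast Fintype.card_ne_zero
  refine ⟨((Fintype.card (stab n) : k))⁻¹ • ∑ h : stab n, H.act h y,
    Submodule.smul_mem _ _ (H1.avg H hy), ?_⟩
  rw [e, mul_smul_comm, smul_mul_assoc, ← h3, smul_smul, inv_mul_cancel₀ h4, one_smul]

end MPcc24
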