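import Pool.Agent.Lib.MP_cc24ba_al.Spec

section
set_option linter.all false

/-!
# H5: the final argument
-/

noncomputable section

open scoped TensorProduct BigOperators

namespace MPcc24

universe u

section General

variable {k : Type u} {A : Type u} [Field k] [CommRing A] [Algebra k A]

theorem Fin_TT_map {S R : Type*} [Ring S] [Algebra k S] [Ring R] [Algebra k R]
    (φ : S →ₐ[k] R) (e : A →ₗ[k] S) (e' : A →ₗ[k] R) (h : ∀ f, φ (e f) = e' f) (d : ℕ)
    (x : TA k A (Fin d)) : φ (TT e d x) = TT e' d x := by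
  induction x using TA_induction with
  | h0 f =>
    rw [TT_tp, TT_tp, map_list_prod, List.map_ofFn]
    congr 2
    funext i
    exact h _
  | hs c x hx => rw [map_smul, map_smul, map_smul, hx]
  | ha x y hx hy => rw [map_add, map_add, map_add, hx, hy]

theorem Fin_TB_map {S R : Type*} [Ring S] [Algebra k S] [Ring R] [Algebra k R]
    (φ : S →ₐ[k] R) (e : A →ₗ[k] S) (e' : A →ₗ[k] R) (h : ∀ f, φ (e f) = e' f) (b : ℕ)
    (x : TA k A (Fin b × Fin 2)) : φ (TB e b x) = TB e' b x := by
  rw [TB, TB, LinearMap.comp_apply, LinearMap.comp_apply]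
  exact Fin_TT_map φ e e' h _ _

variable [WAlg k A]

theorem Fin_Dis_pmap {r : ℕ} (h : Equiv.Perm (Fin r)) :
    pmap (h : Fin r → Fin r) (Dis k A (Fin r)) = Dis k A (Fin r) := by
  rw [Dis, map_prod]
  refine Finset.prod_bij' (fun p _ => (h p.1, h p.2)) (fun p _ => (h.symm p.1, h.symm p.2))
    ?_ ?_ ?_ ?_ ?_
  · intro p hp
    simp only [Finset.mem_offDiag, Finset.mem_univ, true_and] at hp ⊢
    exact fun hh => hp (h.injective hh)
  · intro p hp
    simp only [Finset.mem_offDiag, Finset.mem_univ, true_and] at hp ⊢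
    exact fun hh => hp (h.symm.injective hh)
  · intro p _; simp
  · intro p _; simp
  · intro p _
    simp only [map_sub, pmap_sg]

end General

section Main

variable {k A S : Type u} [Field k] [CommRing A] [Algebra k A] [WAlg k A]
  [Ring S] [Algebra k S] {r : ℕ} {n : Fin r → ℕ}

theorem Fin_hom_eU (dat : PData k A r n S) (f : A) : dat.hom (eU f) = dat.tot f :=
  liftE_eU _ _ _

theorem Fin_hom_inv {dat : PData k A r n S} (H : HAct dat) (u : UW k A) :
    H.IsInv (dat.hom u) := by
  intro h
  have : (H.act h).comp dat.hom = dat.hom := by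
    apply UW_hom_ext
    intro f
    rw [AlgHom.comp_apply, Fin_hom_eU, PData.tot_apply, map_sum]
    simp only [H.act_e]
    exact Equiv.sum_comp (h : Equiv.Perm (Fin r)) (fun i => dat.e i f)
  exact DFunLike.congr_fun this u

theorem Fin_inv_mul {dat : PData k A r n S} (H : HAct dat) {x y : S} (hx : H.IsInv x)
    (hy : H.IsInv y) : H.IsInv (x * y) := fun h => by rw [map_mul, hx h, hy h]

theorem Fin_inv_pow {dat : PData k A r n S} (H : HAct dat) {x : S} (hx : H.IsInv x) (m : ℕ) :
    H.IsInv (x ^ m) := fun h => by rw [map_pow, hx h]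

theorem Fin_inv_dis {dat : PData k A r n S} (H : HAct dat) :
    H.IsInv (dat.τ (Dis k A (Fin r))) := fun h => by rw [H.act_τ, Fin_Dis_pmap]

theorem Fin_hom_mem (dat : PData k A r n S) (u : UW k A) : dat.hom u ∈ dat.ZU :=
  Submodule.subset_span ⟨1, u, fun h => map_one _, by rw [map_one, one_mul]⟩

theorem Fin_tau_mem (dat : PData k A r n S) {z : TA k A (Fin r)} (hz : ∀ h : stab n,
    pmap ((h : Equiv.Perm (Fin r)) : Fin r → Fin r) z = z) : dat.τ z ∈ dat.ZU :=
  Submodule.subset_span ⟨z, 1, hz, by rw [map_one, mul_one]⟩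

theorem Fin_dis_mem (dat : PData k A r n S) (m : ℕ) : dat.τ (Dis k A (Fin r)) ^ m ∈ dat.ZU := by
  rw [← map_pow]
  exact Fin_tau_mem dat fun h => by rw [map_pow, Fin_Dis_pmap]

end Main

/-- H5. -/
theorem specFinal (hM : SpecBlockM.{u}) (hD : SpecDen.{u}) (hB : SpecBeta.{u})
    (hT : SpecTr.{u}) (hC : SpecC0.{u}) : SpecFinal.{u} := by
  intro k A S _ _ _ _ _ _ _ r n dat hn hInv hGen H P hP hN I hI hIp hci hL
  classical
  obtain ⟨h1I, hIp⟩ := hIp
  obtain ⟨hD1, hD2, hD3, hD4, hD5, hD6⟩ := hD k A S r n dat hInv hGen H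
  obtain ⟨hC1, hC2, hC3⟩ := hC k A S r n dat hn
  obtain ⟨hC3, hC4⟩ := hC3 H
  have hB := hB k A S r n dat
  have hT := hT k A S r n dat hn hInv hGen H
  set δ : S := dat.τ (Dis k A (Fin r)) with hδ
  -- iterated commutation with the discriminant
  have hD3m : ∀ m : ℕ, ∀ x ∈ dat.ZU, ∃ y ∈ dat.ZU, δ ^ m * x = y * δ ^ m := by
    intro m
    induction m with
    | zero => intro x hx; exact ⟨x, hx, by simp⟩
    | succ m ih =>
      intro x hx
      obtain ⟨y, hy, e1⟩ := ih x hx
      obtain ⟨z, hz, e2⟩ := hD3 y hy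
      refine ⟨z, hz, ?_⟩
      rw [pow_succ', mul_assoc, e1, ← mul_assoc, e2, mul_assoc]
  have hD4m : ∀ m : ℕ, ∀ x ∈ dat.ZU, ∃ y ∈ dat.ZU, x * δ ^ m = δ ^ m * y := by
    intro m
    induction m with
    | zero => intro x hx; exact ⟨x, hx, by simp⟩
    | succ m ih =>
      intro x hx
      obtain ⟨y, hy, e1⟩ := ih x hx
      obtain ⟨z, hz, e2⟩ := hD4 y hy
      refine ⟨z, hz, ?_⟩
      rw [pow_succ, ← mul_assoc, e1, mul_assoc, e2, ← mul_assoc]
  have hδm : ∀ m, δ ^ m ∈ dat.ZU := Fin_dis_mem dat
  -- the discriminant, `cc` are not in `I`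
  have hIone : ∀ x : S, IsUnit x → x ∉ I := by
    intro x hx hxI
    obtain ⟨v, rfl⟩ := hx
    have := I.mul_mem_left (↑v⁻¹) _ hxI
    rw [Units.inv_mul] at this
    exact h1I this
  have hδu : IsUnit δ := by
    rw [hδ, Dis]
    refine Finset.prod_induction _ (fun x => IsUnit (dat.τ x)) (fun a b ha hb => ?_) ?_ ?_
    · rw [map_mul]; exact ha.mul hb
    · rw [map_one]; exact isUnit_one
    · intro p hp
      exact hInv p.1 p.2 (Finset.mem_offDiag.1 hp).2.2
  have hmulI : ∀ x y : S, x ∉ I → y ∉ I → x * y ∉ I := fun x y hx hy h =>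
    (hIp x y h).elim hx hy
  have hδmI : ∀ m, δ ^ m ∉ I := fun m => hIone _ (hδu.pow m)
  have hccI : dat.cc ∉ I := by
    rw [PData.cc]
    have : ∀ l : List S, (∀ x ∈ l, x ∉ I) → l.prod ∉ I := by
      intro l
      induction l with
      | nil => intro _; simpa using h1I
      | cons a l ih =>
        intro h
        rw [List.prod_cons]
        exact hmulI _ _ (h a (by simp)) (ih fun x hx => h x (by simp [hx]))
    apply this
    intro x hx
    obtain ⟨i, rfl⟩ := List.mem_ofFn.1 hx
    exact hci i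
  have hcbI : dat.c0 * dat.beta ∉ I := by
    intro h
    rcases hC1 with h1 | h1
    · rw [← h1] at h; exact hccI h
    · apply hccI; rw [h1]; exact I.neg_mem h
  have hc0I : dat.c0 ∉ I := fun h => hcbI (I.mul_mem_right _ _ h)
  -- `B` + `I`, the image of `P`
  have hPker : ∀ u v : UW k A, dat.hom u - dat.hom v ∈ I → v ∈ P → u ∈ P := by
    intro u v h hv
    rw [← map_sub] at h
    have := hI _ h
    have h2 := P.add_mem this hv
    simpa using h2
  -- Lemma M'
  have hL' : ∀ y, H.IsInv y → y ∉ I → ∃ w, w ∉ P ∧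
      ∃ s ∈ AddSubmonoid.closure {x | ∃ a b, a ∈ dat.ZU ∧ b ∈ dat.ZU ∧ x = a * y * b},
        dat.hom w - s ∈ I := by
    intro y hy hyI
    obtain ⟨w, hw, s, hs, hws⟩ := hL y hy hyI
    -- a uniform exponent
    have key : ∃ m : ℕ, ∀ m' ≥ m, ∀ X ∈ dat.ZU, ∀ Y ∈ dat.ZU,
        X * δ ^ m' * s * (δ ^ m' * Y) ∈
          AddSubmonoid.closure {x | ∃ a b, a ∈ dat.ZU ∧ b ∈ dat.ZU ∧ x = a * y * b} := by
      clear hws
      induction hs using AddSubmonoid.closure_induction with
      | mem x hx =>
        obtain ⟨a, b, ha, hb, rfl⟩ := hx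
        obtain ⟨j1, hj1⟩ := hD5 a ha
        obtain ⟨j2, hj2⟩ := hD6 b hb
        refine ⟨max j1 j2, fun m' hm' X hX Y hY => AddSubmonoid.subset_closure ?_⟩
        have e1 : δ ^ m' * a ∈ dat.ZU := by
          obtain ⟨q, hq⟩ := Nat.exists_eq_add_of_le (le_trans (le_max_left _ _) hm')
          rw [hq, add_comm, pow_add, mul_assoc]
          exact hD1 _ (hδm q) _ hj1
        have e2 : b * δ ^ m' ∈ dat.ZU := by
          obtain ⟨q, hq⟩ := Nat.exists_eq_add_of_le (le_trans (le_max_right _ _) hm')
          rw [hq, pow_add, ← mul_assoc]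
          exact hD1 _ hj2 _ (hδm q)
        exact ⟨X * (δ ^ m' * a), b * δ ^ m' * Y, hD1 _ hX _ e1, hD1 _ e2 _ hY, by noncomm_ring⟩
      | zero => exact ⟨0, fun m' _ X _ Y _ => by rw [mul_zero, zero_mul]; exact zero_mem _⟩
      | add a b _ _ iha ihb =>
        obtain ⟨m1, h1⟩ := iha
        obtain ⟨m2, h2⟩ := ihb
        refine ⟨max m1 m2, fun m' hm' X hX Y hY => ?_⟩
        rw [mul_add, add_mul]
        exact add_mem (h1 m' (le_trans (le_max_left _ _) hm') X hX Y hY)
          (h2 m' (le_trans (le_max_right _ _) hm') X hX Y hY)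
    obtain ⟨m, hm⟩ := key
    have hm := hm m le_rfl
    -- elements of the form `x * δ ^ m` and `δ ^ m * x`
    have hT' : ∃ T : UW k A, T ∉ P ∧ (∃ x ∈ dat.ZU, dat.hom T = x * δ ^ m) ∧
        (∃ x ∈ dat.ZU, dat.hom T = δ ^ m * x) := by
      obtain ⟨j, hj⟩ := hD5 _ hC4
      obtain ⟨N, hN'⟩ := hT (j + m)
      obtain ⟨F, hF⟩ := hN N
      obtain ⟨x, hx, hxe⟩ := hN' F
      refine ⟨_, hF, ?_⟩
      obtain ⟨x', hx', e1⟩ := hD3m j x hx
      have e2 : dat.hom (TT (eU (k := k) (A := A)) r (Dis k A (Fin r) ^ N * F)) =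
          δ ^ m * (x' * (δ ^ j * dat.beta)) := by
        rw [hxe, add_comm j m, pow_add, mul_assoc (δ ^ m), e1]
        noncomm_ring
      have hx2 : x' * (δ ^ j * dat.beta) ∈ dat.ZU := hD1 _ hx' _ hj
      obtain ⟨x'', hx'', e3⟩ := hD3m m _ hx2
      exact ⟨⟨x'', hx'', by rw [e2, e3]⟩, ⟨_, hx2, e2⟩⟩
    obtain ⟨T, hTP, ⟨x, hx, hxe⟩, ⟨x', hx', hxe'⟩⟩ := hT'
    -- primeness
    have h1 : ∃ u, T * u * w ∉ P := by
      by_contra hcon
      push Not at hcon
      exact (hP.2 T w hcon).elim hTP hw
    obtain ⟨u, hu⟩ := h1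
    have h2 : ∃ v, T * u * w * v * T ∉ P := by
      by_contra hcon
      push Not at hcon
      exact (hP.2 _ T hcon).elim hu hTP
    obtain ⟨v, hv⟩ := h2
    obtain ⟨y1, hy1, ey1⟩ := hD3m m _ (Fin_hom_mem dat u)
    obtain ⟨y2, hy2, ey2⟩ := hD4m m _ (Fin_hom_mem dat v)
    refine ⟨_, hv, _, hm (x * y1) (hD1 _ hx _ hy1) (y2 * x') (hD1 _ hy2 _ hx'), ?_⟩
    have e4 : dat.hom (T * u * w * v * T) =
        x * (y1 * δ ^ m) * dat.hom w * ((δ ^ m * y2) * x') := by
      rw [← ey1, ← ey2]
      calc dat.hom (T * u * w * v * T)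
          = dat.hom T * dat.hom u * dat.hom w * (dat.hom v * dat.hom T) := by
            simp only [map_mul]; noncomm_ring
        _ = (x * δ ^ m) * dat.hom u * dat.hom w * (dat.hom v * (δ ^ m * x')) := by
            rw [← hxe', ← hxe]
        _ = _ := by noncomm_ring
    have e5 : dat.hom (T * u * w * v * T) - x * y1 * δ ^ m * s * (δ ^ m * (y2 * x')) =
        (x * (y1 * δ ^ m)) * (dat.hom w - s) * ((δ ^ m * y2) * x') := by
      rw [e4]; noncomm_ring
    rw [e5]
    exact I.mul_mem_right _ _ (I.mul_mem_left _ _ hws)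
  -- step 0
  obtain ⟨N0, hN0⟩ := hM k A S r n dat hn
  have hN0 := hN0 N0 le_rfl
  set Z : Subalgebra k (TA k A (Fin r)) :=
    { carrier := {z | ∀ h : stab n, pmap ((h : Equiv.Perm (Fin r)) : Fin r → Fin r) z = z}
      mul_mem' := fun {a b} ha hb h => by rw [map_mul, ha h, hb h]
      add_mem' := fun {a b} ha hb h => by rw [map_add, ha h, hb h]
      algebraMap_mem' := fun c h => by rw [AlgHom.commutes] } with hZ
  have hZmem : ∀ z, z ∈ Z ↔ ∀ h : stab n,
      pmap ((h : Equiv.Perm (Fin r)) : Fin r → Fin r) z = z := fun z => Iff.rfl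
  set θ : S := δ ^ (4 * N0) * (dat.c0 * dat.beta) with hθ
  have hθz : ∀ z ∈ Z, ∃ v : UW k A, dat.hom v = dat.τ z * θ := by
    intro z hz
    have h1 := hN0 (pmap (fun i : Fin r => (i, (0 : Fin 2))) z)
    have h2 : ∀ h : stab n, pmap (fun p : Fin r × Fin 2 => (h : Equiv.Perm (Fin r)) p.1)
        (pmap (fun i : Fin r => (i, (0 : Fin 2))) z) = z := by
      intro h
      rw [pmap_comp]
      exact hz h
    simp only [h2] at h1
    rw [Finset.sum_const, Finset.card_univ] at h1
    have h3 : dat.hom (TB (eU (k := k) (A := A)) r (F0 k A (fun i => mu (n i)) N0 *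
        pmap (fun i : Fin r => (i, (0 : Fin 2))) z)) = TB dat.tot r (F0 k A (fun i => mu (n i)) N0 *
        pmap (fun i : Fin r => (i, (0 : Fin 2))) z) :=
      Fin_TB_map _ _ _ (Fin_hom_eU dat) _ _
    have hcard : (Fintype.card (stab n) : k) ≠ 0 := Nat.cast_ne_zero.2 Fintype.card_ne_zero
    have h4 : dat.τ (Dis k A (Fin r) ^ (4 * N0) * z) * dat.cc = dat.hom
        (((Fintype.card (stab n) : k))⁻¹ • (TB (eU (k := k) (A := A)) r
          (F0 k A (fun i => mu (n i)) N0 * pmap (fun i : Fin r => (i, (0 : Fin 2))) z))) := by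
      rw [map_smul, h3, h1, ← Nat.cast_smul_eq_nsmul k, smul_smul, inv_mul_cancel₀ hcard, one_smul]
    have h5 : dat.τ (Dis k A (Fin r) ^ (4 * N0) * z) = dat.τ z * δ ^ (4 * N0) := by
      rw [mul_comm, map_mul, map_pow]
    rw [h5] at h4
    rcases hC1 with h6 | h6
    · exact ⟨_, by rw [← h4, h6, hθ]; noncomm_ring⟩
    · exact ⟨-_, by rw [map_neg, ← h4, h6, hθ]; noncomm_ring⟩
  have hθI : θ ∉ I := hmulI _ _ (hδmI _) hcbI
  have hθinv : H.IsInv θ :=
    Fin_inv_mul H (Fin_inv_pow H (Fin_inv_dis H) _) (Fin_inv_mul H hC3 hC4)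
  have hθU : ∀ x ∈ dat.ZU, ∃ v : UW k A, dat.hom v = x * θ := by
    intro x hx
    replace hx := hD2 x hx
    induction hx using Submodule.span_induction with
    | mem x hx =>
      obtain ⟨z, u, hz, rfl⟩ := hx
      obtain ⟨v, hv⟩ := hθz z hz
      exact ⟨u * v, by rw [map_mul, hv, mul_assoc]⟩
    | zero => exact ⟨0, by simp⟩
    | add a b _ _ ha hb =>
      obtain ⟨v, hv⟩ := ha
      obtain ⟨v', hv'⟩ := hb
      exact ⟨v + v', by rw [map_add, hv, hv', add_mul]⟩
    | smul c a _ ha =>
      obtain ⟨v, hv⟩ := ha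
      exact ⟨c • v, by rw [map_smul, hv, smul_mul_assoc]⟩
  intro p hp
  by_contra hpI
  -- step 1
  have step1 : ∀ z ∈ Z, ∀ v : UW k A, dat.hom v = dat.τ z * θ → v ∈ P := by
    obtain ⟨w, hw, s, hs, hws⟩ := hL' (θ * dat.hom p) (Fin_inv_mul H hθinv (Fin_hom_inv H p))
      (hmulI _ _ hθI hpI)
    intro z hz v hv
    have key : ∀ Y ∈ dat.ZU, ∃ q ∈ P, dat.hom q = s * (Y * θ) := by
      clear hws
      induction hs using AddSubmonoid.closure_induction with
      | mem x hx =>
        obtain ⟨a, b, ha, hb, rfl⟩ := hx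
        intro Y hY
        obtain ⟨v1, hv1⟩ := hθU a ha
        obtain ⟨v2, hv2⟩ := hθU (b * Y) (hD1 _ hb _ hY)
        refine ⟨v1 * p * v2, P.mul_mem_right _ _ (P.mul_mem_left _ _ hp), ?_⟩
        rw [map_mul, map_mul, hv1, hv2]
        noncomm_ring
      | zero => intro Y _; exact ⟨0, P.zero_mem, by simp⟩
      | add a b _ _ iha ihb =>
        intro Y hY
        obtain ⟨q1, hq1, e1⟩ := iha Y hY
        obtain ⟨q2, hq2, e2⟩ := ihb Y hY
        exact ⟨q1 + q2, P.add_mem hq1 hq2, by rw [map_add, e1, e2, add_mul]⟩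
    refine (hP.2 w v fun u => ?_).resolve_left hw
    obtain ⟨q, hq, e⟩ := key (dat.hom u * dat.τ z) (hD1 _ (Fin_hom_mem dat u) _
      (Fin_tau_mem dat hz))
    refine hPker _ _ ?_ hq
    have : dat.hom (w * u * v) - dat.hom q = (dat.hom w - s) * (dat.hom u * dat.τ z * θ) := by
      rw [e, map_mul, map_mul, hv]
      noncomm_ring
    rw [this]
    exact I.mul_mem_right _ _ hws
  -- step 2
  obtain ⟨w, hw, s, hs, hws⟩ := hL' (dat.c0 * δ ^ (4 * N0))
    (Fin_inv_mul H hC3 (Fin_inv_pow H (Fin_inv_dis H) _)) (hmulI _ _ hc0I (hδmI _))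
  have step2 : ∀ Y ∈ dat.ZU, ∃ q ∈ P, dat.hom q = s * (Y * dat.beta) := by
    clear hws
    induction hs using AddSubmonoid.closure_induction with
    | mem x hx =>
      obtain ⟨a, b, ha, hb, rfl⟩ := hx
      intro Y hY
      have h1 := hB _ (hD1 _ hb _ hY)
      have h2 : ∀ a ∈ dat.ZU, ∀ z ∈ Z, ∃ q ∈ P, dat.hom q = a * (dat.τ z * θ) := by
        intro a ha z hz
        replace ha := hD2 a ha
        induction ha using Submodule.span_induction with
        | mem x hx =>
          obtain ⟨z', u, hz', rfl⟩ := hx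
          obtain ⟨v, hv⟩ := hθz (z' * z) (mul_mem (S := Subalgebra k _) (s := Z) hz' hz)
          refine ⟨u * v, P.mul_mem_left _ _ (step1 _ (mul_mem hz' hz) v hv), ?_⟩
          rw [map_mul, hv, map_mul]
          noncomm_ring
        | zero => exact ⟨0, P.zero_mem, by simp⟩
        | add a b _ _ ha hb =>
          obtain ⟨v, hvP, hv⟩ := ha
          obtain ⟨v', hvP', hv'⟩ := hb
          exact ⟨v + v', P.add_mem hvP hvP', by rw [map_add, hv, hv', add_mul]⟩
        | smul c a _ ha =>
          obtain ⟨v, hvP, hv⟩ := ha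
          refine ⟨c • v, ?_, by rw [map_smul, hv, smul_mul_assoc]⟩
          rw [Algebra.smul_def]
          exact P.mul_mem_left _ _ hvP
      have h3 : ∀ x ∈ Submodule.span k {x | ∃ z u, (∀ h : stab n,
          pmap ((h : Equiv.Perm (Fin r)) : Fin r → Fin r) z = z) ∧
          x = dat.τ z * dat.beta * dat.hom u}, ∃ q ∈ P, dat.hom q = a * (dat.c0 * δ ^ (4 * N0)) * x := by
        intro x hx
        induction hx using Submodule.span_induction with
        | mem x hx =>
          obtain ⟨z, u, hz, rfl⟩ := hx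
          obtain ⟨q, hq, e⟩ := h2 a ha z hz
          refine ⟨q * u, P.mul_mem_right _ _ hq, ?_⟩
          have e2 : dat.c0 * δ ^ (4 * N0) * dat.τ z = dat.τ z * δ ^ (4 * N0) * dat.c0 := by
            rw [hδ, ← map_pow, mul_assoc, ← map_mul, hC2, mul_comm, map_mul]
          rw [map_mul, e, hθ]
          calc a * (dat.τ z * (δ ^ (4 * N0) * (dat.c0 * dat.beta))) * dat.hom u
              = a * (dat.τ z * δ ^ (4 * N0) * dat.c0) * (dat.beta * dat.hom u) := by noncomm_ring
            _ = a * (dat.c0 * δ ^ (4 * N0) * dat.τ z) * (dat.beta * dat.hom u) := by rw [e2]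
            _ = _ := by noncomm_ring
        | zero => exact ⟨0, P.zero_mem, by simp⟩
        | add a b _ _ ha hb =>
          obtain ⟨v, hvP, hv⟩ := ha
          obtain ⟨v', hvP', hv'⟩ := hb
          exact ⟨v + v', P.add_mem hvP hvP', by rw [map_add, hv, hv', mul_add]⟩
        | smul c a _ ha =>
          obtain ⟨v, hvP, hv⟩ := ha
          refine ⟨c • v, ?_, by rw [map_smul, hv, mul_smul_comm]⟩
          rw [Algebra.smul_def]
          exact P.mul_mem_left _ _ hvP
      obtain ⟨q, hq, e⟩ := h3 _ h1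
      exact ⟨q, hq, by rw [e]; noncomm_ring⟩
    | zero => intro Y _; exact ⟨0, P.zero_mem, by simp⟩
    | add a b _ _ iha ihb =>
      intro Y hY
      obtain ⟨q1, hq1, e1⟩ := iha Y hY
      obtain ⟨q2, hq2, e2⟩ := ihb Y hY
      exact ⟨q1 + q2, P.add_mem hq1 hq2, by rw [map_add, e1, e2, add_mul]⟩
  obtain ⟨N, hN'⟩ := hT 0
  obtain ⟨F, hF⟩ := hN N
  obtain ⟨x, hx, hxe⟩ := hN' F
  rw [pow_zero, one_mul] at hxe
  refine hF ((hP.2 w _ fun u => ?_).resolve_left hw)
  obtain ⟨q, hq, e⟩ := step2 (dat.hom u * x) (hD1 _ (Fin_hom_mem dat u) _ hx)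
  refine hPker _ _ ?_ hq
  have : dat.hom (w * u * TT (eU (k := k) (A := A)) r (Dis k A (Fin r) ^ N * F)) - dat.hom q =
      (dat.hom w - s) * (dat.hom u * x * dat.beta) := by
    rw [e, map_mul, map_mul, hxe]
    noncomm_ring
  rw [this]
  exact I.mul_mem_right _ _ hws

end MPcc24
end
end

section
set_option linter.all false

/-!
# Module G: minimal multiplicities
-/

noncomputable section

open scoped TensorProduct BigOperators

namespace MPcc24

namespace Fine

universe u

variable {k : Type u} {A : Type u} [Field k] [CommRing A] [Algebra k A] [WAlg k A]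
variable {S : Type u} [Ring S] [Algebra k S] {r : ℕ} {n : Fin r → ℕ}

theorem sg_mul (i : Fin r) (f g : A) : sg k i (f * g) = sg k i f * sg k i g := map_mul _ _ _

/-- the last shift is determined by its value at one -/
theorem V_last (dat : PData k A r n S) (i : Fin r) (m : ℕ) (hm : n i = m + 1) (f : A) :
    dat.V i m f = dat.τ (sg k i f) * dat.V i m 1 := by
  have h0 : sh (dat.t i) (dat.V i m) = 0 := by
    have := dat.ord i
    rw [hm, Function.iterate_succ_apply'] at this
    exact this
  have h1 : ∀ g : A, dat.V i m (XX k A * g) = dat.t i * dat.V i m g := by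
    intro g
    have := LinearMap.congr_fun h0 g
    rw [sh_apply] at this
    exact sub_eq_zero.1 this
  let B : Submodule k A :=
    { carrier := {f | dat.V i m f = dat.τ (sg k i f) * dat.V i m 1}
      add_mem' := fun {a b} ha hb => by
        simp only [Set.mem_setOf_eq] at ha hb ⊢
        rw [map_add, ha, hb, map_add, map_add, add_mul]
      zero_mem' := by simp
      smul_mem' := fun c a ha => by
        simp only [Set.mem_setOf_eq] at ha ⊢
        rw [map_smul, ha, map_smul, map_smul, smul_mul_assoc] }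
  have hB : B = ⊤ := by
    apply WAlg.ind (k := k) B
    · change dat.V i m 1 = dat.τ (sg k i 1) * dat.V i m 1
      rw [map_one (sg k i), map_one dat.τ, one_mul]
    · intro g hg
      change dat.V i m (XX k A * g) = dat.τ (sg k i (XX k A * g)) * dat.V i m 1
      have hg' : dat.V i m g = dat.τ (sg k i g) * dat.V i m 1 := hg
      rw [h1, hg', map_mul (sg k i), map_mul dat.τ, mul_assoc]; rfl
    · intro hX g hg
      change dat.V i m g = dat.τ (sg k i g) * dat.V i m 1
      have hg' : dat.V i m (XX k A * g) = dat.τ (sg k i (XX k A * g)) * dat.V i m 1 := hg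
      rw [h1, map_mul (sg k i), map_mul dat.τ, mul_assoc] at hg'
      have hu : IsUnit (dat.t i) := (hX.map (sg k i)).map dat.τ
      exact hu.mul_left_cancel hg'
  have : f ∈ B := by rw [hB]; trivial
  exact this

theorem e_one_ne_zero (dat : PData k A r n S) [Nontrivial S] (i : Fin r) : dat.e i 1 ≠ 0 := by
  intro h
  have := dat.eτ i i 1 (XX k A)
  rw [h, zero_mul, mul_zero, sub_zero, if_pos rfl, one_mul, WAlg.DX, map_one, map_one] at this
  exact one_ne_zero this.symm

/-- lowering a multiplicity -/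
def lower (dat : PData k A r n S) (i : Fin r) (m : ℕ) (hm : (sh (dat.t i))^[m] (dat.e i) = 0) :
    PData k A r (Function.update n i m) S where
  τ := dat.τ
  e := dat.e
  eτ := dat.eτ
  ee := dat.ee
  ord j := by
    by_cases hj : j = i
    · subst hj
      rw [Function.update_self]
      exact hm
    · rw [Function.update_of_ne hj]
      exact dat.ord j

theorem lower_hom (dat : PData k A r n S) (i : Fin r) (m : ℕ)
    (hm : (sh (dat.t i))^[m] (dat.e i) = 0) : (lower dat i m hm).hom = dat.hom := rfl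

section two

variable (dat : PData k A r n S) (i : Fin r)

theorem e_eq (hn : n i = 2) (hE : dat.V i 1 1 = 1) (f : A) : dat.e i f = dat.e i 1 * dat.τ (sg k i f) := by
  have h1 : ∀ g : A, dat.e i (XX k A * g) = dat.t i * dat.e i g + dat.τ (sg k i g) := by
    intro g
    have h := V_last dat i 1 hn g
    rw [hE, mul_one] at h
    have h2 : dat.V i 1 g = dat.e i (XX k A * g) - dat.t i * dat.e i g := by
      rw [PData.V, Function.iterate_one, sh_apply]
    rw [h2] at h
    rw [← h]; abel
  have h3 : dat.t i * dat.e i 1 = dat.e i 1 * dat.t i - 1 := by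
    have := dat.eτ i i 1 (XX k A)
    rw [if_pos rfl, one_mul, WAlg.DX, map_one (sg k i), map_one dat.τ] at this
    rw [← this, PData.t]; abel
  let B : Submodule k A :=
    { carrier := {f | dat.e i f = dat.e i 1 * dat.τ (sg k i f)}
      add_mem' := fun {a b} ha hb => by
        simp only [Set.mem_setOf_eq] at ha hb ⊢
        rw [map_add, ha, hb, map_add, map_add, mul_add]
      zero_mem' := by simp
      smul_mem' := fun c a ha => by
        simp only [Set.mem_setOf_eq] at ha ⊢
        rw [map_smul, ha, map_smul, map_smul, mul_smul_comm] }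
  have hB : B = ⊤ := by
    apply WAlg.ind (k := k) B
    · change dat.e i 1 = dat.e i 1 * dat.τ (sg k i 1)
      rw [map_one (sg k i), map_one dat.τ, mul_one]
    · intro g hg
      have hg' : dat.e i g = dat.e i 1 * dat.τ (sg k i g) := hg
      change dat.e i (XX k A * g) = dat.e i 1 * dat.τ (sg k i (XX k A * g))
      rw [h1, hg', ← mul_assoc, h3, map_mul (sg k i), map_mul dat.τ]
      change _ = dat.e i 1 * (dat.t i * dat.τ (sg k i g))
      rw [sub_mul, one_mul, mul_assoc]; abel
    · intro hX g hg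
      have hg' : dat.e i (XX k A * g) = dat.e i 1 * dat.τ (sg k i (XX k A * g)) := hg
      change dat.e i g = dat.e i 1 * dat.τ (sg k i g)
      rw [h1, map_mul (sg k i), map_mul dat.τ] at hg'
      have hg'' : dat.t i * dat.e i g + dat.τ (sg k i g) =
          dat.e i 1 * (dat.t i * dat.τ (sg k i g)) := hg'
      have hu : IsUnit (dat.t i) := (hX.map (sg k i)).map dat.τ
      apply hu.mul_left_cancel
      rw [← mul_assoc (dat.t i), h3, sub_mul, one_mul, mul_assoc, ← hg'']; abel
  have : f ∈ B := by rw [hB]; trivial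
  exact this

/-- replacing the generator at the point `i` -/
def newE (dat : PData k A r n S) (i : Fin r) : Fin r → A →ₗ[k] S :=
  Function.update dat.e i
    (LinearMap.mulRight k (dat.e i 1) ∘ₗ dat.τ.toLinearMap ∘ₗ (sg k i).toLinearMap)

theorem newE_self (f : A) : newE dat i i f = dat.τ (sg k i f) * dat.e i 1 := by
  rw [newE, Function.update_self]; rfl

theorem newE_of_ne (j : Fin r) (hj : j ≠ i) (f : A) : newE dat i j f = dat.e j f := by
  rw [newE, Function.update_of_ne hj]

theorem comm_τ (i j : Fin r) (hij : i ≠ j) (f g : A) :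
    dat.e i f * dat.τ (sg k j g) = dat.τ (sg k j g) * dat.e i f := by
  have := dat.eτ i j f g
  rw [if_neg hij] at this
  exact sub_eq_zero.1 this

theorem comm_e (i j : Fin r) (hij : i ≠ j) (f g : A) :
    dat.e i f * dat.e j g = dat.e j g * dat.e i f := by
  have := dat.ee i j f g
  rw [if_neg hij] at this
  exact sub_eq_zero.1 this

theorem d_τ (f : A) : dat.e i 1 * dat.τ (sg k i f) =
    dat.τ (sg k i f) * dat.e i 1 + dat.τ (sg k i (dd k f)) := by
  have := dat.eτ i i 1 f
  rw [if_pos rfl, one_mul] at this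
  rw [← this]; abel

theorem τ_comm (a b : TA k A (Fin r)) : dat.τ a * dat.τ b = dat.τ b * dat.τ a := by
  rw [← map_mul, mul_comm, map_mul]

/-- the new data of multiplicity one at the point `i` -/
def newD : PData k A r (Function.update n i 1) S where
  τ := dat.τ
  e := newE dat i
  eτ j l f g := by
    by_cases hj : j = i
    · subst hj
      rw [newE_self]
      by_cases hl : j = l
      · subst hl
        rw [if_pos rfl, mul_assoc, d_τ, map_mul (sg k j), map_mul dat.τ, mul_add,
          ← mul_assoc (dat.τ (sg k j g)), τ_comm dat (sg k j g), mul_assoc]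
        abel
      · rw [if_neg hl, mul_assoc, comm_τ dat j l hl, ← mul_assoc, τ_comm dat (sg k j f), mul_assoc,
          sub_self]
    · rw [newE_of_ne dat i j hj]
      exact dat.eτ j l f g
  ee j l f g := by
    by_cases hj : j = i
    · subst hj
      rw [newE_self]
      by_cases hl : j = l
      · subst hl
        rw [if_pos rfl, newE_self, newE_self, wbr, map_sub (sg k j), map_mul (sg k j),
          map_mul (sg k j), map_sub dat.τ, map_mul dat.τ, map_mul dat.τ]
        have e1 : dat.τ (sg k j f) * dat.e j 1 * (dat.τ (sg k j g) * dat.e j 1) =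
            dat.τ (sg k j f) * dat.τ (sg k j g) * dat.e j 1 * dat.e j 1 +
            dat.τ (sg k j f) * dat.τ (sg k j (dd k g)) * dat.e j 1 := by
          rw [mul_assoc, ← mul_assoc (dat.e j 1), d_τ]
          simp only [mul_add, add_mul, mul_assoc]
        have e2 : dat.τ (sg k j g) * dat.e j 1 * (dat.τ (sg k j f) * dat.e j 1) =
            dat.τ (sg k j g) * dat.τ (sg k j f) * dat.e j 1 * dat.e j 1 +
            dat.τ (sg k j g) * dat.τ (sg k j (dd k f)) * dat.e j 1 := by
          rw [mul_assoc, ← mul_assoc (dat.e j 1), d_τ]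
          simp only [mul_add, add_mul, mul_assoc]
        rw [e1, e2, τ_comm dat (sg k j g) (sg k j f), sub_mul]
        abel
      · rw [if_neg hl, newE_of_ne dat j l (fun h => hl h.symm), mul_assoc, comm_e dat j l hl,
          ← mul_assoc, ← comm_τ dat l j (fun h => hl h.symm), mul_assoc, sub_self]
    · rw [newE_of_ne dat i j hj]
      by_cases hl : l = i
      · subst hl
        rw [if_neg hj, newE_self, ← mul_assoc, comm_τ dat j l hj, mul_assoc, comm_e dat j l hj,
          ← mul_assoc, sub_self]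
      · rw [newE_of_ne dat i l hl, newE_of_ne dat i j hj]
        exact dat.ee j l f g
  ord j := by
    by_cases hj : j = i
    · subst hj
      rw [Function.update_self, Function.iterate_one]
      ext f
      rw [sh_apply, newE_self, newE_self, map_mul (sg k j), map_mul dat.τ, mul_assoc, sub_self]
      rfl
    · rw [Function.update_of_ne hj]
      have : newE dat i j = dat.e j := by ext f; rw [newE_of_ne dat i j hj]
      rw [this]
      exact dat.ord j

theorem tot_d (hn : n i = 2) (hE : dat.V i 1 1 = 1) (f : A) : dat.tot f * dat.e i 1 = dat.e i 1 * (newD dat i).tot f := by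
  rw [PData.tot_apply, PData.tot_apply, Finset.sum_mul, Finset.mul_sum]
  refine Finset.sum_congr rfl fun j _ => ?_
  change dat.e j f * dat.e i 1 = dat.e i 1 * newE dat i j f
  by_cases hj : j = i
  · subst hj
    rw [newE_self, e_eq dat j hn hE f, mul_assoc]
  · rw [newE_of_ne dat i j hj, comm_e dat j i hj]

theorem hom_d (hn : n i = 2) (hE : dat.V i 1 1 = 1) (u : UW k A) : dat.hom u * dat.e i 1 = dat.e i 1 * (newD dat i).hom u := by
  induction u using UW_induction with
  | h1 => rw [map_one dat.hom, map_one (newD dat i).hom, one_mul, mul_one]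
  | hadd x y hx hy => rw [map_add, map_add, add_mul, mul_add, hx, hy]
  | hsmul c x hx => rw [map_smul, map_smul, smul_mul_assoc, mul_smul_comm, hx]
  | hmul f x hx =>
    rw [map_mul, map_mul, mul_assoc, hx, ← mul_assoc, ← mul_assoc]
    congr 1
    have h1 : dat.hom (eU f) = dat.tot f := by rw [PData.hom, liftE_eU]
    have h2 : (newD dat i).hom (eU f) = (newD dat i).tot f := by rw [PData.hom, liftE_eU]
    rw [h1, h2]
    exact tot_d dat i hn hE f

end two

/-- the property minimized -/
def Good (k A : Type u) [Field k] [CommRing A] [Algebra k A] [WAlg k A]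
    (P : TwoSidedIdeal (UW k A)) (r : ℕ) (n : Fin r → ℕ) : Prop :=
  (∀ i, 1 ≤ n i) ∧ ∃ (S : Type u) (_ : Ring S) (_ : Algebra k S)
    (dat : PData k A r n S), dat.Inv ∧ KerLe dat.hom.toRingHom P

theorem sum_update_lt (n : Fin r → ℕ) (i : Fin r) (m : ℕ) (hm : m < n i) :
    ∑ j, Function.update n i m j < ∑ j, n j := by
  apply Finset.sum_lt_sum
  · intro j _
    by_cases hj : j = i
    · subst hj; rw [Function.update_self]; exact hm.le
    · rw [Function.update_of_ne hj]
  · exact ⟨i, Finset.mem_univ _, by rw [Function.update_self]; exact hm⟩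

theorem one_le_update (n : Fin r → ℕ) (hn : ∀ i, 1 ≤ n i) (i : Fin r) (m : ℕ) (hm : 1 ≤ m)
    (j : Fin r) : 1 ≤ Function.update n i m j := by
  by_cases hj : j = i
  · subst hj; rw [Function.update_self]; exact hm
  · rw [Function.update_of_ne hj]; exact hn j

theorem ci_ne (k A : Type u) [Field k] [CharZero k] [CommRing A] [Algebra k A] [WAlg k A]
    (P : TwoSidedIdeal (UW k A)) (r : ℕ) (n : Fin r → ℕ) (hn : ∀ i, 1 ≤ n i)
    (hmin : ∀ n', Good k A P r n' → ¬ (∑ j, n' j < ∑ j, n j))
    (S : Type u) [Ring S] [Algebra k S] (dat : PData k A r n S) (hinv : dat.Inv)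
    (hker : KerLe dat.hom.toRingHom P) [Nontrivial S] [NoZeroDivisors S] (i : Fin r) :
    dat.ci i ≠ 0 := by
  haveI : CharZero S := charZero_of_injective_algebraMap (algebraMap k S).injective
  -- lowering is impossible
  have hlow : ∀ m, 1 ≤ m → n i = m + 1 → dat.V i m 1 ≠ 0 := by
    intro m hm1 hm h0
    have hz : (sh (dat.t i))^[m] (dat.e i) = 0 := by
      ext f
      have := V_last dat i m hm f
      rw [h0, mul_zero] at this
      exact this
    refine hmin (Function.update n i m) ⟨one_le_update n hn i m hm1, S, inferInstance,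
      inferInstance, lower dat i m hz, hinv, hker⟩ (sum_update_lt n i m (by omega))
  rw [PData.ci]
  split_ifs with h1 h2
  · rw [Ne, neg_eq_zero]
    exact e_one_ne_zero dat i
  · have hV := hlow 1 le_rfl h2
    have hV1 : dat.V i 1 1 ≠ 1 := by
      intro hE
      refine hmin (Function.update n i 1) ⟨one_le_update n hn i 1 le_rfl, S, inferInstance,
        inferInstance, newD dat i, hinv, ?_⟩ (sum_update_lt n i 1 (by omega))
      intro u hu
      apply hker u
      have h := hom_d dat i h2 hE u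
      have hu' : (newD dat i).hom u = 0 := hu
      rw [hu', mul_zero] at h
      rcases mul_eq_zero.1 h with h | h
      · exact h
      · exact absurd h (e_one_ne_zero dat i)
    refine mul_ne_zero (mul_ne_zero two_ne_zero hV) ?_
    exact sub_ne_zero.2 (fun h => hV1 h.symm)
  · have hni := hn i
    obtain ⟨m, hm⟩ : ∃ m, n i = m + 1 := ⟨n i - 1, by omega⟩
    have hV := hlow m (by omega) hm
    have hm' : n i - 1 = m := by omega
    rw [hm', zsmul_eq_mul]
    refine mul_ne_zero ?_ (pow_ne_zero 2 hV)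
    rw [Int.cast_ne_zero]
    refine mul_ne_zero (pow_ne_zero _ (by norm_num)) ?_
    rw [Nat.cast_ne_zero]
    exact (Nat.choose_pos (by omega)).ne'

end Fine

theorem specFine.{u} : SpecFine.{u} := by
  intro k A _ _ _ _ _ P r n₀ hn₀ hS
  obtain ⟨n, hn, hmin⟩ := WellFounded.has_min (measure (fun n : Fin r → ℕ => ∑ j, n j)).wf
    {n | Fine.Good k A P r n} ⟨n₀, hn₀, hS⟩
  refine ⟨n, hn.1, hn.2, ?_⟩
  intro S _ _ dat hinv hker _ _ i
  exact Fine.ci_ne k A P r n hn.1 (fun n' hn' h => hmin n' hn' h) S dat hinv hker i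

end MPcc24
end
end

section
set_option linter.all false

/-!
# Localisation, part A: killed maps, primary decomposition, brackets
-/

noncomputable section

open scoped TensorProduct BigOperators

namespace MPcc24

namespace LocD

universe u

section Kil

variable {k A : Type u} [Field k] [CommRing A] [Algebra k A] [WAlg k A]
variable {S : Type*} [Ring S] [Algebra k S]

/-- `Θ` is killed by a power of the shift -/
def Kil (t : S) (Θ : A →ₗ[k] S) : Prop := ∃ N : ℕ, (sh t)^[N] Θ = 0

theorem sh_add (t : S) (Θ Θ' : A →ₗ[k] S) : sh t (Θ + Θ') = sh t Θ + sh t Θ' := by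
  ext f; simp only [sh_apply, LinearMap.add_apply, mul_add]; abel

theorem sh_zero (t : S) : sh t (0 : A →ₗ[k] S) = 0 := by
  ext f; simp only [sh_apply, LinearMap.zero_apply, mul_zero, sub_zero]

theorem sh_neg (t : S) (Θ : A →ₗ[k] S) : sh t (-Θ) = -sh t Θ := by
  ext f; simp only [sh_apply, LinearMap.neg_apply, mul_neg]; abel

theorem sh_sub (t : S) (Θ Θ' : A →ₗ[k] S) : sh t (Θ - Θ') = sh t Θ - sh t Θ' := by
  rw [sub_eq_add_neg, sh_add, sh_neg, ← sub_eq_add_neg]

theorem sh_comm {t t' : S} (h : t * t' = t' * t) (Θ : A →ₗ[k] S) :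
    sh t (sh t' Θ) = sh t' (sh t Θ) := by
  ext f
  simp only [sh_apply, mul_sub]
  rw [← mul_assoc t, ← mul_assoc t', h]
  abel

theorem shi_comm {t t' : S} (h : t * t' = t' * t) (N : ℕ) (Θ : A →ₗ[k] S) :
    (sh t)^[N] (sh t' Θ) = sh t' ((sh t)^[N] Θ) := by
  induction N generalizing Θ with
  | zero => rfl
  | succ n ih => rw [Function.iterate_succ_apply, sh_comm h, ih]; rfl

theorem shi_zero (t : S) (N : ℕ) : (sh t)^[N] (0 : A →ₗ[k] S) = 0 := by
  induction N with
  | zero => rfl
  | succ n ih => rw [Function.iterate_succ_apply, sh_zero, ih]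

theorem shi_add (t : S) (N : ℕ) (Θ Θ' : A →ₗ[k] S) :
    (sh t)^[N] (Θ + Θ') = (sh t)^[N] Θ + (sh t)^[N] Θ' := by
  induction N generalizing Θ Θ' with
  | zero => rfl
  | succ n ih => rw [Function.iterate_succ_apply, sh_add, ih]; rfl

theorem shi_neg (t : S) (N : ℕ) (Θ : A →ₗ[k] S) :
    (sh t)^[N] (-Θ) = -(sh t)^[N] Θ := by
  induction N generalizing Θ with
  | zero => rfl
  | succ n ih => rw [Function.iterate_succ_apply, sh_neg, ih]; rfl

/-- the iterated shift as an additive map -/
def shA (t : S) (N : ℕ) : (A →ₗ[k] S) →+ (A →ₗ[k] S) where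
  toFun := (sh t)^[N]
  map_zero' := shi_zero t N
  map_add' := shi_add t N

theorem shi_sum {ι : Type*} (s : Finset ι) (t : S) (N : ℕ) (Θ : ι → A →ₗ[k] S) :
    (sh t)^[N] (∑ i ∈ s, Θ i) = ∑ i ∈ s, (sh t)^[N] (Θ i) := by
  classical
  induction s using Finset.induction_on with
  | empty => simp [shi_zero]
  | insert a s ha ih => rw [Finset.sum_insert ha, Finset.sum_insert ha, shi_add, ih]

theorem shi_le (t : S) {N M : ℕ} (h : N ≤ M) {Θ : A →ₗ[k] S} (h0 : (sh t)^[N] Θ = 0) :
    (sh t)^[M] Θ = 0 := by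
  obtain ⟨m, rfl⟩ := Nat.exists_eq_add_of_le h
  rw [Nat.add_comm, Function.iterate_add_apply, h0, shi_zero]

theorem Kil.zero (t : S) : Kil t (0 : A →ₗ[k] S) := ⟨0, rfl⟩

theorem Kil.add {t : S} {Θ Θ' : A →ₗ[k] S} (h : Kil t Θ) (h' : Kil t Θ') : Kil t (Θ + Θ') := by
  obtain ⟨N, hN⟩ := h
  obtain ⟨M, hM⟩ := h'
  refine ⟨max N M, ?_⟩
  rw [shi_add, shi_le t (le_max_left _ _) hN, shi_le t (le_max_right _ _) hM, add_zero]

theorem Kil.neg {t : S} {Θ : A →ₗ[k] S} (h : Kil t Θ) : Kil t (-Θ) := by
  obtain ⟨N, hN⟩ := h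
  exact ⟨N, by rw [shi_neg, hN, neg_zero]⟩

theorem Kil.sub {t : S} {Θ Θ' : A →ₗ[k] S} (h : Kil t Θ) (h' : Kil t Θ') : Kil t (Θ - Θ') := by
  rw [sub_eq_add_neg]; exact h.add h'.neg

theorem Kil.of_sh {t : S} {Θ : A →ₗ[k] S} (h : Kil t (sh t Θ)) : Kil t Θ := by
  obtain ⟨N, hN⟩ := h
  exact ⟨N + 1, by rw [Function.iterate_succ_apply, hN]⟩

/-- an operator commuting with the shift preserves killed maps -/
theorem Kil.map {t : S} {Θ : A →ₗ[k] S} (h : Kil t Θ) (T : (A →ₗ[k] S) →+ (A →ₗ[k] S))
    (hT : ∀ Ξ, T (sh t Ξ) = sh t (T Ξ)) : Kil t (T Θ) := by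
  obtain ⟨N, hN⟩ := h
  refine ⟨N, ?_⟩
  have key : ∀ (N : ℕ) (Ξ : A →ₗ[k] S), (sh t)^[N] (T Ξ) = T ((sh t)^[N] Ξ) := by
    intro N
    induction N with
    | zero => intro Ξ; rfl
    | succ n ih => intro Ξ; rw [Function.iterate_succ_apply, ← hT, ih]; rfl
  rw [key, hN, map_zero]

/-- induction for killed maps -/
theorem Kil.induct {t : S} {p : (A →ₗ[k] S) → Prop} (h0 : p 0)
    (hs : ∀ Θ, Kil t Θ → p (sh t Θ) → p Θ) {Θ : A →ₗ[k] S} (h : Kil t Θ) : p Θ := by
  obtain ⟨N, hN⟩ := h
  induction N generalizing Θ with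
  | zero =>
    have : Θ = 0 := hN
    rw [this]; exact h0
  | succ n ih => exact hs Θ ⟨n + 1, hN⟩ (ih (by rw [← hN]; rfl))

/-- left multiplication -/
def lm (s : S) : (A →ₗ[k] S) →+ (A →ₗ[k] S) where
  toFun Θ := LinearMap.mulLeft k s ∘ₗ Θ
  map_zero' := by ext f; simp
  map_add' x y := by ext f; simp [mul_add]

theorem lm_apply (s : S) (Θ : A →ₗ[k] S) (f : A) : lm s Θ f = s * Θ f := rfl

theorem Kil.lmul {t s : S} (h : t * s = s * t) {Θ : A →ₗ[k] S} (hk : Kil t Θ) :
    Kil t (lm s Θ) := by
  refine hk.map (lm s) ?_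
  intro Ξ
  ext f
  simp only [sh_apply, lm_apply, mul_sub]
  rw [← mul_assoc s t, ← h, mul_assoc]

/-- precomposition with a multiplication -/
def pm (g : A) : (A →ₗ[k] S) →+ (A →ₗ[k] S) where
  toFun Θ := Θ ∘ₗ LinearMap.mulRight k g
  map_zero' := by ext f; simp
  map_add' x y := by ext f; simp

theorem pm_apply (g : A) (Θ : A →ₗ[k] S) (f : A) : pm g Θ f = Θ (f * g) := rfl

theorem Kil.pmul {t : S} (g : A) {Θ : A →ₗ[k] S} (hk : Kil t Θ) : Kil t (pm g Θ) := by
  refine hk.map (pm g) ?_
  intro Ξ
  ext f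
  simp only [sh_apply, pm_apply, mul_assoc]

/-- commutator with an element -/
def am (c : S) : (A →ₗ[k] S) →+ (A →ₗ[k] S) where
  toFun Θ := LinearMap.mulRight k c ∘ₗ Θ - LinearMap.mulLeft k c ∘ₗ Θ
  map_zero' := by ext f; simp
  map_add' x y := by ext f; simp [mul_add, add_mul]; abel

theorem am_apply (c : S) (Θ : A →ₗ[k] S) (f : A) : am c Θ f = Θ f * c - c * Θ f := rfl

theorem Kil.ad {t c d : S} (hd : c * t - t * c = d) (htd : t * d = d * t) {Θ : A →ₗ[k] S}
    (hk : Kil t Θ) : Kil t (am c Θ) := by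
  refine hk.induct (p := fun Θ => Kil t (am c Θ)) ?_ ?_
  · rw [map_zero]; exact Kil.zero t
  · intro Θ hΘ ih
    apply Kil.of_sh
    have : sh t (am c Θ) = am c (sh t Θ) - lm d Θ := by
      ext f
      simp only [sh_apply, am_apply, lm_apply, LinearMap.sub_apply, ← hd]
      noncomm_ring
    rw [this]
    exact ih.sub (hΘ.lmul htd)

/-- Witt bracket with a function -/
def wm (g : A) : (A →ₗ[k] S) →+ (A →ₗ[k] S) where
  toFun Θ := Θ ∘ₗ (LinearMap.mulRight k (dd k g) -
    LinearMap.mulLeft k g ∘ₗ (dd k : Derivation k A A).toLinearMap)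
  map_zero' := by ext f; simp
  map_add' x y := by ext f; simp

theorem wm_apply (g : A) (Θ : A →ₗ[k] S) (f : A) : wm g Θ f = Θ (wbr k f g) := rfl

theorem Kil.wit {t : S} (g : A) {Θ : A →ₗ[k] S} (hk : Kil t Θ) : Kil t (wm g Θ) := by
  refine hk.induct (p := fun Θ => Kil t (wm g Θ)) ?_ ?_
  · rw [map_zero]; exact Kil.zero t
  · intro Θ hΘ ih
    apply Kil.of_sh
    have : sh t (wm g Θ) = wm g (sh t Θ) - pm g Θ := by
      ext f
      simp only [sh_apply, wm_apply, pm_apply, LinearMap.sub_apply]
      have : wbr k (XX k A * f) g = XX k A * wbr k f g - f * g := by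
        simp only [wbr, Derivation.leibniz, smul_eq_mul, XX, dd, WAlg.DX]
        ring
      rw [this, map_sub]
      abel
    rw [this]
    exact ih.sub (hΘ.pmul g)

/-- a map killed at two points is zero -/
theorem Kil.two {t t' : S} (hc : t * t' = t' * t) (hu : IsUnit (t - t')) {Θ : A →ₗ[k] S}
    (h : Kil t Θ) (h' : Kil t' Θ) : Θ = 0 := by
  revert h'
  refine h.induct (p := fun Θ => Kil t' Θ → Θ = 0) (fun _ => rfl) ?_
  intro Θ hΘ ih h'
  have hcomm : ∀ Ξ : A →ₗ[k] S, sh t (sh t' Ξ) = sh t' (sh t Ξ) := sh_comm hc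
  have h1 : sh t Θ = 0 := by
    apply ih
    exact h'.map { toFun := sh t, map_zero' := sh_zero t, map_add' := sh_add t } hcomm
  have h2 : sh t' Θ = lm (t - t') Θ := by
    ext f
    have := LinearMap.congr_fun h1 f
    simp only [sh_apply, LinearMap.zero_apply] at this
    simp only [sh_apply, lm_apply, sub_mul]
    rw [sub_eq_zero.1 this]
  obtain ⟨M, hM⟩ := h'
  have hcc : t' * (t - t') = (t - t') * t' := by rw [mul_sub, sub_mul, hc]
  have h3 : ∀ M : ℕ, ∀ Ξ : A →ₗ[k] S, sh t' Ξ = lm (t - t') Ξ →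
      (sh t')^[M] Ξ = lm ((t - t') ^ M) Ξ := by
    intro M
    induction M with
    | zero => intro Ξ _; ext f; simp [lm_apply]
    | succ n ih =>
      intro Ξ hΞ
      have e1 : sh t' (lm (t - t') Ξ) = lm (t - t') (lm (t - t') Ξ) := by
        ext f
        have := LinearMap.congr_fun hΞ f
        simp only [sh_apply, lm_apply] at this
        simp only [sh_apply, lm_apply]
        have e3 : t' * ((t - t') * Ξ f) = (t - t') * (t' * Ξ f) := by
          rw [← mul_assoc, hcc, mul_assoc]
        rw [e3, ← mul_sub, this]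
      rw [Function.iterate_succ_apply, hΞ, ih _ e1]
      ext f
      simp only [lm_apply, pow_succ, mul_assoc]
  have h4 := h3 M Θ h2
  rw [hM] at h4
  ext f
  have := LinearMap.congr_fun h4 f
  simp only [LinearMap.zero_apply, lm_apply] at this
  have hu' := hu.pow M
  exact (hu'.mul_right_eq_zero.1 this.symm)

/-- uniqueness of the primary decomposition -/
theorem Kil.uniq {ι : Type*} (s : Finset ι) (t : ι → S) (hc : ∀ i j, t i * t j = t j * t i)
    (hu : ∀ i j, i ≠ j → IsUnit (t i - t j)) (Θ : ι → A →ₗ[k] S)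
    (hk : ∀ i, Kil (t i) (Θ i)) (h0 : ∑ i ∈ s, Θ i = 0) : ∀ i ∈ s, Θ i = 0 := by
  classical
  induction s using Finset.induction_on generalizing Θ with
  | empty => intro i hi; simp at hi
  | insert a s ha ih =>
    obtain ⟨N, hN⟩ := hk a
    rw [Finset.sum_insert ha] at h0
    have h1 : ∑ i ∈ s, (sh (t a))^[N] (Θ i) = 0 := by
      have := congrArg ((sh (t a))^[N]) h0
      rw [shi_add, hN, zero_add, shi_zero, shi_sum] at this
      exact this
    have h2 := ih (fun i => (sh (t a))^[N] (Θ i)) (fun i =>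
      (hk i).map (shA (t a) N) (shi_comm (hc a i) N)) h1
    have h3 : ∀ i ∈ s, Θ i = 0 := by
      intro i hi
      have hia : i ≠ a := fun h => ha (h ▸ hi)
      exact Kil.two (hc i a) (hu i a hia) (hk i) ⟨N, h2 i hi⟩
    intro i hi
    rcases Finset.mem_insert.1 hi with rfl | hi
    · rw [Finset.sum_eq_zero h3, add_zero] at h0
      exact h0
    · exact h3 i hi

end Kil

section brackets

variable {k A : Type u} [Field k] [CommRing A] [Algebra k A] [WAlg k A]
variable {S : Type*} [Ring S] [Algebra k S]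

/-- the primary components of R-data satisfy the relations of P-data -/
theorem exists_PData_of_comp {r : ℕ} {m : Fin r → ℕ} {n : Fin r → ℕ} (dat : RData k A r m S)
    (hInv : ∀ i j : Fin r, i ≠ j → IsUnit (dat.τ (sg k i (XX k A) - sg k j (XX k A))))
    (E : Fin r → A →ₗ[k] S) (hE : ∑ i, E i = dat.e)
    (hn : ∀ i, (sh (dat.τ (sg k i (XX k A))))^[n i] (E i) = 0) :
    ∃ pd : PData k A r n S, pd.τ = dat.τ ∧ pd.tot = dat.e := by
  set t : Fin r → S := fun i => dat.τ (sg k i (XX k A)) with ht
  have hττ : ∀ a b, dat.τ a * dat.τ b = dat.τ b * dat.τ a := fun a b => by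
    rw [← map_mul, ← map_mul, mul_comm]
  have hc : ∀ i j, t i * t j = t j * t i := fun i j => hττ _ _
  have hu : ∀ i j, i ≠ j → IsUnit (t i - t j) := fun i j hij => by
    have := hInv i j hij
    rwa [map_sub] at this
  have hk : ∀ i, Kil (t i) (E i) := fun i => ⟨n i, hn i⟩
  have hEf : ∀ f, ∑ i, E i f = dat.e f := fun f => by
    rw [← hE]; simp
  -- (a)
  have ha : ∀ (i j : Fin r) (f g : A), E i f * dat.τ (sg k j g) - dat.τ (sg k j g) * E i f =
      if i = j then dat.τ (sg k i (f * dd k g)) else 0 := by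
    intro i j f g
    let Ψ : Fin r → A →ₗ[k] S := fun i => am (dat.τ (sg k j g)) (E i) -
      (if i = j then (dat.τ.toLinearMap ∘ₗ (sg k i).toLinearMap ∘ₗ LinearMap.mulRight k (dd k g))
        else 0)
    have hΨ : ∀ i ∈ (Finset.univ : Finset (Fin r)), Ψ i = 0 := by
      refine Kil.uniq Finset.univ t hc hu Ψ ?_ ?_
      · intro i
        refine Kil.sub (Kil.ad (d := 0) ?_ (by simp) (hk i)) ?_
        · rw [hττ, sub_self]
        · split_ifs with hij
          · refine ⟨1, ?_⟩
            ext f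
            simp only [Function.iterate_one, sh_apply, LinearMap.comp_apply,
              LinearMap.mulRight_apply, AlgHom.toLinearMap_apply, LinearMap.zero_apply, ht]
            rw [← map_mul, ← map_mul, mul_assoc, sub_self]
          · exact Kil.zero _
      · ext f
        simp only [Ψ, LinearMap.sum_apply, LinearMap.sub_apply, am_apply, LinearMap.zero_apply,
          Finset.sum_sub_distrib, ← Finset.sum_mul, ← Finset.mul_sum, hEf]
        rw [dat.eτ, Dv_sg, Finset.sum_eq_single j]
        · simp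
        · intro b _ hb; rw [if_neg hb]; rfl
        · simp
    have := LinearMap.congr_fun (hΨ i (Finset.mem_univ i)) f
    simp only [Ψ, LinearMap.sub_apply, am_apply, LinearMap.zero_apply] at this
    rw [sub_eq_zero.1 this]
    split_ifs <;> rfl
  -- (b), first step
  have hb1 : ∀ (i : Fin r) (f g : A), E i f * dat.e g - dat.e g * E i f = E i (wbr k f g) := by
    intro i f g
    let Ψ : Fin r → A →ₗ[k] S := fun i => am (dat.e g) (E i) - wm g (E i)
    have hΨ : ∀ i ∈ (Finset.univ : Finset (Fin r)), Ψ i = 0 := by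
      refine Kil.uniq Finset.univ t hc hu Ψ ?_ ?_
      · intro i
        refine Kil.sub (Kil.ad (d := dat.τ (sg k i g)) ?_ (hττ _ _) (hk i)) ((hk i).wit g)
        rw [dat.eτ, Dv_sg]
        simp [dd, XX, WAlg.DX]
      · ext f
        simp only [Ψ, LinearMap.sum_apply, LinearMap.sub_apply, am_apply, wm_apply,
          LinearMap.zero_apply, Finset.sum_sub_distrib, ← Finset.sum_mul, ← Finset.mul_sum, hEf]
        rw [dat.isE, sub_self]
    have := LinearMap.congr_fun (hΨ i (Finset.mem_univ i)) f
    simp only [Ψ, LinearMap.sub_apply, am_apply, wm_apply, LinearMap.zero_apply] at this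
    exact sub_eq_zero.1 this
  -- (b), second step
  have hb2 : ∀ (i j : Fin r) (f g : A), E i f * E j g - E j g * E i f =
      if i = j then E i (wbr k f g) else 0 := by
    intro i j f g
    let Ψ : Fin r → A →ₗ[k] S := fun j => am (E i f) (E j) -
      (if i = j then wm f (E i) else 0)
    have hΨ : ∀ j ∈ (Finset.univ : Finset (Fin r)), Ψ j = 0 := by
      refine Kil.uniq Finset.univ t hc hu Ψ ?_ ?_
      · intro j
        refine Kil.sub (Kil.ad (d := if i = j then dat.τ (sg k i f) else 0) ?_ ?_ (hk j)) ?_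
        · rw [ha]
          simp [dd, XX, WAlg.DX]
        · split_ifs
          · exact hττ _ _
          · simp
        · split_ifs with hij
          · subst hij; exact (hk i).wit f
          · exact Kil.zero _
      · ext g
        simp only [Ψ, LinearMap.sum_apply, LinearMap.sub_apply, am_apply,
          LinearMap.zero_apply, Finset.sum_sub_distrib, ← Finset.sum_mul, ← Finset.mul_sum, hEf]
        rw [Finset.sum_eq_single i]
        · rw [if_pos rfl, wm_apply]
          have e1 := hb1 i f g
          have e2 : wbr k g f = -wbr k f g := by simp only [wbr]; ring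
          rw [e2, map_neg, ← e1]
          abel
        · intro b _ hb; rw [if_neg (fun h => hb h.symm)]; rfl
        · simp
    have := LinearMap.congr_fun (hΨ j (Finset.mem_univ j)) g
    simp only [Ψ, LinearMap.sub_apply, am_apply, LinearMap.zero_apply] at this
    have h2 := sub_eq_zero.1 this
    rw [← neg_inj, neg_sub, h2]
    split_ifs with hij
    · rw [wm_apply]
      have e2 : wbr k g f = -wbr k f g := by simp only [wbr]; ring
      rw [e2, map_neg]
    · simp
  refine ⟨{ τ := dat.τ, e := E, eτ := ha, ee := hb2, ord := hn }, rfl, ?_⟩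
  rw [← hE]; rfl

end brackets

end LocD

end MPcc24
end
end

section
set_option linter.all false

/-!
# Localisation, part B: existence of the primary decomposition
-/

noncomputable section

open scoped TensorProduct BigOperators

namespace MPcc24

namespace LocD

universe u

section comb

variable {k A : Type u} [Field k] [CommRing A] [Algebra k A] [WAlg k A]

theorem dif_sub {r : ℕ} (i j : Fin r) :
    dif k A i - dif k A j = (sg k j (XX k A) - sg k i (XX k A)) ⊗ₜ[k] (1 : A) := by
  rw [dif, dif, TensorProduct.sub_tmul]; abel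

theorem dvd_aux {C : Type*} [CommRing C] {r : ℕ} (x : Fin r → C) {i j : Fin r} (hij : i ≠ j) :
    (x i - x j) ∣ ∏ p ∈ (Finset.univ : Finset (Fin r)).offDiag, (x p.1 - x p.2) := by
  have h : (i, j) ∈ (Finset.univ : Finset (Fin r)).offDiag := by simp [hij]
  exact Finset.dvd_prod_of_mem (fun p : Fin r × Fin r => (x p.1 - x p.2)) h

theorem dvd_Dis {r : ℕ} {i j : Fin r} (hij : i ≠ j) :
    ∃ c, Dis k A (Fin r) = (sg k i (XX k A) - sg k j (XX k A)) * c := by
  rw [Dis]
  exact dvd_aux (C := TA k A (Fin r)) (fun i => sg k i (XX k A)) hij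

theorem comb_aux {C : Type u} [CommRing C] (L : Type u) [CommRing L] [Algebra C L]
    (D : C) [IsLocalization.Away D L] {r : ℕ} (d : Fin r → C) (n : ℕ) (hr : 0 < r)
    (hd : ∀ i j, i ≠ j → ∃ c, D = (d i - d j) * c) :
    ∃ (M : ℕ) (m : Fin r → C), D ^ M = ∑ i, m i * ∏ j ∈ Finset.univ \ {i}, d j ^ n := by
  classical
  have hu : IsUnit (algebraMap C L D) := IsLocalization.Away.algebraMap_isUnit D
  have hcop : Pairwise (Function.onFun IsCoprime
      fun i : (Finset.univ : Finset (Fin r)) => (algebraMap C L (d (i : Fin r) ^ n))) := by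
    intro i j hij
    have hij' : (i : Fin r) ≠ j := fun h => hij (Subtype.ext h)
    simp only [Function.onFun, map_pow]
    apply IsCoprime.pow
    obtain ⟨c, hc⟩ := hd _ _ hij'
    have hu2 : IsUnit (algebraMap C L (d (i : Fin r) - d j) * algebraMap C L c) := by
      rw [← map_mul, ← hc]; exact hu
    obtain ⟨v, hv⟩ := (isUnit_of_mul_isUnit_left hu2)
    refine ⟨↑v⁻¹, -↑v⁻¹, ?_⟩
    rw [neg_mul, ← sub_eq_add_neg, ← mul_sub, ← map_sub, ← hv]
    exact v.inv_mul
  have hne : (Finset.univ : Finset (Fin r)).Nonempty := ⟨⟨0, hr⟩, Finset.mem_univ _⟩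
  obtain ⟨μ, hμ⟩ := (exists_sum_eq_one_iff_pairwise_coprime
    (s := fun i : Fin r => algebraMap C L (d i ^ n)) hne).2 hcop
  obtain ⟨b, hb⟩ := IsLocalization.exist_integer_multiples (Submonoid.powers D)
    (Finset.univ : Finset (Fin r)) μ
  choose c hc using hb
  have h1 : algebraMap C L (b : C) =
      algebraMap C L (∑ i, c i (Finset.mem_univ i) * ∏ j ∈ Finset.univ \ {i}, d j ^ n) := by
    rw [map_sum]
    simp only [map_mul, map_prod]
    calc algebraMap C L (b : C) = algebraMap C L (b : C) * 1 := (mul_one _).symm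
      _ = _ := by
        rw [← hμ, Finset.mul_sum]
        refine Finset.sum_congr rfl fun i _ => ?_
        have := hc i (Finset.mem_univ i)
        rw [this, Algebra.smul_def]
        ring
  obtain ⟨s, hs⟩ := (IsLocalization.eq_iff_exists (Submonoid.powers D) L).1 h1
  obtain ⟨M, hM⟩ := (s * b).2
  refine ⟨M, fun i => s * c i (Finset.mem_univ i), ?_⟩
  have h2 : D ^ M = (s : C) * b := hM
  rw [h2, hs, Finset.mul_sum]
  refine Finset.sum_congr rfl fun i _ => ?_
  ring

theorem exists_comb (r n : ℕ) (hr : 0 < r) :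
    ∃ (M : ℕ) (m : Fin r → TA k A (Fin r) ⊗[k] A),
      (Dis k A (Fin r) ^ M) ⊗ₜ[k] (1 : A) =
        ∑ i, m i * ∏ j ∈ Finset.univ \ {i}, dif k A j ^ n := by
  obtain ⟨M, m, h⟩ := comb_aux (C := TA k A (Fin r) ⊗[k] A)
    (Localization.Away (Dis k A (Fin r) ⊗ₜ[k] (1 : A)))
    (Dis k A (Fin r) ⊗ₜ[k] (1 : A)) (fun i => dif k A i) n hr (by
      intro i j hij
      obtain ⟨c, hc⟩ := dvd_Dis (k := k) (A := A) hij.symm
      refine ⟨c ⊗ₜ[k] (1 : A), ?_⟩
      rw [dif_sub, Algebra.TensorProduct.tmul_mul_tmul, one_mul, ← hc])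
  refine ⟨M, m, ?_⟩
  rw [← h, Algebra.TensorProduct.tmul_pow, one_pow]

end comb

section decomp

variable {k A : Type u} [Field k] [CommRing A] [Algebra k A] [WAlg k A]
variable {S : Type*} [Ring S] [Algebra k S]

theorem Om_left {r : ℕ} (τ : TA k A (Fin r) →ₐ[k] S) (e : A →ₗ[k] S) (a : TA k A (Fin r))
    (y : TA k A (Fin r) ⊗[k] A) : Om τ e ((a ⊗ₜ[k] (1 : A)) * y) = τ a * Om τ e y := by
  induction y using TensorProduct.induction_on with
  | zero => simp
  | tmul b f => rw [Algebra.TensorProduct.tmul_mul_tmul, Om_tmul, Om_tmul, map_mul, one_mul, mul_assoc]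
  | add x y hx hy => rw [mul_add, map_add, map_add, hx, hy, mul_add]

/-- the translates of `e` by the elements of the commutative algebra -/
def Ec {r : ℕ} (τ : TA k A (Fin r) →ₐ[k] S) (e : A →ₗ[k] S) (v : S)
    (c : TA k A (Fin r) ⊗[k] A) : A →ₗ[k] S :=
  LinearMap.mulLeft k v ∘ₗ Om τ e ∘ₗ LinearMap.mulLeft k c ∘ₗ
    (TensorProduct.mk k (TA k A (Fin r)) A 1)

theorem Ec_apply {r : ℕ} (τ : TA k A (Fin r) →ₐ[k] S) (e : A →ₗ[k] S) (v : S)
    (c : TA k A (Fin r) ⊗[k] A) (f : A) :
    Ec τ e v c f = v * Om τ e (c * ((1 : TA k A (Fin r)) ⊗ₜ[k] f)) := rfl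

theorem sh_Ec {r : ℕ} (τ : TA k A (Fin r) →ₐ[k] S) (e : A →ₗ[k] S) (v : S)
    (i : Fin r) (hv : τ (sg k i (XX k A)) * v = v * τ (sg k i (XX k A)))
    (c : TA k A (Fin r) ⊗[k] A) :
    sh (τ (sg k i (XX k A))) (Ec τ e v c) = Ec τ e v (dif k A i * c) := by
  ext f
  rw [sh_apply, Ec_apply, Ec_apply, Ec_apply, ← mul_assoc, hv, mul_assoc, ← mul_sub,
    ← Om_left, ← map_sub]
  congr 2
  have h1 : (1 : TA k A (Fin r)) ⊗ₜ[k] (XX k A * f) =
      ((1 : TA k A (Fin r)) ⊗ₜ[k] XX k A) * ((1 : TA k A (Fin r)) ⊗ₜ[k] f) := by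
    rw [Algebra.TensorProduct.tmul_mul_tmul, one_mul]
  rw [h1, dif]
  ring

theorem shi_Ec {r : ℕ} (τ : TA k A (Fin r) →ₐ[k] S) (e : A →ₗ[k] S) (v : S)
    (i : Fin r) (hv : τ (sg k i (XX k A)) * v = v * τ (sg k i (XX k A))) (N : ℕ)
    (c : TA k A (Fin r) ⊗[k] A) :
    (sh (τ (sg k i (XX k A))))^[N] (Ec τ e v c) = Ec τ e v (dif k A i ^ N * c) := by
  induction N generalizing c with
  | zero => rw [pow_zero, one_mul]; rfl
  | succ n ih => rw [Function.iterate_succ_apply, sh_Ec τ e v i hv, ih, pow_succ, mul_assoc]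

/-- R-data with invertible differences of the coordinates give P-data -/
theorem exists_PData {r n : ℕ} (dat : RData k A r (fun _ => n) S)
    (hInv : ∀ i j : Fin r, i ≠ j → IsUnit (dat.τ (sg k i (XX k A) - sg k j (XX k A)))) :
    ∃ pd : PData k A r (fun _ => n) S, pd.τ = dat.τ ∧ pd.tot = dat.e := by
  classical
  rcases Nat.eq_zero_or_pos r with hr | hr
  · subst hr
    refine exists_PData_of_comp dat hInv (fun _ => 0) ?_ (fun i => i.elim0)
    rw [Finset.sum_const_zero]
    ext f
    have := dat.ord ((1 : TA k A (Fin 0)) ⊗ₜ[k] f)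
    rw [Finset.univ_eq_empty, Finset.prod_empty, one_mul, Om_tmul, map_one, one_mul] at this
    rw [this, LinearMap.zero_apply]
  · obtain ⟨M, m, hm⟩ := exists_comb (k := k) (A := A) r n hr
    have hττ : ∀ a b, dat.τ a * dat.τ b = dat.τ b * dat.τ a := fun a b => by
      rw [← map_mul, ← map_mul, mul_comm]
    have hu1 : IsUnit (dat.τ (Dis k A (Fin r))) := by
      rw [Dis]
      refine Finset.prod_induction (M := TA k A (Fin r)) _ (fun x => IsUnit (dat.τ x)) ?_ ?_ ?_
      · intro a b ha hb; rw [map_mul]; exact ha.mul hb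
      · rw [map_one]; exact isUnit_one
      · intro p hp
        exact hInv _ _ (by simpa using hp)
    have hu : IsUnit (dat.τ (Dis k A (Fin r) ^ M)) := by rw [map_pow]; exact hu1.pow M
    obtain ⟨v, hv⟩ := hu
    have hvc : ∀ a, dat.τ a * (↑v⁻¹ : S) = (↑v⁻¹ : S) * dat.τ a := by
      intro a
      rw [Units.eq_inv_mul_iff_mul_eq, ← mul_assoc, Units.mul_inv_eq_iff_eq_mul, hv]
      exact hττ _ _
    refine exists_PData_of_comp dat hInv
      (fun i => Ec dat.τ dat.e (↑v⁻¹ : S) (m i * ∏ j ∈ Finset.univ \ {i}, dif k A j ^ n)) ?_ ?_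
    · ext f
      rw [LinearMap.sum_apply]
      simp only [Ec_apply]
      rw [← Finset.mul_sum, ← map_sum, ← Finset.sum_mul, ← hm, Om_left, Om_tmul, ← hv, map_one,
        one_mul, ← mul_assoc, v.inv_mul, one_mul]
    · intro i
      rw [shi_Ec _ _ _ _ (hvc _)]
      ext f
      rw [Ec_apply]
      have h1 : dif k A i ^ n * (m i * ∏ j ∈ Finset.univ \ {i}, dif k A j ^ n) =
          (∏ j, dif k A j ^ n) * m i := by
        have : ∏ j, dif k A j ^ n = dif k A i ^ n * ∏ j ∈ Finset.univ \ {i}, dif k A j ^ n := by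
          rw [Finset.sdiff_singleton_eq_erase,
            Finset.mul_prod_erase _ (fun j => dif k A j ^ n) (Finset.mem_univ i)]
        rw [this]
        ring
      rw [h1, mul_assoc, dat.ord, mul_zero, LinearMap.zero_apply]

end decomp

end LocD

end MPcc24
end
end

section
set_option linter.all false

/-!
# Localisation: the module `SpecLoc`
-/

noncomputable section

open scoped TensorProduct BigOperators

namespace MPcc24

universe u

namespace LocD

section ore

/-- Ore localisation at a regular normal element. -/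
theorem exists_ore {k : Type u} {S : Type u} [Field k] [Ring S] [Algebra k S] (D : S)
    (h1 : ∀ x, x * D = 0 → x = 0) (h2 : ∀ x, D * x = 0 → x = 0)
    (h3 : ∀ x, ∃ y, D * x = y * D) :
    ∃ (S' : Type u) (_ : Ring S') (_ : Algebra k S') (φ : S →ₐ[k] S'),
      Function.Injective φ ∧ IsUnit (φ D) := by
  have h1n : ∀ (n : ℕ) (x : S), x * D ^ n = 0 → x = 0 := by
    intro n
    induction n with
    | zero => intro x hx; simpa using hx
    | succ n ih => intro x hx; rw [pow_succ, ← mul_assoc] at hx; exact ih x (h1 _ hx)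
  have h2n : ∀ (n : ℕ) (x : S), D ^ n * x = 0 → x = 0 := by
    intro n
    induction n with
    | zero => intro x hx; simpa using hx
    | succ n ih => intro x hx; rw [pow_succ, mul_assoc] at hx; exact h2 _ (ih _ hx)
  have h3n : ∀ (n : ℕ) (x : S), ∃ y, D ^ n * x = y * D ^ n := by
    intro n
    induction n with
    | zero => intro x; exact ⟨x, by simp⟩
    | succ n ih =>
      intro x
      obtain ⟨y, hy⟩ := h3 x
      obtain ⟨z, hz⟩ := ih y
      exact ⟨z, by rw [pow_succ, mul_assoc, hy, ← mul_assoc, hz, mul_assoc]⟩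
  have h3s : ∀ (x : S) (s : Submonoid.powers D), ∃ y, (s : S) * x = y * s := by
    rintro x ⟨_, n, rfl⟩
    exact h3n n x
  choose num hnum using h3s
  letI : OreLocalization.OreSet (Submonoid.powers D) :=
    { ore_right_cancel := by
        rintro r₁ r₂ ⟨_, n, rfl⟩ h
        refine ⟨1, ?_⟩
        have : r₁ = r₂ := by
          rw [← sub_eq_zero]
          apply h1n n
          rw [sub_mul, sub_eq_zero]
          exact h
        rw [this]
      oreNum := num
      oreDenom := fun _ s => s
      ore_eq := hnum }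
  let φ : S →ₐ[k] OreLocalization (Submonoid.powers D) S :=
    { OreLocalization.numeratorRingHom with
      commutes' := fun c => rfl }
  refine ⟨OreLocalization (Submonoid.powers D) S, inferInstance, inferInstance, φ, ?_, ?_⟩
  · apply OreLocalization.numeratorHom_inj
    rintro _ ⟨n, rfl⟩
    exact h2n n
  · exact OreLocalization.numerator_isUnit (⟨D, 1, pow_one D⟩ : Submonoid.powers D)

end ore

section zorn

variable {R S : Type u} [Ring R] [Ring S]

theorem exists_maximal (φ : R →+* S) (P : TwoSidedIdeal R) (hP : PrimeT P) (hker : KerLe φ P) :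
    ∃ I : TwoSidedIdeal S, (∀ u, φ u ∈ I → u ∈ P) ∧ (1 : S) ∉ I ∧
      ∀ x y, (∀ r, x * r * y ∈ I) → x ∈ I ∨ y ∈ I := by
  obtain ⟨I, -, hI⟩ := zorn_le_nonempty₀ {I : TwoSidedIdeal S | ∀ u, φ u ∈ I → u ∈ P} (by
    intro c hc hchain y hy
    refine ⟨TwoSidedIdeal.mk' {x | ∃ I ∈ c, x ∈ I} ⟨y, hy, y.zero_mem⟩ ?_ ?_ ?_ ?_, ?_, ?_⟩
    · rintro a b ⟨I, hI, ha⟩ ⟨J, hJ, hb⟩
      rcases hchain.total hI hJ with h | h
      · exact ⟨J, hJ, J.add_mem (h ha) hb⟩
      · exact ⟨I, hI, I.add_mem ha (h hb)⟩
    · rintro a ⟨I, hI, ha⟩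
      exact ⟨I, hI, I.neg_mem ha⟩
    · rintro a b ⟨I, hI, ha⟩
      exact ⟨I, hI, I.mul_mem_left _ _ ha⟩
    · rintro a b ⟨I, hI, ha⟩
      exact ⟨I, hI, I.mul_mem_right _ _ ha⟩
    · intro u hu
      rw [TwoSidedIdeal.mem_mk'] at hu
      obtain ⟨I, hI, hu⟩ := hu
      exact hc hI u hu
    · intro z hz x hx
      rw [TwoSidedIdeal.mem_mk']
      exact ⟨z, hz, hx⟩) ⊥ (by
    intro u hu
    exact hker u (by simpa using hu))
  have hI1 : ∀ u, φ u ∈ I → u ∈ P := hI.1
  refine ⟨I, hI1, ?_, ?_⟩
  · intro h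
    exact hP.1 (hI1 1 (by rw [map_one]; exact h))
  · intro x y hxy
    by_contra hcon
    push Not at hcon
    obtain ⟨hx, hy⟩ := hcon
    -- first ideal
    let J : TwoSidedIdeal S := TwoSidedIdeal.mk' {z | ∀ r, z * r * y ∈ I}
      (by intro r; simp [I.zero_mem])
      (by intro a b ha hb r; rw [add_mul, add_mul]; exact I.add_mem (ha r) (hb r))
      (by intro a ha r; rw [neg_mul, neg_mul]; exact I.neg_mem (ha r))
      (by intro a b hb r; rw [mul_assoc a b, mul_assoc a]; exact I.mul_mem_left _ _ (hb r))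
      (by intro a b ha r; rw [mul_assoc a b]; exact ha (b * r))
    have hJI : I ≤ J := by
      intro z hz
      rw [TwoSidedIdeal.mem_mk']
      intro r
      exact I.mul_mem_right _ _ (I.mul_mem_right _ _ hz)
    have hxJ : x ∈ J := by
      rw [TwoSidedIdeal.mem_mk']; exact hxy
    have hJ : ∃ u, u ∉ P ∧ φ u ∈ J := by
      by_contra hc
      push Not at hc
      have : J ∈ {I : TwoSidedIdeal S | ∀ u, φ u ∈ I → u ∈ P} := by
        intro u hu
        by_contra hup
        exact hc u hup hu
      exact hx (hI.2 this hJI hxJ)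
    obtain ⟨u, huP, huJ⟩ := hJ
    rw [TwoSidedIdeal.mem_mk'] at huJ
    let J' : TwoSidedIdeal S := TwoSidedIdeal.mk' {z | ∀ r, φ u * r * z ∈ I}
      (by intro r; simp [I.zero_mem])
      (by intro a b ha hb r; rw [mul_add]; exact I.add_mem (ha r) (hb r))
      (by intro a ha r; rw [mul_neg]; exact I.neg_mem (ha r))
      (by intro a b hb r; rw [← mul_assoc, mul_assoc (φ u)]; exact hb (r * a))
      (by intro a b ha r; rw [← mul_assoc]; exact I.mul_mem_right _ _ (ha r))
    have hJI' : I ≤ J' := by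
      intro z hz
      rw [TwoSidedIdeal.mem_mk']
      intro r
      exact I.mul_mem_left _ _ hz
    have hyJ : y ∈ J' := by
      rw [TwoSidedIdeal.mem_mk']; exact huJ
    have hJ' : ∃ v, v ∉ P ∧ φ v ∈ J' := by
      by_contra hc
      push Not at hc
      have : J' ∈ {I : TwoSidedIdeal S | ∀ u, φ u ∈ I → u ∈ P} := by
        intro u hu
        by_contra hup
        exact hc u hup hu
      exact hy (hI.2 this hJI' hyJ)
    obtain ⟨v, hvP, hvJ⟩ := hJ'
    rw [TwoSidedIdeal.mem_mk'] at hvJ
    rcases hP.2 u v (fun w => hI1 _ (by rw [map_mul, map_mul]; exact hvJ (φ w))) with h | h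
    · exact huP h
    · exact hvP h

end zorn

section rdata

variable {k A : Type u} [Field k] [CommRing A] [Algebra k A] [WAlg k A]
variable {S S' : Type u} [Ring S] [Algebra k S] [Ring S'] [Algebra k S']

theorem Om_map {r : ℕ} (τ : TA k A (Fin r) →ₐ[k] S) (e : A →ₗ[k] S) (φ : S →ₐ[k] S')
    (y : TA k A (Fin r) ⊗[k] A) :
    Om (φ.comp τ) (φ.toLinearMap ∘ₗ e) y = φ (Om τ e y) := by
  induction y using TensorProduct.induction_on with
  | zero => simp
  | tmul b f => simp [Om_tmul]
  | add x y hx hy => rw [map_add, map_add, map_add, hx, hy]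

/-- push forward of R-data -/
def rmap {r : ℕ} {n : Fin r → ℕ} (dat : RData k A r n S) (φ : S →ₐ[k] S') :
    RData k A r n S' where
  τ := φ.comp dat.τ
  e := φ.toLinearMap ∘ₗ dat.e
  isE := by
    intro f g
    simp only [LinearMap.comp_apply, AlgHom.toLinearMap_apply]
    rw [← map_mul φ, ← map_mul φ, ← map_sub φ, dat.isE]
  eτ := by
    intro f a
    simp only [LinearMap.comp_apply, AlgHom.toLinearMap_apply, AlgHom.comp_apply]
    rw [← map_mul φ, ← map_mul φ, ← map_sub φ, dat.eτ]
  ord := by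
    intro H
    rw [Om_map, dat.ord, map_zero]

theorem rmap_hom {r : ℕ} {n : Fin r → ℕ} (dat : RData k A r n S) (φ : S →ₐ[k] S') (u : UW k A) :
    (rmap dat φ).hom u = φ (dat.hom u) := by
  have : (rmap dat φ).hom = φ.comp dat.hom := by
    apply UW_hom_ext
    intro f
    rw [RData.hom, liftE_eU, AlgHom.comp_apply, RData.hom, liftE_eU]
    rfl
  rw [this]; rfl

/-- the ring is generated by the data -/
def RGen {r : ℕ} {n : Fin r → ℕ} (dat : RData k A r n S) : Prop :=
  ∀ B : Subalgebra k S, (∀ a, dat.τ a ∈ B) → (∀ f, dat.e f ∈ B) → B = ⊤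

/-- R-data restricted to the generated subalgebra -/
theorem exists_gen {r : ℕ} {n : Fin r → ℕ} (dat : RData k A r n S) :
    ∃ (S₀ : Type u) (_ : Ring S₀) (_ : Algebra k S₀) (d₀ : RData k A r n S₀),
      RGen d₀ ∧ ∀ u, d₀.hom u = 0 → dat.hom u = 0 := by
  let B₀ : Subalgebra k S := Algebra.adjoin k (Set.range dat.τ ∪ Set.range dat.e)
  have hτ : ∀ a, dat.τ a ∈ B₀ := fun a => Algebra.subset_adjoin (Or.inl ⟨a, rfl⟩)
  have he : ∀ f, dat.e f ∈ B₀ := fun f => Algebra.subset_adjoin (Or.inr ⟨f, rfl⟩)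
  let τ₀ : TA k A (Fin r) →ₐ[k] B₀ := dat.τ.codRestrict B₀ hτ
  let e₀ : A →ₗ[k] B₀ := dat.e.codRestrict (Subalgebra.toSubmodule B₀) he
  have hinj : Function.Injective B₀.val := Subtype.val_injective
  have hτ' : B₀.val.comp τ₀ = dat.τ := by ext; rfl
  have he' : B₀.val.toLinearMap ∘ₗ e₀ = dat.e := by ext; rfl
  let d₀ : RData k A r n B₀ :=
    { τ := τ₀
      e := e₀
      isE := by
        intro f g
        apply hinj
        exact dat.isE f g
      eτ := by
        intro f a
        apply hinj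
        exact dat.eτ f a
      ord := by
        intro H
        apply hinj
        rw [← Om_map, hτ', he', map_zero]
        exact dat.ord H }
  refine ⟨B₀, inferInstance, inferInstance, d₀, ?_, ?_⟩
  · intro B hB1 hB2
    have h1 : B₀ ≤ B.map B₀.val := by
      apply Algebra.adjoin_le
      rintro x (⟨a, rfl⟩ | ⟨f, rfl⟩)
      · exact ⟨τ₀ a, hB1 a, rfl⟩
      · exact ⟨e₀ f, hB2 f, rfl⟩
    rw [eq_top_iff]
    rintro ⟨x, hx⟩ -
    obtain ⟨y, hy, hyx⟩ := h1 hx
    have : y = ⟨x, hx⟩ := Subtype.ext hyx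
    rw [← this]; exact hy
  · intro u hu
    have h1 : rmap d₀ B₀.val = dat := by
      cases dat
      rfl
    rw [← h1, rmap_hom, hu, map_zero]

/-- commutation with a stable function, to the right -/
theorem normal_right {r : ℕ} {n : Fin r → ℕ} (dat : RData k A r n S) (hg : RGen dat)
    (d : TA k A (Fin r)) (hd : ∀ f : A, ∃ q, Dv k f d = d * q) (x : S) :
    ∃ y, x * dat.τ d = dat.τ d * y := by
  have hττ : ∀ a b, dat.τ a * dat.τ b = dat.τ b * dat.τ a := fun a b => by
    rw [← map_mul, ← map_mul, mul_comm]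
  let B : Subalgebra k S :=
    { carrier := {x | ∃ y, x * dat.τ d = dat.τ d * y}
      mul_mem' := by
        rintro a b ⟨a', ha⟩ ⟨b', hb⟩
        exact ⟨a' * b', by rw [mul_assoc, hb, ← mul_assoc, ha, mul_assoc]⟩
      add_mem' := by
        rintro a b ⟨a', ha⟩ ⟨b', hb⟩
        exact ⟨a' + b', by rw [add_mul, ha, hb, mul_add]⟩
      algebraMap_mem' := fun c => ⟨algebraMap k S c, Algebra.commutes c _⟩ }
  have hB : B = ⊤ := by
    apply hg
    · intro a
      exact ⟨dat.τ a, hττ _ _⟩
    · intro f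
      obtain ⟨q, hq⟩ := hd f
      refine ⟨dat.e f + dat.τ q, ?_⟩
      have := dat.eτ f d
      rw [hq, map_mul] at this
      rw [mul_add, ← this]
      abel
  have : x ∈ B := by rw [hB]; trivial
  exact this

/-- commutation with a stable function, to the left -/
theorem normal_left {r : ℕ} {n : Fin r → ℕ} (dat : RData k A r n S) (hg : RGen dat)
    (d : TA k A (Fin r)) (hd : ∀ f : A, ∃ q, Dv k f d = d * q) (x : S) :
    ∃ y, dat.τ d * x = y * dat.τ d := by
  have hττ : ∀ a b, dat.τ a * dat.τ b = dat.τ b * dat.τ a := fun a b => by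
    rw [← map_mul, ← map_mul, mul_comm]
  let B : Subalgebra k S :=
    { carrier := {x | ∃ y, dat.τ d * x = y * dat.τ d}
      mul_mem' := by
        rintro a b ⟨a', ha⟩ ⟨b', hb⟩
        exact ⟨a' * b', by rw [← mul_assoc, ha, mul_assoc, hb, mul_assoc]⟩
      add_mem' := by
        rintro a b ⟨a', ha⟩ ⟨b', hb⟩
        exact ⟨a' + b', by rw [mul_add, ha, hb, add_mul]⟩
      algebraMap_mem' := fun c => ⟨algebraMap k S c, (Algebra.commutes c _).symm⟩ }
  have hB : B = ⊤ := by
    apply hg
    · intro a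
      exact ⟨dat.τ a, hττ _ _⟩
    · intro f
      obtain ⟨q, hq⟩ := hd f
      refine ⟨dat.e f - dat.τ q, ?_⟩
      have := dat.eτ f d
      rw [hq, map_mul, hττ d q] at this
      rw [sub_mul, ← this]
      abel
  have : x ∈ B := by rw [hB]; trivial
  exact this

/-- divided differences -/
theorem exists_divdiff {r : ℕ} (i j : Fin r) (f : A) :
    ∃ q, (sg k i f - sg k j f : TA k A (Fin r)) =
      (sg k i (XX k A) - sg k j (XX k A)) * q := by
  let B : Submodule k A :=
    { carrier := {f | ∃ q, (sg k i f - sg k j f : TA k A (Fin r)) =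
        (sg k i (XX k A) - sg k j (XX k A)) * q}
      add_mem' := by
        rintro a b ⟨q, hq⟩ ⟨q', hq'⟩
        refine ⟨q + q', ?_⟩
        rw [mul_add, ← hq, ← hq', map_add, map_add]
        abel
      zero_mem' := ⟨0, by simp⟩
      smul_mem' := by
        rintro c a ⟨q, hq⟩
        refine ⟨c • q, ?_⟩
        rw [mul_smul_comm, ← hq, map_smul, map_smul, smul_sub] }
  have hB : B = ⊤ := by
    apply WAlg.ind B
    · exact ⟨0, by simp⟩
    · rintro f ⟨q, hq⟩
      refine ⟨sg k i (XX k A) * q + sg k j f, ?_⟩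
      have : (sg k i (XX k A) - sg k j (XX k A)) * (sg k i (XX k A) * q + sg k j f) =
          sg k i (XX k A) * ((sg k i (XX k A) - sg k j (XX k A)) * q) +
          (sg k i (XX k A) - sg k j (XX k A)) * sg k j f := by ring
      rw [this, ← hq]
      change sg k i (XX k A * f) - sg k j (XX k A * f) = _
      rw [map_mul, map_mul]
      ring
    · rintro hX f ⟨q, hq⟩
      change sg k i (XX k A * f) - sg k j (XX k A * f) = _ at hq
      obtain ⟨v, hv⟩ := hX
      have hv' : (v : A) = XX k A := hv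
      have hiv : sg k i (XX k A) * sg k i (↑v⁻¹ : A) = (1 : TA k A (Fin r)) := by
        rw [← map_mul, ← hv', v.mul_inv, map_one]
      rw [map_mul, map_mul] at hq
      refine ⟨sg k i (↑v⁻¹ : A) * (q - sg k j f), ?_⟩
      have e1 : (sg k i (XX k A) - sg k j (XX k A)) * (sg k i (↑v⁻¹ : A) * (q - sg k j f)) =
          sg k i (↑v⁻¹ : A) * ((sg k i (XX k A) - sg k j (XX k A)) * q -
            (sg k i (XX k A) - sg k j (XX k A)) * sg k j f) := by ring
      rw [e1, ← hq]
      have e2 : sg k i (↑v⁻¹ : A) * (sg k i (XX k A) * sg k i f - sg k j (XX k A) * sg k j f -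
            (sg k i (XX k A) - sg k j (XX k A)) * sg k j f) =
          (sg k i (XX k A) * sg k i (↑v⁻¹ : A)) * (sg k i f - sg k j f) := by ring
      rw [e2, hiv, one_mul]
  have : f ∈ B := by rw [hB]; trivial
  exact this

theorem Dv_sub_stable {r : ℕ} (i j : Fin r) (f : A) :
    ∃ q, Dv k f (sg k i (XX k A) - sg k j (XX k A) : TA k A (Fin r)) =
      (sg k i (XX k A) - sg k j (XX k A)) * q := by
  obtain ⟨q, hq⟩ := exists_divdiff (k := k) i j f
  refine ⟨q, ?_⟩
  rw [map_sub, Dv_sg, Dv_sg, ← hq]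
  simp [dd, XX, WAlg.DX]

theorem Dv_Dis_stable {r : ℕ} (f : A) :
    ∃ q, Dv k f (Dis k A (Fin r)) = Dis k A (Fin r) * q := by
  rw [Dis]
  refine Finset.prod_induction (M := TA k A (Fin r)) _
    (fun x => ∃ q, Dv k f x = x * q) ?_ ?_ ?_
  · rintro a b ⟨q, hq⟩ ⟨q', hq'⟩
    refine ⟨q + q', ?_⟩
    rw [Derivation.leibniz, smul_eq_mul, smul_eq_mul, hq, hq']
    ring
  · exact ⟨0, by rw [Derivation.map_one_eq_zero, mul_zero]⟩
  · intro p hp
    exact Dv_sub_stable _ _ f

/-- the field commutes with pull backs -/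
theorem Dv_pmap {r r' : ℕ} (φ : Fin r' → Fin r) (f : A) (x : TA k A (Fin r')) :
    Dv k f (pmap φ x) = pmap φ (Dv k f x) := by
  induction x using TA_induction with
  | hs c x hx => rw [map_smul, Derivation.map_smul, Derivation.map_smul, map_smul, hx]
  | ha x y hx hy => rw [map_add, map_add, map_add, map_add, hx, hy]
  | h0 g =>
    rw [tp_eq_prod]
    refine Finset.prod_induction (M := TA k A (Fin r')) _
      (fun x => Dv k f (pmap φ x) = pmap φ (Dv k f x)) ?_ ?_ ?_
    · intro a b ha hb
      simp only [map_mul, Derivation.leibniz, smul_eq_mul, map_add, ha, hb]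
    · rw [map_one, Derivation.map_one_eq_zero, Derivation.map_one_eq_zero, map_zero]
    · intro i _
      rw [pmap_sg, Dv_sg, Dv_sg, pmap_sg]

theorem Om_dif_pow {r : ℕ} (τ : TA k A (Fin r) →ₐ[k] S) (e : A →ₗ[k] S) {a b : Fin r}
    (h : τ (sg k a (XX k A)) = τ (sg k b (XX k A))) (n : ℕ) (y : TA k A (Fin r) ⊗[k] A) :
    Om τ e (dif k A a ^ n * y) = Om τ e (dif k A b ^ n * y) := by
  have h1 : ∀ y, Om τ e (dif k A a * y) = Om τ e (dif k A b * y) := by
    intro y
    rw [dif, dif, sub_mul, sub_mul, map_sub, map_sub, Om_left, Om_left, h]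
  induction n generalizing y with
  | zero => rfl
  | succ n ih =>
    rw [pow_succ, mul_assoc, ih, ← mul_assoc, mul_comm (dif k A b ^ n), mul_assoc, h1,
      ← mul_assoc, ← pow_succ']

/-- if two coordinates agree, one point can be dropped -/
theorem exists_drop {r n : ℕ} (dat : RData k A (r + 1) (fun _ => n) S) {a b : Fin (r + 1)}
    (hab : a ≠ b) (h : dat.τ (sg k a (XX k A)) = dat.τ (sg k b (XX k A))) :
    ∃ dat' : RData k A r (fun _ => 2 * n) S, dat'.e = dat.e := by
  let φ : Fin r → Fin (r + 1) := b.succAbove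
  let ψ : TA k A (Fin r) ⊗[k] A →ₐ[k] TA k A (Fin (r + 1)) ⊗[k] A :=
    Algebra.TensorProduct.map (pmap φ) (AlgHom.id k A)
  have hψ : ∀ y, Om (dat.τ.comp (pmap φ)) dat.e y = Om dat.τ dat.e (ψ y) := by
    intro y
    induction y using TensorProduct.induction_on with
    | zero => simp
    | tmul b f => simp [ψ, Om_tmul]
    | add x y hx hy => rw [map_add, map_add, map_add, hx, hy]
  have hψd : ∀ i, ψ (dif k A i) = dif k A (φ i) := by
    intro i
    simp only [ψ, dif, map_sub, Algebra.TensorProduct.map_tmul, map_one, pmap_sg, AlgHom.id_apply]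
  obtain ⟨ia, hia⟩ := Fin.exists_succAbove_eq hab
  refine ⟨{ τ := dat.τ.comp (pmap φ), e := dat.e, isE := dat.isE, eτ := ?_, ord := ?_ }, rfl⟩
  · intro f x
    rw [AlgHom.comp_apply, AlgHom.comp_apply, dat.eτ, Dv_pmap]
  · intro H
    rw [hψ, map_mul, map_prod]
    simp only [map_pow, hψd]
    have h1 : ∏ i, dif k A (φ i) ^ (2 * n) =
        dif k A a ^ n * ((∏ i, dif k A (φ i) ^ n) *
          ∏ i ∈ Finset.univ \ {ia}, dif k A (φ i) ^ n) := by
      have e1 : ∏ i, dif k A (φ i) ^ n = dif k A (φ ia) ^ n *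
          ∏ i ∈ Finset.univ \ {ia}, dif k A (φ i) ^ n := by
        rw [Finset.sdiff_singleton_eq_erase,
          Finset.mul_prod_erase _ (fun i => dif k A (φ i) ^ n) (Finset.mem_univ ia)]
      have e2 : ∏ i, dif k A (φ i) ^ (2 * n) =
          (∏ i, dif k A (φ i) ^ n) * ∏ i, dif k A (φ i) ^ n := by
        rw [← Finset.prod_mul_distrib]
        refine Finset.prod_congr rfl fun i _ => ?_
        rw [← pow_add, two_mul]
      rw [e2]
      conv_lhs => rw [e1]
      have e3 : φ ia = a := hia
      rw [e3]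
      conv_rhs => rw [e1, e3]
      ring
    rw [h1, mul_assoc, Om_dif_pow dat.τ dat.e h]
    have h2 : dif k A b ^ n * ((∏ i, dif k A (φ i) ^ n) *
          (∏ i ∈ Finset.univ \ {ia}, dif k A (φ i) ^ n) * ψ H) =
        (∏ i, dif k A i ^ n) * ((∏ i ∈ Finset.univ \ {ia}, dif k A (φ i) ^ n) * ψ H) := by
      rw [Fin.prod_univ_succAbove _ b]
      ring
    rw [h2, dat.ord]

theorem exists_smaller {r n : ℕ} (dat : RData k A r (fun _ => n) S) {a b : Fin r}
    (hab : a ≠ b) (h : dat.τ (sg k a (XX k A)) = dat.τ (sg k b (XX k A))) :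
    ∃ r', r' < r ∧ ∃ dat' : RData k A r' (fun _ => 2 * n) S, dat'.e = dat.e := by
  cases r with
  | zero => exact a.elim0
  | succ r' => exact ⟨r', Nat.lt_succ_self _, exists_drop dat hab h⟩

/-- regularity in a prime ring -/
theorem regular_of_prime {r : ℕ} {n : Fin r → ℕ} (dat : RData k A r n S) (hg : RGen dat)
    (hp : ∀ x y : S, (∀ r, x * r * y = 0) → x = 0 ∨ y = 0)
    (d : TA k A (Fin r)) (hd : ∀ f : A, ∃ q, Dv k f d = d * q) (h0 : dat.τ d ≠ 0) :
    (∀ x, x * dat.τ d = 0 → x = 0) ∧ (∀ x, dat.τ d * x = 0 → x = 0) := by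
  constructor
  · intro x hx
    rcases hp x (dat.τ d) (fun s => by
      obtain ⟨y, hy⟩ := normal_right dat hg d hd s
      rw [mul_assoc, hy, ← mul_assoc, hx, zero_mul]) with h | h
    · exact h
    · exact absurd h h0
  · intro x hx
    rcases hp (dat.τ d) x (fun s => by
      obtain ⟨y, hy⟩ := normal_left dat hg d hd s
      rw [hy, mul_assoc, hx, mul_zero]) with h | h
    · exact absurd h h0
    · exact h

end rdata

end LocD

/-- Module D. -/
theorem specLoc : SpecLoc.{u} := by
  intro k A _ _ _ _ _ P hP r₀ n₀ hn₀ hex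
  classical
  obtain ⟨r, hr, hr0, hmin⟩ : ∃ r, (∃ n : ℕ, 1 ≤ n ∧ ∃ (S : Type u) (_ : Ring S) (_ : Algebra k S)
      (dat : RData k A r (fun _ => n) S), KerLe dat.hom.toRingHom P) ∧ r ≤ r₀ ∧
      ∀ r' < r, ¬ (∃ n : ℕ, 1 ≤ n ∧ ∃ (S : Type u) (_ : Ring S) (_ : Algebra k S)
      (dat : RData k A r' (fun _ => n) S), KerLe dat.hom.toRingHom P) := by
    have hQ : ∃ r, (∃ n : ℕ, 1 ≤ n ∧ ∃ (S : Type u) (_ : Ring S) (_ : Algebra k S)
      (dat : RData k A r (fun _ => n) S), KerLe dat.hom.toRingHom P) := ⟨r₀, n₀, hn₀, hex⟩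
    exact ⟨Nat.find hQ, Nat.find_spec hQ, Nat.find_min' hQ ⟨n₀, hn₀, hex⟩,
      fun r' hr' => Nat.find_min hQ hr'⟩
  obtain ⟨n, hn, S, _, _, dat, hker⟩ := hr
  obtain ⟨S₀, _, _, d₀, hg₀, hk₀⟩ := LocD.exists_gen dat
  have hker₀ : KerLe d₀.hom.toRingHom P := fun u hu => hker u (hk₀ u hu)
  obtain ⟨I, hI1, hI2, hI3⟩ := LocD.exists_maximal d₀.hom.toRingHom P hP hker₀
  -- the quotient
  let π : S₀ →ₐ[k] I.ringCon.Quotient := { I.ringCon.mk' with commutes' := fun _ => rfl }
  have hπ : ∀ x, π x = 0 ↔ x ∈ I := by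
    intro x
    exact (RingCon.eq I.ringCon)
  have hπs : Function.Surjective π := RingCon.mk'_surjective I.ringCon
  let d₁ : RData k A r (fun _ => n) I.ringCon.Quotient := LocD.rmap d₀ π
  have hg₁ : LocD.RGen d₁ := by
    intro B hB1 hB2
    have h1 : B.comap π = ⊤ := hg₀ _ (fun a => hB1 a) (fun f => hB2 f)
    rw [eq_top_iff]
    rintro x -
    obtain ⟨y, rfl⟩ := hπs x
    have : y ∈ B.comap π := by rw [h1]; trivial
    exact this
  have hker₁ : KerLe d₁.hom.toRingHom P := by
    intro u hu
    apply hI1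
    change d₀.hom u ∈ I
    rw [← hπ]
    have : d₁.hom u = 0 := hu
    rwa [LocD.rmap_hom] at this
  have hprime : ∀ x y : I.ringCon.Quotient, (∀ s, x * s * y = 0) → x = 0 ∨ y = 0 := by
    intro x y hxy
    obtain ⟨x, rfl⟩ := hπs x
    obtain ⟨y, rfl⟩ := hπs y
    rw [hπ, hπ]
    apply hI3
    intro s
    rw [← hπ, map_mul, map_mul]
    exact hxy _
  have hne : ∀ a b : Fin r, a ≠ b → d₁.τ (sg k a (XX k A) - sg k b (XX k A)) ≠ 0 := by
    intro a b hab h
    rw [map_sub, sub_eq_zero] at h
    obtain ⟨r', hr', dat', hdat'⟩ := LocD.exists_smaller d₁ hab h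
    refine hmin r' hr' ⟨2 * n, by omega, _, inferInstance, inferInstance, dat', ?_⟩
    intro u hu
    apply hker₁
    have : dat'.hom = d₁.hom := by
      apply UW_hom_ext
      intro f
      rw [RData.hom, liftE_eU, RData.hom, liftE_eU, hdat']
    change d₁.hom u = 0
    rw [← this]
    exact hu
  have hreg : (∀ x, x * d₁.τ (Dis k A (Fin r)) = 0 → x = 0) ∧
      (∀ x, d₁.τ (Dis k A (Fin r)) * x = 0 → x = 0) := by
    rw [Dis]
    refine Finset.prod_induction (M := TA k A (Fin r)) _
      (fun d => (∀ x, x * d₁.τ d = 0 → x = 0) ∧ (∀ x, d₁.τ d * x = 0 → x = 0)) ?_ ?_ ?_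
    · rintro a b ⟨ha1, ha2⟩ ⟨hb1, hb2⟩
      constructor
      · intro x hx
        rw [map_mul, ← mul_assoc] at hx
        exact ha1 _ (hb1 _ hx)
      · intro x hx
        rw [map_mul, mul_assoc] at hx
        exact hb2 _ (ha2 _ hx)
    · constructor
      · intro x hx; simpa using hx
      · intro x hx; simpa using hx
    · intro p hp
      exact LocD.regular_of_prime d₁ hg₁ hprime _ (LocD.Dv_sub_stable _ _)
        (hne _ _ (by simpa using hp))
  obtain ⟨S', _, _, φ, hφ, hu⟩ := LocD.exists_ore (k := k) (d₁.τ (Dis k A (Fin r))) hreg.1 hreg.2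
    (LocD.normal_left d₁ hg₁ _ LocD.Dv_Dis_stable)
  let d₂ : RData k A r (fun _ => n) S' := LocD.rmap d₁ φ
  have hInv : ∀ i j : Fin r, i ≠ j → IsUnit (d₂.τ (sg k i (XX k A) - sg k j (XX k A))) := by
    intro i j hij
    obtain ⟨c, hc⟩ := LocD.dvd_Dis (k := k) (A := A) hij
    have h1 : IsUnit (d₂.τ (sg k i (XX k A) - sg k j (XX k A)) * d₂.τ c) := by
      rw [← map_mul, ← hc]; exact hu
    have h2 : Commute (d₂.τ (sg k i (XX k A) - sg k j (XX k A))) (d₂.τ c) := by
      rw [commute_iff_eq, ← map_mul, ← map_mul, mul_comm]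
    exact (h2.isUnit_mul_iff.1 h1).1
  obtain ⟨pd, hpd1, hpd2⟩ := LocD.exists_PData d₂ hInv
  refine ⟨r, n, hr0, hn, S', inferInstance, inferInstance, pd, ?_, ?_⟩
  · intro i j hij
    rw [hpd1]; exact hInv i j hij
  · intro u hu
    apply hker₁
    have h1 : pd.hom = d₂.hom := by
      apply UW_hom_ext
      intro f
      rw [PData.hom, liftE_eU, RData.hom, liftE_eU, hpd2]
    have h2 : d₂.hom u = 0 := by rw [← h1]; exact hu
    rw [LocD.rmap_hom] at h2
    exact hφ (h2.trans (map_zero φ).symm)

end MPcc24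
end
end

section
set_option linter.all false

/-!
# Module B: Theorem 1
-/

noncomputable section

open scoped TensorProduct BigOperators
open PiTensorProduct

namespace MPcc24

universe u

namespace Thm1

section ListLemmas

variable {S : Type*} [Ring S]

/-- Leibniz rule for products of lists -/
theorem leibniz_list (δ : S →+ S) (h1 : δ 1 = 0) (hm : ∀ a b, δ (a * b) = δ a * b + a * δ b) :
    ∀ (n : ℕ) (g : Fin n → S), δ (List.ofFn g).prod =
      ∑ i, (List.ofFn (Function.update g i (δ (g i)))).prod := by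
  intro n
  induction n with
  | zero => intro g; simp [h1]
  | succ n ih =>
    intro g
    have e1 : (List.ofFn (Function.update g 0 (δ (g 0)))).prod =
        δ (g 0) * (List.ofFn fun i : Fin n => g i.succ).prod := by
      rw [List.ofFn_succ, List.prod_cons]
      simp
    have e2 : ∀ i : Fin n, (List.ofFn (Function.update g i.succ (δ (g i.succ)))).prod =
        g 0 * (List.ofFn (Function.update (fun i : Fin n => g i.succ) i (δ (g i.succ)))).prod := by
      intro i
      rw [List.ofFn_succ, List.prod_cons, Function.update_of_ne (Fin.succ_ne_zero i).symm]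
      have e3 : (fun j : Fin n => Function.update g i.succ (δ (g i.succ)) j.succ) =
          Function.update (fun i : Fin n => g i.succ) i (δ (g i.succ)) := by
        funext j
        by_cases hj : j = i
        · subst hj; simp
        · rw [Function.update_of_ne hj, Function.update_of_ne]
          intro h; exact hj (Fin.succ_injective _ h)
      rw [e3]
    rw [List.ofFn_succ, List.prod_cons, hm, ih, Fin.sum_univ_succ, e1, Finset.mul_sum]
    simp only [e2]

/-- exchange of two adjacent factors -/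
theorem swap_list : ∀ (n : ℕ) (p : Fin n) (g : Fin (n + 1) → S),
    (List.ofFn g).prod - (List.ofFn (g ∘ Equiv.swap p.castSucc p.succ)).prod =
      (List.ofFn fun j : Fin n => if j < p then g j.castSucc else
        if j = p then g p.castSucc * g p.succ - g p.succ * g p.castSucc else g j.succ).prod := by
  intro n
  induction n with
  | zero => intro p; exact p.elim0
  | succ n ih =>
    intro p g
    induction p using Fin.cases with
    | zero =>
      simp only [List.ofFn_succ, List.prod_cons, Function.comp_apply]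
      have h1 : (Equiv.swap (Fin.castSucc (0 : Fin (n+1))) (Fin.succ (0 : Fin (n+1)))) 0 = 1 := by
        simp
      have h2 : (Equiv.swap (Fin.castSucc (0 : Fin (n+1))) (Fin.succ (0 : Fin (n+1)))) (Fin.succ 0) = 0 := by
        simp
      have h3 : ∀ i : Fin n, (Equiv.swap (Fin.castSucc (0 : Fin (n+1))) (Fin.succ (0 : Fin (n+1))))
          i.succ.succ = i.succ.succ := by
        intro i
        apply Equiv.swap_apply_of_ne_of_ne
        · simp [Fin.ext_iff]
        · simp [Fin.ext_iff]
      rw [h1, h2]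
      simp only [h3]
      simp
      noncomm_ring
    | succ q =>
      have h0 : (List.ofFn g).prod = g 0 * (List.ofFn fun i : Fin (n + 1) => g i.succ).prod := by
        rw [List.ofFn_succ, List.prod_cons]
      have h1 : (g ∘ (Equiv.swap (Fin.castSucc q.succ) (Fin.succ q.succ))) 0 = g 0 := by
        rw [Function.comp_apply, Equiv.swap_apply_of_ne_of_ne]
        · simp [Fin.ext_iff]
        · simp [Fin.ext_iff]
      have h2 : (fun i : Fin (n+1) => (g ∘ (Equiv.swap (Fin.castSucc q.succ) (Fin.succ q.succ))) i.succ) =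
          (fun i => g i.succ) ∘ Equiv.swap q.castSucc q.succ := by
        funext i
        simp only [Function.comp_apply]
        congr 1
        rw [Fin.castSucc_succ]
        exact (Fin.succ_injective (n + 1)).swap_apply q.castSucc q.succ i
      have h3 : (List.ofFn (g ∘ (Equiv.swap (Fin.castSucc q.succ) (Fin.succ q.succ)))).prod =
          g 0 * (List.ofFn ((fun i => g i.succ) ∘ Equiv.swap q.castSucc q.succ)).prod := by
        rw [List.ofFn_succ, List.prod_cons, h1, h2]
      rw [h0, h3, ← mul_sub, ih q (fun i => g i.succ), List.ofFn_succ, List.prod_cons]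
      simp

end ListLemmas

section Hom

variable {k : Type u} {A : Type u} [Field k] [CommRing A] [Algebra k A]
variable {S : Type*} [Ring S] [Algebra k S] {S' : Type*} [Ring S'] [Algebra k S']

theorem TT_hom (φ : S →ₐ[k] S') (e : A →ₗ[k] S) (d : ℕ) (F : TA k A (Fin d)) :
    φ (TT e d F) = TT (φ.toLinearMap ∘ₗ e) d F := by
  induction F using TA_induction with
  | h0 f =>
    rw [TT_tp, TT_tp, map_list_prod, List.map_ofFn]
    rfl
  | hs c x hx => rw [map_smul, map_smul, hx, map_smul]
  | ha x y hx hy => rw [map_add, map_add, hx, hy, map_add]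

theorem TB_hom (φ : S →ₐ[k] S') (e : A →ₗ[k] S) (b : ℕ) (F : TA k A (Fin b × Fin 2)) :
    φ (TB e b F) = TB (φ.toLinearMap ∘ₗ e) b F := by
  rw [TB, TB, LinearMap.comp_apply, LinearMap.comp_apply]
  exact TT_hom φ e _ _

variable [WAlg k A]

theorem hom_TB {r : ℕ} {n : Fin r → ℕ} (dat : PData k A r n S) (b : ℕ)
    (F : TA k A (Fin b × Fin 2)) :
    dat.hom (TB (eU (k := k) (A := A)) b F) = TB dat.tot b F := by
  rw [TB_hom]
  congr 1
  have : dat.hom.toLinearMap ∘ₗ eU (k := k) (A := A) = dat.tot := by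
    ext f
    exact liftE_eU _ _ f
  rw [this]

end Hom

section Tp

variable {k : Type u} {A : Type u} [Field k] [CommRing A] [Algebra k A]
variable {ι κ : Type} [Fintype ι] [DecidableEq ι] [Fintype κ] [DecidableEq κ]

theorem sg_mul_tp (i : ι) (a : A) (g : ι → A) :
    sg k i a * tp k g = tp k (Function.update g i (a * g i)) := by
  rw [sg_eq, tp_mul]
  congr 1
  funext j
  by_cases hj : j = i
  · subst hj; simp
  · simp [Function.update_of_ne hj, Pi.mulSingle_eq_of_ne hj]

theorem tp_update_sub (i : ι) (g : ι → A) (a b : A) :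
    tp k (Function.update g i (a - b)) =
      tp k (Function.update g i a) - tp k (Function.update g i b) :=
  MultilinearMap.map_update_sub (PiTensorProduct.tprod k) g i a b

theorem pmap_tp (φ : ι → κ) (f : ι → A) :
    pmap φ (tp k f) = tp k (fun j => ∏ i with φ i = j, f i) := by
  rw [tp_eq_prod, map_prod, tp_eq_prod]
  simp only [pmap_sg, map_prod]
  rw [← Finset.prod_fiberwise Finset.univ φ]
  refine Finset.prod_congr rfl fun j _ => ?_
  refine Finset.prod_congr rfl fun i hi => ?_
  rw [(Finset.mem_filter.1 hi).2]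

end Tp

section AdData

variable {k : Type u} {A : Type u} [Field k] [CommRing A] [Algebra k A] [WAlg k A]
variable {ι : Type} [Fintype ι] [DecidableEq ι]

theorem der_comm (i j : ι) (x : TA k A ι) : der k A i (der k A j x) = der k A j (der k A i x) := by
  have h : ⁅der k A i, der k A j⁆ = (0 : Derivation k (TA k A ι) (TA k A ι)) := by
    apply TA_der_ext
    intro l f
    rw [Derivation.commutator_apply, der_sg, der_sg]
    by_cases hi : i = l
    · subst hi
      by_cases hj : j = i
      · subst hj; simp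
      · simp [hj, der_sg]
    · by_cases hj : j = l
      · subst hj
        simp [hi, der_sg]
      · simp [hi, hj]
  have := DFunLike.congr_fun h x
  rw [Derivation.commutator_apply] at this
  exact sub_eq_zero.1 this

/-- the operators `f ∂_i - f'` -/
def adE (i : ι) : A →ₗ[k] Module.End k (TA k A ι) where
  toFun f := LinearMap.mulLeft k (sg k i f) ∘ₗ (der k A i).toLinearMap -
    LinearMap.mulLeft k (sg k i (dd k f))
  map_add' f g := by
    ext x
    simp [add_mul]
    ring
  map_smul' c f := by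
    ext x
    simp [smul_sub]

theorem adE_apply (i : ι) (f : A) (x : TA k A ι) :
    adE i f x = sg k i f * der k A i x - sg k i (dd k f) * x := rfl

/-- the data given by the adjoint action on words of length `j` -/
def adData (k A : Type u) [Field k] [CommRing A] [Algebra k A] [WAlg k A] (j : ℕ) :
    PData k A j (fun _ => 2) (Module.End k (TA k A (Fin j))) where
  τ := Algebra.lmul k (TA k A (Fin j))
  e := adE
  eτ := by
    intro i l f g
    refine LinearMap.ext fun x => ?_
    simp only [LinearMap.sub_apply, Module.End.mul_apply, Algebra.coe_lmul_eq_mul,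
      LinearMap.mul_apply', adE_apply, Derivation.leibniz, smul_eq_mul, der_sg]
    split_ifs with h
    · subst h
      simp only [Algebra.coe_lmul_eq_mul, LinearMap.mul_apply', map_mul]
      ring
    · simp
      ring
  ee := by
    intro i l f g
    refine LinearMap.ext fun x => ?_
    simp only [LinearMap.sub_apply, Module.End.mul_apply, adE_apply, Derivation.leibniz,
      smul_eq_mul, der_sg, map_sub]
    split_ifs with h h' h'
    · subst h
      rw [adE_apply, wbr]
      simp only [map_sub, map_mul, Derivation.leibniz, smul_eq_mul, map_add]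
      ring
    · exact absurd h.symm h'
    · exact absurd h'.symm h
    · rw [der_comm l i]
      simp
      ring
  ord := by
    intro i
    ext1 f
    refine LinearMap.ext fun x => ?_
    simp only [Function.iterate_succ, Function.iterate_zero, Function.comp_apply, id_eq, sh_apply,
      LinearMap.sub_apply, Module.End.mul_apply, adE_apply, Algebra.coe_lmul_eq_mul,
      LinearMap.mul_apply', map_mul, Derivation.leibniz, smul_eq_mul, WAlg.DX, map_add,
      LinearMap.zero_apply, XX]
    simp
    ring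

theorem adData_sh (j : ℕ) (i : Fin j) (f : A) :
    (adData k A j).V i 1 f = - Algebra.lmul k (TA k A (Fin j)) (sg k i f) := by
  refine LinearMap.ext fun x => ?_
  simp only [PData.V, PData.t, adData, Function.iterate_succ, Function.iterate_zero,
    Function.comp_apply, id_eq, sh_apply,
    LinearMap.sub_apply, Module.End.mul_apply, adE_apply, Algebra.coe_lmul_eq_mul,
    LinearMap.mul_apply', map_mul, Derivation.leibniz, smul_eq_mul, WAlg.DX, map_add,
    LinearMap.neg_apply, XX, map_one]
  ring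

theorem adData_ci (j : ℕ) (i : Fin j) : (adData k A j).ci i = (-4 : ℤ) • 1 := by
  rw [PData.ci, if_neg (by norm_num), if_pos rfl, adData_sh, map_one, map_one]
  have : (2 : Module.End k (TA k A (Fin j))) * -1 * (1 - -1) = -4 := by norm_num
  rw [this, neg_smul, ← Int.cast_ofNat (R := Module.End k (TA k A (Fin j))), zsmul_one]

theorem adData_cc (j : ℕ) : (adData k A j).cc = ((-4 : ℤ) ^ j) • 1 := by
  rw [PData.cc]
  simp only [adData_ci, List.ofFn_const, List.prod_replicate]
  rw [smul_pow, one_pow]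

/-- the adjoint representation of the enveloping algebra -/
def adU0 (k A : Type u) [Field k] [CommRing A] [Algebra k A] [WAlg k A] :
    A →ₗ[k] Module.End k (UW k A) where
  toFun f := LinearMap.mulLeft k (eU f) - LinearMap.mulRight k (eU f)
  map_add' f g := by
    refine LinearMap.ext fun x => ?_
    simp [add_mul, mul_add]
    abel
  map_smul' c f := by
    refine LinearMap.ext fun x => ?_
    simp [smul_sub]

theorem adU0_isE : IsE (adU0 k A) := by
  intro f g
  refine LinearMap.ext fun x => ?_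
  simp only [adU0, LinearMap.coe_mk, AddHom.coe_mk, LinearMap.sub_apply, Module.End.mul_apply,
    LinearMap.mulLeft_apply, LinearMap.mulRight_apply]
  rw [← eU_isE f g]
  noncomm_ring

/-- the adjoint representation of the enveloping algebra -/
def adU (k A : Type u) [Field k] [CommRing A] [Algebra k A] [WAlg k A] :
    UW k A →ₐ[k] Module.End k (UW k A) := liftE (adU0 k A) adU0_isE

theorem adU_eU (f : A) (x : UW k A) : adU k A (eU f) x = eU f * x - x * eU f := by
  rw [adU, liftE_eU]
  rfl

/-- two sided ideals are stable under the adjoint representation -/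
theorem adU_mem (J : TwoSidedIdeal (UW k A)) (w x : UW k A) (hx : x ∈ J) : adU k A w x ∈ J := by
  induction w using UW_induction generalizing x with
  | h1 => rw [map_one]; exact hx
  | hadd a b ha hb => rw [map_add]; exact J.add_mem (ha x hx) (hb x hx)
  | hsmul c a ha =>
    rw [map_smul, LinearMap.smul_apply, Algebra.smul_def]
    exact J.mul_mem_left _ _ (ha x hx)
  | hmul f a ha =>
    rw [map_mul, Module.End.mul_apply, adU_eU]
    exact J.sub_mem (J.mul_mem_left _ _ (ha x hx)) (J.mul_mem_right _ _ (ha x hx))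

/-- the adjoint action on words -/
theorem ad_TT (f : A) (j : ℕ) (F : TA k A (Fin j)) :
    eU f * TT (eU (k := k) (A := A)) j F - TT (eU (k := k) (A := A)) j F * eU f =
      TT (eU (k := k) (A := A)) j ((adData k A j).tot f F) := by
  induction F using TA_induction with
  | hs c x hx => 
    simp only [map_smul, mul_smul_comm, smul_mul_assoc, ← smul_sub, hx]
  | ha x y hx hy => 
    simp only [map_add, mul_add, add_mul]
    rw [← hx, ← hy]
    abel
  | h0 g =>
    have h1 := leibniz_list (S := UW k A)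
      ((AddMonoidHom.mulLeft (eU f)) - (AddMonoidHom.mulRight (eU f))) (by simp)
      (by intro a b; simp; noncomm_ring) j (fun i => eU (g i))
    simp only [AddMonoidHom.sub_apply, AddMonoidHom.coe_mulLeft, AddMonoidHom.coe_mulRight] at h1
    rw [TT_tp, h1, PData.tot_apply, LinearMap.sum_apply, map_sum]
    refine Finset.sum_congr rfl fun i _ => ?_
    have h2 : (adData k A j).e i f (tp k g) = tp k (Function.update g i (wbr k f (g i))) := by
      change adE i f (tp k g) = _
      rw [adE_apply, der_tprod, sg_mul_tp, sg_mul_tp, Function.update_self,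
        Function.update_idem, ← tp_update_sub, wbr, mul_comm (dd k f)]
    rw [h2, TT_tp]
    congr 1
    congr 1
    funext l
    by_cases hl : l = i
    · subst hl
      simp only [Function.update_self]
      exact eU_isE f (g l)
    · simp [Function.update_of_ne hl]

theorem adU_TT (w : UW k A) (j : ℕ) (F : TA k A (Fin j)) :
    adU k A w (TT (eU (k := k) (A := A)) j F) =
      TT (eU (k := k) (A := A)) j ((adData k A j).hom w F) := by
  induction w using UW_induction generalizing F with
  | h1 => simp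
  | hadd a b ha hb => simp only [map_add, LinearMap.add_apply, ha, hb]
  | hsmul c a ha => simp only [map_smul, LinearMap.smul_apply, ha]
  | hmul f a ha =>
    rw [map_mul, map_mul, Module.End.mul_apply, Module.End.mul_apply, ha, adU_eU, ad_TT]
    congr 2
    rw [PData.hom, liftE_eU]

end AdData

section Swap

variable {k : Type u} {A : Type u} [Field k] [CommRing A] [Algebra k A] [WAlg k A]

theorem pmap_predAbove_tp (n : ℕ) (p : Fin n) (f : Fin (n + 1) → A) :
    pmap (k := k) p.predAbove (tp k f) = tp k (fun j => if j < p then f j.castSucc else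
      if j = p then f p.castSucc * f p.succ else f j.succ) := by
  rw [pmap_tp]
  congr 1
  funext j
  have key : ∀ i : Fin (n + 1), p.predAbove i = j ↔ (if j < p then i = j.castSucc else
      if j = p then (i = p.castSucc ∨ i = p.succ) else i = j.succ) := by
    intro i
    have hi := i.2
    have hj := j.2
    have hp := p.2
    rw [Fin.predAbove]
    simp only [Fin.ext_iff, Fin.lt_def, Fin.val_castSucc, Fin.val_succ]
    split_ifs <;> simp only [Fin.coe_castPred, Fin.coe_pred, Fin.val_castSucc, Fin.val_succ] at * <;> omega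
  simp only [key]
  split_ifs with h1 h2
  · rw [Finset.prod_filter, Finset.prod_ite_eq' ]
    simp
  · have : (Finset.univ.filter fun i : Fin (n+1) => i = p.castSucc ∨ i = p.succ) =
        {p.castSucc, p.succ} := by
      ext i; simp
    rw [this, Finset.prod_pair (Fin.castSucc_lt_succ (i := p)).ne]
  · rw [Finset.prod_filter, Finset.prod_ite_eq' ]
    simp

/-- the difference of a word and the word with two adjacent letters exchanged -/
theorem TT_swap (n : ℕ) (p : Fin n) (F : TA k A (Fin (n + 1))) :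
    TT (eU (k := k) (A := A)) (n + 1) F -
      TT (eU (k := k) (A := A)) (n + 1) (pmap (Equiv.swap p.castSucc p.succ) F) =
    TT (eU (k := k) (A := A)) n (pmap p.predAbove (der k A p.succ F - der k A p.castSucc F)) := by
  induction F using TA_induction with
  | hs c x hx => simp only [map_smul, Derivation.map_smul, ← smul_sub, hx]
  | ha x y hx hy =>
    simp only [map_add, map_sub] at hx hy ⊢
    rw [add_sub_add_comm, hx, hy]
    abel
  | h0 g =>
    rw [pmap_tp_equiv, TT_tp, TT_tp]
    have h1 := swap_list n p (fun i => eU (k := k) (g i))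
    simp only [Equiv.symm_swap]
    change _ - (List.ofFn ((fun i => eU (k := k) (g i)) ∘ Equiv.swap p.castSucc p.succ)).prod = _
    rw [h1, der_tprod, der_tprod, map_sub, pmap_predAbove_tp, pmap_predAbove_tp]
    have h2 : ∀ a : A, (fun j : Fin n => if j < p then g j.castSucc else
      if j = p then a else g j.succ) = Function.update (fun j : Fin n => if j < p then g j.castSucc
        else g j.succ) p a := by
      intro a
      funext j
      by_cases hj : j = p
      · subst hj; simp
      · simp [Function.update_of_ne hj, hj]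
    have h3 : (fun j : Fin n => if j < p then
        Function.update g p.succ ((dd k) (g p.succ)) j.castSucc else
        if j = p then Function.update g p.succ ((dd k) (g p.succ)) p.castSucc *
          Function.update g p.succ ((dd k) (g p.succ)) p.succ
        else Function.update g p.succ ((dd k) (g p.succ)) j.succ) =
        Function.update (fun j : Fin n => if j < p then g j.castSucc
        else g j.succ) p (g p.castSucc * dd k (g p.succ)) := by
      funext j
      by_cases hj : j = p
      · subst hj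
        simp [Function.update_of_ne (Fin.castSucc_lt_succ (i := j)).ne]
      · rw [Function.update_of_ne hj, if_neg hj]
        split_ifs with h
        · rw [Function.update_of_ne]
          exact (lt_trans (Fin.castSucc_lt_castSucc_iff.2 h) (Fin.castSucc_lt_succ (i := p))).ne
        · rw [Function.update_of_ne]
          intro h'; exact hj (Fin.succ_injective _ h')
    have h4 : (fun j : Fin n => if j < p then
        Function.update g p.castSucc ((dd k) (g p.castSucc)) j.castSucc else
        if j = p then Function.update g p.castSucc ((dd k) (g p.castSucc)) p.castSucc *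
          Function.update g p.castSucc ((dd k) (g p.castSucc)) p.succ
        else Function.update g p.castSucc ((dd k) (g p.castSucc)) j.succ) =
        Function.update (fun j : Fin n => if j < p then g j.castSucc
        else g j.succ) p (dd k (g p.castSucc) * g p.succ) := by
      funext j
      by_cases hj : j = p
      · subst hj
        simp [Function.update_of_ne (Fin.castSucc_lt_succ (i := j)).ne']
      · rw [Function.update_of_ne hj, if_neg hj]
        split_ifs with h
        · rw [Function.update_of_ne]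
          intro h'; exact hj (Fin.castSucc_injective _ h')
        · rw [Function.update_of_ne]
          intro h'
          have h5 : p < j := lt_of_le_of_ne (not_lt.1 h) (Ne.symm hj)
          have := lt_trans (Fin.castSucc_lt_castSucc_iff.2 h5) (Fin.castSucc_lt_succ (i := j))
          rw [h'] at this
          exact lt_irrefl _ this
    rw [h3, h4, ← tp_update_sub, TT_tp]
    congr 1
    congr 1
    funext j
    by_cases hj : j = p
    · subst hj
      simp only [lt_irrefl, if_false, if_true, Function.update_self]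
      rw [mul_comm (dd k (g j.castSucc))]
      exact eU_isE (k := k) (g j.castSucc) (g j.succ)
    · rw [Function.update_of_ne hj, if_neg hj]
      split_ifs <;> rfl

theorem sq_dvd_Dis {ι : Type} [Fintype ι] [DecidableEq ι] (a b : ι) (hab : a ≠ b) :
    (sg k a (XX k A) - sg k b (XX k A)) ^ 2 ∣ Dis k A ι := by
  have h1 : ({(a, b), (b, a)} : Finset (ι × ι)) ⊆ (Finset.univ : Finset ι).offDiag := by
    intro x hx
    simp only [Finset.mem_insert, Finset.mem_singleton] at hx
    rcases hx with rfl | rfl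
    · simp [hab]
    · simp [hab.symm]
  have h2 := Finset.prod_dvd_prod_of_subset _ _
    (fun p : ι × ι => (sg k p.1 (XX k A) - sg k p.2 (XX k A))) h1
  rw [Finset.prod_pair (by simp [Prod.ext_iff, hab])] at h2
  refine dvd_trans ?_ h2
  refine ⟨-1, ?_⟩
  ring

theorem pmap_Dis {ι : Type} [Fintype ι] [DecidableEq ι] (σ : Equiv.Perm ι) :
    pmap σ (Dis k A ι) = Dis k A ι := by
  rw [Dis, map_prod]
  refine Finset.prod_bij (fun p _ => (σ p.1, σ p.2)) ?_ ?_ ?_ ?_
  · intro p hp
    simp only [Finset.mem_offDiag, Finset.mem_univ, true_and] at hp ⊢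
    exact fun h => hp (σ.injective h)
  · intro p _ q _ h
    simp only [Prod.mk.injEq, EmbeddingLike.apply_eq_iff_eq] at h
    exact Prod.ext h.1 h.2
  · intro p hp
    refine ⟨(σ.symm p.1, σ.symm p.2), ?_, ?_⟩
    · simp only [Finset.mem_offDiag, Finset.mem_univ, true_and] at hp ⊢
      exact fun h => hp (σ.symm.injective h)
    · simp
  · intro p _
    simp

theorem contr_Dis (n : ℕ) (p : Fin n) (F : TA k A (Fin (n + 1))) :
    pmap p.predAbove (der k A p.succ (Dis k A (Fin (n + 1)) * F) -
      der k A p.castSucc (Dis k A (Fin (n + 1)) * F)) = 0 := by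
  obtain ⟨R, hR⟩ := sq_dvd_Dis (k := k) (A := A) p.castSucc p.succ
    (Fin.castSucc_lt_succ (i := p)).ne
  set q := sg k p.castSucc (XX k A) - sg k p.succ (XX k A) with hq
  have h0 : pmap p.predAbove q = 0 := by
    rw [hq, map_sub, pmap_sg, pmap_sg, Fin.predAbove_castSucc_self, Fin.predAbove_succ_self,
      sub_self]
  rw [hR]
  simp only [pow_two, Derivation.leibniz, smul_eq_mul, map_sub, map_add, map_mul, h0]
  ring

theorem TT_Dis_swap (n : ℕ) (p : Fin n) (F : TA k A (Fin (n + 1))) :
    TT (eU (k := k) (A := A)) (n + 1) (pmap (Equiv.swap p.castSucc p.succ)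
      (Dis k A (Fin (n + 1)) * F)) =
      TT (eU (k := k) (A := A)) (n + 1) (Dis k A (Fin (n + 1)) * F) := by
  have := TT_swap n p (Dis k A (Fin (n + 1)) * F)
  rw [contr_Dis, map_zero, sub_eq_zero] at this
  exact this.symm

theorem pmap_mul_perm {ι : Type} [Fintype ι] [DecidableEq ι] (σ τ : Equiv.Perm ι)
    (F : TA k A ι) : pmap ((σ * τ : Equiv.Perm ι) : ι → ι) F = pmap σ (pmap τ F) := by
  rw [pmap_comp]; rfl

theorem perm_induction {n : ℕ} {p : Equiv.Perm (Fin (n + 1)) → Prop} (h1 : p 1)
    (hmul : ∀ σ τ, p σ → p τ → p (σ * τ))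
    (hs : ∀ (i : Fin n), p (Equiv.swap i.castSucc i.succ)) (σ) : p σ := by
  have hσ : σ ∈ Submonoid.closure (Set.range fun i : Fin n => Equiv.swap i.castSucc i.succ) := by
    rw [Equiv.Perm.mclosure_swap_castSucc_succ]; trivial
  induction hσ using Submonoid.closure_induction with
  | mem x hx => obtain ⟨i, rfl⟩ := hx; exact hs i
  | one => exact h1
  | mul x y _ _ hx hy => exact hmul x y hx hy

theorem pmap_one {ι : Type} [Fintype ι] [DecidableEq ι] (F : TA k A ι) :
    pmap ((1 : Equiv.Perm ι) : ι → ι) F = F := pmap_id _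

theorem TT_Dis_perm (d : ℕ) (σ : Equiv.Perm (Fin d)) (F : TA k A (Fin d)) :
    TT (eU (k := k) (A := A)) d (pmap σ (Dis k A (Fin d) * F)) =
      TT (eU (k := k) (A := A)) d (Dis k A (Fin d) * F) := by
  cases d with
  | zero => rw [Subsingleton.elim σ 1, pmap_one]
  | succ n =>
    induction σ using perm_induction generalizing F with
    | h1 => rw [pmap_one]
    | hmul σ τ h h' =>
      rw [pmap_mul_perm, map_mul (pmap (k := k) (A := A) τ), pmap_Dis, h]
      rw [← h' F, map_mul (pmap (k := k) (A := A) τ), pmap_Dis]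
    | hs i => exact TT_Dis_swap n i F

/-- the filtration of the enveloping algebra: words of length `< d` -/
def filt (k A : Type u) [Field k] [CommRing A] [Algebra k A] [WAlg k A] (d : ℕ) :
    Submodule k (UW k A) :=
  ⨆ j : Fin d, LinearMap.range (TT (eU (k := k) (A := A)) j)

theorem TT_mem_filt {d j : ℕ} (h : j < d) (F : TA k A (Fin j)) :
    TT (eU (k := k) (A := A)) j F ∈ filt k A d :=
  le_iSup (fun j : Fin d => LinearMap.range (TT (eU (k := k) (A := A)) j)) ⟨j, h⟩ ⟨F, rfl⟩

theorem filt_mono {d d' : ℕ} (h : d ≤ d') : filt k A d ≤ filt k A d' := by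
  refine iSup_le fun j => ?_
  rintro _ ⟨F, rfl⟩
  exact TT_mem_filt (lt_of_lt_of_le j.2 h) F

theorem filt_induction {d : ℕ} {p : UW k A → Prop} (h0 : p 0) (ha : ∀ x y, p x → p y → p (x + y))
    (hT : ∀ j < d, ∀ F, p (TT (eU (k := k) (A := A)) j F)) (x : UW k A) (hx : x ∈ filt k A d) :
    p x := by
  induction hx using Submodule.iSup_induction' with
  | mem i x hx => obtain ⟨F, rfl⟩ := hx; exact hT i i.2 F
  | zero => exact h0
  | add x y _ _ hx hy => exact ha x y hx hy

theorem TT_perm (d : ℕ) (σ : Equiv.Perm (Fin d)) (F : TA k A (Fin d)) :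
    TT (eU (k := k) (A := A)) d F - TT (eU (k := k) (A := A)) d (pmap σ F) ∈ filt k A d := by
  cases d with
  | zero => rw [Subsingleton.elim σ 1, pmap_one, sub_self]; exact zero_mem _
  | succ n =>
    induction σ using perm_induction generalizing F with
    | h1 => rw [pmap_one, sub_self]; exact zero_mem _
    | hmul σ τ h h' =>
      have h1 := h' F
      have h2 := h (pmap τ F)
      rw [pmap_mul_perm]
      have := add_mem h1 h2
      rwa [sub_add_sub_cancel] at this
    | hs i =>
      rw [TT_swap (k := k) (A := A) n i F]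
      exact TT_mem_filt (Nat.lt_succ_self n) _

theorem eU_mul_filt (f : A) (d : ℕ) (x : UW k A) (hx : x ∈ filt k A d) :
    eU f * x ∈ filt k A (d + 1) := by
  refine filt_induction (p := fun x => eU f * x ∈ filt k A (d + 1)) ?_ ?_ ?_ x hx
  · rw [mul_zero]; exact zero_mem _
  · intro x y hx hy; rw [mul_add]; exact add_mem hx hy
  · intro j hj F
    induction F using TA_induction with
    | h0 g =>
      have : eU f * TT (eU (k := k) (A := A)) j (tp k g) =
          TT (eU (k := k) (A := A)) (j + 1) (tp k (Fin.cons f g)) := by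
        rw [TT_tp, TT_tp, List.ofFn_succ, List.prod_cons]
        simp
      rw [this]
      exact TT_mem_filt (Nat.succ_lt_succ hj) _
    | hs c x hx => rw [map_smul, mul_smul_comm]; exact Submodule.smul_mem _ _ hx
    | ha x y hx hy => rw [map_add, mul_add]; exact add_mem hx hy

theorem filt_exhaust (x : UW k A) : ∃ d, x ∈ filt k A d := by
  induction x using UW_induction with
  | h1 =>
    refine ⟨1, ?_⟩
    have : (1 : UW k A) = TT (eU (k := k) (A := A)) 0 (tp k (fun _ => 1)) := by
      rw [TT_tp]; simp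
    rw [this]
    exact TT_mem_filt Nat.zero_lt_one _
  | hadd x y hx hy =>
    obtain ⟨d, hd⟩ := hx
    obtain ⟨d', hd'⟩ := hy
    exact ⟨max d d', add_mem (filt_mono (le_max_left _ _) hd) (filt_mono (le_max_right _ _) hd')⟩
  | hsmul c x hx =>
    obtain ⟨d, hd⟩ := hx
    exact ⟨d, Submodule.smul_mem _ _ hd⟩
  | hmul f x hx =>
    obtain ⟨d, hd⟩ := hx
    exact ⟨d + 1, eU_mul_filt f d x hd⟩

theorem filt_succ {d : ℕ} {x : UW k A} (hx : x ∈ filt k A (d + 1)) :
    ∃ F : TA k A (Fin d), x - TT (eU (k := k) (A := A)) d F ∈ filt k A d := by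
  refine filt_induction (p := fun x => ∃ F : TA k A (Fin d),
    x - TT (eU (k := k) (A := A)) d F ∈ filt k A d) ?_ ?_ ?_ x hx
  · exact ⟨0, by simp⟩
  · rintro x y ⟨F, hF⟩ ⟨G, hG⟩
    refine ⟨F + G, ?_⟩
    rw [map_add, add_sub_add_comm]
    exact add_mem hF hG
  · intro j hj F
    rcases Nat.lt_or_eq_of_le (Nat.lt_succ_iff.1 hj) with h | h
    · exact ⟨0, by rw [map_zero, sub_zero]; exact TT_mem_filt h F⟩
    · subst h
      exact ⟨F, by rw [sub_self]; exact zero_mem _⟩

end Swap

section Main

variable {k : Type u} {A : Type u} [Field k] [CommRing A] [Algebra k A] [WAlg k A]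

theorem smul_memT {R : Type*} [Ring R] [Algebra k R] (J : TwoSidedIdeal R) (c : k) {x : R}
    (hx : x ∈ J) : c • x ∈ J := by
  rw [Algebra.smul_def]; exact J.mul_mem_left _ _ hx

theorem mem_of_zsmul [CharZero k] {R : Type*} [Ring R] [Algebra k R] (J : TwoSidedIdeal R) (z : ℤ)
    (hz : z ≠ 0) {x : R} (hx : z • x ∈ J) : x ∈ J := by
  have h1 : x = ((z : k)⁻¹) • (z • x) := by
    rw [← Int.cast_smul_eq_zsmul k z x, smul_smul, inv_mul_cancel₀ (by exact_mod_cast hz), one_smul]
  rw [h1]
  exact smul_memT J _ hx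

theorem sum_memT {R : Type*} [Ring R] (J : TwoSidedIdeal R) {ι : Type*} (s : Finset ι)
    (f : ι → R) (h : ∀ i ∈ s, f i ∈ J) : ∑ i ∈ s, f i ∈ J := by
  classical
  induction s using Finset.induction_on with
  | empty => rw [Finset.sum_empty]; exact J.zero_mem
  | insert a s ha ih =>
    rw [Finset.sum_insert ha]
    exact J.add_mem (h a (Finset.mem_insert_self a s))
      (ih fun i hi => h i (Finset.mem_insert_of_mem hi))

theorem zsmul_one_apply {M : Type*} [AddCommGroup M] [Module k M] (z : ℤ) (x : M) :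
    (z • (1 : Module.End k M)) x = z • x := by
  simp

theorem kill_filt (hV : SpecBlockV.{u}) (d : ℕ) (μ : Fin d → ℕ) (x : UW k A)
    (hx : x ∈ filt k A d) : ∃ N0, ∀ N ≥ N0, ∀ G,
      adU k A (TB (eU (k := k) (A := A)) d (F0 k A μ N * G)) x = 0 := by
  refine filt_induction (p := fun x => ∃ N0, ∀ N ≥ N0, ∀ G,
      adU k A (TB (eU (k := k) (A := A)) d (F0 k A μ N * G)) x = 0) ?_ ?_ ?_ x hx
  · exact ⟨0, fun N _ G => map_zero _⟩
  · rintro x y ⟨N, hN⟩ ⟨N', hN'⟩
    refine ⟨max N N', fun M hM G => ?_⟩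
    rw [map_add, hN M (le_trans (le_max_left _ _) hM), hN' M (le_trans (le_max_right _ _) hM),
      add_zero]
  · intro j hj F
    obtain ⟨N0, hN0⟩ := hV k A _ j _ (adData k A j) d μ hj
    refine ⟨N0, fun N hN G => ?_⟩
    rw [adU_TT, hom_TB, hN0 N hN G, LinearMap.zero_apply, map_zero]

theorem main_mem [CharZero k] (hV : SpecBlockV.{u}) (hM : SpecBlockM.{u})
    (J : TwoSidedIdeal (UW k A)) (d : ℕ) (F : TA k A (Fin d))
    (hF : ∀ σ : Equiv.Perm (Fin d), pmap σ F = F) (l : UW k A) (hl : l ∈ filt k A d)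
    (hu : TT (eU (k := k) (A := A)) d F + l ∈ J) :
    ∃ M : ℕ, ∀ a, TT (eU (k := k) (A := A)) d (Dis k A (Fin d) ^ (M + 1) * (a * F)) ∈ J := by
  obtain ⟨N1, hN1⟩ := kill_filt hV d (fun i : Fin d => mu ((fun _ => 2 : Fin d → ℕ) i)) l hl
  obtain ⟨N2, hN2⟩ := hM k A _ d _ (adData k A d) (fun _ => by norm_num)
  set N := max N1 N2 + 1 with hN
  refine ⟨4 * N - 1, fun a => ?_⟩
  have h4 : 4 * N - 1 + 1 = 4 * N := by omega
  have h1 := hN1 N (by omega) (pmap (fun i : Fin d => (i, (0 : Fin 2))) a)
  have h2 := hN2 N (by omega) (pmap (fun i : Fin d => (i, (0 : Fin 2))) a)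
  have h3 := adU_mem J (TB (eU (k := k) (A := A)) d
    (F0 k A (fun i : Fin d => mu ((fun _ => 2 : Fin d → ℕ) i)) N *
      pmap (fun i : Fin d => (i, (0 : Fin 2))) a)) _ hu
  rw [map_add, h1, add_zero, adU_TT, hom_TB, h2, LinearMap.sum_apply, map_sum] at h3
  have h5 : ∀ h : stab (fun _ => 2 : Fin d → ℕ), TT (eU (k := k) (A := A)) d
      (((adData k A d).τ (Dis k A (Fin d) ^ (4 * N) *
        pmap (fun p : Fin d × Fin 2 => (h : Equiv.Perm (Fin d)) p.1)
          (pmap (fun i : Fin d => (i, (0 : Fin 2))) a)) * (adData k A d).cc) F) =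
      ((-4 : ℤ) ^ d) • TT (eU (k := k) (A := A)) d (Dis k A (Fin d) ^ (4 * N) * (a * F)) := by
    intro h
    rw [adData_cc, Module.End.mul_apply, zsmul_one_apply, pmap_comp]
    have e1 : ∀ x : TA k A (Fin d), (adData k A d).τ (Dis k A (Fin d) ^ (4 * N) *
        pmap ((fun p : Fin d × Fin 2 => (h : Equiv.Perm (Fin d)) p.1) ∘
          (fun i : Fin d => (i, (0 : Fin 2)))) a) x =
        Dis k A (Fin d) ^ (4 * N) * pmap (h : Equiv.Perm (Fin d)) a * x := fun x => rfl
    rw [e1, mul_smul_comm, map_zsmul]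
    congr 1
    have e2 : Dis k A (Fin d) ^ (4 * N) * pmap (h : Equiv.Perm (Fin d)) a * F =
        pmap (h : Equiv.Perm (Fin d)) (Dis k A (Fin d) * (Dis k A (Fin d) ^ (4 * N - 1) * (a * F))) := by
      simp only [map_mul, map_pow, pmap_Dis, hF]
      rw [← h4, pow_succ, h4]
      ring
    rw [e2, TT_Dis_perm]
    congr 1
    rw [← mul_assoc, ← pow_succ', h4]
  rw [Finset.sum_congr rfl fun h _ => h5 h, Finset.sum_const, ← natCast_zsmul, smul_smul] at h3
  rw [h4]
  refine mem_of_zsmul (k := k) J _ ?_ h3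
  have : (Finset.univ : Finset (stab (fun _ => 2 : Fin d → ℕ))).card ≠ 0 := by
    rw [Finset.card_univ]
    exact Fintype.card_ne_zero
  positivity

/-- nonzero ideals of a polynomial ring stable under the partial derivatives -/
theorem mv_ideal [CharZero k] {σ : Type} (I : Ideal (MvPolynomial σ k))
    (hI : ∀ i, ∀ q ∈ I, MvPolynomial.pderiv i q ∈ I) (q : MvPolynomial σ k) (hq : q ∈ I)
    (h0 : q ≠ 0) : (1 : MvPolynomial σ k) ∈ I := by
  classical
  induction hn : q.totalDegree using Nat.strong_induction_on generalizing q with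
  | _ n ih =>
    rcases Nat.eq_zero_or_pos n with h | h
    · subst h
      have h1 := MvPolynomial.totalDegree_eq_zero_iff_eq_C.1 hn
      have h2 : MvPolynomial.coeff 0 q ≠ 0 := by
        intro h; rw [h, map_zero] at h1; exact h0 h1
      have h3 := I.mul_mem_left (MvPolynomial.C (MvPolynomial.coeff 0 q)⁻¹) hq
      rw [h1, MvPolynomial.coeff_C, if_pos rfl, ← map_mul, inv_mul_cancel₀ h2, map_one] at h3
      exact h3
    · have h1 : ∃ s ∈ q.support, ∃ i, s i ≠ 0 := by
        by_contra hcon
        push Not at hcon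
        have : q.totalDegree = 0 := by
          rw [MvPolynomial.totalDegree_eq_zero_iff]
          intro m hm x
          exact hcon m hm x
        omega
      obtain ⟨s, hs, i, hi⟩ := h1
      have h2 : MvPolynomial.pderiv i q ≠ 0 := by
        intro h
        have h3 := MvPolynomial.coeff_pderiv (i := i) q (s - Finsupp.single i 1)
        have h4 : s - Finsupp.single i 1 + Finsupp.single i 1 = s := by
          ext j
          by_cases hj : j = i
          · subst hj; simp; omega
          · simp [Finsupp.single_apply, Ne.symm hj]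
        rw [h, MvPolynomial.coeff_zero, h4] at h3
        have h5 := MvPolynomial.mem_support_iff.1 hs
        have h6 : ((((s - Finsupp.single i 1 : σ →₀ ℕ)) i : ℕ) : k) + 1 ≠ 0 := by
          generalize ((s - Finsupp.single i 1 : σ →₀ ℕ)) i = w
          exact_mod_cast Nat.succ_ne_zero w
        first
        | exact (mul_ne_zero h5 h6) h3.symm
        | exact (mul_ne_zero h6 h5) h3.symm
      refine ih (MvPolynomial.pderiv i q).totalDegree ?_ _ (hI i q hq) h2 rfl
      rw [MvPolynomial.totalDegree, Finset.sup_lt_iff (by simpa using h)]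
      intro m hm
      have h3 := MvPolynomial.coeff_pderiv (i := i) q m
      have h4 : MvPolynomial.coeff (m + Finsupp.single i 1) q ≠ 0 := by
        intro h4
        rw [h4] at h3
        apply MvPolynomial.mem_support_iff.1 hm
        rw [h3]; simp
      have h5 := MvPolynomial.le_totalDegree (MvPolynomial.mem_support_iff.2 h4)
      rw [hn] at h5
      have h6 : (m + Finsupp.single i 1).sum (fun _ e => e) = m.sum (fun _ e => e) + 1 := by
        rw [Finsupp.sum_add_index' (fun _ => rfl) (fun _ _ _ => rfl)]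
        simp
      omega

section FinalIdeal

variable {ι : Type} [Fintype ι] [DecidableEq ι]

/-- evaluation of polynomials at the coordinates -/
def evT (k A : Type u) [Field k] [CommRing A] [Algebra k A] [WAlg k A] (ι : Type) [Fintype ι]
    [DecidableEq ι] : MvPolynomial ι k →ₐ[k] TA k A ι :=
  MvPolynomial.aeval fun i => sg k i (XX k A)

theorem evT_X (i : ι) : evT k A ι (MvPolynomial.X i) = sg k i (XX k A) := by simp [evT]

theorem der_evT (i : ι) (q : MvPolynomial ι k) :
    der k A i (evT k A ι q) = evT k A ι (MvPolynomial.pderiv i q) := by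
  induction q using MvPolynomial.induction_on with
  | C a =>
    rw [MvPolynomial.pderiv_C, map_zero]
    have : evT k A ι (MvPolynomial.C a) = algebraMap k _ a := by
      simp [evT]
    rw [this, Derivation.map_algebraMap]
  | add p q hp hq => rw [map_add, map_add, map_add, map_add, hp, hq]
  | mul_X p j hp =>
    rw [map_mul, Derivation.leibniz, Derivation.leibniz, hp, MvPolynomial.pderiv_X, evT_X, der_sg]
    simp only [smul_eq_mul, map_add, map_mul, evT_X, WAlg.DX, XX]
    by_cases h : i = j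
    · subst h; simp
    · simp [h, Pi.single_apply, Ne.symm h]

/-- every function is a quotient of a polynomial by an invertible polynomial -/
theorem exists_poly (x : TA k A ι) : ∃ v q : MvPolynomial ι k, IsUnit (evT k A ι v) ∧
    evT k A ι v * x = evT k A ι q := by
  let B : Subalgebra k (TA k A ι) :=
    { carrier := {x | ∃ v q : MvPolynomial ι k, IsUnit (evT k A ι v) ∧
        evT k A ι v * x = evT k A ι q}
      mul_mem' := by
        rintro x y ⟨v, q, hv, hq⟩ ⟨v', q', hv', hq'⟩
        refine ⟨v * v', q * q', ?_, ?_⟩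
        · rw [map_mul]; exact hv.mul hv'
        · rw [map_mul, map_mul, ← hq, ← hq']; ring
      add_mem' := by
        rintro x y ⟨v, q, hv, hq⟩ ⟨v', q', hv', hq'⟩
        refine ⟨v * v', v' * q + v * q', ?_, ?_⟩
        · rw [map_mul]; exact hv.mul hv'
        · rw [map_mul, map_add, map_mul, map_mul, ← hq, ← hq']; ring
      algebraMap_mem' := by
        intro c
        refine ⟨1, MvPolynomial.C c, ?_, ?_⟩
        · rw [map_one]; exact isUnit_one
        · rw [map_one, one_mul]; simp [evT] }
  have hB : ∀ (i : ι) (f : A), sg k i f ∈ B := by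
    intro i f
    let C : Submodule k A := B.toSubmodule.comap (sg k i).toLinearMap
    have hC : C = ⊤ := by
      apply WAlg.ind (k := k)
      · change sg k i 1 ∈ B
        rw [map_one]; exact B.one_mem
      · intro f hf
        change sg k i (XX k A * f) ∈ B
        rw [map_mul]
        refine B.mul_mem ⟨1, MvPolynomial.X i, ?_, ?_⟩ hf
        · rw [map_one]; exact isUnit_one
        · rw [map_one, one_mul, evT_X]
      · rintro hX f ⟨v, q, hv, hq⟩
        refine ⟨v * MvPolynomial.X i, q, ?_, ?_⟩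
        · rw [map_mul, evT_X]; exact hv.mul (hX.map (sg k i))
        · rw [← hq, map_mul, evT_X]
          change _ = _ * sg k i (XX k A * f)
          rw [map_mul, mul_assoc]
          rfl
    have : f ∈ C := by rw [hC]; trivial
    exact this
  have h1 : x ∈ B := by
    have h2 : Algebra.adjoin k (⋃ i : ι, Set.range (sg k (A := A) i)) ≤ B := by
      rw [Algebra.adjoin_le_iff]
      intro y hy
      obtain ⟨i, hi⟩ := Set.mem_iUnion.1 hy
      obtain ⟨f, rfl⟩ := hi
      exact hB i f
    rw [TA_adjoin] at h2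
    exact h2 trivial
  exact h1

theorem ideal_one [CharZero k] (I : Ideal (TA k A ι)) (hI : ∀ i, ∀ x ∈ I, der k A i x ∈ I)
    (x : TA k A ι) (hx : x ∈ I) (h0 : x ≠ 0) : (1 : TA k A ι) ∈ I := by
  obtain ⟨v, q, hv, hq⟩ := exists_poly x
  have h1 := mv_ideal (I.comap (evT k A ι)) (by
    intro i q hq
    rw [Ideal.mem_comap] at hq ⊢
    rw [← der_evT]
    exact hI i _ hq) q (by
    rw [Ideal.mem_comap, ← hq]
    exact I.mul_mem_left _ hx) (by
    rintro rfl
    rw [map_zero] at hq
    exact h0 ((IsUnit.mul_right_eq_zero hv).1 hq))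
  rw [Ideal.mem_comap, map_one] at h1
  exact h1

end FinalIdeal

theorem tot_apply' (d : ℕ) (f : A) (G : TA k A (Fin d)) :
    (adData k A d).tot f G = Dv k f G - (∑ i, sg k i (dd k f)) * G := by
  rw [PData.tot_apply, LinearMap.sum_apply, Dv_apply, Finset.sum_mul, ← Finset.sum_sub_distrib]
  rfl

theorem prod_dvd_Dis (d : ℕ) (i : Fin d) :
    ∏ l ∈ Finset.univ.erase i, (sg k i (XX k A) - sg k l (XX k A)) ∣ Dis k A (Fin d) := by
  have h1 : ((Finset.univ.erase i).map ⟨fun l => (i, l), fun a b h => (Prod.mk.inj h).2⟩) ⊆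
      (Finset.univ : Finset (Fin d)).offDiag := by
    intro x hx
    simp only [Finset.mem_map, Finset.mem_erase, Finset.mem_univ, and_true,
      Function.Embedding.coeFn_mk] at hx
    obtain ⟨l, hl, rfl⟩ := hx
    rw [Finset.mem_offDiag]
    exact ⟨Finset.mem_univ _, Finset.mem_univ _, Ne.symm hl⟩
  have h2 := Finset.prod_dvd_prod_of_subset _ _
    (fun p : Fin d × Fin d => (sg k p.1 (XX k A) - sg k p.2 (XX k A))) h1
  rw [Finset.prod_map] at h2
  exact h2

theorem lagrange (d : ℕ) (nn : Ideal (TA k A (Fin d)))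
    (hnn : ∀ (f : A), ∀ G ∈ nn, Dv k f G ∈ nn) (i : Fin d) (G : TA k A (Fin d)) (hG : G ∈ nn) :
    (∏ l ∈ Finset.univ.erase i, (sg k i (XX k A) - sg k l (XX k A))) * der k A i G ∈ nn := by
  set P : Polynomial (TA k A (Fin d)) :=
    ∏ l ∈ Finset.univ.erase i, (Polynomial.X - Polynomial.C (sg k l (XX k A))) with hP
  have h1 : ∑ m ∈ Finset.range (P.natDegree + 1), P.coeff m * Dv k (XX k A ^ m) G ∈ nn :=
    sum_mem fun m _ => nn.mul_mem_left _ (hnn _ G hG)
  have h2 : ∑ m ∈ Finset.range (P.natDegree + 1), P.coeff m * Dv k (XX k A ^ m) G =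
      ∑ j, P.eval (sg k j (XX k A)) * der k A j G := by
    simp only [Dv_apply, Finset.mul_sum, Polynomial.eval_eq_sum_range, Finset.sum_mul]
    rw [Finset.sum_comm]
    refine Finset.sum_congr rfl fun j _ => Finset.sum_congr rfl fun m _ => ?_
    rw [map_pow, mul_assoc]
  rw [h2, Finset.sum_eq_single i] at h1
  · rw [hP, Polynomial.eval_prod] at h1
    simpa using h1
  · intro j _ hj
    rw [hP, Polynomial.eval_prod, Finset.prod_eq_zero (Finset.mem_erase.2 ⟨hj, Finset.mem_univ j⟩),
      zero_mul]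
    simp
  · simp

end Main

end Thm1

open Thm1 in
/-- Module B. -/
theorem specThm1 (hV : SpecBlockV.{u}) (hM : SpecBlockM.{u}) : SpecThm1.{u} := by
  classical
  intro k A _ _ _ _ _ J hJ
  -- a nonzero element of `J` in the smallest possible step of the filtration
  have hex : ∃ D, ∃ u ∈ J, u ≠ 0 ∧ u ∈ filt k A D := by
    by_contra hcon
    push Not at hcon
    apply hJ
    ext x
    rw [TwoSidedIdeal.mem_bot]
    constructor
    · intro hx
      by_contra h0
      obtain ⟨d, hd⟩ := filt_exhaust x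
      exact hcon d x hx h0 hd
    · rintro rfl; exact J.zero_mem
  obtain ⟨u, huJ, hu0, huD⟩ := Nat.find_spec hex
  have hmin : ∀ D < Nat.find hex, ∀ u ∈ J, u ∈ filt k A D → u = 0 := by
    intro D hD u hu hu'
    by_contra h0
    exact Nat.find_min hex hD ⟨u, hu, h0, hu'⟩
  have hD0 : Nat.find hex ≠ 0 := by
    intro h
    rw [h] at huD
    apply hu0
    rw [filt, iSup_of_empty] at huD
    exact (Submodule.mem_bot k).1 huD
  obtain ⟨d, hd⟩ := Nat.exists_eq_succ_of_ne_zero hD0
  rw [hd] at huD hmin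
  obtain ⟨F0, hF0⟩ := filt_succ huD
  -- symmetrize
  set F : TA k A (Fin d) := ∑ σ : Equiv.Perm (Fin d), pmap σ F0 with hF
  have hFs : ∀ σ : Equiv.Perm (Fin d), pmap σ F = F := by
    intro σ
    rw [hF, map_sum]
    simp only [← pmap_mul_perm]
    exact Fintype.sum_equiv (Equiv.mulLeft σ) _ _ (fun τ => rfl)
  set c : ℕ := Fintype.card (Equiv.Perm (Fin d)) with hc
  have hc0 : (c : ℤ) ≠ 0 := by exact_mod_cast Fintype.card_ne_zero
  have h1 : (c : ℤ) • TT (eU (k := k) (A := A)) d F0 - TT (eU (k := k) (A := A)) d F ∈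
      filt k A d := by
    rw [hF, map_sum, natCast_zsmul, hc, ← Finset.card_univ, ← Finset.sum_const,
      ← Finset.sum_sub_distrib]
    exact sum_mem fun σ _ => TT_perm d σ F0
  set u' : UW k A := (c : ℤ) • u with hu'
  have h2 : u' - TT (eU (k := k) (A := A)) d F ∈ filt k A d := by
    have h3 : (c : ℤ) • (u - TT (eU (k := k) (A := A)) d F0) ∈ filt k A d := zsmul_mem hF0 _
    have h4 := add_mem h3 h1
    rwa [smul_sub, sub_add_sub_cancel] at h4
  have hu'J : u' ∈ J := by
    rw [hu', ← Int.cast_smul_eq_zsmul k]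
    exact smul_memT J _ huJ
  have hu'0 : u' ≠ 0 := by
    rw [hu', ← Int.cast_smul_eq_zsmul k]
    exact smul_ne_zero (by exact_mod_cast hc0) hu0
  have hFne : F ≠ 0 := by
    intro h
    rw [h, map_zero, sub_zero] at h2
    exact hu'0 (hmin d (Nat.lt_succ_self d) u' hu'J h2)
  obtain ⟨M, hM'⟩ := main_mem hV hM J d F hFs (u' - TT (eU (k := k) (A := A)) d F) h2 (by
    rw [add_sub_cancel]; exact hu'J)
  -- the ideal of the functions all whose multiples give words in `J`
  let nn : Ideal (TA k A (Fin d)) :=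
    { carrier := {G | ∀ a, TT (eU (k := k) (A := A)) d (a * G) ∈ J}
      add_mem' := by
        intro x y hx hy a
        rw [mul_add, map_add]; exact J.add_mem (hx a) (hy a)
      zero_mem' := by
        intro a
        rw [mul_zero, map_zero]; exact J.zero_mem
      smul_mem' := by
        intro b x hx a
        rw [smul_eq_mul, ← mul_assoc]; exact hx _ }
  have hnn : ∀ (f : A), ∀ G ∈ nn, Dv k f G ∈ nn := by
    intro f G hG a
    have h3 := ad_TT f d (a * G)
    have h4 : eU f * TT (eU (k := k) (A := A)) d (a * G) -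
        TT (eU (k := k) (A := A)) d (a * G) * eU f ∈ J :=
      J.sub_mem (J.mul_mem_left _ _ (hG a)) (J.mul_mem_right _ _ (hG a))
    rw [h3, tot_apply', Derivation.leibniz, map_sub, map_add] at h4
    have h5 : TT (eU (k := k) (A := A)) d (G • Dv k f a) ∈ J := by
      rw [smul_eq_mul, mul_comm]; exact hG _
    have h6 : TT (eU (k := k) (A := A)) d ((∑ i, sg k i (dd k f)) * (a * G)) ∈ J := by
      rw [← mul_assoc]; exact hG _
    have h7 := J.sub_mem (J.add_mem h4 h6) h5
    rw [sub_add_cancel, add_sub_cancel_right] at h7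
    exact h7
  let nn' : Ideal (TA k A (Fin d)) :=
    { carrier := {G | ∃ m, Dis k A (Fin d) ^ m * G ∈ nn}
      add_mem' := by
        rintro x y ⟨m, hm⟩ ⟨m', hm'⟩
        refine ⟨m + m', ?_⟩
        have : Dis k A (Fin d) ^ (m + m') * (x + y) =
            Dis k A (Fin d) ^ m' * (Dis k A (Fin d) ^ m * x) +
            Dis k A (Fin d) ^ m * (Dis k A (Fin d) ^ m' * y) := by ring
        rw [this]
        exact nn.add_mem (nn.mul_mem_left _ hm) (nn.mul_mem_left _ hm')
      zero_mem' := ⟨0, by rw [mul_zero]; exact nn.zero_mem⟩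
      smul_mem' := by
        rintro b x ⟨m, hm⟩
        refine ⟨m, ?_⟩
        rw [smul_eq_mul, mul_left_comm]
        exact nn.mul_mem_left _ hm }
  have hnn' : ∀ i, ∀ x ∈ nn', der k A i x ∈ nn' := by
    rintro i x ⟨m, hm⟩
    have h3 := nn.mul_mem_left (Dis k A (Fin d)) (lagrange d nn hnn i _ hm)
    set H := ∏ l ∈ Finset.univ.erase i, (sg k i (XX k A) - sg k l (XX k A)) with hH
    obtain ⟨R, hR⟩ := prod_dvd_Dis (k := k) (A := A) d i
    rw [← hH] at hR
    have h4 : Dis k A (Fin d) * (H * der k A i (Dis k A (Fin d) ^ m * x)) =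
        H * Dis k A (Fin d) ^ (m + 1) * der k A i x +
        (H * (m * der k A i (Dis k A (Fin d)))) * (Dis k A (Fin d) ^ m * x) := by
      rw [Derivation.leibniz, Derivation.leibniz_pow]
      simp only [smul_eq_mul, nsmul_eq_mul]
      rcases Nat.eq_zero_or_pos m with h | h
      · subst h; simp; ring
      · obtain ⟨l, rfl⟩ := Nat.exists_eq_succ_of_ne_zero h.ne'
        simp only [Nat.succ_sub_one, Nat.succ_eq_add_one, Nat.cast_add, Nat.cast_one,
          Nat.add_sub_cancel]
        ring
    rw [h4] at h3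
    have h5 : H * Dis k A (Fin d) ^ (m + 1) * der k A i x ∈ nn := by
      have := nn.sub_mem h3 (nn.mul_mem_left (H * (m * der k A i (Dis k A (Fin d)))) hm)
      rwa [add_sub_cancel_right] at this
    refine ⟨m + 2, ?_⟩
    have h6 : Dis k A (Fin d) ^ (m + 2) * der k A i x =
        R * (H * Dis k A (Fin d) ^ (m + 1) * der k A i x) := by
      rw [pow_succ (n := m + 1)]
      nth_rewrite 2 [hR]
      ring
    rw [h6]
    exact nn.mul_mem_left _ h5
  have hFnn : F ∈ nn' := by
    refine ⟨M + 1, ?_⟩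
    intro a
    have : a * (Dis k A (Fin d) ^ (M + 1) * F) = Dis k A (Fin d) ^ (M + 1) * (a * F) := by ring
    rw [this]
    exact hM' a
  obtain ⟨m, hm⟩ := ideal_one nn' hnn' F hFnn hFne
  refine ⟨d, m, fun G => ?_⟩
  have := hm G
  rwa [mul_one, mul_comm] at this

end MPcc24
end
end

section
set_option linter.all false

/-!
# Complete primeness of prime ideals of `U(W_{-1})` and `U(W)`: Lemmas T and M
-/

noncomputable section

open scoped TensorProduct BigOperators

namespace MPcc24

universe u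

namespace Trace

section ad

variable {k S : Type u} [Field k] [Ring S] [Algebra k S]

/-- the commutator with an element -/
def adl (k : Type u) {S : Type u} [Field k] [Ring S] [Algebra k S] (t : S) : Module.End k S :=
  LinearMap.mulLeft k t - LinearMap.mulRight k t

theorem adl_apply (t x : S) : adl k t x = t * x - x * t := rfl

theorem adl_mul (t x y : S) : adl k t (x * y) = adl k t x * y + x * adl k t y := by
  simp only [adl_apply]; noncomm_ring

theorem iter_mul (t : S) : ∀ (m a b : ℕ) (x y : S), a + b ≤ m + 1 → (adl k t ^ a) x = 0 →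
    (adl k t ^ b) y = 0 → (adl k t ^ m) (x * y) = 0 := by
  intro m
  induction m with
  | zero =>
    intro a b x y hab hx hy
    have : a = 0 ∨ b = 0 := by omega
    rcases this with h | h
    · subst h; simp only [pow_zero, Module.End.one_apply] at hx; simp [hx]
    · subst h; simp only [pow_zero, Module.End.one_apply] at hy; simp [hy]
  | succ m ih =>
    intro a b x y hab hx hy
    rcases Nat.eq_zero_or_pos a with h | ha
    · subst h; simp only [pow_zero, Module.End.one_apply] at hx; simp [hx]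
    rcases Nat.eq_zero_or_pos b with h | hb
    · subst h; simp only [pow_zero, Module.End.one_apply] at hy; simp [hy]
    obtain ⟨a, rfl⟩ := Nat.exists_eq_succ_of_ne_zero ha.ne'
    obtain ⟨b, rfl⟩ := Nat.exists_eq_succ_of_ne_zero hb.ne'
    rw [pow_succ, Module.End.mul_apply, adl_mul, map_add]
    have hx' := hx
    have hy' := hy
    rw [Nat.succ_eq_add_one, pow_succ, Module.End.mul_apply] at hx' hy'
    rw [ih a (b + 1) (adl k t x) y (by omega) hx' hy, ih (a + 1) b x (adl k t y) (by omega) hx hy',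
      add_zero]

theorem iter_le (t : S) {m m' : ℕ} (h : m ≤ m') {x : S} (hx : (adl k t ^ m) x = 0) :
    (adl k t ^ m') x = 0 := by
  obtain ⟨c, rfl⟩ := Nat.exists_eq_add_of_le' h
  rw [pow_add, Module.End.mul_apply, hx, map_zero]

/-- the elements on which the commutator with `t` is nilpotent -/
def nilAlg (k : Type u) {S : Type u} [Field k] [Ring S] [Algebra k S] (t : S) :
    Subalgebra k S where
  carrier := {x | ∃ m, (adl k t ^ m) x = 0}
  mul_mem' := by
    rintro x y ⟨a, ha⟩ ⟨b, hb⟩
    exact ⟨a + b, iter_mul t (a + b) a b x y (by omega) ha hb⟩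
  add_mem' := by
    rintro x y ⟨a, ha⟩ ⟨b, hb⟩
    refine ⟨a + b, ?_⟩
    rw [map_add, iter_le t (by omega) ha, iter_le t (by omega) hb, add_zero]
  algebraMap_mem' := by
    intro c
    refine ⟨1, ?_⟩
    rw [pow_one, adl_apply, Algebra.commutes, sub_self]

theorem mem_nilAlg_of_commute {t x : S} (h : t * x = x * t) : x ∈ nilAlg k t :=
  ⟨1, by rw [pow_one, adl_apply, h, sub_self]⟩

theorem adl_iter_mem (t : S) (I : TwoSidedIdeal S) (m : ℕ) {x : S} (hx : x ∈ I) :
    (adl k t ^ m) x ∈ I := by
  induction m with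
  | zero => simpa using hx
  | succ m ih =>
    rw [pow_succ', Module.End.mul_apply, adl_apply]
    exact I.sub_mem (I.mul_mem_left _ _ ih) (I.mul_mem_right _ _ ih)

theorem adl_iter_comm (t w : S) (h : t * w = w * t) (m : ℕ) (x : S) :
    (adl k t ^ m) (w * x) = w * (adl k t ^ m) x := by
  induction m generalizing x with
  | zero => simp
  | succ m ih =>
    rw [pow_succ, Module.End.mul_apply, adl_mul, adl_apply, h, sub_self, zero_mul, zero_add, ih,
      Module.End.mul_apply]

/-- `L_{t'} - R_t` is injective modulo an ideal if `t' - t` is a unit commuting with `t` and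
`ad t` is locally nilpotent -/
theorem good_op (t t' : S) (hc : t * t' = t' * t) (hu : IsUnit (t' - t)) (I : TwoSidedIdeal S)
    {z : S} (hn : ∃ m, (adl k t ^ m) z = 0) (hz : z ∉ I) : t' * z - z * t ∉ I := by
  classical
  intro hw
  have hn' : ∃ m, (adl k t ^ m) z ∈ I := by
    obtain ⟨m, hm⟩ := hn
    exact ⟨m, by rw [hm]; exact I.zero_mem⟩
  have h0 : Nat.find hn' ≠ 0 := by
    intro h
    have := Nat.find_spec hn'
    rw [h, pow_zero] at this
    exact hz this
  obtain ⟨m, hm⟩ := Nat.exists_eq_succ_of_ne_zero h0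
  have h1 : (adl k t ^ (m + 1)) z ∈ I := by
    have := Nat.find_spec hn'
    rwa [hm] at this
  have h2 : (adl k t ^ m) z ∉ I := Nat.find_min hn' (by omega)
  have h3 : (t' - t) * (adl k t ^ m) z ∈ I := by
    have e : t' * z - z * t = (t' - t) * z + adl k t z := by rw [adl_apply]; noncomm_ring
    have h4 := adl_iter_mem (k := k) t I m hw
    rw [e, map_add, adl_iter_comm t (t' - t) (by rw [mul_sub, sub_mul, hc])] at h4
    have h5 : (adl k t ^ m) (adl k t z) = (adl k t ^ (m + 1)) z := by
      rw [pow_succ, Module.End.mul_apply]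
    rw [h5] at h4
    have := I.sub_mem h4 h1
    rwa [add_sub_cancel_right] at this
  obtain ⟨v, hv⟩ := hu.exists_left_inv
  have h6 := I.mul_mem_left v _ h3
  rw [← mul_assoc, hv, one_mul] at h6
  exact h2 h6

end ad

section main

variable {k A S : Type u} [Field k] [CommRing A] [Algebra k A] [WAlg k A]
  [Ring S] [Algebra k S] {r : ℕ} {n : Fin r → ℕ} (dat : PData k A r n S)

theorem τ_comm (a b : TA k A (Fin r)) : dat.τ a * dat.τ b = dat.τ b * dat.τ a := by
  rw [← map_mul, mul_comm, map_mul]

include dat in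
theorem nilp (hinv : dat.Inv) (hgen : dat.Gen) (i : Fin r) (y : S) :
    ∃ m, (adl k (dat.t i) ^ m) y = 0 := by
  have h := hgen (nilAlg k (dat.t i)) ?_ ?_ ?_
  · have : y ∈ nilAlg k (dat.t i) := by rw [h]; trivial
    exact this
  · intro a
    exact mem_nilAlg_of_commute (τ_comm dat _ _)
  · intro j f
    refine ⟨2, ?_⟩
    have e1 := dat.eτ j i f (XX k A)
    rw [pow_two, Module.End.mul_apply]
    have e2 : adl k (dat.t i) (dat.e j f) =
        -(if j = i then dat.τ (sg k j (f * dd k (XX k A))) else 0) := by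
      rw [← e1, adl_apply]; simp [PData.t]
    rw [e2]
    split_ifs
    · rw [map_neg, adl_apply, PData.t, τ_comm, sub_self, neg_zero]
    · simp
  · intro a b hab s hs
    obtain ⟨v, hv⟩ := hinv a b hab
    have h1 : s = ↑v⁻¹ := by
      rw [← hv] at hs
      calc s = s * (v * ↑v⁻¹) := by rw [v.mul_inv, mul_one]
        _ = ↑v⁻¹ := by rw [← mul_assoc, hs, one_mul]
    refine mem_nilAlg_of_commute ?_
    have h2 : Commute (dat.t i) (v : S) := by
      rw [hv]; exact τ_comm dat _ _
    rw [h1]
    exact h2.units_inv_right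

variable {dat} (H : HAct dat)

theorem act_hom (h : stab n) (u : UW k A) : H.act h (dat.hom u) = dat.hom u := by
  have : (H.act h).comp dat.hom = dat.hom := by
    apply UW_hom_ext
    intro f
    rw [AlgHom.comp_apply, PData.hom, liftE_eU, PData.tot_apply, map_sum]
    simp only [H.act_e]
    exact Equiv.sum_comp (h : Equiv.Perm (Fin r)) (fun i => dat.e i f)
  exact DFunLike.congr_fun this u

theorem act_mul (g h : stab n) (s : S) : H.act (g * h) s = H.act g (H.act h s) := by
  rw [map_mul]; rfl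

theorem act_one (s : S) : H.act 1 s = s := by
  rw [map_one]; rfl

/-- the right multiplications -/
def Rop (g : stab n) : TA k A (Fin r) →ₐ[k] Module.End k S where
  toFun a := LinearMap.mulRight k (H.act g (dat.τ a))
  map_one' := by ext x; simp
  map_mul' a b := by
    ext x
    rw [Module.End.mul_apply, LinearMap.mulRight_apply, LinearMap.mulRight_apply,
      LinearMap.mulRight_apply, mul_assoc, ← map_mul, ← map_mul, mul_comm a b]
  map_zero' := by ext x; simp
  map_add' a b := by ext x; simp [mul_add]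
  commutes' c := by
    ext x
    rw [LinearMap.mulRight_apply, AlgHom.commutes, AlgHom.commutes, ← Algebra.commutes,
      ← Algebra.smul_def]
    rfl

/-- the bimultiplications -/
def rho (g : stab n) : TA k A (Fin r) ⊗[k] TA k A (Fin r) →ₐ[k] Module.End k S :=
  Algebra.TensorProduct.lift ((Algebra.lmul k S).comp dat.τ) (Rop H g) (by
    intro a b
    show _ * _ = _ * _
    ext x
    show dat.τ a * (x * H.act g (dat.τ b)) = dat.τ a * x * H.act g (dat.τ b)
    rw [mul_assoc])

theorem rho_tmul (g : stab n) (a b : TA k A (Fin r)) (x : S) :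
    rho H g (a ⊗ₜ b) x = dat.τ a * x * H.act g (dat.τ b) := by
  rw [rho, Algebra.TensorProduct.lift_tmul]
  show dat.τ a * (x * H.act g (dat.τ b)) = dat.τ a * x * H.act g (dat.τ b)
  rw [mul_assoc]

/-- the trace -/
def tr (z : S) : S := ∑ h : stab n, H.act h z

theorem tr_inv (z : S) : H.IsInv (tr H z) := by
  intro g
  rw [tr, map_sum]
  simp only [← act_mul]
  exact Equiv.sum_comp (Equiv.mulLeft g) (fun h => H.act h z)

theorem tr_add (z w : S) : tr H (z + w) = tr H z + tr H w := by
  simp [tr, Finset.sum_add_distrib]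

/-- the set of all products -/
def CC (y : S) : Set S := {x | ∃ a b, H.IsInv a ∧ H.IsInv b ∧ x = a * y * b}

theorem key_trace {y : S} (hy : H.IsInv y) (u v : S) (g : stab n)
    (ω : TA k A (Fin r) ⊗[k] TA k A (Fin r)) :
    (∑ h : stab n, ∑ h' : stab n, H.act h u *
      H.act (h * g) (rho H ((h * g)⁻¹ * (h' * g)) ω y) * H.act h' v) ∈
      AddSubmonoid.closure (CC H y) := by
  induction ω using TensorProduct.induction_on with
  | zero => simp
  | add ω ω' h1 h2 =>
    have := add_mem h1 h2
    convert this using 1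
    rw [← Finset.sum_add_distrib]
    refine Finset.sum_congr rfl fun h _ => ?_
    rw [← Finset.sum_add_distrib]
    refine Finset.sum_congr rfl fun h' _ => ?_
    rw [map_add, LinearMap.add_apply, map_add, mul_add, add_mul]
  | tmul a b =>
    refine AddSubmonoid.subset_closure ⟨tr H (u * H.act g (dat.τ a)),
      tr H (H.act g (dat.τ b) * v), tr_inv H _, tr_inv H _, ?_⟩
    rw [tr, tr, Finset.sum_mul, Finset.sum_mul_sum]
    refine Finset.sum_congr rfl fun h _ => Finset.sum_congr rfl fun h' _ => ?_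
    have e1 : H.act (h * g) (H.act ((h * g)⁻¹ * (h' * g)) (dat.τ b)) =
        H.act h' (H.act g (dat.τ b)) := by
      rw [← act_mul, mul_inv_cancel_left, act_mul]
    have e2 : H.act (h * g) (dat.τ a) = H.act h (H.act g (dat.τ a)) := act_mul H _ _ _
    rw [rho_tmul, map_mul (H.act (h * g)), map_mul (H.act (h * g)), e1, e2, hy,
      map_mul (H.act h), map_mul (H.act h')]
    simp only [mul_assoc]


theorem CC_smul {y : S} (c : k) {x : S} (hx : x ∈ AddSubmonoid.closure (CC H y)) :
    c • x ∈ AddSubmonoid.closure (CC H y) := by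
  induction hx using AddSubmonoid.closure_induction with
  | mem x hx =>
    obtain ⟨a, b, ha, hb, rfl⟩ := hx
    refine AddSubmonoid.subset_closure ⟨c • a, b, fun h => ?_, hb, ?_⟩
    · rw [map_smul, ha]
    · rw [smul_mul_assoc, smul_mul_assoc]
  | zero => rw [smul_zero]; exact zero_mem _
  | add x y _ _ hx hy => rw [smul_add]; exact add_mem hx hy

/-- if the bimultiplications by `ω` attached to `g ≠ 1` kill `y` then all the traces of the
elements of the ideal generated by `x = ω y` are in `closure (CC y)` -/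
theorem trace_mem {y : S} (hy : H.IsInv y) (ω : TA k A (Fin r) ⊗[k] TA k A (Fin r))
    (hω : ∀ g : stab n, g ≠ 1 → rho H g ω y = 0) (u v : S) (g : stab n) :
    tr H (u * H.act g (rho H 1 ω y) * v) ∈ AddSubmonoid.closure (CC H y) := by
  have h1 := key_trace H hy u v g ω
  convert h1 using 1
  rw [tr]
  refine Finset.sum_congr rfl fun h _ => ?_
  rw [Finset.sum_eq_single h]
  · rw [inv_mul_cancel, act_mul, map_mul (H.act h), map_mul (H.act h)]
  · intro h' _ hh
    rw [hω, map_zero, mul_zero, zero_mul]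
    intro h2
    apply hh
    have h3 : h * g = h' * g := by rwa [inv_mul_eq_one] at h2
    exact (mul_right_cancel h3).symm
  · intro h2; exact absurd (Finset.mem_univ _) h2


/-- the factor of `ω` attached to a permutation -/
def fac (k A : Type u) [Field k] [CommRing A] [Algebra k A] [WAlg k A] {r : ℕ} {n : Fin r → ℕ}
    (s : stab n) : TA k A (Fin r) ⊗[k] TA k A (Fin r) := by
  classical
  exact if h : ∃ i, (s : Equiv.Perm (Fin r)) i ≠ i then
    (sg k ((s : Equiv.Perm (Fin r)) h.choose) (XX k A)) ⊗ₜ[k] (1 : TA k A (Fin r)) -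
      (1 : TA k A (Fin r)) ⊗ₜ[k] (sg k h.choose (XX k A)) else 1

theorem exists_moved {s : stab n} (hs : s ≠ 1) : ∃ i, (s : Equiv.Perm (Fin r)) i ≠ i := by
  by_contra hcon
  push Not at hcon
  exact hs (Subtype.ext (Equiv.ext hcon))

theorem rho_fac (g s : stab n) (h : ∃ i, (s : Equiv.Perm (Fin r)) i ≠ i) (x : S) :
    rho H g (fac k A s) x =
      dat.t ((s : Equiv.Perm (Fin r)) h.choose) * x -
        x * dat.t ((g : Equiv.Perm (Fin r)) h.choose) := by
  unfold fac
  rw [dif_pos h, map_sub, LinearMap.sub_apply, rho_tmul, rho_tmul, map_one, map_one,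
    mul_one, one_mul, H.act_τ, pmap_sg]
  rfl

/-- `ω` -/
def om (k A : Type u) [Field k] [CommRing A] [Algebra k A] [WAlg k A] {r : ℕ} (n : Fin r → ℕ)
    (K : ℕ) : TA k A (Fin r) ⊗[k] TA k A (Fin r) := ∏ s : stab n, fac k A s ^ K

theorem rho_pow_fac (g : stab n) (hg : g ≠ 1) (K : ℕ) {y : S}
    (hK : ∀ i, (adl k (dat.t i) ^ K) y = 0) : rho H g (fac k A g ^ K) y = 0 := by
  have h := exists_moved hg
  have e : rho H g (fac k A g) = adl k (dat.t ((g : Equiv.Perm (Fin r)) h.choose)) := by
    ext x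
    rw [rho_fac H g g h, adl_apply]
  rw [map_pow, e]
  exact hK _

theorem rho_om (K : ℕ) {y : S} (hK : ∀ i, (adl k (dat.t i) ^ K) y = 0) (g : stab n)
    (hg : g ≠ 1) : rho H g (om k A n K) y = 0 := by
  classical
  rw [om, ← Finset.prod_erase_mul _ _ (Finset.mem_univ g), map_mul, Module.End.mul_apply,
    rho_pow_fac H g hg K hK, map_zero]

/-- the elements preserving the complement of `I` -/
def goodM (I : TwoSidedIdeal S) : Submonoid (TA k A (Fin r) ⊗[k] TA k A (Fin r)) where
  carrier := {c | ∀ z, z ∉ I → rho H 1 c z ∉ I}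
  mul_mem' := by
    intro a b ha hb z hz
    rw [map_mul, Module.End.mul_apply]
    exact ha _ (hb _ hz)
  one_mem' := by
    intro z hz
    rw [map_one, Module.End.one_apply]
    exact hz

theorem rho_om_notMem (hinv : dat.Inv) (hgen : dat.Gen) (I : TwoSidedIdeal S) (K : ℕ) {y : S}
    (hy : y ∉ I) : rho H 1 (om k A n K) y ∉ I := by
  have h : om k A n K ∈ goodM H I := by
    refine Submonoid.prod_mem _ fun s _ => Submonoid.pow_mem _ ?_ _
    by_cases hs : ∃ i, (s : Equiv.Perm (Fin r)) i ≠ i
    · intro z hz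
      rw [rho_fac H 1 s hs]
      have e : dat.t (((1 : stab n) : Equiv.Perm (Fin r)) hs.choose) = dat.t hs.choose := rfl
      rw [e]
      refine good_op (k := k) _ _ (τ_comm dat _ _) ?_ I (nilp dat hinv hgen _ _) hz
      have h1 := hinv _ _ hs.choose_spec
      rw [map_sub] at h1
      exact h1
    · unfold fac
      rw [dif_neg hs]
      exact Submonoid.one_mem _
  exact h y hy

/-- the ideal generated by the orbit of `x` -/
def XX0 (x : S) : AddSubmonoid S :=
  AddSubmonoid.closure {z | ∃ (u v : S) (h : stab n), z = u * H.act h x * v}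

theorem XX0_mul_left {x : S} (a : S) {z : S} (hz : z ∈ XX0 H x) : a * z ∈ XX0 H x := by
  induction hz using AddSubmonoid.closure_induction with
  | mem z hz =>
    obtain ⟨u, v, h, rfl⟩ := hz
    exact AddSubmonoid.subset_closure ⟨a * u, v, h, by simp only [mul_assoc]⟩
  | zero => rw [mul_zero]; exact zero_mem _
  | add z w _ _ hz hw => rw [mul_add]; exact add_mem hz hw

theorem XX0_mul_right {x : S} (a : S) {z : S} (hz : z ∈ XX0 H x) : z * a ∈ XX0 H x := by
  induction hz using AddSubmonoid.closure_induction with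
  | mem z hz =>
    obtain ⟨u, v, h, rfl⟩ := hz
    exact AddSubmonoid.subset_closure ⟨u, v * a, h, by simp only [mul_assoc]⟩
  | zero => rw [zero_mul]; exact zero_mem _
  | add z w _ _ hz hw => rw [add_mul]; exact add_mem hz hw

theorem XX0_neg {x : S} {z : S} (hz : z ∈ XX0 H x) : -z ∈ XX0 H x := by
  have := XX0_mul_left H (-1) hz
  rwa [neg_one_mul] at this

theorem XX0_act {x : S} (g : stab n) {z : S} (hz : z ∈ XX0 H x) : H.act g z ∈ XX0 H x := by
  induction hz using AddSubmonoid.closure_induction with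
  | mem z hz =>
    obtain ⟨u, v, h, rfl⟩ := hz
    refine AddSubmonoid.subset_closure ⟨H.act g u, H.act g v, g * h, ?_⟩
    rw [map_mul (H.act g), map_mul (H.act g), act_mul]
  | zero => rw [map_zero]; exact zero_mem _
  | add z w _ _ hz hw => rw [map_add]; exact add_mem hz hw

/-- the sum of `I` and the ideal generated by the orbit of `x` -/
def JJ (I : TwoSidedIdeal S) (x : S) : TwoSidedIdeal S :=
  TwoSidedIdeal.mk' {z | ∃ a ∈ I, ∃ b ∈ XX0 H x, z = a + b}
    ⟨0, I.zero_mem, 0, zero_mem _, by simp⟩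
    (by
      rintro _ _ ⟨a, ha, b, hb, rfl⟩ ⟨a', ha', b', hb', rfl⟩
      exact ⟨a + a', I.add_mem ha ha', b + b', add_mem hb hb', by abel⟩)
    (by
      rintro _ ⟨a, ha, b, hb, rfl⟩
      exact ⟨-a, I.neg_mem ha, -b, XX0_neg H hb, by abel⟩)
    (by
      rintro c _ ⟨a, ha, b, hb, rfl⟩
      exact ⟨c * a, I.mul_mem_left _ _ ha, c * b, XX0_mul_left H _ hb, by rw [mul_add]⟩)
    (by
      rintro _ c ⟨a, ha, b, hb, rfl⟩
      exact ⟨a * c, I.mul_mem_right _ _ ha, b * c, XX0_mul_right H _ hb, by rw [add_mul]⟩)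

theorem mem_JJ {I : TwoSidedIdeal S} {x z : S} :
    z ∈ JJ H I x ↔ ∃ a ∈ I, ∃ b ∈ XX0 H x, z = a + b := by
  unfold JJ
  exact TwoSidedIdeal.mem_mk' _ _ _ _ _ _ _

theorem lt_JJ {I : TwoSidedIdeal S} {x : S} (hx : x ∉ I) : I < JJ H I x := by
  rw [lt_iff_le_not_ge]
  constructor
  · intro z hz
    exact (mem_JJ H).2 ⟨z, hz, 0, zero_mem _, by simp⟩
  · intro h
    apply hx
    apply h
    refine (mem_JJ H).2 ⟨0, I.zero_mem, x, ?_, by simp⟩
    exact AddSubmonoid.subset_closure ⟨1, 1, 1, by rw [act_one, one_mul, mul_one]⟩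

/-- products of elements of `J` not in `P` -/
theorem exists_prod {P : TwoSidedIdeal (UW k A)} (hP : PrimeT P) {I : TwoSidedIdeal S} {x : S}
    {u : UW k A} (hu : u ∉ P) (huJ : dat.hom u ∈ JJ H I x) (l : Finset (stab n)) :
    ∃ w, w ∉ P ∧ ∃ q, (∀ g ∈ l, H.act g q ∈ I) ∧ ∃ b ∈ XX0 H x, dat.hom w = q + b := by
  classical
  induction l using Finset.induction_on with
  | empty =>
    exact ⟨1, hP.1, 1, by simp, 0, zero_mem _, by rw [map_one, add_zero]⟩
  | insert g l hg ih =>
    obtain ⟨w, hw, q, hq, b, hb, hwq⟩ := ih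
    obtain ⟨a, ha, c, hc, hac⟩ := (mem_JJ H).1 huJ
    have h1 : dat.hom u = H.act g⁻¹ a + H.act g⁻¹ c := by
      rw [← map_add, ← hac, act_hom]
    obtain ⟨v, hv⟩ : ∃ v, w * v * u ∉ P := by
      by_contra hcon
      push Not at hcon
      rcases hP.2 w u hcon with h | h
      · exact hw h
      · exact hu h
    refine ⟨w * v * u, hv, q * dat.hom v * H.act g⁻¹ a, ?_,
      q * dat.hom v * H.act g⁻¹ c + b * (dat.hom v * dat.hom u), ?_, ?_⟩
    · intro g' hg'
      rw [map_mul (H.act g'), map_mul (H.act g')]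
      rcases Finset.mem_insert.1 hg' with h | h
      · subst h
        refine I.mul_mem_left _ _ ?_
        rw [← act_mul, mul_inv_cancel, act_one]
        exact ha
      · exact I.mul_mem_right _ _ (I.mul_mem_right _ _ (hq g' h))
    · exact add_mem (XX0_mul_left H _ (XX0_act H _ hc)) (XX0_mul_right H _ hb)
    · rw [map_mul, map_mul, hwq, h1]
      noncomm_ring

end main

end Trace

/-- F2 (Lemmas T and M) -/
theorem specTrace : SpecTrace.{u} := by
  intro k A S _ _ _ _ _ _ _ r n dat hinv hgen H P hP I hI hmax y hy hyI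
  -- the exponent
  have hK : ∃ K, ∀ i, (Trace.adl k (dat.t i) ^ K) y = 0 := by
    choose f hf using fun i => Trace.nilp dat hinv hgen i y
    exact ⟨∑ i, f i, fun i => Trace.iter_le _ (Finset.single_le_sum (fun _ _ => Nat.zero_le _)
      (Finset.mem_univ i)) (hf i)⟩
  obtain ⟨K, hK⟩ := hK
  set ω := Trace.om k A n K with hω
  set x := Trace.rho H 1 ω y with hx
  have hxI : x ∉ I := Trace.rho_om_notMem H hinv hgen I K hyI
  have htr : ∀ b ∈ Trace.XX0 H x, Trace.tr H b ∈ AddSubmonoid.closure (Trace.CC H y) := by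
    intro b hb
    induction hb using AddSubmonoid.closure_induction with
    | mem z hz =>
      obtain ⟨u, v, h, rfl⟩ := hz
      exact Trace.trace_mem H hy ω (Trace.rho_om H K hK) u v h
    | zero => simp [Trace.tr]
    | add z w _ _ hz hw => rw [Trace.tr_add]; exact add_mem hz hw
  obtain ⟨u, hu, huJ⟩ := hmax _ (Trace.lt_JJ H hxI)
  obtain ⟨w, hw, q, hq, b, hb, hwq⟩ := Trace.exists_prod H hP hu huJ Finset.univ
  set c : k := ((Fintype.card (stab n) : ℕ) : k)⁻¹ with hc
  have hc1 : c * (Fintype.card (stab n) : ℕ) = 1 := by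
    rw [hc]
    refine inv_mul_cancel₀ ?_
    exact_mod_cast Fintype.card_ne_zero
  refine ⟨w, hw, c • Trace.tr H b, Trace.CC_smul H c (htr b hb), ?_⟩
  have h1 : dat.hom w = c • Trace.tr H (dat.hom w) := by
    rw [Trace.tr]
    simp only [Trace.act_hom]
    rw [Finset.sum_const, Finset.card_univ, ← Nat.cast_smul_eq_nsmul k, smul_smul, hc1, one_smul]
  have h2 : dat.hom w - c • Trace.tr H b = c • Trace.tr H q := by
    rw [h1, hwq, Trace.tr_add, smul_add, add_sub_cancel_right]
  rw [h2, Algebra.smul_def]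
  refine I.mul_mem_left _ _ ?_
  rw [Trace.tr]
  exact sum_mem fun g _ => hq g (Finset.mem_univ g)

end MPcc24
end
end
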