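import Pool.Agent.Lib.MP_cc24ba_al.Spec

set_option linter.all false

/-!
# The enveloping algebra is a domain
-/

noncomputable section

open scoped TensorProduct BigOperators

namespace MPcc24

namespace UDom

universe u

section gen

variable {k : Type*} {E : Type*} [Field k] [Ring E] [Algebra k E]

variable (k) in
/-- the inner derivation `x ↦ x t - t x` -/
def dl (t : E) : Module.End k E := LinearMap.mulRight k t - LinearMap.mulLeft k t

theorem dl_apply (t x : E) : dl k t x = x * t - t * x := rfl

theorem dl_mul (t x y : E) : dl k t (x * y) = dl k t x * y + x * dl k t y := by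
  simp only [dl_apply]; noncomm_ring

theorem dl_comm {t s : E} (h : Commute t s) : Commute (dl k t) (dl k s) := by
  change dl k t * dl k s = dl k s * dl k t
  ext x
  simp only [Module.End.mul_apply, dl_apply]
  have h' : t * s = s * t := h
  have e1 : x * s * t = x * t * s := by rw [mul_assoc, ← h', mul_assoc]
  have e2 : t * (s * x) = s * (t * x) := by rw [← mul_assoc, h', mul_assoc]
  rw [sub_mul, mul_sub, sub_mul, mul_sub, e1, e2]
  simp only [mul_assoc]
  abel

theorem dl_pow_mul (t : E) : ∀ (n a b : ℕ) (x y : E), a + b = n → (dl k t ^ (a + 1)) x = 0 →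
    (dl k t ^ (b + 1)) y = 0 →
    (dl k t ^ n) (x * y) = (n.choose a) • ((dl k t ^ a) x * (dl k t ^ b) y) := by
  intro n
  induction n with
  | zero =>
    intro a b x y hab hx hy
    obtain rfl : a = 0 := by omega
    obtain rfl : b = 0 := by omega
    simp
  | succ n ih =>
    intro a b x y hab hx hy
    have e : ∀ z : E, ∀ m : ℕ, (dl k t ^ (m + 1)) z = (dl k t ^ m) (dl k t z) := fun z m => by
      rw [pow_succ, Module.End.mul_apply]
    rw [e, dl_mul, map_add]
    rcases a with _ | a
    · obtain rfl : b = n + 1 := by omega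
      have hx' : dl k t x = 0 := by simpa using hx
      rw [hx', zero_mul, map_zero, zero_add, ih 0 n x (dl k t y) (by omega) (by simpa using hx')
        (by rw [← e]; exact hy), e]
      simp
    · rcases b with _ | b
      · obtain rfl : a = n := by omega
        have hy' : dl k t y = 0 := by simpa using hy
        rw [hy', mul_zero, map_zero, add_zero, ih a 0 (dl k t x) y (by omega)
          (by rw [← e]; exact hx) (by simpa using hy'), e]
        simp
      · rw [ih a (b + 1) (dl k t x) y (by omega) (by rw [← e]; exact hx) hy,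
          ih (a + 1) b x (dl k t y) (by omega) hx (by rw [← e]; exact hy), ← e, ← e,
          Nat.choose_succ_succ, add_smul]

theorem exists_last (D : Module.End k E) (x : E) (hx : x ≠ 0) (h : ∃ N, (D ^ N) x = 0) :
    ∃ a, (D ^ a) x ≠ 0 ∧ (D ^ (a + 1)) x = 0 := by
  classical
  have h0 : Nat.find h ≠ 0 := by
    intro h0
    have := Nat.find_spec h
    rw [h0] at this
    exact hx (by simpa using this)
  obtain ⟨a, ha⟩ := Nat.exists_eq_succ_of_ne_zero h0
  refine ⟨a, Nat.find_min h (by omega), ?_⟩
  have := Nat.find_spec h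
  rwa [ha] at this

theorem reduce [CharZero k] {ι : Type*} (t : ι → E) (ht : ∀ i j, Commute (t i) (t j))
    (x y : E) (hx : x ≠ 0) (hy : y ≠ 0) (hxy : x * y = 0)
    (hx' : ∀ i, ∃ N, (dl k (t i) ^ N) x = 0) (hy' : ∀ i, ∃ N, (dl k (t i) ^ N) y = 0)
    (s : Finset ι) : ∃ x' y' : E, x' ≠ 0 ∧ y' ≠ 0 ∧ x' * y' = 0 ∧
      (∀ i, ∃ N, (dl k (t i) ^ N) x' = 0) ∧ (∀ i, ∃ N, (dl k (t i) ^ N) y' = 0) ∧
      ∀ i ∈ s, dl k (t i) x' = 0 ∧ dl k (t i) y' = 0 := by
  classical
  induction s using Finset.induction_on with
  | empty => exact ⟨x, y, hx, hy, hxy, hx', hy', by simp⟩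
  | insert i s his ih =>
    obtain ⟨x1, y1, h1, h2, h3, h4, h5, h6⟩ := ih
    obtain ⟨a, ha1, ha2⟩ := exists_last _ x1 h1 (h4 i)
    obtain ⟨b, hb1, hb2⟩ := exists_last _ y1 h2 (h5 i)
    have hc : ∀ j (N m : ℕ) (z : E), (dl k (t j) ^ N) z = 0 →
        (dl k (t j) ^ N) ((dl k (t i) ^ m) z) = 0 := by
      intro j N m z hz
      have hcm : Commute (dl k (t j) ^ N) (dl k (t i) ^ m) :=
        (dl_comm (ht j i)).pow_pow N m
      have := LinearMap.congr_fun hcm.eq z
      rw [Module.End.mul_apply, Module.End.mul_apply] at this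
      rw [this, hz, map_zero]
    refine ⟨(dl k (t i) ^ a) x1, (dl k (t i) ^ b) y1, ha1, hb1, ?_, ?_, ?_, ?_⟩
    · have := dl_pow_mul (k := k) (t i) (a + b) a b x1 y1 rfl ha2 hb2
      rw [h3, map_zero] at this
      have hne : ((a + b).choose a : k) ≠ 0 := by
        exact_mod_cast (Nat.choose_pos (Nat.le_add_right a b)).ne'
      rw [← Nat.cast_smul_eq_nsmul k] at this
      exact (smul_eq_zero.1 this.symm).resolve_left hne
    · intro j
      obtain ⟨N, hN⟩ := h4 j
      exact ⟨N, hc j N a x1 hN⟩
    · intro j
      obtain ⟨N, hN⟩ := h5 j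
      exact ⟨N, hc j N b y1 hN⟩
    · intro j hj
      rcases Finset.mem_insert.1 hj with rfl | hj
      · constructor
        · rw [← Module.End.mul_apply, ← pow_succ']; exact ha2
        · rw [← Module.End.mul_apply, ← pow_succ']; exact hb2
      · have hh := h6 j hj
        constructor
        · have := hc j 1 a x1 (by simpa using hh.1)
          simpa using this
        · have := hc j 1 b y1 (by simpa using hh.2)
          simpa using this

end gen

section rep

variable {k A : Type u} [Field k] [CommRing A] [Algebra k A] [WAlg k A]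

variable (k A) in
/-- the multiplication operators -/
abbrev Mo (r : ℕ) : TA k A (Fin r) →ₐ[k] Module.End k (TA k A (Fin r)) :=
  Algebra.lmul k (TA k A (Fin r))

theorem Mo_apply {r : ℕ} (a b : TA k A (Fin r)) : Mo k A r a b = a * b := rfl

variable (k A) in
/-- the vector fields as operators -/
def eD (r : ℕ) : A →ₗ[k] Module.End k (TA k A (Fin r)) where
  toFun f := (Dv k f : Derivation k (TA k A (Fin r)) (TA k A (Fin r))).toLinearMap
  map_add' f g := by
    refine LinearMap.ext fun x => ?_
    change Dv k (f + g) x = Dv k f x + Dv k g x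
    simp only [Dv_apply, map_add, add_mul, Finset.sum_add_distrib]
  map_smul' c f := by
    refine LinearMap.ext fun x => ?_
    change Dv k (c • f) x = c • Dv k f x
    simp only [Dv_apply, map_smul, smul_mul_assoc, Finset.smul_sum]

theorem eD_apply {r : ℕ} (f : A) (x : TA k A (Fin r)) : eD k A r f x = Dv k f x := rfl

theorem eD_isE (r : ℕ) : IsE (eD k A r) := by
  intro f g
  have h : ⁅(Dv k f : Derivation k (TA k A (Fin r)) (TA k A (Fin r))), Dv k g⁆ =
      (Dv k (wbr k f g) : Derivation k (TA k A (Fin r)) (TA k A (Fin r))) := by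
    apply TA_der_ext
    intro i h
    rw [Derivation.commutator_apply, Dv_sg, Dv_sg, Dv_sg, Dv_sg, Dv_sg, ← map_sub]
    refine congrArg (sg k i) ?_
    simp only [wbr, Derivation.leibniz, smul_eq_mul]
    ring
  refine LinearMap.ext fun x => ?_
  have := congrArg (fun d : Derivation k (TA k A (Fin r)) (TA k A (Fin r)) => d x) h
  simp only [Derivation.commutator_apply] at this
  exact this

variable (k A) in
/-- the representation on functions of `r` variables -/
def rho (r : ℕ) : UW k A →ₐ[k] Module.End k (TA k A (Fin r)) := liftE (eD k A r) (eD_isE r)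

variable (k A) in
/-- the coordinates -/
def tt (r : ℕ) (i : Fin r) : Module.End k (TA k A (Fin r)) := Mo k A r (sg k i (XX k A))

theorem tt_comm {r : ℕ} (i j : Fin r) : Commute (tt k A r i) (tt k A r j) := by
  change _ * _ = _ * _
  rw [tt, tt, ← map_mul, ← map_mul, mul_comm]

theorem dl_Mo {r : ℕ} (i : Fin r) (a : TA k A (Fin r)) : dl k (tt k A r i) (Mo k A r a) = 0 := by
  rw [dl_apply, tt, ← map_mul, ← map_mul, mul_comm, sub_self]

theorem dl_eD {r : ℕ} (i : Fin r) (f : A) :
    dl k (tt k A r i) (eD k A r f) = Mo k A r (sg k i f) := by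
  refine LinearMap.ext fun x => ?_
  rw [dl_apply]
  change Dv k f (sg k i (XX k A) * x) - sg k i (XX k A) * Dv k f x = sg k i f * x
  rw [Derivation.leibniz, Dv_sg, WAlg.DX]
  simp only [smul_eq_mul, mul_one]
  ring

theorem locnilp {r : ℕ} (i : Fin r) (u : UW k A) :
    ∃ N, (dl k (tt k A r i) ^ N) (rho k A r u) = 0 := by
  induction u using UW_induction with
  | h1 =>
    refine ⟨1, ?_⟩
    rw [pow_one, map_one, dl_apply]; simp
  | hadd x y hx hy =>
    obtain ⟨N, hN⟩ := hx
    obtain ⟨M, hM⟩ := hy
    refine ⟨N + M, ?_⟩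
    rw [map_add, map_add]
    have h1 : (dl k (tt k A r i) ^ (N + M)) (rho k A r x) = 0 := by
      rw [add_comm, pow_add, Module.End.mul_apply, hN, map_zero]
    have h2 : (dl k (tt k A r i) ^ (N + M)) (rho k A r y) = 0 := by
      rw [pow_add, Module.End.mul_apply, hM, map_zero]
    rw [h1, h2, add_zero]
  | hsmul c x hx =>
    obtain ⟨N, hN⟩ := hx
    exact ⟨N, by rw [map_smul, map_smul, hN, smul_zero]⟩
  | hmul f x hx =>
    obtain ⟨N, hN⟩ := hx
    refine ⟨N + 1, ?_⟩
    rw [map_mul, rho, liftE_eU]
    change (dl k (tt k A r i) ^ (N + 1)) (eD k A r f * rho k A r x) = 0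
    have h1 : ∀ (m : ℕ) (z : Module.End k (TA k A (Fin r))),
        (dl k (tt k A r i) ^ m) (Mo k A r (sg k i f) * z) =
          Mo k A r (sg k i f) * (dl k (tt k A r i) ^ m) z := by
      intro m
      induction m with
      | zero => intro z; simp
      | succ m ih =>
        intro z
        rw [pow_succ, Module.End.mul_apply, dl_mul, dl_Mo, zero_mul, zero_add, ih,
          Module.End.mul_apply]
    have h2 : ∀ (m : ℕ) (z : Module.End k (TA k A (Fin r))),
        (dl k (tt k A r i) ^ (m + 1)) (eD k A r f * z) =
          eD k A r f * (dl k (tt k A r i) ^ (m + 1)) z +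
            (m + 1) • (Mo k A r (sg k i f) * (dl k (tt k A r i) ^ m) z) := by
      intro m
      induction m with
      | zero => intro z; simp [dl_mul, dl_eD]; abel
      | succ m ih =>
        intro z
        rw [pow_succ', Module.End.mul_apply, ih, map_add, dl_mul, dl_eD, map_nsmul,
          ← Module.End.mul_apply, ← pow_succ', dl_mul, dl_Mo, zero_mul, zero_add,
          ← Module.End.mul_apply, ← pow_succ', add_smul (m + 1) 1, one_smul]
        abel
    rw [h2, hN, pow_succ', Module.End.mul_apply, hN]
    simp

/-- an operator commuting with the coordinates is a multiplication operator -/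
theorem comm_Mo {r : ℕ} (T : Module.End k (TA k A (Fin r)))
    (hT : ∀ i, dl k (tt k A r i) T = 0) : T = Mo k A r (T 1) := by
  have h1 : ∀ (i : Fin r) (f : A), T * Mo k A r (sg k i f) = Mo k A r (sg k i f) * T := by
    intro i
    let B : Submodule k A :=
      { carrier := {f | T * Mo k A r (sg k i f) = Mo k A r (sg k i f) * T}
        add_mem' := fun {a b} ha hb => by
          simp only [Set.mem_setOf_eq] at ha hb ⊢
          rw [map_add, map_add, mul_add, add_mul, ha, hb]
        zero_mem' := by simp
        smul_mem' := fun c x hx => by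
          simp only [Set.mem_setOf_eq] at hx ⊢
          rw [map_smul, map_smul, mul_smul_comm, smul_mul_assoc, hx] }
    have hX : T * Mo k A r (sg k i (XX k A)) = Mo k A r (sg k i (XX k A)) * T := by
      have := hT i
      rw [dl_apply, sub_eq_zero] at this
      exact this
    have hB : B = ⊤ := by
      apply WAlg.ind
      · change T * Mo k A r (sg k i 1) = Mo k A r (sg k i 1) * T
        rw [map_one, map_one, mul_one, one_mul]
      · intro f hf
        change T * Mo k A r (sg k i (XX k A * f)) = Mo k A r (sg k i (XX k A * f)) * T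
        have hf' : T * Mo k A r (sg k i f) = Mo k A r (sg k i f) * T := hf
        rw [map_mul, map_mul, ← mul_assoc, hX, mul_assoc, hf', mul_assoc]
      · intro hu f hf
        have hf' : T * Mo k A r (sg k i (XX k A * f)) = Mo k A r (sg k i (XX k A * f)) * T := hf
        change T * Mo k A r (sg k i f) = Mo k A r (sg k i f) * T
        rw [map_mul, map_mul, ← mul_assoc, hX, mul_assoc, mul_assoc] at hf'
        have hu' : IsUnit (Mo k A r (sg k i (XX k A))) :=
          (hu.map (sg k i)).map (Mo k A r)
        exact hu'.mul_left_cancel hf'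
    intro f
    have : f ∈ B := by rw [hB]; trivial
    exact this
  have h2 : ∀ a : TA k A (Fin r), T * Mo k A r a = Mo k A r a * T := by
    intro a
    induction a using TA_induction with
    | h0 f =>
      rw [tp_eq_prod]
      have : ∀ s : Finset (Fin r), T * Mo k A r (∏ i ∈ s, sg k i (f i)) =
          Mo k A r (∏ i ∈ s, sg k i (f i)) * T := by
        intro s
        classical
        induction s using Finset.induction_on with
        | empty => rw [Finset.prod_empty, map_one, mul_one, one_mul]
        | insert i s his ih =>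
          rw [Finset.prod_insert his, map_mul, ← mul_assoc, h1, mul_assoc, ih, mul_assoc]
      exact this _
    | hs c x hx => rw [map_smul, mul_smul_comm, smul_mul_assoc, hx]
    | ha x y hx hy => rw [map_add, mul_add, add_mul, hx, hy]
  refine LinearMap.ext fun x => ?_
  have := LinearMap.congr_fun (h2 x) 1
  change T (x * 1) = x * T 1 at this
  rw [mul_one] at this
  rw [this, Mo_apply, mul_comm]

theorem rho_dom [CharZero k] (r : ℕ) (hd : IsDomain (TA k A (Fin r))) (x y : UW k A)
    (hx : rho k A r x ≠ 0) (hy : rho k A r y ≠ 0) : rho k A r x * rho k A r y ≠ 0 := by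
  intro h
  obtain ⟨x', y', h1, h2, h3, -, -, h6⟩ := reduce (k := k) (tt k A r) (fun i j => tt_comm i j)
    _ _ hx hy h (fun i => locnilp i x) (fun i => locnilp i y) Finset.univ
  have e1 := comm_Mo x' fun i => (h6 i (Finset.mem_univ _)).1
  have e2 := comm_Mo y' fun i => (h6 i (Finset.mem_univ _)).2
  rw [e1, e2, ← map_mul] at h3
  have h4 : x' 1 * y' 1 = 0 := by
    have := LinearMap.congr_fun h3 1
    simpa [Mo_apply] using this
  rcases mul_eq_zero.1 h4 with h | h
  · rw [h, map_zero] at e1; exact h1 e1
  · rw [h, map_zero] at e2; exact h2 e2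

/-- iterated commutators -/
def dL {r : ℕ} : List (Fin r) → Module.End k (TA k A (Fin r)) → Module.End k (TA k A (Fin r))
  | [], x => x
  | i :: L, x => dl k (tt k A r i) (dL L x)

theorem dL_add {r : ℕ} (L : List (Fin r)) (x y : Module.End k (TA k A (Fin r))) :
    dL L (x + y) = dL L x + dL L y := by
  induction L with
  | nil => rfl
  | cons i L ih => simp only [dL, ih, map_add]

theorem dL_smul {r : ℕ} (L : List (Fin r)) (c : k) (x : Module.End k (TA k A (Fin r))) :
    dL L (c • x) = c • dL L x := by
  induction L with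
  | nil => rfl
  | cons i L ih => simp only [dL, ih, map_smul]

theorem dL_zero {r : ℕ} (L : List (Fin r)) : dL L (0 : Module.End k (TA k A (Fin r))) = 0 := by
  induction L with
  | nil => rfl
  | cons i L ih => simp only [dL, ih, map_zero]

theorem dL_eD_mul {r : ℕ} (f : A) (y : Module.End k (TA k A (Fin r))) :
    ∀ L : List (Fin r), L.Nodup → dL L (eD k A r f * y) = eD k A r f * dL L y +
      ∑ i ∈ L.toFinset, Mo k A r (sg k i f) * dL (L.erase i) y := by
  intro L
  induction L with
  | nil => intro _; simp [dL]
  | cons i L ih =>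
    intro h
    rw [List.nodup_cons] at h
    rw [dL, ih h.2, map_add, dl_mul, dl_eD, map_sum, List.toFinset_cons,
      Finset.sum_insert (by simpa using h.1), List.erase_cons_head, dL]
    have : ∑ x ∈ L.toFinset, dl k (tt k A r i) (Mo k A r (sg k x f) * dL (L.erase x) y) =
        ∑ x ∈ L.toFinset, Mo k A r (sg k x f) * dL ((i :: L).erase x) y := by
      refine Finset.sum_congr rfl fun j hj => ?_
      have hij : i ≠ j := by
        rintro rfl
        exact h.1 (by simpa using hj)
      rw [List.erase_cons_tail (by simpa using hij), dL, dl_mul, dl_Mo, zero_mul, zero_add]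
    rw [this]
    abel

theorem dL_word {r : ℕ} : ∀ (l : List A) (L : List (Fin r)), L.Nodup → l.length < L.length →
    dL L ((l.map (eD k A r)).prod) = 0 := by
  intro l
  induction l with
  | nil =>
    intro L hL hlen
    have h1 : ∀ L : List (Fin r), L ≠ [] → dL L (1 : Module.End k (TA k A (Fin r))) = 0 := by
      intro L
      induction L with
      | nil => intro h; exact absurd rfl h
      | cons i L ih =>
        intro _
        by_cases hL : L = []
        · subst hL
          simp [dL, dl_apply]
        · rw [dL, ih hL, map_zero]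
    simp only [List.map_nil, List.prod_nil]
    apply h1
    rintro rfl
    simp at hlen
  | cons a l ih =>
    intro L hL hlen
    rw [List.map_cons, List.prod_cons, dL_eD_mul _ _ _ hL, ih L hL (by simp at hlen; omega),
      mul_zero, zero_add]
    refine Finset.sum_eq_zero fun i hi => ?_
    rw [ih (L.erase i) (hL.erase i), mul_zero]
    rw [List.length_erase_of_mem (by simpa using hi)]
    simp at hlen
    omega

theorem dL_word_eq {r : ℕ} : ∀ (d : ℕ) (f : Fin d → A) (L : List (Fin r)), L.Nodup →
    L.length = d → dL L (List.ofFn fun i => eD k A r (f i)).prod =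
      Mo k A r (∑ g : Fin d → Fin r with Finset.univ.image g = L.toFinset,
        ∏ j, sg k (g j) (f j)) := by
  intro d
  induction d with
  | zero =>
    intro f L hL hlen
    rw [List.length_eq_zero_iff] at hlen
    subst hlen
    simp only [List.ofFn_zero, List.prod_nil, dL, Finset.univ_eq_empty, Finset.image_empty,
      List.toFinset_nil, Finset.filter_true, Finset.prod_empty, Finset.sum_const,
      Finset.card_univ, Fintype.card_unique, one_smul, map_one]
  | succ d ih =>
    intro f L hL hlen
    rw [List.ofFn_succ, List.prod_cons, dL_eD_mul _ _ _ hL]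
    have h0 : dL L (List.ofFn fun i : Fin d => eD k A r (f i.succ)).prod = 0 := by
      have := dL_word (k := k) (List.ofFn fun i : Fin d => f i.succ) L hL (by simp; omega)
      rw [List.map_ofFn] at this
      exact this
    rw [h0, mul_zero, zero_add]
    have h1 : ∀ i ∈ L.toFinset, Mo k A r (sg k i (f 0)) *
        dL (L.erase i) (List.ofFn fun i : Fin d => eD k A r (f i.succ)).prod =
        Mo k A r (sg k i (f 0) * ∑ g : Fin d → Fin r with
          Finset.univ.image g = L.toFinset.erase i, ∏ j, sg k (g j) (f j.succ)) := by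
      intro i hi
      rw [ih _ _ (hL.erase i), map_mul]
      · congr 3
        ext g
        simp only [Finset.mem_filter, Finset.mem_univ, true_and]
        have : (L.erase i).toFinset = L.toFinset.erase i := by
          ext j
          rw [List.mem_toFinset, hL.mem_erase_iff, Finset.mem_erase, List.mem_toFinset]
        rw [this]
      · rw [List.length_erase_of_mem (by simpa using hi)]
        omega
    rw [Finset.sum_congr rfl h1, ← map_sum]
    congr 1
    have hcard : L.toFinset.card = d + 1 := by
      rw [List.toFinset_card_of_nodup hL, hlen]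
    simp_rw [Finset.mul_sum]
    rw [Finset.sum_filter]
    rw [← (Fin.consEquiv (fun _ : Fin (d + 1) => Fin r)).sum_comp]
    rw [Fintype.sum_prod_type]
    have h2 : ∀ (i : Fin r) (g : Fin d → Fin r),
        Finset.univ.image (Fin.cons i g : Fin (d + 1) → Fin r) = L.toFinset ↔
          i ∈ L.toFinset ∧ Finset.univ.image g = L.toFinset.erase i := by
      intro i g
      have himg : Finset.univ.image (Fin.cons i g : Fin (d + 1) → Fin r) =
          insert i (Finset.univ.image g) := by
        ext j
        simp only [Finset.mem_image, Finset.mem_univ, true_and, Finset.mem_insert]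
        constructor
        · rintro ⟨x, rfl⟩
          refine Fin.cases ?_ (fun x => ?_) x
          · left; simp
          · right; exact ⟨x, by simp⟩
        · rintro (rfl | ⟨x, rfl⟩)
          · exact ⟨0, by simp⟩
          · exact ⟨x.succ, by simp⟩
      rw [himg]
      constructor
      · intro h
        have hi : i ∈ L.toFinset := by rw [← h]; exact Finset.mem_insert_self _ _
        refine ⟨hi, ?_⟩
        have hni : i ∉ Finset.univ.image g := by
          intro hmem
          rw [Finset.insert_eq_of_mem hmem] at h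
          have := Finset.card_image_le (s := (Finset.univ : Finset (Fin d))) (f := g)
          rw [h, hcard, Finset.card_univ, Fintype.card_fin] at this
          omega
        rw [← h, Finset.erase_insert hni]
      · rintro ⟨hi, h⟩
        rw [h, Finset.insert_erase hi]
    have h3 : ∀ (i : Fin r) (g : Fin d → Fin r),
        (if Finset.univ.image ((Fin.consEquiv (fun _ : Fin (d + 1) => Fin r)) (i, g)) =
          L.toFinset then
          ∏ j, sg k ((Fin.consEquiv (fun _ : Fin (d + 1) => Fin r)) (i, g) j) (f j) else 0) =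
        if i ∈ L.toFinset then (if Finset.univ.image g = L.toFinset.erase i then
          sg k i (f 0) * ∏ j, sg k (g j) (f j.succ) else 0) else 0 := by
      intro i g
      have he : (Fin.consEquiv (fun _ : Fin (d + 1) => Fin r)) (i, g) =
        (Fin.cons i g : Fin (d + 1) → Fin r) := rfl
      rw [he, Fin.prod_univ_succ]
      simp only [Fin.cons_zero, Fin.cons_succ]
      simp only [h2, ite_and]
    simp only [h3]
    rw [← Finset.sum_subset (Finset.subset_univ L.toFinset)]
    · refine Finset.sum_congr rfl fun i hi => ?_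
      rw [Finset.sum_filter]
      simp [hi]
    · intro i _ hni
      refine Finset.sum_eq_zero fun g _ => ?_
      rw [if_neg hni]

end rep

section fil

variable {k A : Type u} [Field k] [CommRing A] [Algebra k A] [WAlg k A]

variable (k A) in
/-- the span of the words of length less than `n` -/
def Fil (n : ℕ) : Submodule k (UW k A) :=
  Submodule.span k {x | ∃ l : List A, l.length < n ∧ x = (l.map (eU (k := k) (A := A))).prod}

theorem mem_Fil (l : List A) (n : ℕ) (h : l.length < n) :
    (l.map (eU (k := k) (A := A))).prod ∈ Fil k A n := Submodule.subset_span ⟨l, h, rfl⟩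

theorem Fil_mono {m n : ℕ} (h : m ≤ n) : Fil k A m ≤ Fil k A n := by
  rw [Fil, Submodule.span_le]
  rintro _ ⟨l, hl, rfl⟩
  exact mem_Fil l n (by omega)

theorem Fil_zero : Fil k A 0 = ⊥ := by
  rw [Fil, Submodule.span_eq_bot]
  rintro _ ⟨l, hl, rfl⟩
  omega

theorem eU_mul_mem {n : ℕ} (a : A) {x : UW k A} (hx : x ∈ Fil k A n) :
    eU a * x ∈ Fil k A (n + 1) := by
  rw [Fil] at hx
  induction hx using Submodule.span_induction with
  | mem x h =>
    obtain ⟨l, hl, rfl⟩ := h
    exact mem_Fil (a :: l) (n + 1) (by simp; omega)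
  | zero => rw [mul_zero]; exact Submodule.zero_mem _
  | add x y _ _ hx hy => rw [mul_add]; exact Submodule.add_mem _ hx hy
  | smul c x _ hx => rw [mul_smul_comm]; exact Submodule.smul_mem _ _ hx

theorem exists_Fil (x : UW k A) : ∃ n, x ∈ Fil k A n := by
  induction x using UW_induction with
  | h1 => exact ⟨1, mem_Fil [] 1 (by simp)⟩
  | hadd x y hx hy =>
    obtain ⟨n, hn⟩ := hx
    obtain ⟨m, hm⟩ := hy
    exact ⟨n + m, Submodule.add_mem _ (Fil_mono (by omega) hn) (Fil_mono (by omega) hm)⟩
  | hsmul c x hx =>
    obtain ⟨n, hn⟩ := hx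
    exact ⟨n, Submodule.smul_mem _ _ hn⟩
  | hmul f x hx =>
    obtain ⟨n, hn⟩ := hx
    exact ⟨n + 1, eU_mul_mem f hn⟩

theorem perm_mem {l l' : List A} (h : l.Perm l') :
    (l.map (eU (k := k) (A := A))).prod - (l'.map (eU (k := k) (A := A))).prod ∈
      Fil k A l.length := by
  induction h with
  | nil => simp
  | cons a h ih =>
    simp only [List.map_cons, List.prod_cons, List.length_cons, ← mul_sub]
    exact eU_mul_mem a ih
  | swap a b l =>
    simp only [List.map_cons, List.prod_cons, List.length_cons, ← mul_assoc, ← sub_mul]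
    rw [eU_isE b a]
    exact mem_Fil (wbr k b a :: l) _ (by simp)
  | trans h1 h2 ih1 ih2 =>
    rw [← h1.length_eq] at ih2
    have := Submodule.add_mem _ ih1 ih2
    rwa [sub_add_sub_cancel] at this

theorem decomp {d : ℕ} {u : UW k A} (hu : u ∈ Fil k A (d + 1)) :
    ∃ v ∈ Fil k A d, ∃ F : TA k A (Fin d), u = v + TT (eU (k := k) (A := A)) d F := by
  rw [Fil] at hu
  induction hu using Submodule.span_induction with
  | mem x h =>
    obtain ⟨l, hl, rfl⟩ := h
    by_cases h : l.length < d
    · exact ⟨_, mem_Fil l d h, 0, by simp⟩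
    · obtain rfl : l.length = d := by omega
      refine ⟨0, Submodule.zero_mem _, tp k l.get, ?_⟩
      rw [TT_tp, zero_add]
      congr 1
      have : (fun i => eU (k := k) (l.get i)) = (eU (k := k)) ∘ l.get := rfl
      rw [this, ← List.map_ofFn, List.ofFn_get]
  | zero => exact ⟨0, Submodule.zero_mem _, 0, by simp⟩
  | add x y _ _ hx hy =>
    obtain ⟨v, hv, F, rfl⟩ := hx
    obtain ⟨v', hv', F', rfl⟩ := hy
    exact ⟨v + v', Submodule.add_mem _ hv hv', F + F', by rw [map_add]; abel⟩
  | smul c x _ hx =>
    obtain ⟨v, hv, F, rfl⟩ := hx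
    exact ⟨c • v, Submodule.smul_mem _ _ hv, c • F, by rw [map_smul, smul_add]⟩

theorem TT_perm {d : ℕ} (σ : Equiv.Perm (Fin d)) (F : TA k A (Fin d)) :
    TT (eU (k := k) (A := A)) d F - TT (eU (k := k) (A := A)) d (pmap σ F) ∈ Fil k A d := by
  induction F using TA_induction with
  | h0 f =>
    rw [pmap_tp_equiv, TT_tp, TT_tp]
    have h := perm_mem (k := k) (Equiv.Perm.ofFn_comp_perm σ.symm f).symm
    rw [List.length_ofFn, List.map_ofFn, List.map_ofFn] at h
    exact h
  | hs c x hx =>
    rw [map_smul, map_smul, map_smul, ← smul_sub]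
    exact Submodule.smul_mem _ _ hx
  | ha x y hx hy =>
    rw [map_add, map_add, map_add, add_sub_add_comm]
    exact Submodule.add_mem _ hx hy

theorem dL_Fil {r d : ℕ} (L : List (Fin r)) (hL : L.Nodup) (hlen : L.length = d) (u : UW k A)
    (hu : u ∈ Fil k A d) : dL L (rho k A r u) = 0 := by
  rw [Fil] at hu
  induction hu using Submodule.span_induction with
  | mem x h =>
    obtain ⟨l, hl, rfl⟩ := h
    rw [map_list_prod, List.map_map]
    have : (⇑(rho k A r) ∘ ⇑(eU (k := k) (A := A))) = eD k A r := by
      funext f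
      exact liftE_eU _ _ f
    rw [this]
    exact dL_word l L hL (by omega)
  | zero => rw [map_zero, dL_zero]
  | add x y _ _ hx hy => rw [map_add, dL_add, hx, hy, add_zero]
  | smul c x _ hx => rw [map_smul, dL_smul, hx, smul_zero]

theorem dL_TT {r d : ℕ} (h : d ≤ r) (F : TA k A (Fin d)) :
    dL ((List.finRange d).map (Fin.castLE h)) (rho k A r (TT (eU (k := k) (A := A)) d F)) =
      Mo k A r (∑ σ : Equiv.Perm (Fin d), pmap (Fin.castLE h ∘ σ) F) := by
  have hnd : ((List.finRange d).map (Fin.castLE h)).Nodup :=
    (List.nodup_finRange d).map (Fin.castLE_injective h)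
  induction F using TA_induction with
  | h0 f =>
    rw [TT_tp, map_list_prod, List.map_ofFn]
    have : (⇑(rho k A r) ∘ fun i => eU (k := k) (f i)) = fun i => eD k A r (f i) := by
      funext i
      exact liftE_eU _ _ (f i)
    rw [this, dL_word_eq d f _ hnd (by simp)]
    refine congrArg _ ?_
    symm
    have himg : ((List.finRange d).map (Fin.castLE h)).toFinset =
        Finset.univ.image (Fin.castLE h) := by
      ext j; simp
    refine Finset.sum_nbij (fun σ : Equiv.Perm (Fin d) => Fin.castLE h ∘ σ) ?_ ?_ ?_ ?_
    · intro σ _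
      rw [Finset.mem_filter]
      refine ⟨Finset.mem_univ _, ?_⟩
      rw [himg, ← Finset.image_image]
      congr 1
      exact Finset.image_univ_of_surjective σ.surjective
    · intro σ _ τ _ hστ
      ext i
      have := congrFun hστ i
      simpa [Fin.ext_iff] using this
    · intro g hg
      rw [Finset.mem_coe, Finset.mem_filter, himg] at hg
      have hg2 := hg.2
      have h1 : ∀ j, ∃ i, Fin.castLE h i = g j := by
        intro j
        have : g j ∈ Finset.univ.image g := Finset.mem_image_of_mem g (Finset.mem_univ j)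
        rw [hg2] at this
        obtain ⟨i, -, hi⟩ := Finset.mem_image.1 this
        exact ⟨i, hi⟩
      choose s hs using h1
      have hsurj : Function.Surjective s := by
        intro i
        have : Fin.castLE h i ∈ Finset.univ.image g := by
          rw [hg2]; exact Finset.mem_image_of_mem _ (Finset.mem_univ i)
        obtain ⟨j, -, hj⟩ := Finset.mem_image.1 this
        refine ⟨j, Fin.castLE_injective h ?_⟩
        rw [hs, hj]
      have hbij : Function.Bijective s := Finite.surjective_iff_bijective.1 hsurj
      refine ⟨Equiv.ofBijective s hbij, Finset.mem_coe.2 (Finset.mem_univ _), ?_⟩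
      funext j
      exact hs j
    · intro σ _
      rw [tp_eq_prod, map_prod]
      simp only [pmap_sg, Function.comp_apply]
  | hs c x hx =>
    rw [map_smul, map_smul, dL_smul, hx, ← map_smul, Finset.smul_sum]
    simp only [map_smul]
  | ha x y hx hy =>
    rw [map_add, map_add, dL_add, hx, hy, ← map_add, ← Finset.sum_add_distrib]
    simp only [map_add]

theorem pmap_inj {r d : ℕ} (h : d ≤ r) [Nontrivial (TA k A (Fin r))] (F : TA k A (Fin d))
    (hF : pmap (Fin.castLE h) F = 0) : F = 0 := by
  rcases d with _ | d
  · have h1 : ∀ x : TA k A (Fin 0), ∃ c : k, x = algebraMap k _ c := by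
      intro x
      induction x using TA_induction with
      | h0 f =>
        refine ⟨1, ?_⟩
        rw [tp_eq_prod, map_one]; rfl
      | hs c x hx =>
        obtain ⟨c', rfl⟩ := hx
        exact ⟨c * c', by rw [map_mul, Algebra.smul_def]⟩
      | ha x y hx hy =>
        obtain ⟨c, rfl⟩ := hx
        obtain ⟨c', rfl⟩ := hy
        exact ⟨c + c', by rw [map_add]⟩
    obtain ⟨c, rfl⟩ := h1 F
    rw [AlgHom.commutes] at hF
    have : c = 0 := by
      by_contra hc
      exact hc ((map_eq_zero (algebraMap k (TA k A (Fin r)))).1 hF)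
    rw [this, map_zero]
  · let φ : Fin r → Fin (d + 1) := fun j => if hj : (j : ℕ) < d + 1 then ⟨j, hj⟩ else 0
    have h1 : φ ∘ Fin.castLE h = id := by
      funext i
      have hi := i.2
      simp only [φ, Function.comp_apply, Fin.val_castLE, hi, dif_pos, id]
    have h2 := congrArg (pmap (k := k) (A := A) φ) hF
    rw [pmap_comp, h1, map_zero] at h2
    have h3 := pmap_id (k := k) F
    rw [← h3]; exact h2

theorem rho_ne_zero [CharZero k] (hdom : ∀ r : ℕ, IsDomain (TA k A (Fin r))) (u : UW k A)
    (hu : u ≠ 0) : ∃ d, ∀ r, d ≤ r → rho k A r u ≠ 0 := by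
  classical
  have hex := exists_Fil u
  have h0 : Nat.find hex ≠ 0 := by
    intro h0
    have := Nat.find_spec hex
    rw [h0, Fil_zero] at this
    exact hu (by simpa using this)
  obtain ⟨d, hd⟩ := Nat.exists_eq_succ_of_ne_zero h0
  have hmem := Nat.find_spec hex
  rw [hd] at hmem
  have hmin : u ∉ Fil k A d := Nat.find_min hex (by omega)
  refine ⟨d, fun r hr hzero => hmin ?_⟩
  obtain ⟨v, hv, F, hF⟩ := decomp hmem
  have h1 : dL ((List.finRange d).map (Fin.castLE hr)) (rho k A r u) = 0 := by
    rw [hzero, dL_zero]
  rw [hF, map_add, dL_add, dL_Fil _ ((List.nodup_finRange d).map (Fin.castLE_injective hr))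
    (by simp) v hv, zero_add, dL_TT hr] at h1
  have h2 : ∑ σ : Equiv.Perm (Fin d), pmap (Fin.castLE hr ∘ σ) F = 0 := by
    have := LinearMap.congr_fun h1 1
    simpa [Mo_apply] using this
  have h3 : pmap (Fin.castLE hr) (∑ σ : Equiv.Perm (Fin d), pmap σ F) = 0 := by
    rw [map_sum, ← h2]
    exact Finset.sum_congr rfl fun σ _ => pmap_comp _ _ _
  haveI := hdom r
  have h4 := pmap_inj hr _ h3
  have h5 : (Fintype.card (Equiv.Perm (Fin d))) • TT (eU (k := k) (A := A)) d F ∈ Fil k A d := by
    have h6 : ∑ σ : Equiv.Perm (Fin d), (TT (eU (k := k) (A := A)) d F -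
        TT (eU (k := k) (A := A)) d (pmap σ F)) ∈ Fil k A d :=
      Submodule.sum_mem _ fun σ _ => TT_perm σ F
    rw [Finset.sum_sub_distrib, Finset.sum_const, Finset.card_univ,
      ← map_sum (TT (eU (k := k) (A := A)) d) (fun σ : Equiv.Perm (Fin d) => pmap σ F), h4,
      map_zero, sub_zero] at h6
    exact h6
  have hne : ((Fintype.card (Equiv.Perm (Fin d)) : ℕ) : k) ≠ 0 := by
    exact_mod_cast Fintype.card_ne_zero
  rw [← Nat.cast_smul_eq_nsmul k, Submodule.smul_mem_iff _ hne] at h5
  rw [hF]
  exact Submodule.add_mem _ hv h5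

end fil

end UDom

universe u

theorem specUDom : SpecUDom.{u} := by
  intro k A _ _ _ _ _ hdom
  refine ⟨fun {x y} h => ?_⟩
  by_contra hcon
  push Not at hcon
  obtain ⟨d, hd⟩ := UDom.rho_ne_zero hdom x hcon.1
  obtain ⟨d', hd'⟩ := UDom.rho_ne_zero hdom y hcon.2
  have h1 := UDom.rho_dom (d + d') (hdom _) x y (hd _ (by omega)) (hd' _ (by omega))
  apply h1
  rw [← map_mul, h, map_zero]

end MPcc24
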