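import Pool.Agent.Lib.MP_cc24ba_al.SpecV
import Pool.Agent.Lib.MP_cc24ba_al.HConstr

set_option linter.all false

/-!
# Prime ideals of the enveloping algebra of the Virasoro algebra
-/

noncomputable section

open scoped TensorProduct BigOperators nonZeroDivisors
open LaurentPolynomial

namespace MPcc24

universe u

section central

variable {R : Type u} [Ring R]

theorem center_smul_eq_zero (hR : PrimeR R) (c : Subring.center R) (hc : c ≠ 0) (r : R)
    (h : c • r = 0) : r = 0 := by
  have h1 : (c : R) * r = 0 := h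
  rcases hR.2 (c : R) r (fun s => by
    rw [← (Subring.mem_center_iff.1 c.2 s), mul_assoc, h1, mul_zero]) with h2 | h2
  · exact absurd (Subtype.ext h2) hc
  · exact h2

theorem center_isDomain (hR : PrimeR R) : IsDomain (Subring.center R) := by
  haveI := hR.1
  haveI : NoZeroDivisors (Subring.center R) := ⟨fun {a b} hab => by
    by_cases ha : a = 0
    · exact Or.inl ha
    · right
      apply Subtype.ext
      apply center_smul_eq_zero hR a ha
      have := congrArg Subtype.val hab
      exact this⟩
  haveI : Nontrivial (Subring.center R) := ⟨⟨1, 0, fun h => by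
    have := congrArg Subtype.val h
    exact one_ne_zero (α := R) this⟩⟩
  exact NoZeroDivisors.to_isDomain _

theorem central_inj (hR : PrimeR R) (r : R)
    (h : (1 : FractionRing (Subring.center R)) ⊗ₜ[Subring.center R] r = 0) : r = 0 := by
  haveI := center_isDomain hR
  have hb := TensorProduct.isBaseChange (Subring.center R) R (FractionRing (Subring.center R))
  have hl := (isLocalizedModule_iff_isBaseChange (Subring.center R)⁰
    (FractionRing (Subring.center R)) _).2 hb
  have h2 : (TensorProduct.mk (Subring.center R) (FractionRing (Subring.center R)) R 1) r = 0 := h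
  rw [← map_zero (TensorProduct.mk (Subring.center R) (FractionRing (Subring.center R)) R 1)] at h2
  obtain ⟨c, hc⟩ := (IsLocalizedModule.eq_iff_exists (Subring.center R)⁰ _).1 h2
  rw [smul_zero] at hc
  exact center_smul_eq_zero hR c (nonZeroDivisors.ne_zero c.2) r hc

end central

section case1

theorem vir_case1 (hM : SpecMain.{u}) (hT : SpecTADom.{u}) {k R : Type u} [Field k] [CharZero k]
    [Ring R] [Algebra k R] (hR : PrimeR R) (e : k[T;T⁻¹] →ₗ[k] R) (he : IsE e)
    (hgen : Algebra.adjoin k (Set.range e) = ⊤) (x y : R) (hxy : x * y = 0) : x = 0 ∨ y = 0 := by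
  haveI := hR.1
  set φ := liftE e he with hφ
  have hsurj : Function.Surjective φ := by
    intro r
    have hr : r ∈ φ.range := by
      have : (⊤ : Subalgebra k R) ≤ φ.range := by
        rw [← hgen, Algebra.adjoin_le_iff]
        rintro _ ⟨f, rfl⟩
        exact ⟨eU f, liftE_eU e he f⟩
      exact this trivial
    exact hr
  let Q : TwoSidedIdeal (UW k k[T;T⁻¹]) := TwoSidedIdeal.ker φ.toRingHom
  have hQ : ∀ u, u ∈ Q ↔ φ u = 0 := fun u => TwoSidedIdeal.mem_ker φ.toRingHom
  have hP : PrimeT Q := by
    refine ⟨fun h => ?_, fun a b hab => ?_⟩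
    · rw [hQ, map_one] at h; exact one_ne_zero h
    · rw [hQ, hQ]
      apply hR.2
      intro r
      obtain ⟨u, rfl⟩ := hsurj r
      have := hab u
      rwa [hQ, map_mul, map_mul] at this
  obtain ⟨a, rfl⟩ := hsurj x
  obtain ⟨b, rfl⟩ := hsurj y
  rw [← map_mul, ← hQ] at hxy
  have := hM k k[T;T⁻¹] (fun r => (hT k r).2) Q hP a b hxy
  rwa [hQ, hQ] at this

end case1

section case2

variable {k : Type u} [Field k]

theorem wbr_T (m n : ℤ) : wbr k (T m : k[T;T⁻¹]) (T n) = (n - m) • (T (m + n - 1) : k[T;T⁻¹]) := by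
  have h1 : dd k (T n : k[T;T⁻¹]) = (n : k) • T (n - 1) := lder_T k n
  have h2 : dd k (T m : k[T;T⁻¹]) = (m : k) • T (m - 1) := lder_T k m
  rw [wbr, h1, h2, mul_smul_comm, mul_smul_comm, ← T_add, ← T_add,
    show m + (n - 1) = m + n - 1 by ring, show n + (m - 1) = m + n - 1 by ring, ← sub_smul,
    ← Int.cast_sub, Int.cast_smul_eq_zsmul]

theorem om_T (m n : ℤ) : om (lres k) (T m : k[T;T⁻¹]) (T n) =
    (1 / 12) * (((m * (m - 1) * (m - 2) : ℤ) : k) * if m + n = 2 then 1 else 0) := by
  have h : ∀ j : ℤ, dd k (T j : k[T;T⁻¹]) = (j : k) • T (j - 1) := fun j => lder_T k j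
  rw [om, h, Derivation.map_smul, h, Derivation.map_smul, Derivation.map_smul, h, smul_mul_assoc,
    smul_mul_assoc, smul_mul_assoc, ← T_add, map_smul, map_smul, map_smul, lres_T, smul_eq_mul,
    smul_eq_mul, smul_eq_mul]
  have h2 : (m - 1 - 1 - 1 + n = -1) = (m + n = 2) := by
    simp only [eq_iff_iff]
    constructor <;> intro h <;> omega
  simp only [h2]
  push_cast
  ring

theorem om_add_left (res : k[T;T⁻¹] →ₗ[k] k) (f f' g : k[T;T⁻¹]) :
    om res (f + f') g = om res f g + om res f' g := by
  simp only [om, map_add, add_mul, mul_add]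

theorem om_add_right (res : k[T;T⁻¹] →ₗ[k] k) (f g g' : k[T;T⁻¹]) :
    om res f (g + g') = om res f g + om res f g' := by
  simp only [om, map_add, mul_add]

theorem om_smul_left (res : k[T;T⁻¹] →ₗ[k] k) (c : k) (f g : k[T;T⁻¹]) :
    om res (c • f) g = c * om res f g := by
  simp only [om, Derivation.map_smul, smul_mul_assoc, map_smul, smul_eq_mul]
  ring

theorem om_smul_right (res : k[T;T⁻¹] →ₗ[k] k) (c : k) (f g : k[T;T⁻¹]) :
    om res f (c • g) = c * om res f g := by
  simp only [om, mul_smul_comm, map_smul, smul_eq_mul]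
  ring

theorem wbr_smul_left {A : Type u} [CommRing A] [Algebra k A] [WAlg k A] (c : k) (x y : A) :
    wbr k (c • x) y = c • wbr k x y := by
  simp only [wbr, Derivation.map_smul, smul_sub, mul_smul_comm, smul_mul_assoc]

theorem isEV_of_T {S : Type*} [Ring S] [Algebra k S] (ζ : k) (e : k[T;T⁻¹] →ₗ[k] S)
    (h : ∀ m n : ℤ, e (T m) * e (T n) - e (T n) * e (T m) = e (wbr k (T m) (T n)) +
      algebraMap k S (ζ * om (lres k) (T m) (T n))) : IsEV (lres k) ζ e := by
  intro f g
  have hf : f ∈ Submodule.span k (Set.range (Tbasis k)) := by rw [(Tbasis k).span_eq]; trivial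
  have hg : g ∈ Submodule.span k (Set.range (Tbasis k)) := by rw [(Tbasis k).span_eq]; trivial
  induction hf using Submodule.span_induction with
  | mem x hx =>
    obtain ⟨m, rfl⟩ := hx
    induction hg using Submodule.span_induction with
    | mem y hy =>
      obtain ⟨n, rfl⟩ := hy
      rw [Tbasis_apply, Tbasis_apply]
      exact h m n
    | zero => simp [wbr, om]
    | add y y' _ _ h1 h2 =>
      rw [map_add, mul_add, add_mul, wbr_add_right, om_add_right, mul_add, map_add, map_add]
      rw [show ∀ a b c d : S, a + b - (c + d) = (a - c) + (b - d) by intros; abel, h1, h2]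
      abel
    | smul c y _ h1 =>
      rw [map_smul, mul_smul_comm, smul_mul_assoc, ← smul_sub, h1, wbr_smul_right, om_smul_right,
        map_smul, smul_add, Algebra.smul_def c (algebraMap k S _), ← map_mul]
      congr 2
      ring
  | zero => simp [wbr, om]
  | add x x' _ _ h1 h2 =>
    rw [map_add, mul_add, add_mul, wbr_add_left, om_add_left, mul_add, map_add, map_add]
    rw [show ∀ a b c d : S, a + b - (c + d) = (a - c) + (b - d) by intros; abel, h1, h2]
    abel
  | smul c x _ h1 =>
    rw [map_smul, mul_smul_comm, smul_mul_assoc, ← smul_sub, h1, wbr_smul_left, om_smul_left,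
      map_smul, smul_add, Algebra.smul_def c (algebraMap k S _), ← map_mul]
    congr 2
    ring

theorem vir_case2 (hD : SpecVirDom.{u}) (hT : SpecTADom.{u}) {R : Type u} [CharZero k]
    [Ring R] [Algebra k R] (hR : PrimeR R) (e : k[T;T⁻¹] →ₗ[k] R) (z : R) (hz : z ≠ 0)
    (hcen : ∀ r, r * z = z * r)
    (he : ∀ f g, e f * e g - e g * e f = e (wbr k f g) + (om (lres k) f g) • z)
    (hgen : Algebra.adjoin k (insert z (Set.range e)) = ⊤) (x y : R) (hxy : x * y = 0) :
    x = 0 ∨ y = 0 := by
  haveI := hR.1
  haveI := center_isDomain hR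
  let C := Subring.center R
  let K := FractionRing C
  letI : Field K := inferInstance
  let S := K ⊗[C] R
  let ψ₀ : k →+* C :=
    { toFun := fun a => ⟨algebraMap k R a, Subring.mem_center_iff.2 fun r =>
        (Algebra.commutes a r).symm⟩
      map_one' := Subtype.ext (map_one _)
      map_mul' := fun a b => Subtype.ext (map_mul _ a b)
      map_zero' := Subtype.ext (map_zero _)
      map_add' := fun a b => Subtype.ext (map_add _ a b) }
  let ψ : k →+* K := (algebraMap C K).comp ψ₀
  haveI : CharZero K := (RingHom.charZero_iff ψ.injective).1 inferInstance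
  let j : R →+* S := (Algebra.TensorProduct.includeRight : R →ₐ[C] K ⊗[C] R).toRingHom
  have hj : ∀ r, j r = (1 : K) ⊗ₜ[C] r := fun r => rfl
  have hj0 : ∀ r, j r = 0 → r = 0 := fun r h => central_inj hR r h
  have hjC : ∀ (c : C) (r : R), j ((c : R) * r) = algebraMap C K c • j r := by
    intro c r
    rw [hj, hj, TensorProduct.smul_tmul', smul_eq_mul, mul_one, Algebra.algebraMap_eq_smul_one,
      TensorProduct.smul_tmul]
    rfl
  have hjk : ∀ (a : k) (r : R), j (a • r) = ψ a • j r := by
    intro a r
    rw [Algebra.smul_def]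
    exact hjC (ψ₀ a) r
  haveI : Nontrivial S := ⟨⟨j 1, 0, fun h => one_ne_zero (hj0 1 h)⟩⟩
  let ζ : K := algebraMap C K ⟨z, Subring.mem_center_iff.2 hcen⟩
  have hζ : ζ ≠ 0 := by
    intro h
    have h2 := (IsFractionRing.injective C K) (h.trans (map_zero _).symm)
    exact hz (congrArg Subtype.val h2)
  have hjz : j z = algebraMap K S ζ := by
    have := hjC ⟨z, Subring.mem_center_iff.2 hcen⟩ 1
    rw [mul_one, map_one, ← Algebra.algebraMap_eq_smul_one] at this
    exact this
  let eK : K[T;T⁻¹] →ₗ[K] S := (Tbasis K).constr K fun n => j (e (T n))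
  have heK : ∀ n : ℤ, eK (T n) = j (e (T n)) := fun n => by
    rw [← Tbasis_apply, Module.Basis.constr_basis]
  have hEV : IsEV (lres K) ζ eK := by
    apply isEV_of_T
    intro m n
    have h1 : j (e (T m)) * j (e (T n)) - j (e (T n)) * j (e (T m)) =
        j (e (T m) * e (T n) - e (T n) * e (T m)) := by
      rw [map_sub j, map_mul j, map_mul j]
    have hsm : ∀ a b : K, (a • (algebraMap K S b : S)) = algebraMap K S (b * a) := by
      intro a b
      rw [Algebra.algebraMap_eq_smul_one, Algebra.algebraMap_eq_smul_one, smul_smul, mul_comm]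
    rw [heK, heK, h1, he, map_add j, wbr_T, wbr_T, map_zsmul, map_zsmul, map_zsmul, heK, hjk, hjz,
      om_T, om_T, hsm]
    congr 3
    rw [map_mul ψ, map_mul ψ, map_div₀ ψ, map_one ψ, map_ofNat ψ, map_intCast ψ]
    congr 2
    split_ifs <;> simp
  have hrange : ∀ r, j r ∈ Algebra.adjoin K (Set.range eK) := by
    intro r
    have hr : r ∈ Algebra.adjoin k (insert z (Set.range e)) := by rw [hgen]; trivial
    induction hr using Algebra.adjoin_induction with
    | mem r hr =>
      rcases hr with rfl | ⟨f, rfl⟩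
      · rw [hjz]; exact Subalgebra.algebraMap_mem _ _
      · have hf : f ∈ Submodule.span k (Set.range (Tbasis k)) := by
          rw [(Tbasis k).span_eq]; trivial
        induction hf using Submodule.span_induction with
        | mem f hf =>
          obtain ⟨n, rfl⟩ := hf
          rw [Tbasis_apply, ← heK]
          exact Algebra.subset_adjoin ⟨_, rfl⟩
        | zero => rw [map_zero, map_zero]; exact Subalgebra.zero_mem _
        | add f g _ _ hf hg => rw [map_add, map_add]; exact Subalgebra.add_mem _ hf hg
        | smul c f _ hf => rw [map_smul, hjk]; exact Subalgebra.smul_mem _ hf _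
    | algebraMap a =>
      rw [Algebra.algebraMap_eq_smul_one, hjk, map_one]
      exact Subalgebra.smul_mem _ (Subalgebra.one_mem _) _
    | add a b _ _ ha hb => rw [map_add]; exact Subalgebra.add_mem _ ha hb
    | mul a b _ _ ha hb => rw [map_mul]; exact Subalgebra.mul_mem _ ha hb
  have hres : IsRes (lres K) := ⟨fun f => lres_lder K f, fun f h => lres_nondeg K f h⟩
  have hfin := hD K K[T;T⁻¹] S (fun r => (hT K r).2) (lres K) hres ζ hζ eK hEV (j x) (hrange x)
    (j y) (hrange y) (by rw [← map_mul, hxy, map_zero])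
  rcases hfin with h | h
  · exact Or.inl (hj0 x h)
  · exact Or.inr (hj0 y h)

end case2

section final

variable {k : Type u} [Field k] [CharZero k]

theorem UV_adjoin : Algebra.adjoin k (Set.range fun x : VLie k =>
    (UniversalEnvelopingAlgebra.ι k (L := VLie k) x : UniversalEnvelopingAlgebra k (VLie k))) =
    ⊤ := by
  letI : LieRing (UniversalEnvelopingAlgebra k (VLie k)) := LieRing.ofAssociativeRing
  letI : LieAlgebra k (UniversalEnvelopingAlgebra k (VLie k)) :=
    LieAlgebra.ofAssociativeAlgebra
  set B := Algebra.adjoin k (Set.range fun x : VLie k =>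
    (UniversalEnvelopingAlgebra.ι k (L := VLie k) x : UniversalEnvelopingAlgebra k (VLie k)))
    with hB
  letI : LieRing B := LieRing.ofAssociativeRing
  letI : LieAlgebra k B := LieAlgebra.ofAssociativeAlgebra
  let f : VLie k →ₗ⁅k⁆ B :=
    { toFun := fun x => ⟨UniversalEnvelopingAlgebra.ι k (L := VLie k) x,
        Algebra.subset_adjoin ⟨x, rfl⟩⟩
      map_add' := fun x y => Subtype.ext (map_add (UniversalEnvelopingAlgebra.ι k (L := VLie k)) x y)
      map_smul' := fun c x =>
        Subtype.ext (map_smul (UniversalEnvelopingAlgebra.ι k (L := VLie k)) c x)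
      map_lie' := fun {x y} =>
        Subtype.ext (LieHom.map_lie (UniversalEnvelopingAlgebra.ι k (L := VLie k)) x y) }
  have h1 : B.val.comp (UniversalEnvelopingAlgebra.lift k f) =
      AlgHom.id k (UniversalEnvelopingAlgebra k (VLie k)) := by
    apply UniversalEnvelopingAlgebra.hom_ext
    refine LieHom.ext fun x => ?_
    change B.val (UniversalEnvelopingAlgebra.lift k f (UniversalEnvelopingAlgebra.ι k x)) = _
    rw [UniversalEnvelopingAlgebra.lift_ι_apply]
    rfl
  rw [eq_top_iff]
  intro x _
  have : B.val (UniversalEnvelopingAlgebra.lift k f x) = x := by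
    have := DFunLike.congr_fun h1 x
    exact this
  rw [← this]
  exact (UniversalEnvelopingAlgebra.lift k f x).2

theorem UV_comm (x y : VLie k) :
    (UniversalEnvelopingAlgebra.ι k (L := VLie k) x : UniversalEnvelopingAlgebra k (VLie k)) *
      UniversalEnvelopingAlgebra.ι k (L := VLie k) y -
      UniversalEnvelopingAlgebra.ι k (L := VLie k) y *
      UniversalEnvelopingAlgebra.ι k (L := VLie k) x =
      UniversalEnvelopingAlgebra.ι k (L := VLie k) ⁅x, y⁆ := by
  letI : LieRing (UniversalEnvelopingAlgebra k (VLie k)) := LieRing.ofAssociativeRing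
  exact (LieHom.map_lie (UniversalEnvelopingAlgebra.ι k (L := VLie k)) x y).symm

theorem specVirPrime (hD : SpecVirDom.{u}) (hM : SpecMain.{u}) (hT : SpecTADom.{u}) :
    SpecVirPrime.{u} := by
  intro k _ _ P hP x y hxy
  let U := UniversalEnvelopingAlgebra k (VLie k)
  let π : U →ₐ[k] P.ringCon.Quotient := quotA k P
  have hπ : Function.Surjective π := quotA_surj k P
  have hπ0 : ∀ u, π u = 0 ↔ u ∈ P := quotA_eq_zero k P
  let i : VLie k →ₗ[k] U :=
    { toFun := fun x => UniversalEnvelopingAlgebra.ι k (L := VLie k) x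
      map_add' := fun x y => map_add (UniversalEnvelopingAlgebra.ι k (L := VLie k)) x y
      map_smul' := fun c x => map_smul (UniversalEnvelopingAlgebra.ι k (L := VLie k)) c x }
  have hi : ∀ a b : VLie k, i a * i b - i b * i a = i ⁅a, b⁆ := UV_comm
  let inl : k[T;T⁻¹] →ₗ[k] VLie k := LinearMap.inl k k[T;T⁻¹] k
  let c : VLie k := ((0 : k[T;T⁻¹]), (1 : k))
  let e : k[T;T⁻¹] →ₗ[k] P.ringCon.Quotient := π.toLinearMap ∘ₗ i ∘ₗ inl
  let z : P.ringCon.Quotient := π (i c)
  have hdec : ∀ a : VLie k, a = inl a.1 + (a.2 : k) • c := by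
    intro a
    refine Prod.ext ?_ ?_
    · change a.1 = a.1 + (a.2 : k) • (0 : k[T;T⁻¹])
      rw [smul_zero, add_zero]
    · change a.2 = 0 + a.2 * 1
      rw [zero_add, mul_one]
  have hR : PrimeR P.ringCon.Quotient := by
    refine ⟨⟨⟨π 1, 0, fun h => hP.1 ((hπ0 1).1 h)⟩⟩, fun a b hab => ?_⟩
    obtain ⟨a, rfl⟩ := hπ a
    obtain ⟨b, rfl⟩ := hπ b
    rw [hπ0, hπ0]
    apply hP.2
    intro r
    rw [← hπ0, map_mul, map_mul]
    exact hab _
  have he : ∀ f g, e f * e g - e g * e f = e (wbr k f g) + (om (lres k) f g) • z := by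
    intro f g
    have h1 : e f * e g - e g * e f = π (i (inl f) * i (inl g) - i (inl g) * i (inl f)) := by
      rw [map_sub, map_mul, map_mul]; rfl
    rw [h1, hi, hdec ⁅inl f, inl g⁆, map_add, map_smul, map_add, map_smul]
    rfl
  have hgen : Algebra.adjoin k (insert z (Set.range e)) = ⊤ := by
    rw [eq_top_iff]
    rintro r -
    obtain ⟨u, rfl⟩ := hπ r
    have hu : u ∈ Algebra.adjoin k (Set.range fun x : VLie k =>
      (UniversalEnvelopingAlgebra.ι k (L := VLie k) x : U)) := by rw [UV_adjoin]; trivial
    induction hu using Algebra.adjoin_induction with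
    | mem u hu =>
      obtain ⟨a, rfl⟩ := hu
      change π (i a) ∈ Algebra.adjoin k (insert z (Set.range e))
      rw [hdec a, map_add, map_smul, map_add, map_smul]
      have m1 : e a.1 ∈ insert z (Set.range e) := Or.inr ⟨a.1, rfl⟩
      have m2 : z ∈ insert z (Set.range e) := Or.inl rfl
      exact Subalgebra.add_mem _ (Algebra.subset_adjoin m1)
        (Subalgebra.smul_mem _ (Algebra.subset_adjoin m2) _)
    | algebraMap a => rw [AlgHom.commutes]; exact Subalgebra.algebraMap_mem _ _
    | add a b _ _ ha hb => rw [map_add]; exact Subalgebra.add_mem _ ha hb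
    | mul a b _ _ ha hb => rw [map_mul]; exact Subalgebra.mul_mem _ ha hb
  have hez : ∀ f, e f * z = z * e f := by
    intro f
    have h1 : e f * z - z * e f = π (i (inl f) * i c - i c * i (inl f)) := by
      rw [map_sub, map_mul, map_mul]; rfl
    have h2 : ⁅inl f, c⁆ = (0 : VLie k) := by
      refine Prod.ext ?_ ?_
      · change wbr k f (0 : k[T;T⁻¹]) = 0
        simp [wbr]
      · change om (lres k) f 0 = 0
        simp [om]
    rw [hi, h2, map_zero, map_zero, sub_eq_zero] at h1
    exact h1
  have hcen : ∀ r, r * z = z * r := by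
    intro r
    have hr : r ∈ Algebra.adjoin k (insert z (Set.range e)) := by rw [hgen]; trivial
    induction hr using Algebra.adjoin_induction with
    | mem r hr =>
      rcases hr with rfl | ⟨f, rfl⟩
      · rfl
      · exact hez f
    | algebraMap a => exact Algebra.commutes a z
    | add a b _ _ ha hb => rw [add_mul, mul_add, ha, hb]
    | mul a b _ _ ha hb => rw [mul_assoc, hb, ← mul_assoc, ha, mul_assoc]
  rw [← hπ0, map_mul] at hxy
  rw [← hπ0, ← hπ0]
  by_cases hz : z = 0
  · refine vir_case1 hM hT hR e ?_ ?_ _ _ hxy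
    · intro f g
      rw [he, hz, smul_zero, add_zero]
    · have hle : Algebra.adjoin k (insert z (Set.range e)) ≤ Algebra.adjoin k (Set.range e) := by
        rw [Algebra.adjoin_le_iff]
        rintro r (hr | hr)
        · have hr0 : r = 0 := hr.trans hz
          rw [hr0]
          exact (Algebra.adjoin k (Set.range e)).zero_mem
        · exact Algebra.subset_adjoin hr
      rw [hgen] at hle
      exact top_le_iff.1 hle
  · exact vir_case2 hD hT hR e z hz hcen he hgen _ _ hxy

end final

end MPcc24
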