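import Pool.Agent.Lib.MP_cc24ba_al.SpecV
import Pool.Agent.Lib.MP_cc24ba_al.HConstr
import Pool.Agent.Lib.MP_cc24ba_al.Trace

set_option linter.all false

/-!
# Virasoro part: independence of the words (module VB)

Direct proof: the block words with all exponents `4` act on the words of length `d` by a scalar
residue.
-/

noncomputable section

open scoped TensorProduct BigOperators

namespace MPcc24

universe u

namespace VB

section slot

variable {k : Type u} {N : Type u} [Field k] [CommRing N] [Algebra k N]
variable {ι : Type} [Fintype ι] [DecidableEq ι]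

/-- the operator `u` in the slot `i` -/
def slot (i : ι) : Module.End k N →ₗ[k] Module.End k (TA k N ι) :=
  (PiTensorProduct.mapMultilinear k (fun _ : ι => N) (fun _ : ι => N)).toLinearMap
    (fun _ => LinearMap.id) i

theorem slot_tp (i : ι) (u : Module.End k N) (g : ι → N) :
    slot i u (tp k g) = tp k (Function.update g i (u (g i))) := by
  change PiTensorProduct.map (Function.update (fun _ => LinearMap.id) i u)
    (PiTensorProduct.tprod k g) = _
  rw [PiTensorProduct.map_tprod, tp]
  congr 1
  funext j
  by_cases hj : j = i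
  · subst hj; simp
  · simp [Function.update_of_ne hj]

theorem End_ext {M : Type*} [AddCommGroup M] [Module k M] {x y : TA k N ι →ₗ[k] M}
    (h : ∀ g, x (tp k g) = y (tp k g)) : x = y := BlockX.TA_lin_ext h

theorem slot_mul (i : ι) (u v : Module.End k N) : slot i (u * v) = slot i u * slot i v := by
  apply End_ext
  intro g
  rw [Module.End.mul_apply, slot_tp, slot_tp, slot_tp, Function.update_idem, Function.update_self]
  rfl

theorem slot_comm {i j : ι} (hij : i ≠ j) (u v : Module.End k N) :
    slot i u * slot j v = slot j v * slot i u := by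
  apply End_ext
  intro g
  rw [Module.End.mul_apply, Module.End.mul_apply, slot_tp, slot_tp, slot_tp, slot_tp,
    Function.update_of_ne hij, Function.update_of_ne hij.symm, Function.update_comm hij]

theorem lmul_tp (h g : ι → N) : tp k h * tp k g = tp k (fun i => h i * g i) := tp_mul h g

/-- product of operators in all the slots -/
theorem prod_slot_aux (u : ι → Module.End k N) (g : ι → N) : ∀ (L : List ι), L.Nodup →
    (L.map fun i => slot i (u i)).prod (tp k g) =
      tp k (fun i => if i ∈ L then u i (g i) else g i) := by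
  intro L
  induction L with
  | nil => intro _; simp
  | cons a L ih =>
    intro hL
    rw [List.nodup_cons] at hL
    rw [List.map_cons, List.prod_cons, Module.End.mul_apply, ih hL.2, slot_tp]
    congr 1
    funext i
    by_cases hi : i = a
    · subst hi
      simp [hL.1]
    · simp [Function.update_of_ne hi, hi]

theorem prod_slot {r : ℕ} (u : Fin r → Module.End k N) (g : Fin r → N) :
    (List.ofFn fun i => slot i (u i)).prod (tp k g) = tp k (fun i => u i (g i)) := by
  rw [List.ofFn_eq_map, prod_slot_aux u g _ (List.nodup_finRange r)]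
  congr 1
  funext i
  simp

end slot

section one

variable {k : Type u} {A : Type u} [Field k] [CommRing A] [Algebra k A] [WAlg k A]

/-- the one point module -/
def rho (ζ : k) : A →ₗ[k] Module.End k (A × A) where
  toFun f :=
    { toFun := fun x => (f * dd k x.1 - dd k f * x.1,
        dd k (f * x.2) + (ζ / 12) • (dd k (dd k (dd k f)) * x.1))
      map_add' := fun x y => by
        refine Prod.ext ?_ ?_
        · simp only [Prod.fst_add, map_add]; ring
        · simp only [Prod.snd_add, Prod.fst_add, mul_add, map_add, smul_add]; abel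
      map_smul' := fun c x => by
        refine Prod.ext ?_ ?_
        · simp only [Prod.smul_fst, Derivation.map_smul, mul_smul_comm, RingHom.id_apply, smul_sub]
        · simp only [Prod.smul_snd, Prod.smul_fst, Derivation.map_smul, mul_smul_comm,
            RingHom.id_apply, smul_add, smul_comm c] }
  map_add' f g := by
    apply LinearMap.ext
    intro x
    refine Prod.ext ?_ ?_
    · change (f + g) * dd k x.1 - dd k (f + g) * x.1 = (f * dd k x.1 - dd k f * x.1) +
        (g * dd k x.1 - dd k g * x.1)
      rw [map_add]; ring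
    · change dd k ((f + g) * x.2) + (ζ / 12) • (dd k (dd k (dd k (f + g))) * x.1) =
        (dd k (f * x.2) + (ζ / 12) • (dd k (dd k (dd k f)) * x.1)) +
        (dd k (g * x.2) + (ζ / 12) • (dd k (dd k (dd k g)) * x.1))
      rw [add_mul, map_add, map_add, map_add, map_add, add_mul, smul_add]; abel
  map_smul' c f := by
    apply LinearMap.ext
    intro x
    refine Prod.ext ?_ ?_
    · change (c • f) * dd k x.1 - dd k (c • f) * x.1 = c • (f * dd k x.1 - dd k f * x.1)
      rw [Derivation.map_smul, smul_mul_assoc, smul_mul_assoc, smul_sub]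
    · change dd k ((c • f) * x.2) + (ζ / 12) • (dd k (dd k (dd k (c • f))) * x.1) =
        c • (dd k (f * x.2) + (ζ / 12) • (dd k (dd k (dd k f)) * x.1))
      simp only [smul_mul_assoc, Derivation.map_smul, smul_add, smul_comm c]

theorem rho_apply (ζ : k) (f : A) (x : A × A) : rho ζ f x =
    (f * dd k x.1 - dd k f * x.1, dd k (f * x.2) + (ζ / 12) • (dd k (dd k (dd k f)) * x.1)) := rfl

/-- multiplication operators -/
def mul1 (g : A) : Module.End k (A × A) := LinearMap.mulLeft k (g, g)

theorem mul1_apply (g : A) (x : A × A) : mul1 (k := k) g x = (g * x.1, g * x.2) := rfl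

theorem rho_rho (ζ : k) (f g : A) : rho ζ f * rho ζ g - rho ζ g * rho ζ f =
    rho ζ (wbr k f g) := by
  apply LinearMap.ext
  intro x
  rw [LinearMap.sub_apply, Module.End.mul_apply, Module.End.mul_apply]
  simp only [rho_apply]
  refine Prod.ext ?_ ?_
  · simp only [Prod.fst_sub, wbr, map_sub, Derivation.leibniz, smul_eq_mul]
    ring
  · simp only [Prod.snd_sub, wbr, map_sub, Derivation.leibniz, smul_eq_mul, map_add,
      Derivation.map_smul, mul_smul_comm, Algebra.smul_def, Derivation.map_algebraMap]
    ring

theorem rho_mul1 (ζ : k) (f g : A) : rho ζ f * mul1 g - mul1 g * rho ζ f =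
    mul1 (f * dd k g) := by
  apply LinearMap.ext
  intro x
  rw [LinearMap.sub_apply, Module.End.mul_apply, Module.End.mul_apply]
  simp only [rho_apply, mul1_apply]
  refine Prod.ext ?_ ?_
  · simp only [Prod.fst_sub, wbr, map_sub, Derivation.leibniz, smul_eq_mul]
    ring
  · simp only [Prod.snd_sub, wbr, map_sub, Derivation.leibniz, smul_eq_mul, map_add,
      Derivation.map_smul, mul_smul_comm, Algebra.smul_def]
    ring

/-- the first shift -/
def W1 (ζ : k) : A →ₗ[k] Module.End k (A × A) where
  toFun f :=
    { toFun := fun x => (-(f * x.1), f * x.2 + (ζ / 4) • (dd k (dd k f) * x.1))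
      map_add' := fun x y => by
        refine Prod.ext ?_ ?_
        · simp only [Prod.fst_add]; ring
        · simp only [Prod.snd_add, Prod.fst_add, mul_add, smul_add]; abel
      map_smul' := fun c x => by
        refine Prod.ext ?_ ?_
        · simp only [Prod.smul_fst, mul_smul_comm, RingHom.id_apply, smul_neg]
        · simp only [Prod.smul_snd, Prod.smul_fst, mul_smul_comm,
            RingHom.id_apply, smul_add, smul_comm c] }
  map_add' f g := by
    apply LinearMap.ext
    intro x
    refine Prod.ext ?_ ?_
    · change -((f + g) * x.1) = -(f * x.1) + -(g * x.1)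
      ring
    · change (f + g) * x.2 + (ζ / 4) • (dd k (dd k (f + g)) * x.1) =
        (f * x.2 + (ζ / 4) • (dd k (dd k f) * x.1)) +
        (g * x.2 + (ζ / 4) • (dd k (dd k g) * x.1))
      rw [add_mul, map_add, map_add, add_mul, smul_add]; abel
  map_smul' c f := by
    apply LinearMap.ext
    intro x
    refine Prod.ext ?_ ?_
    · change -((c • f) * x.1) = c • (-(f * x.1))
      rw [smul_mul_assoc, smul_neg]
    · change (c • f) * x.2 + (ζ / 4) • (dd k (dd k (c • f)) * x.1) =
        c • (f * x.2 + (ζ / 4) • (dd k (dd k f) * x.1))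
      simp only [smul_mul_assoc, Derivation.map_smul, smul_add, smul_comm c]

theorem W1_apply (ζ : k) (f : A) (x : A × A) : W1 ζ f x =
    (-(f * x.1), f * x.2 + (ζ / 4) • (dd k (dd k f) * x.1)) := rfl

/-- the nilpotent operator `(a,b) ↦ (0, c a)` -/
def nu (c : k) : Module.End k (A × A) where
  toFun x := (0, c • x.1)
  map_add' x y := by
    refine Prod.ext ?_ ?_
    · simp
    · simp [smul_add]
  map_smul' a x := by
    refine Prod.ext ?_ ?_
    · simp
    · simp [smul_comm c]

theorem nu_apply (c : k) (x : A × A) : nu c x = (0, c • x.1) := rfl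

/-- the second shift -/
def W2 (ζ : k) : A →ₗ[k] Module.End k (A × A) where
  toFun f := nu (ζ / 2) * mul1 (dd k f)
  map_add' f g := by
    apply LinearMap.ext
    intro x
    refine Prod.ext ?_ ?_
    · simp [nu_apply, mul1_apply, Module.End.mul_apply]
    · simp [nu_apply, mul1_apply, Module.End.mul_apply, add_mul, smul_add]
  map_smul' c f := by
    apply LinearMap.ext
    intro x
    refine Prod.ext ?_ ?_
    · simp [nu_apply, mul1_apply, Module.End.mul_apply]
    · simp [nu_apply, mul1_apply, Module.End.mul_apply, smul_comm c]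

theorem W2_apply (ζ : k) (f : A) (x : A × A) : W2 ζ f x = (0, (ζ / 2) • (dd k f * x.1)) := rfl

/-- the third shift -/
def W3 (ζ : k) : A →ₗ[k] Module.End k (A × A) where
  toFun f := nu (ζ / 2) * mul1 f
  map_add' f g := by
    apply LinearMap.ext
    intro x
    refine Prod.ext ?_ ?_
    · simp [nu_apply, mul1_apply, Module.End.mul_apply]
    · simp [nu_apply, mul1_apply, Module.End.mul_apply, add_mul, smul_add]
  map_smul' c f := by
    apply LinearMap.ext
    intro x
    refine Prod.ext ?_ ?_
    · simp [nu_apply, mul1_apply, Module.End.mul_apply]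
    · simp [nu_apply, mul1_apply, Module.End.mul_apply, smul_comm c]

theorem W3_apply (ζ : k) (f : A) (x : A × A) : W3 ζ f x = (0, (ζ / 2) • (f * x.1)) := rfl

theorem dd_X : dd k (XX k A) = 1 := WAlg.DX

theorem sh_rho [CharZero k] (ζ : k) : sh (mul1 (XX k A)) (rho ζ) = W1 ζ := by
  apply LinearMap.ext
  intro f
  apply LinearMap.ext
  intro x
  rw [sh_apply, LinearMap.sub_apply, Module.End.mul_apply]
  simp only [rho_apply, mul1_apply, W1_apply]
  refine Prod.ext ?_ ?_
  · simp only [Prod.fst_sub, Derivation.leibniz, smul_eq_mul, dd_X]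
    ring
  · simp only [Prod.snd_sub, Derivation.leibniz, smul_eq_mul, dd_X, map_add, map_one,
      Derivation.map_one_eq_zero, Algebra.smul_def, map_zero]
    have h : algebraMap k A (ζ / 4) = 3 * algebraMap k A (ζ / 12) := by
      rw [← map_ofNat (algebraMap k A) 3, ← map_mul]
      congr 1
      ring
    rw [h]
    ring

theorem sh_W1 [CharZero k] (ζ : k) : sh (mul1 (XX k A)) (W1 ζ) = W2 ζ := by
  apply LinearMap.ext
  intro f
  apply LinearMap.ext
  intro x
  rw [sh_apply, LinearMap.sub_apply, Module.End.mul_apply]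
  simp only [mul1_apply, W1_apply, W2_apply]
  refine Prod.ext ?_ ?_
  · simp only [Prod.fst_sub]
    ring
  · simp only [Prod.snd_sub, Derivation.leibniz, smul_eq_mul, dd_X, map_add, map_one,
      Derivation.map_one_eq_zero, Algebra.smul_def, map_zero]
    have h : algebraMap k A (ζ / 2) = 2 * algebraMap k A (ζ / 4) := by
      rw [← map_ofNat (algebraMap k A) 2, ← map_mul]
      congr 1
      ring
    rw [h]
    ring

theorem sh_W2 (ζ : k) : sh (mul1 (XX k A)) (W2 ζ) = W3 ζ := by
  apply LinearMap.ext
  intro f
  apply LinearMap.ext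
  intro x
  rw [sh_apply, LinearMap.sub_apply, Module.End.mul_apply]
  simp only [mul1_apply, W2_apply, W3_apply]
  refine Prod.ext ?_ ?_
  · simp
  · simp only [Prod.snd_sub, Derivation.leibniz, smul_eq_mul, dd_X, Algebra.smul_def]
    ring

theorem sh_W3 (ζ : k) : sh (mul1 (XX k A)) (W3 ζ) = 0 := by
  apply LinearMap.ext
  intro f
  apply LinearMap.ext
  intro x
  rw [sh_apply, LinearMap.sub_apply, Module.End.mul_apply]
  simp only [mul1_apply, W3_apply]
  refine Prod.ext ?_ ?_
  · simp
  · simp only [Prod.snd_sub, Algebra.smul_def]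
    change _ = (0 : A)
    ring

theorem rho_it [CharZero k] (ζ : k) (m : ℕ) : (sh (mul1 (XX k A)))^[m] (rho ζ) =
    if m = 0 then rho ζ else if m = 1 then W1 ζ else if m = 2 then W2 ζ else
      if m = 3 then W3 ζ else 0 := by
  match m with
  | 0 => rfl
  | 1 => simp [sh_rho]
  | 2 => simp [Function.iterate_succ_apply', sh_rho, sh_W1]
  | 3 => simp [Function.iterate_succ_apply', sh_rho, sh_W1, sh_W2]
  | m + 4 =>
    rw [Function.iterate_add_apply]
    simp only [Function.iterate_succ_apply', Function.iterate_zero_apply, sh_rho, sh_W1, sh_W2,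
      sh_W3]
    rw [if_neg (by omega), if_neg (by omega), if_neg (by omega), if_neg (by omega)]
    exact BlockX.sh_it_zero _ _

end one

section rpt

variable {k : Type u} {A : Type u} [Field k] [CommRing A] [Algebra k A] [WAlg k A]

/-- the diagonal `A → A × A` -/
def dg : A →ₐ[k] A × A := AlgHom.prod (AlgHom.id k A) (AlgHom.id k A)

theorem dg_apply (a : A) : dg (k := k) a = (a, a) := rfl

/-- the diagonal on functions of several variables -/
def dgr (r : ℕ) : TA k A (Fin r) →ₐ[k] TA k (A × A) (Fin r) := tlift fun i => (sg k i).comp dg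

theorem dgr_tp (r : ℕ) (f : Fin r → A) : dgr (k := k) r (tp k f) = tp k (fun i => (f i, f i)) := by
  rw [dgr, tlift_tprod, tp_eq_prod]
  rfl

/-- multiplication by functions on the `r`-point module -/
def tauV (r : ℕ) : TA k A (Fin r) →ₐ[k] Module.End k (TA k (A × A) (Fin r)) :=
  (Algebra.lmul k (TA k (A × A) (Fin r))).comp (dgr r)

theorem tauV_apply (r : ℕ) (x : TA k A (Fin r)) (y : TA k (A × A) (Fin r)) :
    tauV r x y = dgr r x * y := rfl

theorem tauV_tp (r : ℕ) (f : Fin r → A) (g : Fin r → A × A) :
    tauV r (tp k f) (tp k g) = tp k (fun i => (f i * (g i).1, f i * (g i).2)) := by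
  rw [tauV_apply, dgr_tp, lmul_tp]
  rfl

theorem tauV_sg (r : ℕ) (i : Fin r) (f : A) :
    tauV r (sg k i f) = slot (k := k) i (mul1 f) := by
  apply End_ext
  intro g
  rw [sg_eq, tauV_tp, slot_tp]
  congr 1
  funext j
  by_cases hj : j = i
  · subst hj; simp [mul1_apply]
  · simp [Function.update_of_ne hj, Pi.mulSingle_eq_of_ne hj]

theorem sh_slot (r : ℕ) (i : Fin r) (t : Module.End k (A × A)) (Θ : A →ₗ[k] Module.End k (A × A)) :
    sh (slot (k := k) i t) (slot i ∘ₗ Θ) = slot i ∘ₗ sh t Θ := by
  apply LinearMap.ext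
  intro f
  rw [sh_apply, LinearMap.comp_apply, LinearMap.comp_apply, LinearMap.comp_apply, sh_apply,
    map_sub, slot_mul]

theorem sh_slot_it (r : ℕ) (i : Fin r) (t : Module.End k (A × A)) (m : ℕ) :
    ∀ (Θ : A →ₗ[k] Module.End k (A × A)),
    (sh (slot (k := k) i t))^[m] (slot i ∘ₗ Θ) = slot i ∘ₗ (sh t)^[m] Θ := by
  induction m with
  | zero => intro Θ; rfl
  | succ m ih => intro Θ; rw [Function.iterate_succ_apply, Function.iterate_succ_apply, sh_slot, ih]

/-- the data on the `r`-point module -/
def vdat [CharZero k] (ζ : k) (r : ℕ) :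
    PData k A r (fun _ => 4) (Module.End k (TA k (A × A) (Fin r))) where
  τ := tauV r
  e i := slot i ∘ₗ rho ζ
  eτ := by
    intro i j f g
    rw [tauV_sg, LinearMap.comp_apply]
    split_ifs with hij
    · subst hij
      rw [← slot_mul, ← slot_mul, ← map_sub, rho_mul1, tauV_sg]
    · rw [slot_comm hij, sub_self]
  ee := by
    intro i j f g
    rw [LinearMap.comp_apply, LinearMap.comp_apply]
    split_ifs with hij
    · subst hij
      rw [← slot_mul, ← slot_mul, ← map_sub, rho_rho]
      rfl
    · rw [slot_comm hij, sub_self]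
  ord := by
    intro i
    rw [tauV_sg, sh_slot_it, rho_it]
    simp

theorem vdat_V [CharZero k] (ζ : k) (r : ℕ) (i : Fin r) (m : ℕ) :
    (vdat (A := A) ζ r).V i m = slot i ∘ₗ (sh (mul1 (XX k A)))^[m] (rho ζ) := by
  change (sh (tauV r (sg k i (XX k A))))^[m] (slot i ∘ₗ rho ζ) = _
  rw [tauV_sg, sh_slot_it]

theorem vdat_τ [CharZero k] (ζ : k) (r : ℕ) : (vdat (A := A) ζ r).τ = tauV r := rfl

theorem vdat_e [CharZero k] (ζ : k) (r : ℕ) (i : Fin r) :
    (vdat (A := A) ζ r).e i = slot i ∘ₗ rho ζ := rfl

theorem one_block [CharZero k] (ζ : k) (f g : A) :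
    (∑ j ∈ Finset.range (4 + 1), ((-1 : k) ^ j * (Nat.choose 4 j : k)) •
      ((sh (mul1 (XX k A)))^[4 - j] (rho ζ) f * (sh (mul1 (XX k A)))^[j] (rho ζ) g)) +
    ((-1 : k) ^ 4 * ((4 : ℕ) : k)) • (mul1 f * (sh (mul1 (XX k A)))^[4 - 1] (rho ζ) g) =
    mul1 (f * g) * nu (2 * ζ) := by
  simp only [Finset.sum_range_succ, Finset.sum_range_zero, rho_it]
  norm_num
  have hc : Nat.choose 4 2 = 6 := by decide
  rw [hc]
  have e1 : W3 ζ f * W1 ζ g = - (mul1 (f * g) * nu (ζ / 2)) := by
    apply LinearMap.ext
    intro x
    simp only [Module.End.mul_apply, LinearMap.neg_apply, W1_apply, W3_apply, mul1_apply, nu_apply]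
    refine Prod.ext ?_ ?_
    · simp
    · simp only [Prod.snd_neg, Algebra.smul_def]; ring
  have e2 : W2 ζ f * W2 ζ g = 0 := by
    apply LinearMap.ext
    intro x
    simp only [Module.End.mul_apply, W2_apply]
    refine Prod.ext ?_ ?_
    · simp
    · simp
  have e3 : W1 ζ f * W3 ζ g = mul1 (f * g) * nu (ζ / 2) := by
    apply LinearMap.ext
    intro x
    simp only [Module.End.mul_apply, W1_apply, W3_apply, mul1_apply, nu_apply]
    refine Prod.ext ?_ ?_
    · simp
    · simp only [mul_zero, smul_zero, add_zero, Algebra.smul_def]; ring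
  have e4 : mul1 f * W3 ζ g = mul1 (f * g) * nu (ζ / 2) := by
    apply LinearMap.ext
    intro x
    simp only [Module.End.mul_apply, W3_apply, mul1_apply, nu_apply]
    refine Prod.ext ?_ ?_
    · simp
    · simp only [Algebra.smul_def]; ring
  have e5 : mul1 (f * g) * nu (2 * ζ) = (4 : k) • (mul1 (f * g) * nu (ζ / 2) : Module.End k (A × A)) := by
    apply LinearMap.ext
    intro x
    simp only [Module.End.mul_apply, LinearMap.smul_apply, mul1_apply, nu_apply]
    refine Prod.ext ?_ ?_
    · simp
    · simp only [Prod.smul_snd, smul_smul, mul_smul_comm]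
      congr 1
      ring
  rw [e1, e2, e3, e4, e5]
  module

theorem vdat_block [CharZero k] (ζ : k) (r : ℕ) (i : Fin r) (f g : A) :
    ((BlockX.dl (k := k))^[4] (BlockX.BB (vdat (A := A) ζ r) i i)) f g =
      (vdat (A := A) ζ r).τ (sg k i (f * g)) * slot i (nu (2 * ζ)) := by
  have h := BlockX.dl_iter (vdat (A := A) ζ r) i 4 f g
  rw [vdat_τ, tauV_sg] at h
  simp only [vdat_V, LinearMap.comp_apply, ← slot_mul, ← map_smul, ← map_sum, ← map_add] at h
  rw [one_block] at h
  rw [vdat_τ, tauV_sg, ← slot_mul, ← h]
  rfl

end rpt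

section blockG

open BlockX

variable {k : Type u} {A : Type u} [Field k] [CommRing A] [Algebra k A] [WAlg k A]
variable {S : Type*} [Ring S] [Algebra k S] {r : ℕ} {n : Fin r → ℕ} (dat : PData k A r n S)

/-- as many blocks as points, with a constant exponent -/
theorem blockG (m : ℕ) (c : Fin r → S)
    (hc : ∀ i f g, (dl^[m] (BB dat i i)) f g = dat.τ (sg k i (f * g)) * c i)
    (hcτ : ∀ i j, i ≠ j → ∀ g, Commute (c i) (dat.τ (sg k j g)))
    (hcc : ∀ i j, i ≠ j → Commute (c i) (c j)) (N : ℕ) (hN : 2 * (4 * r + ∑ i, n i) ≤ N)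
    (G : TA k A (Fin r × Fin 2)) :
    TB dat.tot r (F0 k A (fun _ => m) N * G) = ∑ h : Equiv.Perm (Fin r),
      dat.τ (Dis k A (Fin r) ^ (4 * N) * pmap (fun p : Fin r × Fin 2 => h p.1) G) *
        (List.ofFn c).prod := by
  rw [TB_expand, LinearMap.sum_apply]
  symm
  let emb : Equiv.Perm (Fin r) → (Fin r → Fin r × Fin r) := fun h i => (h i, h i)
  have hemb : Function.Injective emb := by
    intro h h' hh
    apply Equiv.ext
    intro i
    have := congrFun hh i
    exact congrArg Prod.fst this
  have hval : ∀ (h : Equiv.Perm (Fin r)), WB (fun i => BB dat (h i) (h i))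
      (F0 k A (fun _ => m) N * G) =
      WB (fun i => dl^[m] (BB dat (h i) (h i))) (crossF k A r ^ N * G) := by
    intro h
    have := WB_xy_prod (fun _ => m) Finset.univ (fun i => BB dat (h i) (h i))
      (crossF k A r ^ N * G)
    rw [← mul_assoc] at this
    simp only [Finset.mem_univ, if_true] at this
    exact this
  have hperm : ∀ h : Equiv.Perm (Fin r), (List.ofFn fun i => c (h i)).prod = (List.ofFn c).prod := by
    intro h
    have h1 := Equiv.Perm.ofFn_comp_perm h c
    apply List.Perm.prod_eq' h1
    rw [List.pairwise_ofFn]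
    intro i j hij
    exact hcc _ _ (fun h' => (ne_of_lt hij) (h.injective h'))
  have hWB : ∀ (h : Equiv.Perm (Fin r)) (F : TA k A (Fin r × Fin 2)),
      WB (fun i => dl^[m] (BB dat (h i) (h i))) F =
      dat.τ (pmap (fun p : Fin r × Fin 2 => h p.1) F) * (List.ofFn c).prod := by
    intro h F
    have key : WB (fun i => dl^[m] (BB dat (h i) (h i))) =
        LinearMap.mulRight k (List.ofFn c).prod ∘ₗ (dat.τ.comp
          (pmap (fun p : Fin r × Fin 2 => h p.1))).toLinearMap := by
      apply TA_lin_ext
      intro f
      rw [WB_tp]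
      have e1 : (fun i => (dl^[m] (BB dat (h i) (h i))) (f (i, 0)) (f (i, 1))) =
          fun i => dat.τ (sg k (h i) (f (i, 0) * f (i, 1))) * c (h i) := by
        funext i
        exact hc (h i) _ _
      rw [e1, prod_ofFn_mul _ _ (fun i j hij => hcτ _ _ (fun h' => hij (h.injective h')) _),
        hperm]
      simp only [LinearMap.comp_apply, LinearMap.mulRight_apply, AlgHom.toLinearMap_apply,
        AlgHom.comp_apply]
      congr 1
      have e2 : (List.ofFn fun i => dat.τ (sg k (h i) (f (i, 0) * f (i, 1)))) =
          (List.ofFn fun i => (sg k (h i) (f (i, 0) * f (i, 1)))).map dat.τ := by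
        rw [List.map_ofFn]; rfl
      rw [e2, ← map_list_prod, List.prod_ofFn]
      congr 1
      rw [tp_eq_prod, map_prod, Fintype.prod_prod_type]
      simp only [pmap_sg, Fin.prod_univ_two, map_mul]
    rw [key]; rfl
  apply Fintype.sum_of_injective emb hemb
  · intro π hπ
    by_cases hc : ∃ p q : Fin r × Fin 2, p.1 ≠ q.1 ∧ pt π p = pt π q
    · obtain ⟨p, q, hpq, h⟩ := hc
      unfold F0
      exact kill_block dat π p q hpq h N hN G _
    · exfalso
      push Not at hc
      have hinj : Function.Injective (fun i => (π i).1) := by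
        intro i j hij
        by_contra hne
        exact hc (i, 0) (j, 0) hne hij
      have hbij : Function.Bijective (fun i => (π i).1) := Finite.injective_iff_bijective.1 hinj
      set h : Equiv.Perm (Fin r) := Equiv.ofBijective _ hbij with hh
      have h1 : ∀ i, (π i).1 = h i := fun i => rfl
      have h2 : ∀ i, (π i).2 = h i := by
        intro i
        obtain ⟨l, hl⟩ := h.surjective (π i).2
        by_cases hli : l = i
        · rw [← hl, hli]
        · exfalso
          apply hc (l, 0) (i, 1) hli
          change (π l).1 = (π i).2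
          rw [h1, hl]
      apply hπ
      refine ⟨h, ?_⟩
      funext i
      exact Prod.ext (h1 i).symm (h2 i).symm
  · intro h
    change _ = WB (fun i => BB dat (h i) (h i)) (F0 k A (fun _ => m) N * G)
    have e1 : pmap (fun p : Fin r × Fin 2 => h p.1)
        (crossF k A r ^ N * G) = Dis k A (Fin r) ^ (4 * N) *
        pmap (fun p : Fin r × Fin 2 => h p.1) G := by
      rw [map_mul, map_pow, pmap_cross, ← pow_mul]
    rw [hval, hWB, e1]

end blockG

section resid

variable {k : Type u} {A : Type u} [Field k] [CommRing A] [Algebra k A] [WAlg k A]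

/-- the multiple residue -/
def RES (res : A →ₗ[k] k) (r : ℕ) : TA k A (Fin r) →ₗ[k] k :=
  PiTensorProduct.lift ((MultilinearMap.mkPiAlgebra k (Fin r) k).compLinearMap fun _ => res)

theorem RES_tp (res : A →ₗ[k] k) (r : ℕ) (f : Fin r → A) : RES res r (tp k f) = ∏ i, res (f i) := by
  rw [RES, tp, PiTensorProduct.lift.tprod, MultilinearMap.compLinearMap_apply,
    MultilinearMap.mkPiAlgebra_apply]

theorem RES_pmap (res : A →ₗ[k] k) (r : ℕ) (h : Equiv.Perm (Fin r)) (x : TA k A (Fin r)) :
    RES res r (pmap h x) = RES res r x := by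
  have : RES res r ∘ₗ (pmap h).toLinearMap = RES res r := by
    apply BlockX.TA_lin_ext
    intro f
    rw [LinearMap.comp_apply, AlgHom.toLinearMap_apply, pmap_tp_equiv, RES_tp, RES_tp]
    exact Equiv.prod_comp h.symm (fun i => res (f i))
  exact LinearMap.congr_fun this x

/-- dual elements for finitely many linearly independent elements -/
theorem exists_dual (res : A →ₗ[k] k) (hres : IsRes res) {ι : Type*} [DecidableEq ι] (b : ι → A)
    (hb : LinearIndependent k b) (J : Finset ι) :
    ∃ a : ι → A, ∀ i ∈ J, ∀ j ∈ J, res (a i * b j) = if i = j then 1 else 0 := by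
  classical
  let B : (J → k) →ₗ[k] A →ₗ[k] k :=
    { toFun := fun v => res ∘ₗ LinearMap.mulRight k (∑ j, v j • b j)
      map_add' := by
        intro v w
        apply LinearMap.ext
        intro a
        simp only [LinearMap.comp_apply, LinearMap.mulRight_apply, LinearMap.add_apply,
          Pi.add_apply, add_smul, Finset.sum_add_distrib, mul_add, map_add]
      map_smul' := by
        intro c v
        apply LinearMap.ext
        intro a
        simp only [LinearMap.comp_apply, LinearMap.mulRight_apply, LinearMap.smul_apply,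
          Pi.smul_apply, smul_assoc, ← Finset.smul_sum, mul_smul_comm, map_smul,
          RingHom.id_apply] }
  have hBapp : ∀ v a, B v a = res (a * ∑ j, v j • b j) := fun v a => rfl
  have hinj : Function.Injective B := by
    rw [injective_iff_map_eq_zero]
    intro v hv
    have h0 : ∑ j, v j • b j = 0 := by
      apply hres.nondeg
      intro a
      rw [← hBapp, hv]
      rfl
    have hb' : LinearIndependent k (fun j : J => b j) := hb.comp _ Subtype.val_injective
    have := Fintype.linearIndependent_iff.1 hb' v h0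
    funext j
    exact this j
  have hsurj : Function.Surjective B.flip := LinearMap.flip_surjective_iff₁.2 hinj
  have hex : ∀ i : ι, ∃ a : A, ∀ j ∈ J, res (a * b j) = if i = j then 1 else 0 := by
    intro i
    by_cases hi : i ∈ J
    · obtain ⟨a, ha⟩ := hsurj (LinearMap.proj (⟨i, hi⟩ : J))
      refine ⟨a, fun j hj => ?_⟩
      have h1 := LinearMap.congr_fun ha (Pi.single (⟨j, hj⟩ : J) (1 : k))
      rw [LinearMap.flip_apply, hBapp, LinearMap.proj_apply] at h1
      have h2 : ∑ l : J, (Pi.single (⟨j, hj⟩ : J) (1 : k) : J → k) l • b l = b j := by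
        rw [Finset.sum_eq_single (⟨j, hj⟩ : J)]
        · simp
        · intro l _ hl; simp [Pi.single_eq_of_ne hl]
        · simp
      rw [h2] at h1
      rw [h1, Pi.single_apply]
      simp only [Subtype.mk.injEq]
    · refine ⟨0, fun j hj => ?_⟩
      rw [zero_mul, map_zero, if_neg]
      rintro rfl
      exact hi hj
  choose a ha using hex
  exact ⟨a, fun i _ j hj => ha i j hj⟩

/-- nondegeneracy of the multiple residue -/
theorem RES_nondeg (res : A →ₗ[k] k) (hres : IsRes res) (r : ℕ) (H : TA k A (Fin r))
    (h : ∀ G, RES res r (G * H) = 0) : H = 0 := by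
  classical
  let b := Module.Basis.ofVectorSpace k A
  let bb : Module.Basis (Fin r → Module.Basis.ofVectorSpaceIndex k A) k (TA k A (Fin r)) :=
    Basis.piTensorProduct fun _ => b
  have hbb : ∀ q, bb q = tp k (fun i => b (q i)) := fun q => Basis.piTensorProduct_apply _ _
  apply bb.ext_elem
  intro p
  rw [map_zero, Finsupp.zero_apply]
  -- finite set of indices
  let J : Finset (Module.Basis.ofVectorSpaceIndex k A) :=
    ((bb.repr H).support.biUnion fun q => Finset.univ.image q) ∪ Finset.univ.image p
  obtain ⟨a, ha⟩ := exists_dual res hres b b.linearIndependent J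
  have h1 := h (tp k fun i => a (p i))
  rw [← bb.linearCombination_repr H, Finsupp.linearCombination_apply, Finsupp.sum,
    Finset.mul_sum, map_sum] at h1
  have h2 : ∀ q ∈ (bb.repr H).support, RES res r ((tp k fun i => a (p i)) *
      (bb.repr H q • bb q)) = if q = p then bb.repr H p else 0 := by
    intro q hq
    rw [mul_smul_comm, map_smul, hbb, lmul_tp, RES_tp]
    have h3 : ∀ i, res (a (p i) * b (q i)) = if p i = q i then 1 else 0 := by
      intro i
      apply ha
      · exact Finset.mem_union_right _ (Finset.mem_image_of_mem p (Finset.mem_univ i))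
      · exact Finset.mem_union_left _ (Finset.mem_biUnion.2
          ⟨q, hq, Finset.mem_image_of_mem q (Finset.mem_univ i)⟩)
    simp only [h3]
    split_ifs with hqp
    · subst hqp
      simp
    · have : ∃ i, p i ≠ q i := by
        by_contra hc
        push Not at hc
        exact hqp (funext fun i => (hc i).symm)
      obtain ⟨i, hi⟩ := this
      rw [Finset.prod_eq_zero (Finset.mem_univ i) (by rw [if_neg hi]), smul_zero]
  rw [Finset.sum_congr rfl h2, Finset.sum_ite_eq'] at h1
  split_ifs at h1 with hp
  · exact h1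
  · exact Finsupp.notMem_support_iff.1 hp

end resid

section eqv

variable {k : Type u} {A : Type u} [Field k] [CommRing A] [Algebra k A] [WAlg k A]
variable {S : Type*} [Ring S] [Algebra k S]

/-- the adjoint operators -/
def adE (e : A →ₗ[k] S) : A →ₗ[k] Module.End k S where
  toFun f := LinearMap.mulLeft k (e f) - LinearMap.mulRight k (e f)
  map_add' f g := by
    apply LinearMap.ext
    intro x
    simp only [LinearMap.sub_apply, LinearMap.add_apply, LinearMap.mulLeft_apply,
      LinearMap.mulRight_apply, map_add, add_mul, mul_add]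
    abel
  map_smul' c f := by
    apply LinearMap.ext
    intro x
    simp only [LinearMap.sub_apply, LinearMap.smul_apply, LinearMap.mulLeft_apply,
      LinearMap.mulRight_apply, map_smul, smul_mul_assoc, mul_smul_comm, smul_sub,
      RingHom.id_apply]

theorem adE_apply (e : A →ₗ[k] S) (f : A) (x : S) : adE e f x = e f * x - x * e f := rfl

/-- the map from the one point module -/
def phi (res : A →ₗ[k] k) (e : A →ₗ[k] S) : A × A →ₗ[k] S :=
  e ∘ₗ LinearMap.fst k A A + (Algebra.linearMap k S) ∘ₗ res ∘ₗ LinearMap.snd k A A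

theorem phi_apply (res : A →ₗ[k] k) (e : A →ₗ[k] S) (x : A × A) :
    phi res e x = e x.1 + algebraMap k S (res x.2) := rfl

theorem phi_rho [CharZero k] (res : A →ₗ[k] k) (hres : IsRes res) (ζ : k) (e : A →ₗ[k] S)
    (he : IsEV res ζ e) (f : A) (x : A × A) :
    phi res e (rho ζ f x) = e f * phi res e x - phi res e x * e f := by
  simp only [phi_apply, rho_apply]
  have h := he f x.1
  have h2 : res (dd k (f * x.2) + (ζ / 12) • (dd k (dd k (dd k f)) * x.1)) = ζ * om res f x.1 := by
    rw [map_add, hres.der, zero_add, map_smul, smul_eq_mul, om]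
    ring
  have h3 : f * dd k x.1 - dd k f * x.1 = wbr k f x.1 := by rw [wbr]; ring
  rw [h2, h3, ← h, mul_add, add_mul, Algebra.commutes (res x.2) (e f)]
  abel

theorem TT_phi_tot [CharZero k] (res : A →ₗ[k] k) (hres : IsRes res) (ζ : k) (e : A →ₗ[k] S)
    (he : IsEV res ζ e) (r : ℕ) (f : A) (x : TA k (A × A) (Fin r)) :
    TT (phi res e) r ((vdat ζ r).tot f x) = adE e f (TT (phi res e) r x) := by
  rw [adE_apply]
  induction x using TA_induction with
  | hs c x hx => simp only [map_smul, hx, mul_smul_comm, smul_mul_assoc, smul_sub]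
  | ha x y hx hy =>
    simp only [map_add, hx, hy, mul_add, add_mul]
    abel
  | h0 g =>
    have h1 := Thm1.leibniz_list (S := S)
      ((AddMonoidHom.mulLeft (e f)) - (AddMonoidHom.mulRight (e f))) (by simp)
      (by intro a b; simp; noncomm_ring) r (fun i => phi res e (g i))
    simp only [AddMonoidHom.sub_apply, AddMonoidHom.coe_mulLeft, AddMonoidHom.coe_mulRight] at h1
    rw [TT_tp, h1, PData.tot_apply, LinearMap.sum_apply, map_sum]
    refine Finset.sum_congr rfl fun i _ => ?_
    rw [vdat_e, LinearMap.comp_apply, slot_tp, TT_tp]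
    congr 1
    congr 1
    funext l
    by_cases hl : l = i
    · subst hl
      simp only [Function.update_self]
      exact phi_rho res hres ζ e he f (g l)
    · simp [Function.update_of_ne hl]

/-- words of intertwined operators are intertwined -/
theorem TB_twine {M M' : Type*} [AddCommGroup M] [Module k M] [AddCommGroup M'] [Module k M']
    (Q : M →ₗ[k] M') (E : A →ₗ[k] Module.End k M) (E' : A →ₗ[k] Module.End k M')
    (h : ∀ f x, Q (E f x) = E' f (Q x)) (b : ℕ) (H : TA k A (Fin b × Fin 2)) (x : M) :
    Q (TB E b H x) = TB E' b H (Q x) := by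
  induction H using TA_induction generalizing x with
  | hs c H hH => simp only [map_smul, LinearMap.smul_apply, hH]
  | ha H H' hH hH' => simp only [map_add, LinearMap.add_apply, hH, hH']
  | h0 f =>
    rw [TB_tp, TB_tp]
    have key : ∀ L : List (Fin b),
        Q ((L.map fun i => E (f (i, 0)) * E (f (i, 1))).prod x) =
        (L.map fun i => E' (f (i, 0)) * E' (f (i, 1))).prod (Q x) := by
      intro L
      induction L with
      | nil => simp
      | cons a L ih =>
        rw [List.map_cons, List.prod_cons, List.map_cons, List.prod_cons, Module.End.mul_apply,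
          Module.End.mul_apply, Module.End.mul_apply, Module.End.mul_apply, h, h, ih]
    have := key (List.finRange b)
    rwa [← List.ofFn_eq_map, ← List.ofFn_eq_map] at this

/-- the inclusion of functions in the module -/
def inc (r : ℕ) : TA k A (Fin r) →ₗ[k] TA k (A × A) (Fin r) :=
  PiTensorProduct.map fun _ => LinearMap.inl k A A

theorem inc_tp (r : ℕ) (f : Fin r → A) : inc r (tp k f) = tp k (fun i => (f i, 0)) := by
  rw [inc, tp, PiTensorProduct.map_tprod, tp]
  rfl

theorem TT_inc (res : A →ₗ[k] k) (e : A →ₗ[k] S) (r : ℕ) (F : TA k A (Fin r)) :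
    TT (phi res e) r (inc r F) = TT e r F := by
  have : TT (phi res e) r ∘ₗ inc r = TT e r := by
    apply BlockX.TA_lin_ext
    intro f
    rw [LinearMap.comp_apply, inc_tp, TT_tp, TT_tp]
    congr 1
    congr 1
    funext i
    simp [phi_apply]
  exact LinearMap.congr_fun this F

theorem TT_top (res : A →ₗ[k] k) (e : A →ₗ[k] S) (c : k) (r : ℕ) (G F : TA k A (Fin r)) :
    TT (phi res e) r (tauV r G ((List.ofFn fun i : Fin r => slot i (nu c)).prod (inc r F))) =
      algebraMap k S (c ^ r * RES res r (G * F)) := by
  induction F using TA_induction with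
  | hs a x hx =>
    simp only [map_smul, mul_smul_comm, hx, smul_eq_mul]
    rw [Algebra.smul_def, ← map_mul]
    congr 1
    ring
  | ha x y hx hy => simp only [map_add, mul_add, hx, hy]
  | h0 f =>
    induction G using TA_induction with
    | hs a x hx =>
      simp only [map_smul, smul_mul_assoc, LinearMap.smul_apply, hx, smul_eq_mul]
      rw [Algebra.smul_def, ← map_mul]
      congr 1
      ring
    | ha x y hx hy => simp only [map_add, add_mul, mul_add, LinearMap.add_apply, hx, hy]
    | h0 g =>
      rw [inc_tp, prod_slot, tauV_tp, TT_tp, lmul_tp, RES_tp]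
      have e1 : (fun i => phi res e (g i * (nu c (f i, 0)).1, g i * (nu c (f i, 0)).2)) =
          fun i => algebraMap k S (c * res (g i * f i)) := by
        funext i
        simp [phi_apply, nu_apply]
      rw [e1]
      have e2 : (List.ofFn fun i => algebraMap k S (c * res (g i * f i))) =
          (List.ofFn fun i => c * res (g i * f i)).map (algebraMap k S) := by
        rw [List.map_ofFn]; rfl
      rw [e2, ← map_list_prod, List.prod_ofFn, Finset.prod_mul_distrib, Finset.prod_const,
        Finset.card_univ, Fintype.card_fin]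

end eqv

section main

variable {k : Type u} {A : Type u} [Field k] [CommRing A] [Algebra k A] [WAlg k A]

theorem pmap_perm_mul {r : ℕ} (σ τ : Equiv.Perm (Fin r)) (x : TA k A (Fin r)) :
    pmap ((σ * τ : Equiv.Perm (Fin r)) : Fin r → Fin r) x = pmap σ (pmap τ x) := by
  rw [pmap_comp]; rfl

theorem pmap_perm_one {r : ℕ} (x : TA k A (Fin r)) :
    pmap ((1 : Equiv.Perm (Fin r)) : Fin r → Fin r) x = x := pmap_id x

theorem Dis_ne_zero (r : ℕ) (hd : IsDomain (TA k A (Fin r))) : Dis k A (Fin r) ≠ 0 := by
  unfold Dis
  rw [Finset.prod_ne_zero_iff]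
  intro p hp h
  rw [Finset.mem_offDiag] at hp
  have h1 := congrArg (der k A p.1) h
  rw [map_sub, map_zero, der_sg, der_sg, if_pos rfl, if_neg hp.2.2, sub_zero, dd_X, map_one] at h1
  exact one_ne_zero h1

end main

end VB

open VB in
theorem specVirClaim : SpecVirClaim.{u} := by
  intro k A S _ _ _ _ _ _ _ _ hdom res hres ζ hζ e he d F hF
  classical
  -- words with more blocks than points
  have hV : ∀ j : ℕ, j < d → ∃ N0, ∀ N ≥ N0, ∀ G,
      TB (vdat (A := A) ζ j).tot d (F0 k A (fun _ => 4) N * G) = 0 := fun j hj =>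
    specBlockV k A _ j (fun _ => 4) (vdat ζ j) d (fun _ => 4) hj
  choose! N0 hN0 using hV
  let N : ℕ := ∑ j ∈ Finset.range d, N0 j + 2 * (4 * d + ∑ i : Fin d, 4)
  have hN1 : ∀ j, j < d → N ≥ N0 j := by
    intro j hj
    have := Finset.single_le_sum (f := N0) (fun i _ => Nat.zero_le _) (Finset.mem_range.2 hj)
    omega
  have hN2 : 2 * (4 * d + ∑ i : Fin d, 4) ≤ N := by omega
  -- the relation
  have key : ∀ G : TA k A (Fin d), ∑ h : Equiv.Perm (Fin d),
      RES res d (Dis k A (Fin d) ^ (4 * N) * pmap h G * F d) = 0 := by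
    intro G
    let G' : TA k A (Fin d × Fin 2) := pmap (fun i : Fin d => (i, (0 : Fin 2))) G
    have h1 : ∀ j, TB (adE e) d (F0 k A (fun _ => 4) N * G') (TT e j (F j)) =
        TT (phi res e) j (TB (vdat (A := A) ζ j).tot d (F0 k A (fun _ => 4) N * G')
          (inc j (F j))) := by
      intro j
      rw [← TT_inc res e j (F j)]
      exact (TB_twine (TT (phi res e) j) _ _ (fun f x => TT_phi_tot res hres ζ e he j f x) d
        _ _).symm
    have h2 : ∑ j ∈ Finset.range (d + 1), TB (adE e) d (F0 k A (fun _ => 4) N * G')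
        (TT e j (F j)) = 0 := by
      rw [← map_sum, hF, map_zero]
    rw [Finset.sum_range_succ, Finset.sum_eq_zero, zero_add, h1] at h2
    · rw [blockG (vdat (A := A) ζ d) 4 (fun i => slot i (nu (2 * ζ)))
        (fun i f g => vdat_block ζ d i f g)
        (fun i j hij g => by
          rw [vdat_τ, tauV_sg]
          exact slot_comm hij _ _)
        (fun i j hij => slot_comm hij _ _) N hN2 G', LinearMap.sum_apply, map_sum] at h2
      simp only [Module.End.mul_apply, vdat_τ, TT_top] at h2
      rw [← map_sum, ← Finset.mul_sum] at h2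
      have h3 := (algebraMap k S).injective (h2.trans (map_zero _).symm)
      rw [mul_eq_zero] at h3
      rcases h3 with h3 | h3
      · exact absurd h3 (pow_ne_zero _ (mul_ne_zero two_ne_zero hζ))
      · rw [← h3]
        refine Finset.sum_congr rfl fun h _ => ?_
        congr 3
        change _ = pmap (fun p : Fin d × Fin 2 => h p.1) (pmap (fun i : Fin d => (i, (0 : Fin 2))) G)
        rw [pmap_comp]
        rfl
    · intro j hj
      rw [Finset.mem_range] at hj
      rw [h1, hN0 j hj N (hN1 j hj), LinearMap.zero_apply, map_zero]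
  -- nondegeneracy
  have h4 : Dis k A (Fin d) ^ (4 * N) * ∑ h : Equiv.Perm (Fin d), pmap h (F d) = 0 := by
    apply RES_nondeg res hres
    intro G
    rw [← key G, Finset.mul_sum, Finset.mul_sum, map_sum]
    refine Fintype.sum_equiv (Equiv.inv _) _ _ fun h => ?_
    rw [Equiv.inv_apply, ← RES_pmap res d h⁻¹]
    congr 1
    simp only [map_mul, map_pow, Thm1.pmap_Dis]
    rw [← pmap_perm_mul, inv_mul_cancel, pmap_perm_one]
    ring
  have := hdom d
  rcases mul_eq_zero.1 h4 with h5 | h5
  · exact absurd h5 (pow_ne_zero _ (Dis_ne_zero d (hdom d)))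
  · exact h5

end MPcc24
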