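import Pool.Agent.Lib.MP_cc24ba_al.SpecV
import Pool.Agent.Lib.MP_cc24ba_al.WrapDom

section
set_option linter.all false

/-!
# Module VC: the symmetric tensors form a domain
-/

noncomputable section

open scoped TensorProduct BigOperators

namespace MPcc24

universe u

namespace SymDomM

variable {k : Type u} {A : Type u} [Field k] [CommRing A] [Algebra k A]
variable {I : Type u} (b : Module.Basis I k A)

/-- the linear map sending basis elements to variables -/
def xi : A →ₗ[k] MvPolynomial I k := b.constr k fun s => MvPolynomial.X s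

theorem xi_basis (s : I) : xi b (b s) = MvPolynomial.X s := by
  rw [xi, Module.Basis.constr_basis]

/-- the evaluation of words -/
def sig (j : ℕ) : TA k A (Fin j) →ₗ[k] MvPolynomial I k := TT (xi b) j

theorem sig_tp (j : ℕ) (f : Fin j → A) : sig b j (tp k f) = ∏ i, xi b (f i) := by
  rw [sig, TT_tp, List.prod_ofFn]

theorem sig_pmap (j : ℕ) (h : Equiv.Perm (Fin j)) (F : TA k A (Fin j)) :
    sig b j (pmap (h : Fin j → Fin j) F) = sig b j F := by
  induction F using TA_induction with
  | h0 f =>
    rw [pmap_tp_equiv h f, sig_tp, sig_tp]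
    exact Equiv.prod_comp h.symm (fun i => xi b (f i))
  | hs c x hx => rw [map_smul, map_smul, map_smul, hx]
  | ha x y hx hy => rw [map_add, map_add, map_add, hx, hy]

theorem pmap_append (a c : ℕ) (f : Fin a → A) (g : Fin c → A) :
    pmap (Fin.castAdd c) (tp k f) * pmap (Fin.natAdd a) (tp k g) = tp k (Fin.append f g) := by
  rw [tp_eq_prod f, tp_eq_prod g, tp_eq_prod (Fin.append f g), map_prod, map_prod,
    Fin.prod_univ_add]
  simp only [pmap_sg, Fin.append_left, Fin.append_right]

theorem sig_mul (a c : ℕ) (F : TA k A (Fin a)) (G : TA k A (Fin c)) :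
    sig b (a + c) (pmap (Fin.castAdd c) F * pmap (Fin.natAdd a) G) = sig b a F * sig b c G := by
  induction F using TA_induction with
  | hs t x hx => rw [map_smul, smul_mul_assoc, map_smul, map_smul, hx, smul_mul_assoc]
  | ha x y hx hy => rw [map_add, add_mul, map_add, hx, hy, map_add, add_mul]
  | h0 f =>
    induction G using TA_induction with
    | hs t x hx => rw [map_smul, mul_smul_comm, map_smul, map_smul, hx, mul_smul_comm]
    | ha x y hx hy => rw [map_add, mul_add, map_add, hx, hy, map_add, mul_add]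
    | h0 g =>
      rw [pmap_append, sig_tp, sig_tp, sig_tp, Fin.prod_univ_add]
      simp only [Fin.append_left, Fin.append_right]

/-- the exponent of a word in the basis -/
def ex (j : ℕ) (n : Fin j → I) : I →₀ ℕ := ∑ i, Finsupp.single (n i) 1

open Classical in
theorem ex_apply (j : ℕ) (n : Fin j → I) (s : I) :
    ex j n s = Fintype.card {i : Fin j // n i = s} := by
  rw [ex, Finsupp.finset_sum_apply]
  simp only [Finsupp.single_apply]
  rw [Finset.sum_boole, Fintype.card_subtype]
  simp

theorem exists_perm (j : ℕ) (n n' : Fin j → I) (h : ex j n = ex j n') :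
    ∃ g : Equiv.Perm (Fin j), ∀ i, n' (g i) = n i := by
  classical
  have hc : ∀ s, Nonempty ({i : Fin j // n i = s} ≃ {i : Fin j // n' i = s}) := by
    intro s
    rw [← Fintype.card_eq]
    have := DFunLike.congr_fun h s
    rw [ex_apply, ex_apply] at this
    exact this
  let e' : ∀ s, {i : Fin j // n i = s} ≃ {i : Fin j // n' i = s} :=
    fun s => Classical.choice (hc s)
  refine ⟨(Equiv.sigmaFiberEquiv n).symm.trans
    ((Equiv.sigmaCongrRight e').trans (Equiv.sigmaFiberEquiv n')), fun i => ?_⟩
  have h1 : ((Equiv.sigmaFiberEquiv n).symm.trans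
    ((Equiv.sigmaCongrRight e').trans (Equiv.sigmaFiberEquiv n'))) i = (e' (n i) ⟨i, rfl⟩ : Fin j) := rfl
  rw [h1]
  exact (e' (n i) ⟨i, rfl⟩).2

/-- the symmetrization -/
def sym (j : ℕ) : TA k A (Fin j) →ₗ[k] TA k A (Fin j) :=
  ∑ h : Equiv.Perm (Fin j), (pmap (k := k) (A := A) (h : Fin j → Fin j)).toLinearMap

theorem sym_apply (j : ℕ) (F : TA k A (Fin j)) :
    sym j F = ∑ h : Equiv.Perm (Fin j), pmap (h : Fin j → Fin j) F := by
  simp [sym]

theorem sym_pmap (j : ℕ) (g : Equiv.Perm (Fin j)) (F : TA k A (Fin j)) :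
    sym j (pmap (g : Fin j → Fin j) F) = sym j F := by
  rw [sym_apply, sym_apply]
  simp only [pmap_comp]
  exact Fintype.sum_equiv (Equiv.mulRight g) _ _ (fun h => rfl)

open Classical in
/-- the restitution map -/
def rho (j : ℕ) : MvPolynomial I k →ₗ[k] TA k A (Fin j) :=
  (MvPolynomial.basisMonomials I k).constr k fun m =>
    if h : ∃ n : Fin j → I, ex j n = m then sym j (tp k fun i => b (h.choose i)) else 0

theorem rho_prod (j : ℕ) (n : Fin j → I) :
    rho b j (∏ i, MvPolynomial.X (n i)) = sym j (tp k fun i => b (n i)) := by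
  classical
  have h1 : (∏ i, MvPolynomial.X (n i) : MvPolynomial I k) =
      MvPolynomial.basisMonomials I k (ex j n) := by
    rw [MvPolynomial.coe_basisMonomials, ex]
    exact (MvPolynomial.monomial_sum_one _ _).symm
  rw [h1, rho, Module.Basis.constr_basis]
  have h : ∃ n' : Fin j → I, ex j n' = ex j n := ⟨n, rfl⟩
  rw [dif_pos h]
  obtain ⟨g, hg⟩ := exists_perm j _ _ h.choose_spec
  have h2 : (fun i => b (h.choose i)) = (fun i => b (n i)) ∘ (g⁻¹ : Equiv.Perm (Fin j)).symm := by
    funext i
    simp only [Function.comp_apply]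
    congr 1
    exact (hg i).symm
  rw [h2, ← pmap_tp_equiv, sym_pmap]

theorem rho_sig (j : ℕ) (F : TA k A (Fin j)) : rho b j (sig b j F) = sym j F := by
  have : rho b j ∘ₗ sig b j = sym j := by
    refine (Basis.piTensorProduct (fun _ : Fin j => b)).ext fun n => ?_
    rw [Basis.piTensorProduct_apply, LinearMap.comp_apply]
    change rho b j (sig b j (tp k fun i => b (n i))) = sym j (tp k fun i => b (n i))
    rw [sig_tp]
    simp only [xi_basis]
    exact rho_prod b j n
  exact LinearMap.congr_fun this F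

theorem sym_of_symm [CharZero k] (j : ℕ) (F : TA k A (Fin j))
    (hF : ∀ h : Equiv.Perm (Fin j), pmap (h : Fin j → Fin j) F = F) (h : sym j F = 0) : F = 0 := by
  rw [sym_apply, Finset.sum_congr rfl fun h _ => hF h, Finset.sum_const, Finset.card_univ,
    Fintype.card_perm, Fintype.card_fin, ← Nat.cast_smul_eq_nsmul k] at h
  exact (smul_eq_zero.1 h).resolve_left (Nat.cast_ne_zero.2 (Nat.factorial_ne_zero j))

end SymDomM

open SymDomM in
theorem specSymDom : SpecSymDom.{u} := by
  intro k A _ _ _ _ a c F G hF hG hFs hGs h0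
  let b := Module.Basis.ofVectorSpace k A
  have h1 : sig b (a + c) (∑ h : Equiv.Perm (Fin (a + c)), pmap (h : Fin (a + c) → Fin (a + c))
      (pmap (Fin.castAdd c) F * pmap (Fin.natAdd a) G)) = 0 := by rw [h0, map_zero]
  rw [map_sum] at h1
  simp only [sig_pmap, sig_mul] at h1
  rw [Finset.sum_const, Finset.card_univ, Fintype.card_perm, Fintype.card_fin,
    ← Nat.cast_smul_eq_nsmul k] at h1
  have h2 := (smul_eq_zero.1 h1).resolve_left (Nat.cast_ne_zero.2 (Nat.factorial_ne_zero _))
  rcases mul_eq_zero.1 h2 with h3 | h3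
  · apply hF
    apply sym_of_symm a F hFs
    rw [← rho_sig b, h3, map_zero]
  · apply hG
    apply sym_of_symm c G hGs
    rw [← rho_sig b, h3, map_zero]

end MPcc24
end
end

section
set_option linter.all false

/-!
# Module WA: functions of several variables form a domain
-/

noncomputable section

namespace MPcc24

universe u

/-- Module WA. -/
theorem specTADom : SpecTADom.{u} := fun k _ r => ⟨isDomain_TA_poly k r, isDomain_TA_laurent k r⟩

end MPcc24
end
end

section
set_option linter.all false

/-!
# The filtration by the length of words, reordering (common to the modules VB and VD)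
-/

noncomputable section

open scoped TensorProduct BigOperators

namespace MPcc24

universe u

namespace VBase

section mul

variable {k : Type u} {A : Type u} [Field k] [CommRing A] [Algebra k A]
variable {S : Type*} [Ring S] [Algebra k S] (e : A →ₗ[k] S)

/-- concatenation of words -/
def tcat (a c : ℕ) (F : TA k A (Fin a)) (G : TA k A (Fin c)) : TA k A (Fin (a + c)) :=
  pmap (Fin.castAdd c) F * pmap (Fin.natAdd a) G

theorem TT_mul (a c : ℕ) (F : TA k A (Fin a)) (G : TA k A (Fin c)) :
    TT e (a + c) (tcat a c F G) = TT e a F * TT e c G := by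
  rw [tcat]
  induction F using TA_induction with
  | hs t x hx => rw [map_smul, smul_mul_assoc, map_smul, map_smul, hx, smul_mul_assoc]
  | ha x y hx hy => rw [map_add, add_mul, map_add, hx, hy, map_add, add_mul]
  | h0 f =>
    induction G using TA_induction with
    | hs t x hx => rw [map_smul, mul_smul_comm, map_smul, map_smul, hx, mul_smul_comm]
    | ha x y hx hy => rw [map_add, mul_add, map_add, hx, hy, map_add, mul_add]
    | h0 g =>
      rw [SymDomM.pmap_append, TT_tp, TT_tp, TT_tp]
      have : (fun i => e (Fin.append f g i)) = Fin.append (fun i => e (f i)) (fun i => e (g i)) := by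
        funext i
        refine Fin.addCases (fun i => ?_) (fun i => ?_) i
        · simp only [Fin.append_left]
        · simp only [Fin.append_right]
      rw [this, List.ofFn_fin_append, List.prod_append]

/-- sums of words of length smaller than `d` -/
def Rl (d : ℕ) : Submodule k S :=
  LinearMap.range (∑ j ∈ Finset.range d,
    (TT e j) ∘ₗ (LinearMap.proj j : (∀ j : ℕ, TA k A (Fin j)) →ₗ[k] TA k A (Fin j)))

theorem mem_Rl {d : ℕ} {x : S} :
    x ∈ Rl e d ↔ ∃ F : ∀ j : ℕ, TA k A (Fin j), ∑ j ∈ Finset.range d, TT e j (F j) = x := by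
  rw [Rl, LinearMap.mem_range]
  simp [LinearMap.sum_apply]

theorem TT_mem {d j : ℕ} (h : j < d) (F : TA k A (Fin j)) : TT e j F ∈ Rl e d := by
  classical
  rw [mem_Rl]
  refine ⟨Pi.single j F, ?_⟩
  rw [Finset.sum_eq_single j]
  · rw [Pi.single_eq_same]
  · intro i _ hi; rw [Pi.single_eq_of_ne hi, map_zero]
  · intro hj; exact absurd (Finset.mem_range.2 h) hj

theorem Rl_le_iff {d : ℕ} {N : Submodule k S} :
    Rl e d ≤ N ↔ ∀ j < d, ∀ F : TA k A (Fin j), TT e j F ∈ N := by
  constructor
  · intro h j hj F; exact h (TT_mem e hj F)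
  · intro h x hx
    obtain ⟨F, rfl⟩ := (mem_Rl e).1 hx
    exact N.sum_mem fun j hj => h j (Finset.mem_range.1 hj) _

theorem Rl_mono {d d' : ℕ} (h : d ≤ d') : Rl e d ≤ Rl e d' :=
  (Rl_le_iff e).2 fun _ hj F => TT_mem e (hj.trans_le h) F

theorem Rl_zero : Rl e 0 = ⊥ := by
  rw [eq_bot_iff, Rl_le_iff]
  intro j hj; omega

theorem Rl_mul {a c d : ℕ} (h : a + c ≤ d + 1) {x y : S} (hx : x ∈ Rl e a) (hy : y ∈ Rl e c) :
    x * y ∈ Rl e d := by
  obtain ⟨F, rfl⟩ := (mem_Rl e).1 hx
  obtain ⟨G, rfl⟩ := (mem_Rl e).1 hy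
  rw [Finset.sum_mul_sum]
  refine Submodule.sum_mem _ fun i hi => Submodule.sum_mem _ fun j hj => ?_
  rw [← TT_mul]
  have := Finset.mem_range.1 hi
  have := Finset.mem_range.1 hj
  exact TT_mem e (by omega) _

theorem prod_mem (l : List A) : (l.map e).prod ∈ Rl e (l.length + 1) := by
  have h := TT_mem e (Nat.lt_succ_self l.length) (tp k fun i => l.get i)
  rw [TT_tp] at h
  have h2 : (List.ofFn fun i => e (l.get i)) = l.map e := by
    have h3 : l.map e = (List.ofFn l.get).map e := by rw [List.ofFn_get]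
    rw [h3, List.map_ofFn]
    rfl
  rwa [h2] at h

theorem e_mem (f : A) : e f ∈ Rl e 2 := by
  have := prod_mem e [f]
  simpa using this

theorem algebraMap_mem (c : k) : algebraMap k S c ∈ Rl e 1 := by
  have := prod_mem e ([] : List A)
  rw [List.map_nil, List.prod_nil] at this
  rw [Algebra.algebraMap_eq_smul_one]
  exact Submodule.smul_mem _ c this

theorem adjoin_mem {x : S} (hx : x ∈ Algebra.adjoin k (Set.range e)) : ∃ d, x ∈ Rl e d := by
  induction hx using Algebra.adjoin_induction with
  | mem x hx => obtain ⟨f, rfl⟩ := hx; exact ⟨2, e_mem e f⟩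
  | algebraMap c => exact ⟨1, algebraMap_mem e c⟩
  | add x y _ _ hx hy =>
    obtain ⟨a, ha⟩ := hx
    obtain ⟨c, hc⟩ := hy
    exact ⟨max a c, Submodule.add_mem _ (Rl_mono e (le_max_left a c) ha)
      (Rl_mono e (le_max_right a c) hc)⟩
  | mul x y _ _ hx hy =>
    obtain ⟨a, ha⟩ := hx
    obtain ⟨c, hc⟩ := hy
    exact ⟨a + c, Rl_mul e (by omega) ha hc⟩

end mul

section reorder

variable {k : Type u} {A : Type u} [Field k] [CommRing A] [Algebra k A] [WAlg k A]
variable {S : Type*} [Ring S] [Algebra k S] {e : A →ₗ[k] S} {res : A →ₗ[k] k} {ζ : k}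

theorem perm_mem (he : IsEV res ζ e) {l l' : List A} (h : l.Perm l') :
    (l.map e).prod - (l'.map e).prod ∈ Rl e l.length := by
  induction h with
  | nil => simp
  | cons a h ih =>
    rw [List.map_cons, List.prod_cons, List.map_cons, List.prod_cons, ← mul_sub, List.length_cons]
    exact Rl_mul e (by omega) (e_mem e a) ih
  | swap a b l =>
    rw [List.map_cons, List.map_cons, List.map_cons, List.map_cons, List.prod_cons,
      List.prod_cons, List.prod_cons, List.prod_cons, ← mul_assoc, ← mul_assoc, ← sub_mul, he,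
      List.length_cons, List.length_cons]
    refine Rl_mul e (a := 2) (c := l.length + 1) (by omega) ?_ (prod_mem e l)
    exact Submodule.add_mem _ (e_mem e _) (Rl_mono e (by omega) (algebraMap_mem e _))
  | trans h1 h2 ih1 ih2 =>
    rw [← h1.length_eq] at ih2
    have := Submodule.add_mem _ ih1 ih2
    simpa using this

/-- reordering of words -/
theorem reorder (he : IsEV res ζ e) (d : ℕ) (h : Equiv.Perm (Fin d)) (F : TA k A (Fin d)) :
    TT e d (pmap (h : Fin d → Fin d) F) - TT e d F ∈ Rl e d := by
  induction F using TA_induction with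
  | hs c x hx =>
    rw [map_smul, map_smul, map_smul, ← smul_sub]
    exact Submodule.smul_mem _ c hx
  | ha x y hx hy =>
    rw [map_add, map_add, map_add, add_sub_add_comm]
    exact Submodule.add_mem _ hx hy
  | h0 f =>
    rw [pmap_tp_equiv h f, TT_tp, TT_tp]
    have hp : (List.ofFn (f ∘ h.symm)).Perm (List.ofFn f) := Equiv.Perm.ofFn_comp_perm h.symm f
    have := perm_mem he hp
    rw [List.length_ofFn, List.map_ofFn, List.map_ofFn] at this
    exact this

/-- symmetrization of words -/
theorem reorder_sum (he : IsEV res ζ e) (d : ℕ) (F : TA k A (Fin d)) :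
    TT e d (∑ h : Equiv.Perm (Fin d), pmap (h : Fin d → Fin d) F)
      - (Nat.factorial d : k) • TT e d F ∈ Rl e d := by
  have h1 : (Nat.factorial d : k) • TT e d F = ∑ h : Equiv.Perm (Fin d), TT e d F := by
    rw [Finset.sum_const, Finset.card_univ, Fintype.card_perm, Fintype.card_fin,
      ← Nat.cast_smul_eq_nsmul k]
  rw [h1, map_sum, ← Finset.sum_sub_distrib]
  exact Submodule.sum_mem _ fun h _ => reorder he d h F

end reorder

end VBase

end MPcc24
end
end

section
set_option linter.all false

/-!
# Module VD: the algebra generated by a representation up to the cocycle is a domain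
-/

noncomputable section

open scoped TensorProduct BigOperators

namespace MPcc24

universe u

namespace VirDomM

open VBase

section

variable {k : Type u} {A : Type u} [Field k] [CharZero k] [CommRing A] [Algebra k A] [WAlg k A]
variable {S : Type*} [Ring S] [Algebra k S] {e : A →ₗ[k] S} {res : A →ₗ[k] k} {ζ : k}

theorem pmap_sum_perm {d : ℕ} (h : Equiv.Perm (Fin d)) (F : TA k A (Fin d)) :
    pmap (h : Fin d → Fin d) (∑ g : Equiv.Perm (Fin d), pmap (g : Fin d → Fin d) F) =
      ∑ g : Equiv.Perm (Fin d), pmap (g : Fin d → Fin d) F := by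
  rw [map_sum]
  simp only [pmap_comp]
  exact Fintype.sum_equiv (Equiv.mulLeft h) _ _ (fun g => rfl)

theorem normal_form (he : IsEV res ζ e) {x : S} (hx : x ∈ Algebra.adjoin k (Set.range e))
    (hx0 : x ≠ 0) : ∃ (d : ℕ) (F : TA k A (Fin d)), F ≠ 0 ∧
      (∀ h : Equiv.Perm (Fin d), pmap (h : Fin d → Fin d) F = F) ∧ x - TT e d F ∈ Rl e d := by
  classical
  have hex := adjoin_mem e hx
  have hn := Nat.find_spec hex
  have hmin : ∀ m < Nat.find hex, x ∉ Rl e m := fun m hm => Nat.find_min hex hm
  rcases hd : Nat.find hex with _ | d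
  · rw [hd, Rl_zero, Submodule.mem_bot] at hn
    exact absurd hn hx0
  rw [hd] at hn hmin
  obtain ⟨F0, hF0⟩ := (mem_Rl e).1 hn
  rw [Finset.sum_range_succ] at hF0
  have hlow : ∑ j ∈ Finset.range d, TT e j (F0 j) ∈ Rl e d := (mem_Rl e).2 ⟨F0, rfl⟩
  have hfac : (Nat.factorial d : k) ≠ 0 := Nat.cast_ne_zero.2 (Nat.factorial_ne_zero d)
  set G : TA k A (Fin d) := ∑ h : Equiv.Perm (Fin d), pmap (h : Fin d → Fin d) (F0 d) with hG
  have h1 : TT e d G - (Nat.factorial d : k) • TT e d (F0 d) ∈ Rl e d := reorder_sum he d (F0 d)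
  have h2 : TT e d ((Nat.factorial d : k)⁻¹ • G) - TT e d (F0 d) ∈ Rl e d := by
    have := Submodule.smul_mem _ (Nat.factorial d : k)⁻¹ h1
    rwa [smul_sub, smul_smul, inv_mul_cancel₀ hfac, one_smul, ← map_smul] at this
  refine ⟨d, (Nat.factorial d : k)⁻¹ • G, ?_, ?_, ?_⟩
  · intro h0
    rw [h0, map_zero, zero_sub] at h2
    have h3 : TT e d (F0 d) ∈ Rl e d := by simpa using Submodule.neg_mem _ h2
    apply hmin d (Nat.lt_succ_self d)
    rw [← hF0]
    exact Submodule.add_mem _ hlow h3
  · intro h
    rw [map_smul, hG, pmap_sum_perm]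
  · rw [← hF0]
    have : ∑ j ∈ Finset.range d, TT e j (F0 j) + TT e d (F0 d)
        - TT e d ((Nat.factorial d : k)⁻¹ • G) =
        ∑ j ∈ Finset.range d, TT e j (F0 j)
          - (TT e d ((Nat.factorial d : k)⁻¹ • G) - TT e d (F0 d)) := by abel
    rw [this]
    exact Submodule.sub_mem _ hlow h2

end

end VirDomM

open VBase VirDomM in
theorem specVirDom (hB : SpecVirClaim.{u}) (hC : SpecSymDom.{u}) : SpecVirDom.{u} := by
  classical
  intro k A S _ _ _ _ _ _ _ _ hdom res hres ζ hζ e he x hx y hy hxy
  by_contra hcon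
  rw [not_or] at hcon
  obtain ⟨a, F, hF, hFs, hxF⟩ := normal_form he hx hcon.1
  obtain ⟨c, G, hG, hGs, hyG⟩ := normal_form he hy hcon.2
  have h1 : TT e (a + c) (tcat a c F G) ∈ Rl e (a + c) := by
    have h2 : TT e (a + c) (tcat a c F G) =
        - ((x - TT e a F) * (y - TT e c G) + (x - TT e a F) * TT e c G
          + TT e a F * (y - TT e c G)) := by
      rw [TT_mul]
      have : x * y = 0 := hxy
      have h3 : (x - TT e a F) * (y - TT e c G) + (x - TT e a F) * TT e c G
          + TT e a F * (y - TT e c G) = x * y - TT e a F * TT e c G := by noncomm_ring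
      rw [h3, this, zero_sub, neg_neg]
    rw [h2]
    refine Submodule.neg_mem _ (Submodule.add_mem _ (Submodule.add_mem _ ?_ ?_) ?_)
    · exact Rl_mul e (by omega) hxF hyG
    · exact Rl_mul e (a := a) (c := c + 1) (by omega) hxF (TT_mem e (Nat.lt_succ_self c) G)
    · exact Rl_mul e (a := a + 1) (c := c) (by omega) (TT_mem e (Nat.lt_succ_self a) F) hyG
  obtain ⟨Z, hZ⟩ := (mem_Rl e).1 h1
  let H : ∀ j : ℕ, TA k A (Fin j) := Function.update Z (a + c) (-(tcat a c F G))
  have hH : ∑ j ∈ Finset.range (a + c + 1), TT e j (H j) = 0 := by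
    rw [Finset.sum_range_succ]
    have h3 : ∑ j ∈ Finset.range (a + c), TT e j (H j) = ∑ j ∈ Finset.range (a + c), TT e j (Z j) := by
      refine Finset.sum_congr rfl fun j hj => ?_
      have : j ≠ a + c := (Finset.mem_range.1 hj).ne
      simp only [H]
      rw [Function.update_of_ne this]
    rw [h3, hZ]
    simp only [H]
    rw [Function.update_self, map_neg, add_neg_cancel]
  haveI : Nontrivial S := ⟨⟨x, 0, hcon.1⟩⟩
  have h4 := hB k A S hdom res hres ζ hζ e he (a + c) H hH
  simp only [H] at h4
  rw [Function.update_self] at h4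
  simp only [map_neg, Finset.sum_neg_distrib, neg_eq_zero] at h4
  exact hC k A a c F G hF hG hFs hGs h4

end MPcc24
end
end
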