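import Pool.Agent.Lib.MP_cc24ba_al.WrapDom
import Pool.Agent.Lib.MP_cc24ba_al.Spec
import Pool.Agent.Lib.MP_cc24ba_al.HConstr
import Pool.Agent.Lib.MP_cc24ba_al.Trace
import Pool.Agent.Lib.MP_cc24ba_al.Domain
import Pool.Agent.Lib.MP_cc24ba_al.Tr
import Pool.Agent.Lib.MP_cc24ba_al.UDom
import Pool.Agent.Lib.MP_cc24ba_al.VPrime

section
set_option linter.all false

/-!
# From the main theorem to the Lie algebras of derivations and to simple modules
-/

noncomputable section

open scoped TensorProduct BigOperators

namespace MPcc24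

universe u v w

section Der

variable (k A : Type u) [Field k] [CommRing A] [Algebra k A] [WAlg k A]

/-- the Witt type Lie algebra maps to the derivations -/
def toDer : WLie k A →ₗ⁅k⁆ Derivation k A A where
  toFun f := (show A from f) • (dd k : Derivation k A A)
  map_add' f g := add_smul (show A from f) (show A from g) (dd k : Derivation k A A)
  map_smul' c f := smul_assoc c (show A from f) (dd k : Derivation k A A)
  map_lie' {f g} := by
    ext a
    rw [WLie.bracket_def, Derivation.commutator_apply]
    simp only [Derivation.smul_apply, wbr, smul_eq_mul, Derivation.leibniz]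
    ring

theorem toDer_apply (f : A) (a : A) :
    toDer k A (show WLie k A from f) a = f * dd k a := rfl

theorem toDer_bijective : Function.Bijective (toDer k A) := by
  constructor
  · intro f g hfg
    have h := congrArg (fun d : Derivation k A A => d (XX k A)) hfg
    change (show A from f) * dd k (XX k A) = (show A from g) * dd k (XX k A) at h
    have hX : dd k (XX k A) = 1 := WAlg.DX
    rw [hX, mul_one, mul_one] at h
    exact h
  · intro d
    refine ⟨(show WLie k A from d (XX k A)), ?_⟩
    let B : Submodule k A := LinearMap.ker (d.toLinearMap -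
      ((d (XX k A)) • (dd k : Derivation k A A)).toLinearMap)
    have hB : ∀ a, a ∈ B ↔ d a = d (XX k A) * dd k a := by
      intro a
      rw [LinearMap.mem_ker, LinearMap.sub_apply, sub_eq_zero]
      rfl
    have hX : dd k (XX k A) = 1 := WAlg.DX
    have htop : B = ⊤ := by
      refine WAlg.ind B ?_ ?_ ?_
      · rw [hB, Derivation.map_one_eq_zero, Derivation.map_one_eq_zero, mul_zero]
      · intro f hf
        rw [hB] at hf ⊢
        change d (XX k A * f) = d (XX k A) * dd k (XX k A * f)
        rw [Derivation.leibniz, Derivation.leibniz, hf, hX]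
        simp only [smul_eq_mul]
        ring
      · intro hu f hf
        rw [hB] at hf ⊢
        change d (XX k A * f) = d (XX k A) * dd k (XX k A * f) at hf
        rw [Derivation.leibniz, Derivation.leibniz, hX] at hf
        simp only [smul_eq_mul] at hf
        have h2 : XX k A * d f = XX k A * (d (XX k A) * dd k f) := by
          linear_combination hf
        exact hu.mul_left_cancel h2
    apply Derivation.ext
    intro a
    have ha : a ∈ B := by rw [htop]; trivial
    rw [hB] at ha
    rw [toDer_apply, ha]

/-- the Witt type Lie algebra is the Lie algebra of derivations of the coordinate algebra -/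
def derEquiv : WLie k A ≃ₗ⁅k⁆ Derivation k A A :=
  LieEquiv.ofBijective (toDer k A) (toDer_bijective k A)

end Der

section UEA

variable {k : Type u} [CommRing k] {L : Type v} {L' : Type w} [LieRing L] [LieAlgebra k L]
  [LieRing L'] [LieAlgebra k L']

/-- functoriality of the enveloping algebra -/
def ueaMap (e : L →ₗ⁅k⁆ L') : UniversalEnvelopingAlgebra k L →ₐ[k] UniversalEnvelopingAlgebra k L' :=
  letI : LieRing (UniversalEnvelopingAlgebra k L') := LieRing.ofAssociativeRing
  letI : LieAlgebra k (UniversalEnvelopingAlgebra k L') := LieAlgebra.ofAssociativeAlgebra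
  UniversalEnvelopingAlgebra.lift k ((UniversalEnvelopingAlgebra.ι k).comp e)

theorem ueaMap_ι (e : L →ₗ⁅k⁆ L') (x : L) :
    ueaMap e (UniversalEnvelopingAlgebra.ι k x) = UniversalEnvelopingAlgebra.ι k (e x) := by
  letI : LieRing (UniversalEnvelopingAlgebra k L') := LieRing.ofAssociativeRing
  letI : LieAlgebra k (UniversalEnvelopingAlgebra k L') := LieAlgebra.ofAssociativeAlgebra
  exact UniversalEnvelopingAlgebra.lift_ι_apply k ((UniversalEnvelopingAlgebra.ι k).comp e) x

theorem uea_hom_ext {S : Type*} [Ring S] [Algebra k S]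
    {φ ψ : UniversalEnvelopingAlgebra k L →ₐ[k] S}
    (h : ∀ x : L, φ (UniversalEnvelopingAlgebra.ι k x) = ψ (UniversalEnvelopingAlgebra.ι k x)) :
    φ = ψ := by
  letI : LieRing S := LieRing.ofAssociativeRing
  letI : LieAlgebra k S := LieAlgebra.ofAssociativeAlgebra
  apply UniversalEnvelopingAlgebra.hom_ext
  exact LieHom.ext h

/-- isomorphic Lie algebras have isomorphic enveloping algebras -/
def ueaEquiv (e : L ≃ₗ⁅k⁆ L') :
    UniversalEnvelopingAlgebra k L ≃ₐ[k] UniversalEnvelopingAlgebra k L' :=
  AlgEquiv.ofAlgHom (ueaMap (e : L →ₗ⁅k⁆ L')) (ueaMap (e.symm : L' →ₗ⁅k⁆ L))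
    (uea_hom_ext fun x => by
      rw [AlgHom.comp_apply, ueaMap_ι, ueaMap_ι]
      simp)
    (uea_hom_ext fun x => by
      rw [AlgHom.comp_apply, ueaMap_ι, ueaMap_ι]
      simp)

end UEA

section Prime

/-- every prime ideal of the ring is completely prime -/
def AllCP (R : Type*) [Ring R] : Prop :=
  ∀ P : TwoSidedIdeal R, PrimeT P → ∀ x y, x * y ∈ P → x ∈ P ∨ y ∈ P

theorem AllCP.of_equiv {R : Type*} {R' : Type*} [Ring R] [Ring R'] (e : R ≃+* R') (h : AllCP R) :
    AllCP R' := by
  intro P hP x y hxy
  have hmem : ∀ a, a ∈ P.comap e ↔ e a ∈ P := fun a => by rw [TwoSidedIdeal.mem_comap]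
  have h1 : PrimeT (P.comap e) := by
    refine ⟨?_, fun a b hab => ?_⟩
    · rw [hmem, map_one]; exact hP.1
    · rw [hmem, hmem]
      apply hP.2
      intro r
      have := hab (e.symm r)
      rwa [hmem, map_mul, map_mul, e.apply_symm_apply] at this
  have h2 := h (P.comap e) h1 (e.symm x) (e.symm y)
  rw [hmem, hmem, hmem, map_mul, e.apply_symm_apply, e.apply_symm_apply] at h2
  exact h2 hxy

/-- the annihilator of a module as a two-sided ideal -/
def annT (R : Type*) [Ring R] (M : Type*) [AddCommGroup M] [Module R M] : TwoSidedIdeal R :=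
  TwoSidedIdeal.mk' {x | ∀ m : M, x • m = 0} (fun m => zero_smul _ m)
    (fun {x y} hx hy m => by rw [add_smul, hx m, hy m, add_zero])
    (fun {x} hx m => by rw [neg_smul, hx m, neg_zero])
    (fun {x y} hy m => by rw [mul_smul, hy m, smul_zero])
    (fun {x y} hx m => by rw [mul_smul, hx])

theorem mem_annT (R : Type*) [Ring R] (M : Type*) [AddCommGroup M] [Module R M] (x : R) :
    x ∈ annT R M ↔ ∀ m : M, x • m = 0 := by
  rw [annT, TwoSidedIdeal.mem_mk']; rfl

/-- primitive ideals are prime -/
theorem primeT_annT (R : Type*) [Ring R] (M : Type*) [AddCommGroup M] [Module R M]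
    [IsSimpleModule R M] : PrimeT (annT R M) := by
  have hnt := IsSimpleModule.nontrivial R M
  refine ⟨?_, fun x y hxy => ?_⟩
  · rw [mem_annT]
    intro h
    obtain ⟨m, hm⟩ := exists_ne (0 : M)
    exact hm (by simpa using h m)
  · by_contra hcon
    push Not at hcon
    obtain ⟨hx, hy⟩ := hcon
    rw [mem_annT] at hx hy
    push Not at hx hy
    obtain ⟨m, hm⟩ := hx
    obtain ⟨m', hm'⟩ := hy
    obtain ⟨r, hr⟩ := IsSimpleModule.toSpanSingleton_surjective R hm' m
    rw [LinearMap.toSpanSingleton_apply] at hr
    apply hm
    have := (mem_annT R M _).1 (hxy r) m'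
    rwa [mul_smul, mul_smul, hr] at this

/-- the annihilator of a simple module is completely prime -/
theorem AllCP.simple {R : Type*} [Ring R] (h : AllCP R) (M : Type*) [AddCommGroup M] [Module R M]
    [IsSimpleModule R M] : (Module.annihilator R M).IsPrime := by
  have hP := primeT_annT R M
  rw [Ideal.isPrime_iff]
  have hmem : ∀ x : R, x ∈ Module.annihilator R M ↔ x ∈ annT R M := by
    intro x; rw [mem_annT, Module.mem_annihilator]
  refine ⟨?_, fun {x y} hxy => ?_⟩
  · rw [Ne, Ideal.eq_top_iff_one, hmem]; exact hP.1
  · rw [hmem] at hxy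
    rw [hmem, hmem]
    exact h _ hP x y hxy

end Prime

section Main

open Polynomial LaurentPolynomial

/-- all prime ideals of the enveloping algebra of `Der k[t]` are completely prime -/
theorem wrap_poly (h : SpecMain.{u}) (k : Type u) [Field k] [CharZero k] :
    AllCP (UniversalEnvelopingAlgebra k (Derivation k k[X] k[X])) := by
  have h1 : AllCP (UW k k[X]) := h k k[X] (isDomain_TA_poly k)
  exact h1.of_equiv (ueaEquiv (derEquiv k k[X])).toRingEquiv

/-- all prime ideals of the enveloping algebra of `Der k[t,t⁻¹]` are completely prime -/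
theorem wrap_laurent (h : SpecMain.{u}) (k : Type u) [Field k] [CharZero k] :
    AllCP (UniversalEnvelopingAlgebra k (Derivation k k[T;T⁻¹] k[T;T⁻¹])) := by
  have h1 : AllCP (UW k k[T;T⁻¹]) := h k k[T;T⁻¹] (isDomain_TA_laurent k)
  exact h1.of_equiv (ueaEquiv (derEquiv k k[T;T⁻¹])).toRingEquiv

end Main

end MPcc24
end
end

section
set_option linter.all false

/-!
# All prime ideals of the enveloping algebras of `W_{-1}` and `W` are completely prime
-/

noncomputable section

open Polynomial LaurentPolynomial

namespace MPcc24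

universe u

theorem mainThm : SpecMain.{u} :=
  specMain (specThm1 specBlockV specBlockM) specCover specLoc specDomain specHConstr specTrace
    specFine (specFinal specBlockM specDen specBeta (specTr specC0) specC0) specUDom

end MPcc24
end
end

section
set_option linter.all false

/-!
# Lie algebras with a Virasoro basis
-/

noncomputable section

open LaurentPolynomial

namespace MPcc24

universe u w

section

variable {k : Type u} [Field k]

/-- The Virasoro relations for a basis `b`: `b (some n)` is the element `e_n` and `b none` is the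
central element `z`. -/
def VirRel {L : Type w} [LieRing L] [LieAlgebra k L] (b : Module.Basis (Option ℤ) k L) : Prop :=
  (∀ m n : ℤ, ⁅b (some m), b (some n)⁆ = ((n : k) - (m : k)) • b (some (m + n)) +
    (if m + n = 0 then ((m : k) ^ 3 - (m : k)) / 12 else 0) • b none) ∧
  (∀ x : L, ⁅b none, x⁆ = 0)

/-- the standard basis of the Virasoro algebra -/
def vbasis0 (k : Type u) [Field k] : Module.Basis (Option ℤ) k (k[T;T⁻¹] × k) :=
  ((Tbasis k).prod (Module.Basis.singleton PUnit.{1} k)).reindex
    (((Equiv.subRight (1 : ℤ)).sumCongr (Equiv.refl PUnit.{1})).trans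
      (Equiv.optionEquivSumPUnit.{0, 0} ℤ).symm)

theorem vbasis0_some (n : ℤ) : vbasis0 k (some n) = ((T (n + 1), 0) : k[T;T⁻¹] × k) := by
  rw [vbasis0, Module.Basis.reindex_apply]
  simp [Tbasis_apply]

theorem vbasis0_none : vbasis0 k none = (((0, 1) : k[T;T⁻¹] × k)) := by
  rw [vbasis0, Module.Basis.reindex_apply]
  simp

/-- the standard basis of the Virasoro algebra -/
def vbasis (k : Type u) [Field k] : Module.Basis (Option ℤ) k (VLie k) := vbasis0 k

theorem vbasis_some (n : ℤ) : vbasis k (some n) = ((T (n + 1), 0) : k[T;T⁻¹] × k) :=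
  vbasis0_some n

theorem vbasis_none : vbasis k none = (((0, 1) : k[T;T⁻¹] × k)) := vbasis0_none

theorem vbasis_rel [CharZero k] : VirRel (vbasis k) := by
  constructor
  · intro m n
    refine Prod.ext ?_ ?_
    · change wbr k (vbasis k (some m)).1 (vbasis k (some n)).1 =
        ((n : k) - (m : k)) • (vbasis k (some (m + n))).1 +
        (if m + n = 0 then ((m : k) ^ 3 - (m : k)) / 12 else 0) • (vbasis k none).1
      rw [vbasis_some, vbasis_some, vbasis_some, vbasis_none]
      change wbr k (T (m + 1)) (T (n + 1)) = ((n : k) - (m : k)) • T (m + n + 1) +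
        (if m + n = 0 then ((m : k) ^ 3 - (m : k)) / 12 else 0) • (0 : k[T;T⁻¹])
      rw [wbr_T, smul_zero, add_zero, show m + 1 + (n + 1) - 1 = m + n + 1 by ring,
        show n + 1 - (m + 1) = n - m by ring, ← Int.cast_smul_eq_zsmul k, Int.cast_sub]
    · change om (lres k) (vbasis k (some m)).1 (vbasis k (some n)).1 =
        ((n : k) - (m : k)) • (vbasis k (some (m + n))).2 +
        (if m + n = 0 then ((m : k) ^ 3 - (m : k)) / 12 else 0) • (vbasis k none).2
      rw [vbasis_some, vbasis_some, vbasis_some, vbasis_none]
      change om (lres k) (T (m + 1)) (T (n + 1)) = ((n : k) - (m : k)) • (0 : k) +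
        (if m + n = 0 then ((m : k) ^ 3 - (m : k)) / 12 else 0) • (1 : k)
      rw [om_T, smul_zero, zero_add, smul_eq_mul, mul_one]
      have h2 : (m + 1 + (n + 1) = 2) = (m + n = 0) := by
        simp only [eq_iff_iff]
        constructor <;> intro h <;> omega
      simp only [h2]
      split_ifs
      · push_cast; ring
      · ring
  · intro x
    refine Prod.ext ?_ ?_
    · change wbr k (vbasis k none).1 (show k[T;T⁻¹] × k from x).1 = 0
      rw [vbasis_none]
      simp [wbr]
    · change om (lres k) (vbasis k none).1 (show k[T;T⁻¹] × k from x).1 = 0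
      rw [vbasis_none]
      simp [om]

variable [CharZero k] {L : Type w} [LieRing L] [LieAlgebra k L]

/-- a Lie algebra with a Virasoro basis is isomorphic to `VLie k` -/
def virEquiv (b : Module.Basis (Option ℤ) k L) (hb : VirRel b) : VLie k ≃ₗ⁅k⁆ L :=
  { (vbasis k).equiv b (Equiv.refl _) with
    map_lie' := by
      have hB : ∀ i, (vbasis k).equiv b (Equiv.refl _) (vbasis k i) = b i := fun i => by simp
      have key : ∀ i j, (vbasis k).equiv b (Equiv.refl _) ⁅vbasis k i, vbasis k j⁆ = ⁅b i, b j⁆ := by
        intro i j
        rcases i with _ | m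
        · rw [vbasis_rel.2, hb.2, map_zero]
        · rcases j with _ | n
          · rw [← lie_skew, vbasis_rel.2, ← lie_skew (b (some m)), hb.2, neg_zero, neg_zero,
              map_zero]
          · rw [vbasis_rel.1, hb.1, map_add, map_smul, map_smul, hB, hB]
      intro x y
      change (vbasis k).equiv b (Equiv.refl _) ⁅x, y⁆ =
        ⁅(vbasis k).equiv b (Equiv.refl _) x, (vbasis k).equiv b (Equiv.refl _) y⁆
      have hx : x ∈ Submodule.span k (Set.range (vbasis k)) := by
        rw [(vbasis k).span_eq]; trivial
      have hy : y ∈ Submodule.span k (Set.range (vbasis k)) := by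
        rw [(vbasis k).span_eq]; trivial
      induction hx using Submodule.span_induction with
      | zero => simp
      | add x x' _ _ h1 h2 => rw [add_lie, map_add, map_add, add_lie, h1, h2]
      | smul c x _ h => rw [smul_lie, map_smul, map_smul, smul_lie, h]
      | mem x hx =>
        obtain ⟨i, rfl⟩ := hx
        induction hy using Submodule.span_induction with
        | zero => simp
        | add x x' _ _ h1 h2 => rw [lie_add, map_add, map_add, lie_add, h1, h2]
        | smul c x _ h => rw [lie_smul, map_smul, map_smul, lie_smul, h]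
        | mem y hy =>
          obtain ⟨j, rfl⟩ := hy
          rw [key, hB, hB] }

theorem virAllCP (h : SpecVirPrime.{u}) (b : Module.Basis (Option ℤ) k L) (hb : VirRel b) :
    AllCP (UniversalEnvelopingAlgebra k L) := by
  have h1 : AllCP (UniversalEnvelopingAlgebra k (VLie k)) := h k
  exact h1.of_equiv (ueaEquiv (virEquiv b hb)).toRingEquiv

end

end MPcc24
end
end
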